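import Pool.Agent.H79.Eul.Main
import Pool.Agent.H79.Eul.FlowSink
import Pool.Agent.H79.Eul.GoodBack

/-!
# Parabolic germs: definitions

`Fl`: a family of maps `w + h (P / Q)(w) + o(h)` off `w = 0` and the zeros of `Q`.
`Germ`: a family of germs `u + a u^(N+1) + h β u^κ + small`, `κ = 0` or `1`.
In the variable `s = u / ε`, `h ε^κ = ε^(N+1)`, it is `s + ε^N (V s + o(1))`,
`V = a s^(N+1) + β s^κ`; in the variable `w = c / (s - s0)`, `V s0 = 0`, the vector field `V` is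
`Ph w / w^(N-1)`.
-/

set_option autoImplicit false

open Filter Topology Polynomial Metric Set

namespace Pool.Agent.H79.Par

open Pool.Agent.H44.Fatou Pool.Agent.H32.BT Pool.Agent.H79.Eul


/-- a family of maps `w + h (P / Q)(w) + o(h)`, controlled off `0` and the zeros of `Q` -/
structure Fl (T : Type) (l : Filter T) (P Q : Polynomial ℂ) where
  h : T → ℝ
  g : T → ℂ → ℂ
  att : T → ℂ → Prop
  h_pos : ∀ᶠ τ in l, 0 < h τ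
  h_lim : Tendsto h l (𝓝 0)
  lim : ∀ z : ℂ, z ≠ 0 → Q.eval z ≠ 0 →
    Tendsto (fun y : T × ℂ => (g y.1 y.2 - y.2) / (h y.1 : ℂ)) (l ×ˢ 𝓝 z)
      (𝓝 (P.eval z / Q.eval z))
  step : ∀ z : ℂ, z ≠ 0 → Q.eval z ≠ 0 → ∀ᶠ y : T × ℂ in l ×ˢ 𝓝 z,
    att y.1 (g y.1 y.2) → att y.1 y.2

/-- all points near `z` are attracted, eventually -/
def Fl.Good {T : Type} {l : Filter T} {P Q : Polynomial ℂ} (s : Fl T l P Q) (z : ℂ) : Prop :=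
  ∀ᶠ y : T × ℂ in l ×ˢ 𝓝 z, s.att y.1 y.2

/-- the vector field `a s^(N+1) + β s^κ` -/
noncomputable def Vp (N κ : ℕ) (a β : ℂ) : Polynomial ℂ := C a * X ^ (N + 1) + C β * X ^ κ

/-- the vector field in the coordinate `w = c / (s - s0)` is `Ph / X^(N-1)` -/
noncomputable def Ph (N κ : ℕ) (a β s0 c : ℂ) : Polynomial ℂ :=
  C (-c⁻¹) * reflect (N + 1) ((Vp N κ a β).comp (C c * X + C s0))

/-- a family of germs `u + a u^(N+1) + h β u^κ + small`, with its scale `ep` -/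
structure Germ (T : Type) (l : Filter T) (N κ : ℕ) (a β : ℂ) where
  h : T → ℝ
  ep : T → ℝ
  F : T → ℂ → ℂ
  att : T → ℂ → Prop
  ep_pos : ∀ᶠ τ in l, 0 < ep τ
  ep_lim : Tendsto ep l (𝓝 0)
  h_ep : ∀ᶠ τ in l, h τ * ep τ ^ κ = ep τ ^ (N + 1)
  ph : ∀ δ : ℝ, 0 < δ → ∀ᶠ y : T × ℂ in l ×ˢ 𝓝 0,
    ‖F y.1 y.2 - y.2 - (a * y.2 ^ (N + 1) + (h y.1 : ℂ) * β * y.2 ^ κ)‖ ≤
      δ * (‖y.2‖ ^ (N + 1) + h y.1 * ‖y.2‖ ^ κ)
  hol : ∀ᶠ y : T × ℂ in l ×ˢ 𝓝 0, DifferentiableAt ℂ (F y.1) y.2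
  step : ∀ᶠ y : T × ℂ in l ×ˢ 𝓝 0, att y.1 (F y.1 y.2) → att y.1 y.2
  trap : ∃ r : ℝ, 0 < r ∧ ∀ᶠ τ in l, ∀ (c : ℂ) (ρ q : ℝ), 0 < ρ → 0 ≤ q → q < 1 →
    closedBall c ρ ⊆ ball 0 r → (∀ z ∈ closedBall c ρ, F τ z ∈ ball c ρ) →
    (∀ z ∈ closedBall c ρ, ∀ w ∈ closedBall c ρ, ‖F τ z - F τ w‖ ≤ q * ‖z - w‖) →
    ∀ z ∈ closedBall c ρ, att τ z

namespace Germ

variable {T : Type} {l : Filter T} {N κ : ℕ} {a β : ℂ} (s : Germ T l N κ a β)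

/-- the rescaled map -/
noncomputable def G (τ : T) (z : ℂ) : ℂ := s.F τ (s.ep τ * z) / s.ep τ

/-- the map in the coordinate `w = c / (z - s0)` -/
noncomputable def gw (s0 c : ℂ) (τ : T) (w : ℂ) : ℂ := c / (s.G τ (s0 + c / w) - s0)

end Germ

/-- genericity of the vector field, seen from the source `s0` -/
def GenAt (N κ : ℕ) (a β s0 c : ℂ) : Prop :=
  c ≠ 0 ∧ (Vp N κ a β).eval s0 = 0 ∧ 0 < ((derivative (Vp N κ a β)).eval s0).re ∧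
    G1 (Ph N κ a β s0 c) (X ^ (N - 1)) ∧ NoConn (Ph N κ a β s0 c) (X ^ (N - 1)) 0 0 ∧
    (κ = 0 → NoConn (Ph N κ a β s0 c) (X ^ (N - 1)) (-(c / s0)) 0)

/-- local data at `0` for `P / X^(N-1)`: `Φ` is the primitive of `X^(N-1) / P` with `Φ 0 = 0` -/
structure PoleN (P : Polynomial ℂ) (N : ℕ) (ρ : ℝ) (Φ k : ℂ → ℂ) : Prop where
  hN : 1 ≤ N
  hρ : 0 < ρ
  hP : ∀ z ∈ ball (0 : ℂ) ρ, P.eval z ≠ 0
  deriv : ∀ z ∈ ball (0 : ℂ) ρ, HasDerivAt Φ (z ^ (N - 1) / P.eval z) z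
  hk : ∀ z ∈ ball (0 : ℂ) ρ, Φ z = z ^ N * k z
  kcont : ContinuousAt k 0
  k0 : k 0 = 1 / (N * P.eval 0)

end Pool.Agent.H79.Par
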