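import Pool.Agent.H32.BT.Crit
import Pool.Agent.H91.Fatou.Hom
import Pool.Agent.H79.Par.Defs

set_option autoImplicit false

open Filter Topology Polynomial Metric Set

namespace Pool.Agent.H79.Par

open Pool.Agent.H44.Fatou Pool.Agent.H32.BT Pool.Agent.H79.Eul


/-
PROOF. Homogeneous iterates: polynomials R_j, S_j with R_0 = X, S_0 = 1,
R_(j+1) = sum_i P.coeff i R_j^i S_j^(e-i), S_(j+1) = sum_i Q.coeff i R_j^i S_j^(e-i), e = dg P Q. Then
(R_j(z), S_j(z)) ≠ (0, 0) and f^[j] z = pt (R_j z) (S_j z) for z : ℂ (hom, rat_pt, hom_ne in H91/Fatou/Hom.lean;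
z = pt z 1). f^[n] z = z implies R_n z = z S_n z (pt_eq). If the polynomial R_n - X S_n is not 0 the set of such z is
finite. If it is 0 then f^[n] z = z for all finite z (S_n z ≠ 0, otherwise both vanish), and by continuity (or density of
ℂ in OnePoint ℂ) for all points, so f is injective (n > 0), contradicting exists_crit (H32/BT/Crit.lean).
-/

/-- homogeneous iterates -/
noncomputable def perRS (P Q : Polynomial ℂ) : ℕ → Polynomial ℂ × Polynomial ℂ
  | 0 => (X, 1)
  | j + 1 =>
    (∑ i ∈ Finset.range (dg P Q + 1),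
        C (P.coeff i) * (perRS P Q j).1 ^ i * (perRS P Q j).2 ^ (dg P Q - i),
      ∑ i ∈ Finset.range (dg P Q + 1),
        C (Q.coeff i) * (perRS P Q j).1 ^ i * (perRS P Q j).2 ^ (dg P Q - i))

theorem perRS_spec {P Q : Polynomial ℂ} (h : IsCoprime P Q) (z : ℂ) (j : ℕ) :
    ((perRS P Q j).1.eval z ≠ 0 ∨ (perRS P Q j).2.eval z ≠ 0) ∧
      (rat P Q)^[j] (z : OnePoint ℂ) = pt ((perRS P Q j).1.eval z) ((perRS P Q j).2.eval z) := by
  induction j with
  | zero =>
    refine ⟨Or.inr ?_, ?_⟩
    · show (1 : Polynomial ℂ).eval z ≠ 0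
      simp
    · show (z : OnePoint ℂ) = pt ((X : Polynomial ℂ).eval z) ((1 : Polynomial ℂ).eval z)
      unfold pt
      simp
  | succ j ih =>
    obtain ⟨h1, h2⟩ := ih
    have e1 : (perRS P Q (j + 1)).1.eval z = Pool.Agent.H91.Fatou.hom (dg P Q) P
        ((perRS P Q j).1.eval z) ((perRS P Q j).2.eval z) := by
      show (∑ i ∈ Finset.range (dg P Q + 1),
        C (P.coeff i) * (perRS P Q j).1 ^ i * (perRS P Q j).2 ^ (dg P Q - i)).eval z = _
      rw [eval_finset_sum]
      unfold Pool.Agent.H91.Fatou.hom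
      refine Finset.sum_congr rfl fun i _ => ?_
      rw [eval_mul, eval_mul, eval_C, eval_pow, eval_pow]
    have e2 : (perRS P Q (j + 1)).2.eval z = Pool.Agent.H91.Fatou.hom (dg P Q) Q
        ((perRS P Q j).1.eval z) ((perRS P Q j).2.eval z) := by
      show (∑ i ∈ Finset.range (dg P Q + 1),
        C (Q.coeff i) * (perRS P Q j).1 ^ i * (perRS P Q j).2 ^ (dg P Q - i)).eval z = _
      rw [eval_finset_sum]
      unfold Pool.Agent.H91.Fatou.hom
      refine Finset.sum_congr rfl fun i _ => ?_
      rw [eval_mul, eval_mul, eval_C, eval_pow, eval_pow]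
    rw [e1, e2]
    refine ⟨Pool.Agent.H91.Fatou.hom_ne h h1, ?_⟩
    rw [Function.iterate_succ_apply', h2, Pool.Agent.H91.Fatou.rat_pt h1]

theorem per_finite {P Q : Polynomial ℂ} (h : IsCoprime P Q)
    (hd : 2 ≤ max P.natDegree Q.natDegree) {n : ℕ} (hn : 0 < n) :
    {x : OnePoint ℂ | (rat P Q)^[n] x = x}.Finite := by
  set T : Polynomial ℂ := (perRS P Q n).1 - X * (perRS P Q n).2 with hT
  have hTe : ∀ z : ℂ, T.eval z = (perRS P Q n).1.eval z - z * (perRS P Q n).2.eval z := by
    intro z
    rw [hT, eval_sub, eval_mul, eval_X]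
  by_cases hT0 : T = 0
  · exfalso
    have hfix : ∀ z : ℂ, (rat P Q)^[n] (z : OnePoint ℂ) = (z : OnePoint ℂ) := by
      intro z
      obtain ⟨h1, h2⟩ := perRS_spec h z n
      have h3 := hTe z
      rw [hT0, eval_zero] at h3
      have h4 : (perRS P Q n).2.eval z ≠ 0 := by
        intro h5
        rcases h1 with h6 | h6
        · apply h6
          rw [h5, mul_zero, sub_zero] at h3
          exact h3.symm
        · exact h6 h5
      rw [h2]
      unfold pt
      rw [if_neg h4]
      congr 1
      rw [div_eq_iff h4]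
      linear_combination -h3
    have hid : (rat P Q)^[n] = id := by
      apply Continuous.ext_on (OnePoint.denseRange_coe (X := ℂ)) ((rat_continuous h).iterate n)
        continuous_id
      rintro _ ⟨z, rfl⟩
      exact hfix z
    obtain ⟨c, hc⟩ := exists_crit h hd
    apply hc
    refine ⟨Set.univ, Filter.univ_mem, ?_⟩
    intro x _ y _ hxy
    have h1 : ∀ w, (rat P Q)^[n - 1] (rat P Q w) = w := by
      intro w
      rw [← Function.iterate_succ_apply, Nat.succ_eq_add_one, Nat.sub_add_cancel hn, hid]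
      rfl
    rw [← h1 x, ← h1 y, hxy]
  · have hsub : {x : OnePoint ℂ | (rat P Q)^[n] x = x} ⊆
        {OnePoint.infty} ∪ ((↑) : ℂ → OnePoint ℂ) '' {z | T.IsRoot z} := by
      intro x hx
      induction x using OnePoint.rec with
      | infty => left; rfl
      | coe z =>
        right
        refine ⟨z, ?_, rfl⟩
        have hx' : (rat P Q)^[n] (z : OnePoint ℂ) = (z : OnePoint ℂ) := hx
        obtain ⟨h1, h2⟩ := perRS_spec h z n
        rw [h2] at hx'
        have h3 : (z : OnePoint ℂ) = pt z 1 := by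
          unfold pt
          rw [if_neg one_ne_zero, div_one]
        rw [h3] at hx'
        have h4 := pt_eq hx'
        show T.eval z = 0
        rw [hTe]
        linear_combination h4
    exact ((Set.finite_singleton _).union
      ((Polynomial.finite_setOfPred_isRoot hT0).image _)).subset hsub

theorem per_all_countable {P Q : Polynomial ℂ} (h : IsCoprime P Q)
    (hd : 2 ≤ max P.natDegree Q.natDegree) :
    {x : OnePoint ℂ | ∃ n : ℕ, 0 < n ∧ (rat P Q)^[n] x = x}.Countable := by
  have h1 : {x : OnePoint ℂ | ∃ n : ℕ, 0 < n ∧ (rat P Q)^[n] x = x} ⊆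
      ⋃ n : ℕ, {x : OnePoint ℂ | (rat P Q)^[n + 1] x = x} := by
    rintro x ⟨n, hn, hx⟩
    rw [Set.mem_iUnion]
    refine ⟨n - 1, ?_⟩
    show (rat P Q)^[n - 1 + 1] x = x
    rw [Nat.sub_add_cancel hn]
    exact hx
  exact (Set.countable_iUnion fun n => (per_finite h hd (Nat.succ_pos n)).countable).mono h1

/-- the points whose orbit passes through a given point -/
theorem pre_countable {P Q : Polynomial ℂ} (h : IsCoprime P Q)
    (hd : 1 ≤ max P.natDegree Q.natDegree) (y : OnePoint ℂ) :
    {x : OnePoint ℂ | ∃ j : ℕ, (rat P Q)^[j] x = y}.Countable := by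
  have hfin : ∀ j : ℕ, {x : OnePoint ℂ | (rat P Q)^[j] x = y}.Finite := by
    intro j
    induction j with
    | zero =>
      refine (Set.finite_singleton y).subset ?_
      intro x hx
      exact hx
    | succ j ih =>
      have h1 : {x : OnePoint ℂ | (rat P Q)^[j + 1] x = y} =
          (rat P Q) ⁻¹' {x : OnePoint ℂ | (rat P Q)^[j] x = y} := by
        ext x
        rfl
      rw [h1]
      exact ih.preimage' fun b _ => rat_fiber_finite h hd b
  have h1 : {x : OnePoint ℂ | ∃ j : ℕ, (rat P Q)^[j] x = y} ⊆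
      ⋃ j : ℕ, {x : OnePoint ℂ | (rat P Q)^[j] x = y} := by
    rintro x ⟨j, hx⟩
    rw [Set.mem_iUnion]
    exact ⟨j, hx⟩
  exact (Set.countable_iUnion fun j => (hfin j).countable).mono h1

end Pool.Agent.H79.Par
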