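import Pool.Agent.H79.Eul.Main
import Pool.Agent.H32.BT.TrapSink

/-!
# Perturbations in direction `v` and first order expansions: definitions

`v0` is the coefficient vector of the map `g = ev v0.1 / ev v0.2`, `τ = (v, h)` a direction and a
(real) size, `pv v0 τ = v0 + h v`. `it v n z` is the `n`-th iterate in the finite chart, `trD v n z`
its derivative. `XX v0 v n z` is the derivative of `it (v0 + h v) n z` at `h = 0`:
`XX_(n+1) z = ξ (g^n z) + g' (g^n z) XX_n z`, `ξ = (A b0 - a0 B) / b0^2`.
-/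

set_option autoImplicit false

open Filter Topology Polynomial Metric Set

namespace Pool.Agent.H79.Par

open Pool.Agent.H44.Fatou Pool.Agent.H32.BT Pool.Agent.H79.Eul


/-- the perturbed coefficient vector -/
noncomputable def pv {d : ℕ} (v0 : E d) (τ : E d × ℝ) : E d := v0 + τ.2 • τ.1

/-- the rational map with coefficient vectors `v`, on the sphere -/
noncomputable def Rf {d : ℕ} (v : E d) : OnePoint ℂ → OnePoint ℂ := rat (pol v.1) (pol v.2)

/-- `v` gives a hyperbolic rational map of degree exactly `d` -/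
def HypDeg {d : ℕ} (v : E d) : Prop :=
  IsCoprime (pol v.1) (pol v.2) ∧ max (pol v.1).natDegree (pol v.2).natDegree = d ∧ HypMap (Rf v)

/-- the derivative of the map in the direction `v` -/
noncomputable def xi {d : ℕ} (v0 v : E d) (z : ℂ) : ℂ :=
  (ev v.1 z * ev v0.2 z - ev v0.1 z * ev v.2 z) / ev v0.2 z ^ 2

/-- the derivative of the `n`-th iterate in the direction `v` -/
noncomputable def XX {d : ℕ} (v0 v : E d) : ℕ → ℂ → ℂ
  | 0, _ => 0
  | n + 1, z => xi v0 v (it v0 n z) +
      wv v0 (it v0 n z) / ev v0.2 (it v0 n z) ^ 2 * XX v0 v n z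

/-- `x 0, ..., x n` is a finite orbit of the map -/
def Orb {d : ℕ} (v0 : E d) (x : ℕ → ℂ) (n : ℕ) : Prop :=
  ∀ j < n, ev v0.2 (x j) ≠ 0 ∧ ev v0.1 (x j) / ev v0.2 (x j) = x (j + 1)

end Pool.Agent.H79.Par
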