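import Pool.Agent.H79.Par.TanDef

/-!
# Definitions for the general theorem (critical points in the Julia set)
-/

set_option autoImplicit false

open Filter Topology Polynomial Metric Set

namespace Pool.Agent.H79.Par

open Pool.Agent.H44.Fatou Pool.Agent.H32.BT Pool.Agent.H79.Eul


/-- `z` is attracted, without landing on a parabolic point, by an attracting or parabolic cycle, and
both orbits stay in the plane -/
def Basin {d : ℕ} (v0 : E d) (z : ℂ) : Prop :=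
  ∃ (z' : ℂ) (n : ℕ), Ty12 (Rf v0) (z : OnePoint ℂ) (z' : OnePoint ℂ) n ∧
    (∀ j, (Rf v0)^[j] (z : OnePoint ℂ) ≠ OnePoint.infty) ∧
    ∀ j, (Rf v0)^[j] (z' : OnePoint ℂ) ≠ OnePoint.infty

/-- in the direction `v` all points of the basins are attracted by sinks of the nearby maps -/
def RobDir {d : ℕ} (v0 v : E d) : Prop :=
  ∀ z : ℂ, Basin v0 z → ∀ᶠ w : (E d × ℝ) × ℂ in flt v ×ˢ 𝓝 z,
    Att (Rf (pv v0 w.1)) (w.2 : OnePoint ℂ)

/-- a non repelling cycle -/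
def NonRep {d : ℕ} (v0 : E d) : Prop :=
  ∃ (y : ℕ → ℂ) (m : ℕ), 0 < m ∧ Orb v0 y m ∧ y m = y 0 ∧ ‖trD v0 m (y 0)‖ ≤ 1

open MeasureTheory in
/-- up to measure `ε` in the unit ball of directions, the critical points near `c` are attracted,
at all small scales -/
def CGood {d : ℕ} (v0 : E d) (c : ℂ) : Prop :=
  ∀ ε : ENNReal, 0 < ε → ∃ δ : ℝ, 0 < δ ∧ ∀ᶠ r in 𝓝[>] (0 : ℝ),
    volume (ball (0 : E d) 1 ∩ {v | ¬ ∀ z ∈ ball c δ, wv (pv v0 (v, r)) z = 0 →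
      Att (Rf (pv v0 (v, r))) (z : OnePoint ℂ)}) ≤ ε

open MeasureTheory in
/-- along the sequence `r` the critical points near `c` are attracted, for almost every direction -/
def SeqGood {d : ℕ} (v0 : E d) (c : ℂ) (r : ℕ → ℝ) : Prop :=
  volume {v : E d | ¬ ∀ᶠ w : (ℕ × E d) × ℂ in (atTop ×ˢ 𝓝 v) ×ˢ 𝓝 c,
    wv (pv v0 (w.1.2, r w.1.1)) w.2 = 0 →
      Att (Rf (pv v0 (w.1.2, r w.1.1))) (w.2 : OnePoint ℂ)} = 0

/-- every sequence of scales has a good subsequence -/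
def SubGood {d : ℕ} (v0 : E d) (c : ℂ) : Prop :=
  ∀ r : ℕ → ℝ, (∀ j, 0 < r j) → Tendsto r atTop (𝓝 0) →
    ∃ σ : ℕ → ℕ, StrictMono σ ∧ SeqGood v0 c (r ∘ σ)

/-- a good chart: infinity is neither critical nor periodic nor on a critical orbit -/
def Chart0 {d : ℕ} (v0 : E d) : Prop :=
  IsCoprime (pol v0.1) (pol v0.2) ∧ max (pol v0.1).natDegree (pol v0.2).natDegree = d ∧
  (∀ n : ℕ, 0 < n → (Rf v0)^[n] OnePoint.infty ≠ OnePoint.infty) ∧
  ∀ c, IsCrit (Rf v0) c → ∀ j, (Rf v0)^[j] c ≠ OnePoint.infty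

end Pool.Agent.H79.Par
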