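import Pool.Agent.H79.Par.XX

/-!
# Fixed points of maps of the sphere with multiplier; attraction to parabolic cycles
-/

set_option autoImplicit false

open Filter Topology Polynomial Metric Set

namespace Pool.Agent.H79.Par

open Pool.Agent.H44.Fatou Pool.Agent.H32.BT Pool.Agent.H79.Eul


/-- the inverse of the chart `1 / z` at infinity -/
noncomputable def inv1 (w : ℂ) : OnePoint ℂ :=
  if w = 0 then OnePoint.infty else ((w⁻¹ : ℂ) : OnePoint ℂ)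

/-- `z` is a fixed point of `F` with multiplier `a` -/
def FixMult (F : OnePoint ℂ → OnePoint ℂ) (z : OnePoint ℂ) (a : ℂ) : Prop :=
  (∃ (w : ℂ) (G : ℂ → ℂ), z = (w : OnePoint ℂ) ∧ G w = w ∧ HasDerivAt G a w ∧
    ∀ᶠ u : ℂ in 𝓝 w, F (u : OnePoint ℂ) = (G u : OnePoint ℂ)) ∨
  (∃ G : ℂ → ℂ, z = OnePoint.infty ∧ G 0 = 0 ∧ HasDerivAt G a 0 ∧
    ∀ᶠ u : ℂ in 𝓝 (0 : ℂ), F (inv1 u) = inv1 (G u))

/-- type 1: the orbit of `c` is attracted by the sink `z` -/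
def Ty1 (f : OnePoint ℂ → OnePoint ℂ) (c z : OnePoint ℂ) (n : ℕ) : Prop :=
  IsSink f z n ∧ Tendsto (fun k : ℕ => f^[n * k] c) atTop (𝓝 z)

/-- type 2: the orbit of `c` is attracted by the parabolic cycle of `z`, without landing -/
def Ty2 (f : OnePoint ℂ → OnePoint ℂ) (c z : OnePoint ℂ) (n : ℕ) : Prop :=
  0 < n ∧ FixMult f^[n] z 1 ∧ Tendsto (fun k : ℕ => f^[n * k] c) atTop (𝓝 z) ∧
    ∀ k : ℕ, f^[n * k] c ≠ z

/-- type 3: the orbit of `c` lands on the repelling periodic point `z` -/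
def Ty3 (f : OnePoint ℂ → OnePoint ℂ) (c z : OnePoint ℂ) (n : ℕ) : Prop :=
  0 < n ∧ (∃ a : ℂ, 1 < ‖a‖ ∧ FixMult f^[n] z a) ∧ ∃ m : ℕ, f^[m] c = z

/-- type 4: the orbit of `c` lands on the parabolic periodic point `z` -/
def Ty4 (f : OnePoint ℂ → OnePoint ℂ) (c z : OnePoint ℂ) (n : ℕ) : Prop :=
  0 < n ∧ FixMult f^[n] z 1 ∧ ∃ m : ℕ, f^[m] c = z

/-- one of the types `1, 2` -/
def Ty12 (f : OnePoint ℂ → OnePoint ℂ) (c z : OnePoint ℂ) (n : ℕ) : Prop :=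
  Ty1 f c z n ∨ Ty2 f c z n

/-- one of the types `1, 2, 3, 4` -/
def TyA (f : OnePoint ℂ → OnePoint ℂ) (c z : OnePoint ℂ) (n : ℕ) : Prop :=
  Ty1 f c z n ∨ Ty2 f c z n ∨ Ty3 f c z n ∨ Ty4 f c z n

/-- for almost every direction and all but countably many rotations of it the points near `z0` are
attracted by sinks of the nearby maps in this direction -/
def DirGood {d : ℕ} (v0 : E d) (z0 : ℂ) : Prop :=
  ∃ N0 : Set (E d), MeasureTheory.volume N0 = 0 ∧ ∀ v : E d, v ∉ N0 →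
    ∃ bad : Set ℝ, bad.Countable ∧ ∀ φ : ℝ, φ ∉ bad →
      ∀ᶠ w : (E d × ℝ) × ℂ in flt (Complex.exp (φ * Complex.I) • v) ×ˢ 𝓝 z0,
        Att (Rf (pv v0 w.1)) (w.2 : OnePoint ℂ)

end Pool.Agent.H79.Par
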