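import Pool.Agent.H79.Par.It
import Pool.Agent.H79.Par.TanDef

set_option autoImplicit false

open Filter Topology Polynomial Metric Set

namespace Pool.Agent.H79.Par

open Pool.Agent.H44.Fatou Pool.Agent.H32.BT Pool.Agent.H79.Eul


/-
PROOFS. trD_add: trD is the product over i < j (definition in H32/BT/Trap.lean); it_add; Finset.prod_range_add (or
induction on m). XX_chain: induction on m (XX (m+1) by definition, it_add, trD (m+1) = last factor * trD m;
Finset.prod_range_succ). XX_mul: induction on m with XX_chain: it v0 (p*m) (x 0) = x 0, trD v0 (p * m) (x 0) = 1.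
trD_mul: induction on m with trD_add. per_dec: let y j = it v0 j (x 0) (all j); for j ≤ n y j = x j by orb_it, and
y n = y 0, so y (j + n) = y j. Let p be the least positive number with y p = y 0 (Nat.find); p ∣ n by
division with remainder (y (n % p) = y 0), so n = p * m, 0 < m; the points y 0, ..., y (p-1) are distinct (if y i = y j,
i < j < p, apply the map n - j... times: y (i + (m p - j)) = y (m p) = y 0 with 0 < i + (m p - j) ... its residue
mod p is i - j + p < p, positive: contradiction with minimality) and equal to x j.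
fix_trD: (Rf v0)^[n] u = it v0 n u near x 0 (rat_it, orb_near), so G u = it v0 n u near x 0 (OnePoint.coe_injective),
and derivatives are unique (orb_deriv at v0, HasDerivAt.congr_of_eventuallyEq, HasDerivAt.unique).
-/

theorem trD_add {d : ℕ} (v : E d) (m n : ℕ) (z : ℂ) :
    trD v (n + m) z = trD v m (it v n z) * trD v n z := by
  unfold trD
  rw [Finset.prod_range_add, mul_comm]
  congr 1
  refine Finset.prod_congr rfl fun i _ => ?_
  rw [Nat.add_comm n i, it_add]

theorem XX_chain {d : ℕ} (v0 v : E d) (m n : ℕ) (z : ℂ) :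
    XX v0 v (n + m) z = XX v0 v m (it v0 n z) + trD v0 m (it v0 n z) * XX v0 v n z := by
  induction m with
  | zero =>
    have h1 : XX v0 v 0 (it v0 n z) = 0 := rfl
    have h2 : trD v0 0 (it v0 n z) = 1 := by
      unfold trD
      rw [Finset.prod_range_zero]
    rw [Nat.add_zero, h1, h2, zero_add, one_mul]
  | succ m ih =>
    have h1 : XX v0 v (n + (m + 1)) z = xi v0 v (it v0 (n + m) z) +
        wv v0 (it v0 (n + m) z) / ev v0.2 (it v0 (n + m) z) ^ 2 * XX v0 v (n + m) z := rfl
    have h2 : XX v0 v (m + 1) (it v0 n z) = xi v0 v (it v0 m (it v0 n z)) +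
        wv v0 (it v0 m (it v0 n z)) / ev v0.2 (it v0 m (it v0 n z)) ^ 2 *
          XX v0 v m (it v0 n z) := rfl
    have h3 : trD v0 (m + 1) (it v0 n z) = trD v0 m (it v0 n z) *
        (wv v0 (it v0 m (it v0 n z)) / ev v0.2 (it v0 m (it v0 n z)) ^ 2) := by
      unfold trD
      rw [Finset.prod_range_succ]
    rw [h1, h2, h3, ih, Nat.add_comm n m, it_add]
    ring

theorem perDec_it {d : ℕ} {v0 : E d} {x : ℕ → ℂ} {p : ℕ} (ho : Orb v0 x p) (hx : x p = x 0)
    (m : ℕ) : it v0 (p * m) (x 0) = x 0 := by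
  induction m with
  | zero => rfl
  | succ m ih =>
    rw [Nat.mul_succ, it_add, orb_it ho p le_rfl, hx]
    exact ih

theorem XX_mul {d : ℕ} {v0 v : E d} {x : ℕ → ℂ} {p m : ℕ} (ho : Orb v0 x p) (hx : x p = x 0)
    (hmul : trD v0 p (x 0) = 1) : XX v0 v (p * m) (x 0) = m * XX v0 v p (x 0) := by
  induction m with
  | zero =>
    rw [Nat.cast_zero, zero_mul]
    rfl
  | succ m ih =>
    rw [Nat.mul_succ, XX_chain, perDec_it ho hx, hmul, ih]
    push_cast
    ring

theorem trD_mul {d : ℕ} {v0 : E d} {x : ℕ → ℂ} {p m : ℕ} (ho : Orb v0 x p) (hx : x p = x 0) :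
    trD v0 (p * m) (x 0) = trD v0 p (x 0) ^ m := by
  induction m with
  | zero =>
    rw [pow_zero]
    unfold trD
    rw [Nat.mul_zero, Finset.prod_range_zero]
  | succ m ih =>
    rw [Nat.mul_succ, trD_add, perDec_it ho hx, ih, pow_succ, mul_comm]

theorem perDec_iter {d : ℕ} (v0 : E d) (z : ℂ) (j : ℕ) :
    it v0 j z = (fun w => ev v0.1 w / ev v0.2 w)^[j] z := by
  induction j with
  | zero => rfl
  | succ j ih =>
    rw [Function.iterate_succ_apply', ← ih]
    rfl

theorem per_dec {d : ℕ} {v0 : E d} {x : ℕ → ℂ} {n : ℕ} (hn : 0 < n) (ho : Orb v0 x n)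
    (hx : x n = x 0) :
    ∃ p m : ℕ, 0 < p ∧ 0 < m ∧ n = p * m ∧ x p = x 0 ∧
      ∀ i < p, ∀ j < p, x i = x j → i = j := by
  set F : ℂ → ℂ := fun w => ev v0.1 w / ev v0.2 w with hF
  have hper : Function.IsPeriodicPt F n (x 0) := by
    show F^[n] (x 0) = x 0
    rw [← perDec_iter, orb_it ho n le_rfl, hx]
  have hp0 : 0 < Function.minimalPeriod F (x 0) := hper.minimalPeriod_pos hn
  obtain ⟨m, hm⟩ := hper.minimalPeriod_dvd
  have hpn : Function.minimalPeriod F (x 0) ≤ n := hper.minimalPeriod_le hn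
  refine ⟨Function.minimalPeriod F (x 0), m, hp0, ?_, hm, ?_, ?_⟩
  · rcases Nat.eq_zero_or_pos m with h | h
    · rw [h, Nat.mul_zero] at hm
      omega
    · exact h
  · rw [← orb_it ho _ hpn, perDec_iter]
    exact Function.iterate_minimalPeriod
  · intro i hi j hj hij
    rw [← orb_it ho i (by omega), ← orb_it ho j (by omega), perDec_iter, perDec_iter] at hij
    exact Function.iterate_injOn_Iio_minimalPeriod hi hj hij

theorem fix_trD {d : ℕ} {v0 : E d} {x : ℕ → ℂ} {n : ℕ} (ho : Orb v0 x n) {a : ℂ}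
    (h : FixMult (Rf v0)^[n] (x 0 : OnePoint ℂ) a) : x n = x 0 ∧ trD v0 n (x 0) = a := by
  rcases h with ⟨w, G, hw, hGw, hGd, hev⟩ | ⟨G, hinf, -⟩
  · have hw' : x 0 = w := OnePoint.coe_injective hw
    rw [← hw'] at hGw hGd hev
    have hnear : ∀ᶠ u : ℂ in 𝓝 (x 0), ∀ j < n, ev v0.2 (it v0 j u) ≠ 0 := by
      have hc : Tendsto (fun u : ℂ => (v0, u)) (𝓝 (x 0)) (𝓝 (v0, x 0)) :=
        (continuous_const.prodMk continuous_id).tendsto _
      exact hc.eventually (orb_near ho)
    have heq : G =ᶠ[𝓝 (x 0)] fun u => it v0 n u := by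
      filter_upwards [hev, hnear] with u h1 h2
      rw [rat_it h2] at h1
      exact (OnePoint.coe_injective h1).symm
    have h3 : G (x 0) = it v0 n (x 0) := heq.self_of_nhds
    have h4 := (orb_deriv ho).self_of_nhds
    have h5 : HasDerivAt G (trD v0 n (x 0)) (x 0) := h4.congr_of_eventuallyEq heq
    constructor
    · rw [← orb_it ho n le_rfl, ← h3, hGw]
    · exact h5.unique hGd
  · exact absurd hinf (OnePoint.coe_ne_infty _)

/-- the orbit of a finite point whose iterates are all finite -/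
theorem orb_all {d : ℕ} {v0 : E d} {z : ℂ}
    (h : ∀ j : ℕ, (Rf v0)^[j] (z : OnePoint ℂ) ≠ OnePoint.infty) :
    (∀ n, Orb v0 (fun j => it v0 j z) n) ∧
      ∀ j, (Rf v0)^[j] (z : OnePoint ℂ) = ((it v0 j z : ℂ) : OnePoint ℂ) := by
  have h1 : ∀ n, Orb v0 (fun j => it v0 j z) n := fun n => orb_of_fin fun j _ => h j
  refine ⟨h1, fun j => rat_it fun i hi => ?_⟩
  exact (h1 j i hi).1

end Pool.Agent.H79.Par
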