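import Pool.Agent.H79.Par.XX

set_option autoImplicit false

open Filter Topology Polynomial Metric Set

namespace Pool.Agent.H79.Par

open Pool.Agent.H44.Fatou Pool.Agent.H32.BT Pool.Agent.H79.Eul


/-
PROOFS. ev is linear in the coefficient vector (unfold ev; Finset.sum_add_distrib, mul_sum; real scalar
multiplication is multiplication by the cast). pv_lim: pv v0 is continuous and pv v0 (v, 0) = v0; flt v is
𝓝 v ×ˢ 𝓝[>] 0 ≤ 𝓝 (v, 0). it_add: induction on m. rat_it: it_rat (H32/BT/TrapSink) with P = pol v.1, Q = pol v.2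
and cf_pol, pol_deg (H79/Eul/Pol.lean). orb_it, orb_cont: tr_cont (H32/BT/Trap). orb_near: continuity of
(v, z) ↦ ev v.2 (it v j z) at (v0, x 0) for the finitely many j < n. orb_of_fin: by induction, if
(Rf v0)^[j] z is finite for j ≤ n then the denominators do not vanish (as mu_den, mu_next in
H32/BT/Mult.lean; Rf v0 (w : OnePoint ℂ) = ∞ if ev v0.2 w = 0, by rat_coe and pt; pol_eval).
-/

theorem pv_ev1 {d : ℕ} (v0 : E d) (τ : E d × ℝ) (z : ℂ) :
    ev (pv v0 τ).1 z = ev v0.1 z + τ.2 * ev τ.1.1 z := by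
  unfold ev pv
  rw [Finset.mul_sum, ← Finset.sum_add_distrib]
  refine Finset.sum_congr rfl fun i _ => ?_
  rw [Prod.fst_add, Prod.smul_fst, Pi.add_apply, Pi.smul_apply, Complex.real_smul]
  ring

theorem pv_ev2 {d : ℕ} (v0 : E d) (τ : E d × ℝ) (z : ℂ) :
    ev (pv v0 τ).2 z = ev v0.2 z + τ.2 * ev τ.1.2 z := by
  unfold ev pv
  rw [Finset.mul_sum, ← Finset.sum_add_distrib]
  refine Finset.sum_congr rfl fun i _ => ?_
  rw [Prod.snd_add, Prod.smul_snd, Pi.add_apply, Pi.smul_apply, Complex.real_smul]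
  ring

theorem pv_lim {d : ℕ} (v0 v : E d) : Tendsto (pv v0) (flt v) (𝓝 v0) := by
  have hc : Continuous (pv v0) := by
    unfold pv
    exact continuous_const.add (continuous_snd.smul continuous_fst)
  have h1 : Tendsto (pv v0) (𝓝 ((v, (0 : ℝ)) : E d × ℝ)) (𝓝 (pv v0 (v, 0))) := hc.tendsto _
  have h2 : pv v0 (v, (0 : ℝ)) = v0 := by
    unfold pv
    rw [zero_smul, add_zero]
  rw [h2, nhds_prod_eq] at h1
  exact h1.mono_left (Filter.prod_mono le_rfl nhdsWithin_le_nhds)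

theorem flt_pos {d : ℕ} (v : E d) : ∀ᶠ τ in flt v, 0 < τ.2 := by
  have h : ∀ᶠ t : ℝ in 𝓝[>] (0 : ℝ), 0 < t := self_mem_nhdsWithin
  exact h.prod_inr (𝓝 v)

theorem flt_lim {d : ℕ} (v : E d) : Tendsto (fun τ : E d × ℝ => τ.2) (flt v) (𝓝 0) :=
  tendsto_snd.mono_right nhdsWithin_le_nhds

/-- the map `(τ, z) ↦ (pv v0 τ, z)` -/
theorem pv_lim2 {d : ℕ} (v0 v : E d) (z : ℂ) :
    Tendsto (fun y : (E d × ℝ) × ℂ => (pv v0 y.1, y.2)) (flt v ×ˢ 𝓝 z) (𝓝 (v0, z)) := by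
  rw [nhds_prod_eq]
  exact ((pv_lim v0 v).comp tendsto_fst).prodMk tendsto_snd

theorem it_add {d : ℕ} (v : E d) (m n : ℕ) (z : ℂ) : it v (m + n) z = it v m (it v n z) := by
  induction m with
  | zero => rw [Nat.zero_add]; rfl
  | succ m ih =>
    rw [Nat.succ_add]
    show ev v.1 (it v (m + n) z) / ev v.2 (it v (m + n) z)
      = ev v.1 (it v m (it v n z)) / ev v.2 (it v m (it v n z))
    rw [ih]

theorem rat_it {d : ℕ} {v : E d} {z : ℂ} {j : ℕ} (h : ∀ i < j, ev v.2 (it v i z) ≠ 0) :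
    (Rf v)^[j] (z : OnePoint ℂ) = ((it v j z : ℂ) : OnePoint ℂ) := by
  have hv : ((cf d (pol v.1), cf d (pol v.2)) : E d) = v := by
    rw [cf_pol, cf_pol]
  have h2 := it_rat (pol_deg v.1) (pol_deg v.2) z j
  rw [hv] at h2
  exact h2 (by rwa [cf_pol])

theorem orb_it {d : ℕ} {v0 : E d} {x : ℕ → ℂ} {n : ℕ} (ho : Orb v0 x n) :
    ∀ j ≤ n, it v0 j (x 0) = x j := fun j hj =>
  (tr_cont v0 x n (fun j hj => (ho j hj).1) (fun j hj => (ho j hj).2) j hj).1

theorem orb_rat {d : ℕ} {v0 : E d} {x : ℕ → ℂ} {n : ℕ} (ho : Orb v0 x n) :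
    ∀ j ≤ n, (Rf v0)^[j] (x 0 : OnePoint ℂ) = (x j : OnePoint ℂ) := by
  intro j hj
  rw [rat_it, orb_it ho j hj]
  intro i hi
  rw [orb_it ho i (by omega)]
  exact (ho i (by omega)).1

theorem orb_near {d : ℕ} {v0 : E d} {x : ℕ → ℂ} {n : ℕ} (ho : Orb v0 x n) :
    ∀ᶠ y : E d × ℂ in 𝓝 (v0, x 0), ∀ j < n, ev y.1.2 (it y.1 j y.2) ≠ 0 := by
  have h : ∀ᶠ y : E d × ℂ in 𝓝 (v0, x 0), ∀ j ∈ Finset.range n, ev y.1.2 (it y.1 j y.2) ≠ 0 := by
    rw [Filter.eventually_all_finset]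
    intro j hj
    have hj' := Finset.mem_range.1 hj
    obtain ⟨h1, h2⟩ := tr_cont v0 x n (fun j hj => (ho j hj).1) (fun j hj => (ho j hj).2) j hj'.le
    have h5 := tr_cmp ev2_cont h2
    have h6 : ev v0.2 (it v0 j (x 0)) ≠ 0 := by
      rw [h1]
      exact (ho j hj').1
    exact h5.eventually_ne h6
  filter_upwards [h] with y hy j hj
  exact hy j (Finset.mem_range.2 hj)

theorem orb_cont {d : ℕ} {v0 : E d} {x : ℕ → ℂ} {n : ℕ} (ho : Orb v0 x n) {j : ℕ}
    (hj : j ≤ n) : ContinuousAt (fun y : E d × ℂ => it y.1 j y.2) (v0, x 0) :=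
  (tr_cont v0 x n (fun j hj => (ho j hj).1) (fun j hj => (ho j hj).2) j hj).2

theorem orb_deriv {d : ℕ} {v0 : E d} {x : ℕ → ℂ} {n : ℕ} (ho : Orb v0 x n) :
    ∀ᶠ y : E d × ℂ in 𝓝 (v0, x 0), HasDerivAt (fun z => it y.1 n z) (trD y.1 n y.2) y.2 := by
  filter_upwards [orb_near ho] with y hy
  exact tr_hasDerivAt y.1 y.2 n hy

theorem orb_of_fin {d : ℕ} {v0 : E d} {z : ℂ} {n : ℕ}
    (h : ∀ j ≤ n, (Rf v0)^[j] (z : OnePoint ℂ) ≠ OnePoint.infty) :
    Orb v0 (fun j => it v0 j z) n := by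
  have key : ∀ j ≤ n, ∀ i < j, ev v0.2 (it v0 i z) ≠ 0 := by
    intro j
    induction j with
    | zero =>
      intro _ i hi
      omega
    | succ j ih =>
      intro hj i hi
      have ih' := ih (by omega)
      rcases Nat.lt_succ_iff_lt_or_eq.1 hi with h1 | h1
      · exact ih' i h1
      · rw [h1]
        have h2 := h (j + 1) hj
        rw [Function.iterate_succ_apply', rat_it ih'] at h2
        intro h3
        apply h2
        show rat (pol v0.1) (pol v0.2) ((it v0 j z : ℂ) : OnePoint ℂ) = OnePoint.infty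
        rw [rat_coe]
        unfold pt
        rw [if_pos]
        rw [pol_eval]
        exact h3
  intro j hj
  exact ⟨key n le_rfl j hj, rfl⟩

end Pool.Agent.H79.Par
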