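import Pool.Agent.H79.Par.TanDef
import Pool.Agent.H32.RB.Chart

set_option autoImplicit false

open Filter Topology Polynomial Metric Set

namespace Pool.Agent.H79.Par

open Pool.Agent.H44.Fatou Pool.Agent.H32.BT Pool.Agent.H79.Eul


/-
PROOF of fixMult_conj. First case z = w finite, w ≠ s; put y = (w - s)⁻¹ ≠ 0, φ z = y, and
G' u = (G (s + u⁻¹) - s)⁻¹. For u near y: u ≠ 0, s + u⁻¹ is near w and ≠ s, φ (s + u⁻¹) = u, so
F' u = φ (F (s + u⁻¹)) = φ (G (s + u⁻¹)) = G' u since G (s + u⁻¹) is near w, hence ≠ s. Derivative of G' at y: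
-(w - s)^(-2) * a * (-(y^(-2))) = a. Second case z = ∞: φ ∞ = 0, G' u = G t / (1 - s * G t), t = u/(1 + s u).
For u ≠ 0 near 0: t ≠ 0, inv1 t = t⁻¹ = s + u⁻¹ and φ (inv1 t) = u; for u = 0 inv1 0 = ∞. So
F' u = φ (F (inv1 t)) = φ (inv1 (G t)), and φ (inv1 t') = t'/(1 - s t') for t' near 0 (t' = 0: φ ∞ = 0).
G' 0 = 0, derivative a (t has derivative 1 at 0).
ty_conj: iter_conj, isSink_conj (H32/BT/Top.lean), continuity of φ and φ.symm for the limits (Homeomorph), injectivity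
of φ; FixMult by fixMult_conj (applied to F = f^[n], F' = g^[n]).
-/

private theorem tc_inv1 {s : ℂ} {φ : OnePoint ℂ ≃ₜ OnePoint ℂ}
    (hφ : ∀ z : ℂ, z ≠ s → φ (z : OnePoint ℂ) = (((z - s)⁻¹ : ℂ) : OnePoint ℂ))
    (hi : φ OnePoint.infty = ((0 : ℂ) : OnePoint ℂ)) {t : ℂ} (ht : 1 - s * t ≠ 0) :
    φ (inv1 t) = ((t / (1 - s * t) : ℂ) : OnePoint ℂ) := by
  unfold inv1
  by_cases h0 : t = 0
  · rw [if_pos h0, hi, h0, zero_div]
  · rw [if_neg h0]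
    have h1 : t⁻¹ ≠ s := by
      intro h
      apply ht
      rw [← h, inv_mul_cancel₀ h0, sub_self]
    rw [hφ _ h1]
    congr 1
    have h2 : t⁻¹ - s = (1 - s * t) / t := by
      field_simp
    rw [h2, inv_div]

private theorem tc_tend {φ : OnePoint ℂ ≃ₜ OnePoint ℂ} {f g : OnePoint ℂ → OnePoint ℂ}
    (hfg : ∀ x, g (φ x) = φ (f x)) {n : ℕ} {x z : OnePoint ℂ}
    (h : Tendsto (fun k : ℕ => f^[n * k] x) atTop (𝓝 z)) :
    Tendsto (fun k : ℕ => g^[n * k] (φ x)) atTop (𝓝 (φ z)) := by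
  have h1 : (fun k : ℕ => g^[n * k] (φ x)) = φ ∘ (fun k : ℕ => f^[n * k] x) := by
    funext k
    exact iter_conj φ hfg _ _
  rw [h1]
  exact (φ.continuous.tendsto z).comp h

theorem fixMult_conj {s : ℂ} {φ : OnePoint ℂ ≃ₜ OnePoint ℂ} (hs : φ s = OnePoint.infty)
    (hφ : ∀ z : ℂ, z ≠ s → φ (z : OnePoint ℂ) = (((z - s)⁻¹ : ℂ) : OnePoint ℂ))
    (hi : φ OnePoint.infty = ((0 : ℂ) : OnePoint ℂ)) {F F' : OnePoint ℂ → OnePoint ℂ}
    (h : ∀ x, F' (φ x) = φ (F x)) {z : OnePoint ℂ} (hz : z ≠ s) {a : ℂ}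
    (hm : FixMult F z a) : FixMult F' (φ z) a := by
  rcases hm with ⟨w, G, rfl, hGw, hG, hF⟩ | ⟨G, rfl, hG0, hG, hF⟩
  · have hws : w ≠ s := fun h0 => hz (by rw [h0])
    have hws' : w - s ≠ 0 := sub_ne_zero.mpr hws
    have hy0 : (w - s)⁻¹ ≠ 0 := inv_ne_zero hws'
    have hval : s + ((w - s)⁻¹)⁻¹ = w := by rw [inv_inv]; ring
    have hin : HasDerivAt (fun u : ℂ => s + u⁻¹) (-(((w - s)⁻¹) ^ 2)⁻¹) (w - s)⁻¹ :=
      (hasDerivAt_inv hy0).const_add s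
    have htin : Tendsto (fun u : ℂ => s + u⁻¹) (𝓝 (w - s)⁻¹) (𝓝 w) := by
      have h1 := hin.continuousAt.tendsto
      rw [hval] at h1
      exact h1
    have hG' : HasDerivAt G a (s + ((w - s)⁻¹)⁻¹) := by rw [hval]; exact hG
    have hcomp : HasDerivAt (fun u : ℂ => G (s + u⁻¹)) (a * (-(((w - s)⁻¹) ^ 2)⁻¹)) (w - s)⁻¹ :=
      HasDerivAt.comp _ hG' hin
    refine Or.inl ⟨(w - s)⁻¹, fun u => (G (s + u⁻¹) - s)⁻¹, hφ w hws, ?_, ?_, ?_⟩
    · show (G (s + ((w - s)⁻¹)⁻¹) - s)⁻¹ = (w - s)⁻¹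
      rw [hval, hGw]
    · have h1 : G (s + ((w - s)⁻¹)⁻¹) - s ≠ 0 := by rw [hval, hGw]; exact hws'
      have h2 := (hcomp.sub_const s).fun_inv h1
      have h3 : -(a * (-(((w - s)⁻¹) ^ 2)⁻¹)) / (G (s + ((w - s)⁻¹)⁻¹) - s) ^ 2 = a := by
        rw [hval, hGw]
        field_simp
      rw [h3] at h2
      exact h2
    · have h1 : ∀ᶠ u : ℂ in 𝓝 (w - s)⁻¹, u ≠ 0 := isOpen_ne.mem_nhds hy0
      have h2 := htin.eventually hF
      have h3 : ∀ᶠ u : ℂ in 𝓝 (w - s)⁻¹, G (s + u⁻¹) ≠ s := by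
        have h4 := hcomp.continuousAt.tendsto
        rw [hval, hGw] at h4
        exact h4.eventually (isOpen_ne.mem_nhds hws)
      filter_upwards [h1, h2, h3] with u hu1 hu2 hu3
      have h5 : s + u⁻¹ ≠ s := by
        intro h0
        have h6 : u⁻¹ = 0 := by linear_combination h0
        exact inv_ne_zero hu1 h6
      have h7 : φ ((s + u⁻¹ : ℂ) : OnePoint ℂ) = (u : OnePoint ℂ) := by
        rw [hφ _ h5]
        congr 1
        rw [add_sub_cancel_left, inv_inv]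
      rw [← h7, h, hu2, hφ _ hu3]
  · have ht : HasDerivAt (fun u : ℂ => u / (1 + s * u)) 1 0 := by
      have h1 : HasDerivAt (fun u : ℂ => 1 + s * u) s 0 := by
        simpa using ((hasDerivAt_id (0 : ℂ)).const_mul s).const_add 1
      have h2 : (1 + s * (0 : ℂ)) ≠ 0 := by simp
      have h3 := (hasDerivAt_id (0 : ℂ)).fun_div h1 h2
      simpa using h3
    have htt : Tendsto (fun u : ℂ => u / (1 + s * u)) (𝓝 0) (𝓝 0) := by
      have h1 := ht.continuousAt.tendsto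
      simpa using h1
    have hG' : HasDerivAt G a ((fun u : ℂ => u / (1 + s * u)) 0) := by
      simpa using hG
    have hcomp : HasDerivAt (fun u : ℂ => G (u / (1 + s * u))) (a * 1) 0 :=
      HasDerivAt.comp (0 : ℂ) hG' ht
    rw [mul_one] at hcomp
    have hval : G (0 / (1 + s * 0)) = 0 := by rw [zero_div, hG0]
    refine Or.inl ⟨0, fun u => G (u / (1 + s * u)) / (1 - s * G (u / (1 + s * u))), hi, ?_, ?_, ?_⟩
    · show G (0 / (1 + s * 0)) / (1 - s * G (0 / (1 + s * 0))) = 0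
      rw [hval, zero_div]
    · have h1 : HasDerivAt (fun u : ℂ => 1 - s * G (u / (1 + s * u))) (-(s * a)) 0 :=
        (hcomp.const_mul s).const_sub 1
      have h2 : 1 - s * G (0 / (1 + s * 0)) ≠ 0 := by rw [hval]; simp
      have h3 := hcomp.fun_div h1 h2
      have h4 : (a * (1 - s * G (0 / (1 + s * 0))) - G (0 / (1 + s * 0)) * -(s * a)) /
          (1 - s * G (0 / (1 + s * 0))) ^ 2 = a := by
        rw [hval]
        simp
      rw [h4] at h3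
      exact h3
    · have h1 : ∀ᶠ u : ℂ in 𝓝 (0 : ℂ), 1 + s * u ≠ 0 := by
        have hc : ContinuousAt (fun u : ℂ => 1 + s * u) 0 := by fun_prop
        exact hc.eventually_ne (by simp)
      have h2 := htt.eventually hF
      have h3 : ∀ᶠ u : ℂ in 𝓝 (0 : ℂ), 1 - s * G (u / (1 + s * u)) ≠ 0 := by
        have hc : ContinuousAt (fun u : ℂ => 1 - s * G (u / (1 + s * u))) 0 :=
          continuousAt_const.sub (continuousAt_const.mul hcomp.continuousAt)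
        exact hc.eventually_ne (by rw [hval]; simp)
      filter_upwards [h1, h2, h3] with u hu1 hu2 hu3
      have h5 : 1 - s * (u / (1 + s * u)) ≠ 0 := by
        have h6 : 1 - s * (u / (1 + s * u)) = 1 / (1 + s * u) := by
          field_simp
          ring
        rw [h6]
        exact one_div_ne_zero hu1
      have h7 : φ (inv1 (u / (1 + s * u))) = (u : OnePoint ℂ) := by
        rw [tc_inv1 hφ hi h5]
        congr 1
        have h6 : 1 - s * (u / (1 + s * u)) = 1 / (1 + s * u) := by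
          field_simp
          ring
        rw [h6, div_div_div_cancel_right₀ hu1, div_one]
      rw [← h7, h, hu2, tc_inv1 hφ hi hu3]

theorem ty_conj {s : ℂ} {φ : OnePoint ℂ ≃ₜ OnePoint ℂ} (hs : φ s = OnePoint.infty)
    (hφ : ∀ z : ℂ, z ≠ s → φ (z : OnePoint ℂ) = (((z - s)⁻¹ : ℂ) : OnePoint ℂ))
    (hi : φ OnePoint.infty = ((0 : ℂ) : OnePoint ℂ)) {f g : OnePoint ℂ → OnePoint ℂ}
    (h : ∀ x, g (φ x) = φ (f x)) {c z : OnePoint ℂ} (hz : z ≠ s) {n : ℕ} :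
    (Ty1 f c z n → Ty1 g (φ c) (φ z) n) ∧ (Ty2 f c z n → Ty2 g (φ c) (φ z) n) ∧
    (Ty3 f c z n → Ty3 g (φ c) (φ z) n) ∧ (Ty4 f c z n → Ty4 g (φ c) (φ z) n) := by
  refine ⟨?_, ?_, ?_, ?_⟩
  · rintro ⟨h1, h2⟩
    exact ⟨(isSink_conj φ h z n).2 h1, tc_tend h h2⟩
  · rintro ⟨h1, h2, h3, h4⟩
    refine ⟨h1, fixMult_conj hs hφ hi (iter_conj φ h n) hz h2, tc_tend h h3, ?_⟩
    intro k h5
    rw [iter_conj φ h] at h5
    exact h4 k (φ.injective h5)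
  · rintro ⟨h1, ⟨a, ha, h2⟩, m, h3⟩
    exact ⟨h1, ⟨a, ha, fixMult_conj hs hφ hi (iter_conj φ h n) hz h2⟩, m, by
      rw [iter_conj φ h, h3]⟩
  · rintro ⟨h1, h2, m, h3⟩
    exact ⟨h1, fixMult_conj hs hφ hi (iter_conj φ h n) hz h2, m, by rw [iter_conj φ h, h3]⟩

theorem ty12_conj {s : ℂ} {φ : OnePoint ℂ ≃ₜ OnePoint ℂ} (hs : φ s = OnePoint.infty)
    (hφ : ∀ z : ℂ, z ≠ s → φ (z : OnePoint ℂ) = (((z - s)⁻¹ : ℂ) : OnePoint ℂ))
    (hi : φ OnePoint.infty = ((0 : ℂ) : OnePoint ℂ)) {f g : OnePoint ℂ → OnePoint ℂ}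
    (h : ∀ x, g (φ x) = φ (f x)) {c z : OnePoint ℂ} (hz : z ≠ s) {n : ℕ}
    (hT : Ty12 f c z n) : Ty12 g (φ c) (φ z) n := by
  obtain ⟨h1, h2, -, -⟩ := ty_conj hs hφ hi h (c := c) hz (n := n)
  exact hT.imp h1 h2

theorem tyA_conj {s : ℂ} {φ : OnePoint ℂ ≃ₜ OnePoint ℂ} (hs : φ s = OnePoint.infty)
    (hφ : ∀ z : ℂ, z ≠ s → φ (z : OnePoint ℂ) = (((z - s)⁻¹ : ℂ) : OnePoint ℂ))
    (hi : φ OnePoint.infty = ((0 : ℂ) : OnePoint ℂ)) {f g : OnePoint ℂ → OnePoint ℂ}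
    (h : ∀ x, g (φ x) = φ (f x)) {c z : OnePoint ℂ} (hz : z ≠ s) {n : ℕ}
    (hT : TyA f c z n) : TyA g (φ c) (φ z) n := by
  obtain ⟨h1, h2, h3, h4⟩ := ty_conj hs hφ hi h (c := c) hz (n := n)
  exact hT.imp h1 (Or.imp h2 (Or.imp h3 h4))

end Pool.Agent.H79.Par
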