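import Pool.Agent.H79.Par.KerNull
import Pool.Agent.H79.Eul.Transport

set_option autoImplicit false

open Filter Topology Polynomial Metric Set

namespace Pool.Agent.H79.Par

open Pool.Agent.H44.Fatou Pool.Agent.H32.BT Pool.Agent.H79.Eul


/-
PROOFS. Lin (H79/Eul/CjFamily.lean) is additive and ℂ-homogeneous (see the proof of lin_cont there). Injective:
sj1_cj, sj2_cj (H32/BT/Cj.lean) recover pol v.1, pol v.2 from cj1, cj2 (pol_cf with the degree bounds mob_deg1,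
mob_deg2, natDegree_reflect_le' as in Transport.lean; cf_pol). lin_pv: Lin s (v0 + h • v) = Lin s v0 + h • Lin s v.
hyp_lin: HypDeg (Lin s w) → HypDeg w: cj_back and exists_mob, hypMap_conj as in Transport.lean.
chart_null: {v | good}ᶜ ⊆ Lin s ⁻¹' {v | good for Lin s v0}ᶜ because τ ↦ (Lin s τ.1, τ.2) tends to flt (Lin s v) along
flt v (lin_cont); then null_lin.
-/

theorem lin_add (s : ℂ) {d : ℕ} (v w : E d) : Lin s (v + w) = Lin s v + Lin s w := by
  unfold Lin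
  rw [Prod.fst_add, Prod.snd_add, pol_add, pol_add, cj1_add, cj2_add]
  ext i
  · simp only [cf, coeff_add, Prod.mk_add_mk, Pi.add_apply]
  · simp only [cf, coeff_add, Prod.mk_add_mk, Pi.add_apply]

theorem lin_smul (s : ℂ) {d : ℕ} (c : ℂ) (v : E d) : Lin s (c • v) = c • Lin s v := by
  unfold Lin
  rw [Prod.smul_fst, Prod.smul_snd, pol_smul, pol_smul, cj1_smul, cj2_smul]
  ext i
  · simp only [cf, coeff_C_mul, Prod.smul_mk, Pi.smul_apply, smul_eq_mul]
  · simp only [cf, coeff_C_mul, Prod.smul_mk, Pi.smul_apply, smul_eq_mul]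

theorem chartNull_pol1 (s : ℂ) {d : ℕ} (v : E d) :
    pol (Lin s v).1 = cj1 s d (pol v.1) (pol v.2) :=
  pol_cf (natDegree_reflect_le' (mob_deg1 s (pol_deg _)))

theorem chartNull_pol2 (s : ℂ) {d : ℕ} (v : E d) :
    pol (Lin s v).2 = cj2 s d (pol v.1) (pol v.2) :=
  pol_cf (natDegree_reflect_le' (mob_deg1 s (mob_deg2 s (pol_deg _) (pol_deg _))))

theorem lin_inj (s : ℂ) {d : ℕ} : Function.Injective (Lin s : E d → E d) := by
  intro v w h
  have h1 : cj1 s d (pol v.1) (pol v.2) = cj1 s d (pol w.1) (pol w.2) := by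
    rw [← chartNull_pol1, ← chartNull_pol1, h]
  have h2 : cj2 s d (pol v.1) (pol v.2) = cj2 s d (pol w.1) (pol w.2) := by
    rw [← chartNull_pol2, ← chartNull_pol2, h]
  have h3 : pol v.2 = pol w.2 := by
    rw [← sj2_cj s d (pol v.1) (pol v.2), ← sj2_cj s d (pol w.1) (pol w.2), h1]
  have h4 : pol v.1 = pol w.1 := by
    rw [← sj1_cj s d (pol v.1) (pol v.2), ← sj1_cj s d (pol w.1) (pol w.2), h1, h2]
  refine Prod.ext ?_ ?_
  · rw [← cf_pol v.1, ← cf_pol w.1, h4]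
  · rw [← cf_pol v.2, ← cf_pol w.2, h3]

theorem lin_pv (s : ℂ) {d : ℕ} (v0 : E d) (τ : E d × ℝ) :
    Lin s (pv v0 τ) = pv (Lin s v0) (Lin s τ.1, τ.2) := by
  unfold pv
  have h : ∀ (r : ℝ) (v : E d), r • v = ((r : ℂ)) • v := by
    intro r v
    ext i <;> simp
  rw [h, h, lin_add, lin_smul]

theorem hyp_lin {s : ℂ} {d : ℕ} (hd : 1 ≤ d) {w : E d} (h : HypDeg (Lin s w)) : HypDeg w := by
  obtain ⟨h1, h2, h3⟩ := h
  unfold Rf at h3
  rw [chartNull_pol1, chartNull_pol2] at h1 h2 h3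
  obtain ⟨k1, k2⟩ := cj_back s (pol_deg _) (pol_deg _) h1 h2
  refine ⟨k1, k2, ?_⟩
  obtain ⟨φ, -, -, -, hφ⟩ := exists_mob s
  obtain ⟨-, -, h4⟩ := hφ d _ _ k1 k2 hd
  exact (hypMap_conj φ h4).1 h3

open MeasureTheory in
theorem chart_null (s : ℂ) {d : ℕ} (hd : 1 ≤ d) {v0 : E d}
    (h : volume {v : E d | ∀ᶠ τ in flt v, HypDeg (pv (Lin s v0) τ)}ᶜ = 0) :
    volume {v : E d | ∀ᶠ τ in flt v, HypDeg (pv v0 τ)}ᶜ = 0 := by
  refine measure_mono_null ?_
    (null_lin (Lin s) (lin_add s) (lin_smul s) (lin_inj s) h)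
  intro v hv
  rw [Set.mem_compl_iff, Set.mem_setOf_eq] at hv
  rw [Set.mem_preimage, Set.mem_compl_iff, Set.mem_setOf_eq]
  intro hc
  apply hv
  have hlim : Tendsto (fun τ : E d × ℝ => (Lin s τ.1, τ.2)) (flt v) (flt (Lin s v)) :=
    ((lin_cont s).tendsto _).prodMap tendsto_id
  filter_upwards [hlim.eventually hc] with τ hτ
  apply hyp_lin (s := s) hd
  rw [lin_pv]
  exact hτ

end Pool.Agent.H79.Par
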