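import Pool.Agent.H79.Par.XX
import Pool.Agent.H79.Eul.Cpt
import Pool.Agent.H79.Eul.CopDeg

set_option autoImplicit false

open Filter Topology Polynomial Metric Set

namespace Pool.Agent.H79.Par

open Pool.Agent.H44.Fatou Pool.Agent.H32.BT Pool.Agent.H79.Eul


/-
PROOF. Degree: the coefficient of X^d of pol v0.1 or of pol v0.2 is not 0 (pol_coeff: it is v0.1 (Fin.last d)
resp. v0.2 (Fin.last d)), this persists; with pol_deg the maximum of the degrees is d. Coprimality over ℂ means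
no common zero (isCoprime_iff_aeval_ne_zero_of_isAlgClosed, as in NiceGen.lean). The function
(v, z) ↦ (ev v.1 z, ev v.2 z) is continuous and not (0,0) at (v0, z); compactness of closedBall 0 R
(ev_compact with l = 𝓝 v0, H79/Eul/Cpt). Near infinity: for z ≠ 0, ev v.i z = z^d ev (rv v).i z⁻¹ (ev_rev in
H44/Fatou/Mob2.lean), and (ev (rv v0).1 0, ev (rv v0).2 0) = the coefficients of X^d is not (0,0), so by
continuity there is ε with (ev (rv v).1 y, ev (rv v).2 y) ≠ (0,0) for ‖y‖ < ε, v near v0: no common zero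
with ‖z‖ > 1/ε.
-/

namespace CopNearAux

theorem evc1 {d : ℕ} : Continuous (fun x : E d × ℂ => ev x.1.1 x.2) := by
  unfold ev
  fun_prop

theorem evc2 {d : ℕ} : Continuous (fun x : E d × ℂ => ev x.1.2 x.2) := by
  unfold ev
  fun_prop

theorem ev_zero' {d : ℕ} (p : Fin (d + 1) → ℂ) : ev p 0 = p 0 := by
  unfold ev
  rw [Fin.sum_univ_succ]
  simp

theorem last_ne {d : ℕ} {v0 : E d}
    (hdeg : max (pol v0.1).natDegree (pol v0.2).natDegree = d) (hd : 1 ≤ d) :
    v0.1 (Fin.last d) ≠ 0 ∨ v0.2 (Fin.last d) ≠ 0 := by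
  rcases max_choice (pol v0.1).natDegree (pol v0.2).natDegree with h | h
  · left
    rw [hdeg] at h
    have h1 := pol_coeff v0.1 (Fin.last d)
    rw [← h1, Fin.val_last]
    intro h2
    have h3 : (pol v0.1).leadingCoeff = 0 := by
      rw [leadingCoeff, ← h]
      exact h2
    rw [leadingCoeff_eq_zero] at h3
    rw [h3, natDegree_zero] at h
    omega
  · right
    rw [hdeg] at h
    have h1 := pol_coeff v0.2 (Fin.last d)
    rw [← h1, Fin.val_last]
    intro h2
    have h3 : (pol v0.2).leadingCoeff = 0 := by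
      rw [leadingCoeff, ← h]
      exact h2
    rw [leadingCoeff_eq_zero] at h3
    rw [h3, natDegree_zero] at h
    omega

theorem deg_of_last {d : ℕ} {v : E d} (h : v.1 (Fin.last d) ≠ 0 ∨ v.2 (Fin.last d) ≠ 0) :
    max (pol v.1).natDegree (pol v.2).natDegree = d := by
  apply le_antisymm (max_le (pol_deg v.1) (pol_deg v.2))
  rcases h with h | h
  · rw [← pol_coeff v.1 (Fin.last d), Fin.val_last] at h
    exact le_max_of_le_left (le_natDegree_of_ne_zero h)
  · rw [← pol_coeff v.2 (Fin.last d), Fin.val_last] at h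
    exact le_max_of_le_right (le_natDegree_of_ne_zero h)

/-- an open condition -/
theorem open_ne {T : Type} [TopologicalSpace T] {f g : T → ℂ} (hf : Continuous f) (hg : Continuous g)
    {t : T} (h : f t ≠ 0 ∨ g t ≠ 0) : ∀ᶠ s in 𝓝 t, f s ≠ 0 ∨ g s ≠ 0 := by
  rcases h with h | h
  · filter_upwards [hf.continuousAt.eventually_ne h] with s hs using Or.inl hs
  · filter_upwards [hg.continuousAt.eventually_ne h] with s hs using Or.inr hs

end CopNearAux

open CopNearAux in
theorem cop_near {d : ℕ} {v0 : E d} (hcop : IsCoprime (pol v0.1) (pol v0.2))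
    (hdeg : max (pol v0.1).natDegree (pol v0.2).natDegree = d) (hd : 1 ≤ d) :
    ∀ᶠ v in 𝓝 v0, IsCoprime (pol v.1) (pol v.2) ∧
      max (pol v.1).natDegree (pol v.2).natDegree = d := by
  have hl := last_ne hdeg hd
  -- degree
  have h1 : ∀ᶠ v in 𝓝 v0, v.1 (Fin.last d) ≠ 0 ∨ v.2 (Fin.last d) ≠ 0 :=
    open_ne (f := fun v : E d => v.1 (Fin.last d)) (g := fun v : E d => v.2 (Fin.last d))
      (by fun_prop) (by fun_prop) hl
  -- near infinity
  have h2 : ∀ᶠ x : E d × ℂ in 𝓝 (v0, (0 : ℂ)),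
      ev (rv x.1).1 x.2 ≠ 0 ∨ ev (rv x.1).2 x.2 ≠ 0 := by
    apply open_ne (evc1.comp (rv1_cont (d := d))) (evc2.comp (rv1_cont (d := d)))
    simp only [Function.comp]
    rw [ev_zero', ev_zero']
    simpa [rv] using hl
  rw [nhds_prod_eq] at h2
  obtain ⟨r, hr, h3⟩ := ev_ball (p := fun (v : E d) z => ev (rv v).1 z ≠ 0 ∨ ev (rv v).2 z ≠ 0) h2
  -- the compact part
  have h4 : ∀ᶠ v in 𝓝 v0, ∀ z ∈ closedBall (0 : ℂ) (2 / r), ev v.1 z ≠ 0 ∨ ev v.2 z ≠ 0 := by
    apply ev_compact (isCompact_closedBall (0 : ℂ) (2 / r))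
      (p := fun (v : E d) z => ev v.1 z ≠ 0 ∨ ev v.2 z ≠ 0)
    intro z _
    rw [← nhds_prod_eq]
    apply open_ne evc1 evc2
    rw [isCoprime_iff_aeval_ne_zero_of_isAlgClosed ℂ ℂ] at hcop
    have := hcop z
    rw [coe_aeval_eq_eval, pol_eval, pol_eval] at this
    exact this
  filter_upwards [h1, h3, h4] with v hv1 hv3 hv4
  refine ⟨?_, deg_of_last hv1⟩
  apply cop_of_roots
  intro z
  rw [pol_eval, pol_eval]
  by_cases hz : z ∈ closedBall (0 : ℂ) (2 / r)
  · exact hv4 z hz
  · rw [mem_closedBall, dist_zero_right, not_le] at hz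
    have hz0 : z ≠ 0 := by
      rintro rfl
      rw [norm_zero] at hz
      have : 0 < 2 / r := by positivity
      linarith
    have hn : 0 < ‖z‖ := norm_pos_iff.2 hz0
    have hz1 : z⁻¹ ∈ ball (0 : ℂ) r := by
      rw [mem_ball, dist_zero_right, norm_inv]
      rw [div_lt_iff₀ hr] at hz
      rw [inv_lt_comm₀ hn hr, ← one_div, div_lt_iff₀ hr]
      linarith
    have h5 := hv3 z⁻¹ hz1
    rw [ev_rev v.1 hz0, ev_rev v.2 hz0]
    rcases h5 with h5 | h5
    · left
      exact mul_ne_zero h5 (pow_ne_zero _ hz0)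
    · right
      exact mul_ne_zero h5 (pow_ne_zero _ hz0)

end Pool.Agent.H79.Par
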