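import Pool.Agent.H79.Par.SinkMult
import Pool.Agent.H79.Par.It
import Pool.Agent.H79.Par.CopNear
import Pool.Agent.H32.BT.TrapSink

set_option autoImplicit false

open Filter Topology Polynomial Metric Set

namespace Pool.Agent.H79.Par

open Pool.Agent.H44.Fatou Pool.Agent.H32.BT Pool.Agent.H79.Eul

theorem att_good {d : ℕ} {v0 : E d} (hd : 2 ≤ d) (hcop : IsCoprime (pol v0.1) (pol v0.2))
    (hdeg : max (pol v0.1).natDegree (pol v0.2).natDegree = d) {z : ℂ} {n : ℕ}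
    (hs : IsSink (Rf v0) (z : OnePoint ℂ) n)
    (hfin : ∀ j, (Rf v0)^[j] (z : OnePoint ℂ) ≠ OnePoint.infty) {y : ℕ → ℂ}
    (hy : ∀ j, Orb v0 y j)
    (hlim : Tendsto (fun j => (Rf v0)^[n * j] (y 0 : OnePoint ℂ)) atTop (𝓝 (z : OnePoint ℂ))) :
    ∀ᶠ w : E d × ℂ in 𝓝 (v0, y 0), Att (Rf w.1) (w.2 : OnePoint ℂ) := by
  obtain ⟨x, hx0, -, hQ, hstep, hxn, hmul⟩ :=
    sink_mult_fin hcop (by rw [hdeg]; exact hd) hs hfin
  have hv0 : v0 = ((cf d (pol v0.1), cf d (pol v0.2)) : E d) := by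
    rw [cf_pol, cf_pol]
  have hwv : ∀ u : ℂ, wv v0 u = (Wr (pol v0.1) (pol v0.2)).eval u := by
    intro u
    rw [← wv_cf (pol_deg v0.1) (pol_deg v0.2), ← hv0]
  obtain ⟨r, hr, -, hev⟩ := sink_of_mult v0 x n hs.1 hxn
    (fun j _ => by rw [← pol_eval]; exact hQ j)
    (fun j _ => by rw [← pol_eval, ← pol_eval]; exact hstep j)
    (by
      have h1 : ∀ j, wv v0 (x j) / ev v0.2 (x j) ^ 2 =
          (Wr (pol v0.1) (pol v0.2)).eval (x j) / ((pol v0.2).eval (x j)) ^ 2 := by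
        intro j
        rw [hwv, pol_eval]
      rw [Finset.prod_congr rfl (fun j _ => h1 j)]
      exact hmul)
    Set.univ univ_mem
  have hO : ((↑) : ℂ → OnePoint ℂ) '' ball (x 0) r ∈ 𝓝 (z : OnePoint ℂ) := by
    refine (OnePoint.isOpenMap_coe _ isOpen_ball).mem_nhds ⟨z, ?_, rfl⟩
    rw [hx0]
    exact mem_ball_self hr
  obtain ⟨j, hj⟩ := (hlim.eventually_mem hO).exists
  have hyj : y (n * j) ∈ ball (x 0) r := by
    obtain ⟨u, hu, hu2⟩ := hj
    rw [orb_rat (hy (n * j)) (n * j) le_rfl] at hu2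
    have h2 : u = y (n * j) := OnePoint.coe_injective hu2
    rwa [h2] at hu
  have hc := orb_cont (hy (n * j)) (le_refl (n * j))
  have hval : it v0 (n * j) (y 0) = y (n * j) := orb_it (hy (n * j)) (n * j) le_rfl
  have hin : ∀ᶠ w : E d × ℂ in 𝓝 (v0, y 0), it w.1 (n * j) w.2 ∈ ball (x 0) r := by
    apply hc.eventually_mem
    refine isOpen_ball.mem_nhds ?_
    show it v0 (n * j) (y 0) ∈ ball (x 0) r
    rw [hval]
    exact hyj
  have hfst : Tendsto (fun w : E d × ℂ => w.1) (𝓝 (v0, y 0)) (𝓝 v0) := continuous_fst.tendsto _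
  filter_upwards [hin, orb_near (hy (n * j)), hfst.eventually hev,
    hfst.eventually (cop_near hcop hdeg (by omega))] with w h1 h2 h3 h4
  obtain ⟨s, -, hs1, hs2⟩ := h3 (pol w.1.1) (pol w.1.2) h4.1 (pol_deg _) (pol_deg _) (by
    rw [cf_pol, cf_pol])
  have h5 := hs2 _ (ball_subset_closedBall h1)
  have h6 : Att (Rf w.1) ((Rf w.1)^[n * j] (w.2 : OnePoint ℂ)) := by
    rw [rat_it h2]
    exact ⟨s, n, hs1, h5.1⟩
  exact (att_iter (rat_continuous h4.1) _ _).1 h6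

end Pool.Agent.H79.Par
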