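import Pool.Agent.H32.BT.Mult
import Pool.Agent.H32.BT.Stable
import Pool.Agent.H32.BT.NotAtt
import Pool.Agent.H79.Par.Defs

set_option autoImplicit false

open Filter Topology Polynomial Metric Set

namespace Pool.Agent.H79.Par

open Pool.Agent.H44.Fatou Pool.Agent.H32.BT Pool.Agent.H79.Eul


theorem sink_mult_fin {P Q : Polynomial ℂ} (h : IsCoprime P Q)
    (hd : 2 ≤ max P.natDegree Q.natDegree) {z : ℂ} {n : ℕ}
    (hs : IsSink (rat P Q) (z : OnePoint ℂ) n)
    (hfin : ∀ j, (rat P Q)^[j] (z : OnePoint ℂ) ≠ OnePoint.infty) :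
    ∃ x : ℕ → ℂ, x 0 = z ∧ (∀ j, (rat P Q)^[j] (z : OnePoint ℂ) = (x j : OnePoint ℂ)) ∧
      (∀ j, Q.eval (x j) ≠ 0) ∧ (∀ j, P.eval (x j) / Q.eval (x j) = x (j + 1)) ∧ x n = x 0 ∧
      ‖∏ j ∈ Finset.range n, (Wr P Q).eval (x j) / (Q.eval (x j)) ^ 2‖ < 1 := by
  classical
  have hf := rat_continuous h
  have hzfin := hfin
  have hN1 : {w : OnePoint ℂ | ∀ j ∈ Finset.range n, (rat P Q)^[j] w ≠ OnePoint.infty} ∈
      𝓝 (z : OnePoint ℂ) := by
    have h1 : ∀ᶠ w in 𝓝 (z : OnePoint ℂ), ∀ j ∈ Finset.range n,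
        (rat P Q)^[j] w ≠ OnePoint.infty := by
      rw [Filter.eventually_all_finset]
      intro j _
      exact (hf.iterate j).continuousAt.eventually_ne (hfin j)
    exact h1
  obtain ⟨V1, hV1, hV1N⟩ := sink_stable h (by omega) (exists_not_att h hd) hs _ hN1
  obtain ⟨hn, hnz, U, hU, hUt⟩ := hs
  have hs' : IsSink (rat P Q) (z : OnePoint ℂ) n := ⟨hn, hnz, U, hU, hUt⟩
  -- the open set
  obtain ⟨V, hVU1, hVo, hzV⟩ := mem_nhds_iff.1 (inter_mem hU hV1)
  have hVU : V ⊆ U := fun w hw => (hVU1 hw).1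
  have hWo : IsOpen {w : ℂ | (w : OnePoint ℂ) ∈ V} := hVo.preimage OnePoint.continuous_coe
  have hW : ∀ w ∈ {w : ℂ | (w : OnePoint ℂ) ∈ V}, ∀ j, (rat P Q)^[j] (w : OnePoint ℂ) ≠ OnePoint.infty := by
    intro w hw j
    have h1 := hV1N _ (hVU1 hw).2 (j / n) (j % n) (Finset.mem_range.2 (Nat.mod_lt j hn))
    rw [← Function.iterate_add_apply] at h1
    have h2 : j % n + n * (j / n) = j := Nat.mod_add_div j n
    rwa [h2] at h1
  set W : Set ℂ := {w : ℂ | (w : OnePoint ℂ) ∈ V} with hWdef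
  have hzW : z ∈ W := hzV
  obtain ⟨r, hr, hrW⟩ := Metric.nhds_basis_closedBall.mem_iff.1 (hWo.mem_nhds hzW)
  have hder := mu_deriv hWo hW
  have hcont : ∀ j, ContinuousOn (fun w : ℂ => muC ((rat P Q)^[j] (w : OnePoint ℂ))) W :=
    fun j w hw => (hder j w hw).continuousAt.continuousWithinAt
  have hdiff : ∀ j, DifferentiableOn ℂ (fun w : ℂ => muC ((rat P Q)^[j] (w : OnePoint ℂ))) W :=
    fun j w hw => (hder j w hw).differentiableAt.differentiableWithinAt
  -- compactness
  have hO : ((↑) : ℂ → OnePoint ℂ) '' ball z r ∈ 𝓝 (z : OnePoint ℂ) :=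
    (OnePoint.isOpenMap_coe _ isOpen_ball).mem_nhds ⟨z, mem_ball_self hr, rfl⟩
  have hex : ∀ w : ℂ, ∃ k : ℕ, w ∈ closedBall z r → 1 ≤ k ∧
      (rat P Q)^[n * k] (w : OnePoint ℂ) ∈ ((↑) : ℂ → OnePoint ℂ) '' ball z r := by
    intro w
    by_cases hw : w ∈ closedBall z r
    · have h1 := (hUt _ (hVU (hrW hw))).eventually_mem hO
      obtain ⟨k, hk1, hk2⟩ := (h1.and (eventually_ge_atTop 1)).exists
      exact ⟨k, fun _ => ⟨hk2, hk1⟩⟩
    · exact ⟨0, fun h => absurd h hw⟩
  choose κ hκ using hex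
  obtain ⟨t, ht, htc⟩ := (isCompact_closedBall z r).elim_nhds_subcover
    (fun w => {w' : ℂ | (rat P Q)^[n * κ w] (w' : OnePoint ℂ) ∈
      ((↑) : ℂ → OnePoint ℂ) '' ball z r}) (by
      intro w hw
      have ho : IsOpen {w' : ℂ | (rat P Q)^[n * κ w] (w' : OnePoint ℂ) ∈
          ((↑) : ℂ → OnePoint ℂ) '' ball z r} :=
        (OnePoint.isOpenMap_coe _ isOpen_ball).preimage ((hf.iterate _).comp OnePoint.continuous_coe)
      exact ho.mem_nhds (hκ w hw).2)
  have hN : ∀ k, ∀ w ∈ closedBall z r, ∃ j ≤ t.sup κ, ∃ w' ∈ closedBall z r,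
      (rat P Q)^[n * k] (w : OnePoint ℂ) = (rat P Q)^[n * j] (w' : OnePoint ℂ) := by
    intro k
    induction k using Nat.strong_induction_on with
    | _ k ih =>
      intro w hw
      by_cases hk : k ≤ t.sup κ
      · exact ⟨k, hk, w, hw, rfl⟩
      · obtain ⟨w1, hw1, hw2⟩ := Set.mem_iUnion₂.1 (htc hw)
        obtain ⟨w2, hw3, hw4⟩ := hw2
        have h1 : κ w1 ≤ t.sup κ := Finset.le_sup hw1
        have h2 := (hκ w1 (ht w1 hw1)).1
        obtain ⟨j, hj, w', hw', he⟩ := ih (k - κ w1) (by omega) w2 (ball_subset_closedBall hw3)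
        refine ⟨j, hj, w', hw', ?_⟩
        rw [← he, hw4, ← Function.iterate_add_apply, ← Nat.mul_add]
        congr 2
        omega
  obtain ⟨R, hR⟩ : ∃ R : ℝ, ∀ k, ∀ w ∈ closedBall z r,
      ‖muC ((rat P Q)^[n * k] (w : OnePoint ℂ))‖ ≤ R := by
    have h1 : ∀ j, ∃ C, ∀ w ∈ closedBall z r,
        ‖muC ((rat P Q)^[n * j] (w : OnePoint ℂ))‖ ≤ C := fun j =>
      (isCompact_closedBall z r).exists_bound_of_continuousOn ((hcont (n * j)).mono hrW)
    choose C hC using h1
    refine ⟨∑ j ∈ Finset.range (t.sup κ + 1), |C j|, ?_⟩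
    intro k w hw
    obtain ⟨j, hj, w', hw', he⟩ := hN k w hw
    rw [he]
    refine (hC j w' hw').trans ((le_abs_self _).trans ?_)
    exact Finset.single_le_sum (f := fun j => |C j|) (fun i _ => abs_nonneg _)
      (Finset.mem_range.2 (by omega))
  -- pointwise convergence
  have hlim : ∀ w ∈ closedBall z r,
      Tendsto (fun k : ℕ => muC ((rat P Q)^[n * k] (w : OnePoint ℂ))) atTop (𝓝 z) := by
    intro w hw
    rw [OnePoint.isOpenEmbedding_coe.tendsto_nhds_iff]
    refine (hUt _ (hVU (hrW hw))).congr ?_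
    intro k
    exact (coe_muC (hW w (hrW hw) _)).symm
  have hint : Tendsto (fun k : ℕ => ∮ ζ in C(z, r), ((ζ - z) ^ 2)⁻¹ •
      muC ((rat P Q)^[n * k] (ζ : OnePoint ℂ))) atTop
      (𝓝 (∮ ζ in C(z, r), ((ζ - z) ^ 2)⁻¹ • z)) := by
    unfold circleIntegral
    have hin : ∀ θ, circleMap z r θ ∈ closedBall z r := fun θ =>
      circleMap_mem_closedBall z hr.le θ
    apply intervalIntegral.tendsto_integral_filter_of_dominated_convergence
      (fun _ => r * ((r ^ 2)⁻¹ * R))
    · refine Eventually.of_forall fun k => ?_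
      apply Continuous.aestronglyMeasurable
      have c1 : Continuous (fun θ => deriv (circleMap z r) θ) := by
        have : deriv (circleMap z r) = fun θ => circleMap 0 r θ * Complex.I := by
          funext θ
          exact deriv_circleMap z r θ
        rw [this]
        exact (continuous_circleMap 0 r).mul continuous_const
      have c2 : Continuous (fun θ => ((circleMap z r θ - z) ^ 2)⁻¹) := by
        refine Continuous.inv₀ (((continuous_circleMap z r).sub continuous_const).pow 2) ?_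
        intro θ
        apply pow_ne_zero
        rw [sub_ne_zero]
        exact circleMap_ne_center hr.ne'
      have c3 : Continuous (fun θ => muC ((rat P Q)^[n * k] (circleMap z r θ : OnePoint ℂ))) :=
        (hcont (n * k)).comp_continuous (continuous_circleMap z r) (fun θ => hrW (hin θ))
      exact c1.smul (c2.smul c3)
    · refine Eventually.of_forall fun k => ?_
      refine Eventually.of_forall fun θ _ => ?_
      rw [norm_smul, norm_smul, deriv_circleMap, norm_mul, Complex.norm_I, mul_one,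
        norm_circleMap_zero, abs_of_pos hr, norm_inv, norm_pow]
      have e : ‖circleMap z r θ - z‖ = r := by
        rw [circleMap_sub_center, norm_circleMap_zero, abs_of_pos hr]
      rw [e]
      gcongr
      exact hR k _ (hin θ)
    · exact intervalIntegrable_const
    · refine Eventually.of_forall fun θ _ => ?_
      exact ((hlim _ (hin θ)).const_smul _).const_smul _
  have hcauchy : ∀ k : ℕ, ((2 * Real.pi * Complex.I : ℂ)⁻¹ • ∮ ζ in C(z, r), ((ζ - z) ^ 2)⁻¹ •
      muC ((rat P Q)^[n * k] (ζ : OnePoint ℂ))) =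
      deriv (fun w : ℂ => muC ((rat P Q)^[n * k] (w : OnePoint ℂ))) z := fun k =>
    Complex.two_pi_I_inv_smul_circleIntegral_sub_sq_inv_smul_of_differentiable hWo hrW
      (hdiff (n * k)) (mem_ball_self hr)
  have hcauchy0 : ((2 * Real.pi * Complex.I : ℂ)⁻¹ • ∮ ζ in C(z, r), ((ζ - z) ^ 2)⁻¹ • z) =
      deriv (fun _ : ℂ => z) z :=
    Complex.two_pi_I_inv_smul_circleIntegral_sub_sq_inv_smul_of_differentiable hWo hrW
      (differentiableOn_const z) (mem_ball_self hr)
  have hdlim : Tendsto (fun k : ℕ =>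
      deriv (fun w : ℂ => muC ((rat P Q)^[n * k] (w : OnePoint ℂ))) z) atTop (𝓝 0) := by
    have h1 := hint.const_smul ((2 * Real.pi * Complex.I : ℂ)⁻¹)
    rw [hcauchy0, deriv_const] at h1
    exact h1.congr hcauchy
  -- the sequence
  have hx : ∀ j, (muC ((rat P Q)^[j] (z : OnePoint ℂ)) : OnePoint ℂ) =
      (rat P Q)^[j] (z : OnePoint ℂ) := fun j => coe_muC (hzfin j)
  have hstep : ∀ j, rat P Q (muC ((rat P Q)^[j] (z : OnePoint ℂ)) : OnePoint ℂ) ≠ OnePoint.infty := by
    intro j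
    rw [hx j]
    have := hzfin (j + 1)
    rwa [Function.iterate_succ_apply'] at this
  refine ⟨fun j => muC ((rat P Q)^[j] (z : OnePoint ℂ)), rfl, fun j => (hx j).symm,
    fun j => mu_den (hstep j), ?_, ?_, ?_⟩
  · intro j
    change _ = muC ((rat P Q)^[j + 1] (z : OnePoint ℂ))
    rw [Function.iterate_succ_apply', ← hx j, mu_next (hstep j)]
  · change muC ((rat P Q)^[n] (z : OnePoint ℂ)) = muC ((rat P Q)^[0] (z : OnePoint ℂ))
    rw [hnz]
    rfl
  · set M := ∏ j ∈ Finset.range n, (Wr P Q).eval (muC ((rat P Q)^[j] (z : OnePoint ℂ))) /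
      (Q.eval (muC ((rat P Q)^[j] (z : OnePoint ℂ)))) ^ 2 with hM
    have hper : ∀ k, (rat P Q)^[n * k] (z : OnePoint ℂ) = z := by
      intro k
      induction k with
      | zero => rfl
      | succ k ih => rw [Nat.mul_succ, Function.iterate_add_apply, hnz, ih]
    have hpow : ∀ k, ∏ i ∈ Finset.range (n * k),
        (Wr P Q).eval (muC ((rat P Q)^[i] (z : OnePoint ℂ))) /
        (Q.eval (muC ((rat P Q)^[i] (z : OnePoint ℂ)))) ^ 2 = M ^ k := by
      intro k
      induction k with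
      | zero => simp
      | succ k ih =>
        rw [Nat.mul_succ, Finset.prod_range_add, ih, pow_succ]
        congr 1
        rw [hM]
        apply Finset.prod_congr rfl
        intro i _
        rw [Nat.add_comm (n * k) i, Function.iterate_add_apply, hper k]
    have h1 : Tendsto (fun k : ℕ => ‖M ^ k‖) atTop (𝓝 0) := by
      have h2 := hdlim.norm
      rw [norm_zero] at h2
      refine h2.congr ?_
      intro k
      rw [(hder (n * k) z hzW).deriv, hpow k]
    by_contra hcon
    push Not at hcon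
    have h2 : (1 : ℝ) ≤ 0 := by
      refine ge_of_tendsto h1 (Eventually.of_forall fun k => ?_)
      rw [norm_pow]
      exact one_le_pow₀ hcon
    linarith

end Pool.Agent.H79.Par
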