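import Pool.Agent.H79.Par.GDefs

set_option autoImplicit false

open Filter Topology Polynomial Metric Set

namespace Pool.Agent.H79.Par

open Pool.Agent.H44.Fatou Pool.Agent.H32.BT Pool.Agent.H79.Eul


/-
PROOF of sub_c (by contradiction). Let bad r δ = {v ∈ ball 0 1 | not all critical z ∈ ball c δ are attracted}. If
CGood fails there is ε > 0 such that for every δ > 0 frequently as r → 0+ volume (bad r δ) > ε; choose
r j → 0+ with volume (bad (r j) (1/(j+1))) > ε (Filter.Frequently, choose r j < 1/(j+1)). SubGood gives σ. Put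
s = r ∘ σ, δ j = 1/(σ j + 1) → 0. For n : ℕ let O n = interior {v | ∀ j ≥ n, ∀ z ∈ ball c (δ n), wv (pv v0 (v, s j)) z = 0 →
Att ...}; almost every v is in some O n (definition of the product filters), O n increases, so
volume (ball 0 1 \ O n) → 0 (tendsto_measure_iInter_atTop, as in the proof of density in H79/Eul/Density.lean). But
bad (s n) (δ n) ⊆ ball 0 1 \ O n (ball c (δ n), n ≥ n) has volume > ε for all n. Contradiction.
seq_of_rob: an eventual statement in flt v ×ˢ 𝓝 c gives SeqGood for every sequence r j → 0+, r j > 0: the map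
(j, v') ↦ (v', r j) tends to flt v along atTop ×ˢ 𝓝 v.
-/

open MeasureTheory in
theorem sub_c {d : ℕ} {v0 : E d} {c : ℂ} (h : SubGood v0 c) : CGood v0 c := by
  classical
  intro ε hε
  by_contra hcon
  rw [not_exists] at hcon
  have h1 : ∀ j : ℕ, ∃ r : ℝ, 0 < r ∧ r < 1 / ((j : ℝ) + 1) ∧
      ε < volume (ball (0 : E d) 1 ∩ {v | ¬ ∀ z ∈ ball c (1 / ((j : ℝ) + 1)),
        wv (pv v0 (v, r)) z = 0 → Att (Rf (pv v0 (v, r))) (z : OnePoint ℂ)}) := by
    intro j
    have hj : (0 : ℝ) < 1 / ((j : ℝ) + 1) := by positivity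
    have h2 : ∃ᶠ r in 𝓝[>] (0 : ℝ), ¬ volume (ball (0 : E d) 1 ∩
        {v | ¬ ∀ z ∈ ball c (1 / ((j : ℝ) + 1)), wv (pv v0 (v, r)) z = 0 →
          Att (Rf (pv v0 (v, r))) (z : OnePoint ℂ)}) ≤ ε := by
      rw [← Filter.not_eventually]
      exact fun h => hcon (1 / ((j : ℝ) + 1)) ⟨hj, h⟩
    have h3 : ∀ᶠ r : ℝ in 𝓝[>] (0 : ℝ), r ∈ Ioo (0 : ℝ) (1 / ((j : ℝ) + 1)) := Ioo_mem_nhdsGT hj
    obtain ⟨r, hr1, hr2⟩ := (h2.and_eventually h3).exists
    exact ⟨r, hr2.1, hr2.2, lt_of_not_ge hr1⟩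
  choose r hr0 hr1 hr2 using h1
  have hrt : Tendsto r atTop (𝓝 0) :=
    squeeze_zero (fun j => (hr0 j).le) (fun j => (hr1 j).le) tendsto_one_div_add_atTop_nhds_zero_nat
  obtain ⟨σ, hσ, hgood⟩ := h r hr0 hrt
  have hrad : ∀ m n : ℕ, m ≤ n → (1 : ℝ) / ((n : ℝ) + 1) ≤ 1 / ((m : ℝ) + 1) := by
    intro m n hmn
    apply one_div_le_one_div_of_le
    · positivity
    · have : (m : ℝ) ≤ n := by exact_mod_cast hmn
      linarith
  let O : ℕ → Set (E d) := fun n =>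
    interior {v | ∀ j : ℕ, n ≤ j → ∀ z ∈ ball c (1 / ((n : ℝ) + 1)),
      wv (pv v0 (v, r (σ j))) z = 0 → Att (Rf (pv v0 (v, r (σ j)))) (z : OnePoint ℂ)}
  have hOopen : ∀ n, IsOpen (O n) := fun n => isOpen_interior
  have hOmono : ∀ m n : ℕ, m ≤ n → O m ⊆ O n := by
    intro m n hmn
    apply interior_mono
    intro v hv j hj z hz
    exact hv j (hmn.trans hj) z (ball_subset_ball (hrad m n hmn) hz)
  let D : ℕ → Set (E d) := fun n => ball (0 : E d) 1 \ O n
  have hDmeas : ∀ n, NullMeasurableSet (D n) volume := fun n =>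
    (measurableSet_ball.diff (hOopen n).measurableSet).nullMeasurableSet
  have hDanti : Antitone D := fun m n hmn => sdiff_subset_sdiff_right (hOmono m n hmn)
  have hDfin : ∃ n, volume (D n) ≠ ⊤ :=
    ⟨0, ((measure_mono sdiff_subset).trans_lt measure_ball_lt_top).ne⟩
  have hDlim := tendsto_measure_iInter_atTop hDmeas hDanti hDfin
  have hD0 : volume (⋂ n, D n) = 0 := by
    refine measure_mono_null ?_ hgood
    intro v hv hev
    rw [Filter.eventually_prod_iff] at hev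
    obtain ⟨pa, hpa, pb, hpb, hab⟩ := hev
    rw [Filter.eventually_prod_iff] at hpa
    obtain ⟨qa, hqa, qb, hqb, hqab⟩ := hpa
    obtain ⟨N, hN, hNopen, hvN⟩ := _root_.eventually_nhds_iff.1 hqb
    rw [Filter.eventually_atTop] at hqa
    obtain ⟨n0, hn0⟩ := hqa
    rw [Metric.eventually_nhds_iff] at hpb
    obtain ⟨ρ, hρ, hρ2⟩ := hpb
    obtain ⟨n1, hn1⟩ := exists_nat_one_div_lt hρ
    have hmem : v ∈ O (max n0 n1) := by
      rw [mem_interior]
      refine ⟨N, ?_, hNopen, hvN⟩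
      intro w hw j hj z hz hcz
      have hz2 : dist z c < ρ :=
        lt_of_lt_of_le (mem_ball.1 hz) ((hrad n1 _ (le_max_right n0 n1)).trans hn1.le)
      exact hab (hqab (hn0 j ((le_max_left n0 n1).trans hj)) (hN w hw)) (hρ2 hz2) hcz
    exact (mem_iInter.1 hv _).2 hmem
  rw [hD0, ENNReal.tendsto_nhds_zero] at hDlim
  obtain ⟨n, hn⟩ := (hDlim ε hε).exists
  have hle : volume (ball (0 : E d) 1 ∩ {v | ¬ ∀ z ∈ ball c (1 / ((σ n : ℝ) + 1)),
        wv (pv v0 (v, r (σ n))) z = 0 → Att (Rf (pv v0 (v, r (σ n)))) (z : OnePoint ℂ)}) ≤ ε := by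
    refine le_trans (measure_mono ?_) hn
    rintro v ⟨hv1, hv2⟩
    refine ⟨hv1, fun hv3 => hv2 ?_⟩
    intro z hz
    exact (interior_subset hv3) n le_rfl z (ball_subset_ball (hrad n (σ n) (hσ.le_apply)) hz)
  exact absurd (hr2 (σ n)) (not_lt.mpr hle)

open MeasureTheory in
theorem sub_of_ae {d : ℕ} {v0 : E d} {c : ℂ}
    (h : volume {v : E d | ¬ ∀ᶠ w : (E d × ℝ) × ℂ in flt v ×ˢ 𝓝 c, wv (pv v0 w.1) w.2 = 0 →
      Att (Rf (pv v0 w.1)) (w.2 : OnePoint ℂ)} = 0) : SubGood v0 c := by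
  intro r hr0 hrt
  refine ⟨id, strictMono_id, ?_⟩
  refine measure_mono_null ?_ h
  intro v hv hev
  apply hv
  have hrt2 : Tendsto r atTop (𝓝[>] (0 : ℝ)) :=
    tendsto_nhdsWithin_iff.2 ⟨hrt, Filter.Eventually.of_forall hr0⟩
  have h1 : Tendsto (fun w : ℕ × E d => (w.2, r w.1)) (atTop ×ˢ 𝓝 v) (flt v) :=
    tendsto_snd.prodMk (hrt2.comp tendsto_fst)
  have h2 : Tendsto (fun w : (ℕ × E d) × ℂ => ((w.1.2, r w.1.1), w.2))
      ((atTop ×ˢ 𝓝 v) ×ˢ 𝓝 c) (flt v ×ˢ 𝓝 c) :=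
    (h1.comp tendsto_fst).prodMk tendsto_snd
  exact h2.eventually hev

open MeasureTheory in
theorem sub_basin {d : ℕ} {v0 : E d} {c : ℂ} (hc : Basin v0 c)
    (h : volume {v : E d | ¬ RobDir v0 v} = 0) : SubGood v0 c := by
  refine sub_of_ae (measure_mono_null ?_ h)
  intro v hv hrob
  apply hv
  filter_upwards [hrob c hc] with w hw _
  exact hw

end Pool.Agent.H79.Par
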