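import Pool.Agent.H79.Par.It

set_option autoImplicit false

open Filter Topology Polynomial Metric Set

namespace Pool.Agent.H79.Par

open Pool.Agent.H44.Fatou Pool.Agent.H32.BT Pool.Agent.H79.Eul


/-
PROOFS: induction on n; xi is linear in v for fixed v0, z (ev linear). XX_diff: at all z near x 0 the orbit of z
up to time n is finite with nonzero denominators (orb_near at v0), and XX v0 v n is obtained from differentiable
functions: ev, dev are polynomials in z, it v0 j is differentiable (tr_hasDerivAt), quotients with nonzero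
denominators. deriv_XX_add, deriv_XX_smul from this and XX_add, XX_smul (deriv_add, deriv_const_mul).
XX_near: the statement at a nearby point of the orbit.
-/

private theorem xl_ev_add {d : ℕ} (p q : Fin (d + 1) → ℂ) (z : ℂ) :
    ev (p + q) z = ev p z + ev q z := by
  unfold ev
  rw [← Finset.sum_add_distrib]
  refine Finset.sum_congr rfl fun i _ => ?_
  rw [Pi.add_apply]
  ring

private theorem xl_ev_smul {d : ℕ} (c : ℂ) (p : Fin (d + 1) → ℂ) (z : ℂ) :
    ev (c • p) z = c * ev p z := by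
  unfold ev
  rw [Finset.mul_sum]
  refine Finset.sum_congr rfl fun i _ => ?_
  rw [Pi.smul_apply, smul_eq_mul]
  ring

private theorem xl_xi_add {d : ℕ} (v0 v w : E d) (z : ℂ) :
    xi v0 (v + w) z = xi v0 v z + xi v0 w z := by
  unfold xi
  rw [Prod.fst_add, Prod.snd_add, xl_ev_add, xl_ev_add]
  ring

private theorem xl_xi_smul {d : ℕ} (v0 v : E d) (c : ℂ) (z : ℂ) :
    xi v0 (c • v) z = c * xi v0 v z := by
  unfold xi
  rw [Prod.smul_fst, Prod.smul_snd, xl_ev_smul, xl_ev_smul]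
  ring

private theorem xl_ev_diff {d : ℕ} (p : Fin (d + 1) → ℂ) (z : ℂ) :
    DifferentiableAt ℂ (fun z => ev p z) z := by
  unfold ev
  fun_prop

private theorem xl_dev_diff {d : ℕ} (p : Fin (d + 1) → ℂ) (z : ℂ) :
    DifferentiableAt ℂ (fun z => dev p z) z := by
  unfold dev
  fun_prop

private theorem xl_wv_diff {d : ℕ} (v : E d) (z : ℂ) :
    DifferentiableAt ℂ (fun z => wv v z) z := by
  have h1 := xl_ev_diff v.1 z
  have h2 := xl_ev_diff v.2 z
  have h3 := xl_dev_diff v.1 z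
  have h4 := xl_dev_diff v.2 z
  unfold wv
  fun_prop

private theorem xl_xi_diff {d : ℕ} (v0 v : E d) {z : ℂ} (hz : ev v0.2 z ≠ 0) :
    DifferentiableAt ℂ (fun z => xi v0 v z) z := by
  have h1 := xl_ev_diff v.1 z
  have h2 := xl_ev_diff v.2 z
  have h3 := xl_ev_diff v0.1 z
  have h4 := xl_ev_diff v0.2 z
  unfold xi
  exact ((h1.mul h4).sub (h3.mul h2)).div (h4.pow 2) (pow_ne_zero 2 hz)

private theorem xl_sec {d : ℕ} {v0 : E d} {x : ℕ → ℂ} {n : ℕ} (ho : Orb v0 x n) :
    ∀ᶠ z in 𝓝 (x 0), ∀ j < n, ev v0.2 (it v0 j z) ≠ 0 := by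
  have h := orb_near ho
  have hc : Tendsto (fun z : ℂ => (v0, z)) (𝓝 (x 0)) (𝓝 (v0, x 0)) :=
    (Continuous.prodMk_right v0).tendsto (x 0)
  exact hc.eventually h

private theorem xl_XX_diff {d : ℕ} (v0 v : E d) (z : ℂ) :
    ∀ n : ℕ, (∀ j < n, ev v0.2 (it v0 j z) ≠ 0) → DifferentiableAt ℂ (XX v0 v n) z
  | 0, _ => by
    have h : XX v0 v 0 = fun _ => 0 := rfl
    rw [h]
    exact differentiableAt_const 0
  | n + 1, h => by
    have ih := xl_XX_diff v0 v z n (fun j hj => h j (by omega))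
    have hit : DifferentiableAt ℂ (fun z => it v0 n z) z :=
      (tr_hasDerivAt v0 z n (fun j hj => h j (by omega))).differentiableAt
    have hn := h n (Nat.lt_succ_self n)
    have h1 : DifferentiableAt ℂ (fun z => xi v0 v (it v0 n z)) z :=
      DifferentiableAt.comp (g := fun z => xi v0 v z) (f := fun z => it v0 n z) z
        (xl_xi_diff v0 v hn) hit
    have h2 : DifferentiableAt ℂ (fun z => wv v0 (it v0 n z)) z :=
      DifferentiableAt.comp (g := fun z => wv v0 z) (f := fun z => it v0 n z) z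
        (xl_wv_diff v0 _) hit
    have h3 : DifferentiableAt ℂ (fun z => ev v0.2 (it v0 n z)) z :=
      DifferentiableAt.comp (g := fun z => ev v0.2 z) (f := fun z => it v0 n z) z
        (xl_ev_diff v0.2 _) hit
    have h4 : XX v0 v (n + 1) = fun z => xi v0 v (it v0 n z) +
        wv v0 (it v0 n z) / ev v0.2 (it v0 n z) ^ 2 * XX v0 v n z := rfl
    rw [h4]
    exact h1.add ((h2.div (h3.pow 2) (pow_ne_zero 2 hn)).mul ih)

theorem XX_add {d : ℕ} (v0 v w : E d) (n : ℕ) (z : ℂ) :
    XX v0 (v + w) n z = XX v0 v n z + XX v0 w n z := by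
  induction n with
  | zero => simp [XX]
  | succ n ih =>
    simp only [XX]
    rw [xl_xi_add, ih]
    ring

theorem XX_smul {d : ℕ} (v0 v : E d) (c : ℂ) (n : ℕ) (z : ℂ) :
    XX v0 (c • v) n z = c * XX v0 v n z := by
  induction n with
  | zero => simp [XX]
  | succ n ih =>
    simp only [XX]
    rw [xl_xi_smul, ih]
    ring

theorem XX_diff {d : ℕ} {v0 : E d} {x : ℕ → ℂ} {n : ℕ} (ho : Orb v0 x n) (v : E d) :
    ∀ᶠ z in 𝓝 (x 0), DifferentiableAt ℂ (XX v0 v n) z := by
  filter_upwards [xl_sec ho] with z hz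
  exact xl_XX_diff v0 v z n hz

theorem deriv_XX_add {d : ℕ} {v0 : E d} {x : ℕ → ℂ} {n : ℕ} (ho : Orb v0 x n) (v w : E d) :
    deriv (XX v0 (v + w) n) (x 0) = deriv (XX v0 v n) (x 0) + deriv (XX v0 w n) (x 0) := by
  have h1 := (XX_diff ho v).self_of_nhds
  have h2 := (XX_diff ho w).self_of_nhds
  have h3 : XX v0 (v + w) n = fun z => XX v0 v n z + XX v0 w n z :=
    funext fun z => XX_add v0 v w n z
  rw [h3]
  exact (h1.hasDerivAt.add h2.hasDerivAt).deriv

theorem deriv_XX_smul {d : ℕ} {v0 : E d} {x : ℕ → ℂ} {n : ℕ} (v : E d) (c : ℂ) :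
    deriv (XX v0 (c • v) n) (x 0) = c * deriv (XX v0 v n) (x 0) := by
  have h3 : XX v0 (c • v) n = fun z => c * XX v0 v n z :=
    funext fun z => XX_smul v0 v c n z
  rw [h3, deriv_const_mul_field]

/-- near `x 0` all points have finite orbits -/
theorem orb_shift {d : ℕ} {v0 : E d} {x : ℕ → ℂ} {n : ℕ} (ho : Orb v0 x n) :
    ∀ᶠ z in 𝓝 (x 0), Orb v0 (fun j => it v0 j z) n := by
  filter_upwards [xl_sec ho] with z hz
  intro j hj
  exact ⟨hz j hj, rfl⟩

end Pool.Agent.H79.Par
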