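import Pool.Agent.H79.Par.Defs

/-!
Normal form of a germ tangent to the identity.
-/

set_option autoImplicit false

open Filter Topology Polynomial Metric Set

namespace Pool.Agent.H79.Par

open Pool.Agent.H44.Fatou Pool.Agent.H32.BT Pool.Agent.H79.Eul


/-- `F u = u + u^(N+1) k u` with `k 0 = a` -/
def NF (F k : ℂ → ℂ) (N : ℕ) (a : ℂ) : Prop :=
  AnalyticAt ℂ k 0 ∧ k 0 = a ∧ ∀ᶠ u in 𝓝 (0 : ℂ), F u = u + u ^ (N + 1) * k u

/-
PROOFS. normal_form: the analytic function F u - u is not locally 0, so it is u^n k u with k analytic,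
k 0 ≠ 0 (AnalyticAt.exists_eventuallyEq_pow_smul_nonzero_iff); n = 0 contradicts F 0 = 0, n = 1 contradicts
deriv F 0 = 1. nf_est: continuity of k. nf_comm: the coefficient of u^(N+1): F (M u) - M u = (M u)^(N+1) k(M u) =
a λ^(N+1) u^(N+1) + o(u^(N+1)), and M (F u) - M u = λ (F u - u) + o(F u - u) (strict differentiability of M at 0)
= λ a u^(N+1) + o(u^(N+1)); so a λ^(N+1) = λ a, λ^N = 1, and N = 1 gives λ = 1. nf_second: near 0
deriv F u = 1 + (N+1) u^N k u + u^(N+1) k' u, with derivative 0 at 0 as N ≥ 2.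
-/

theorem normal_form {F : ℂ → ℂ} (hF : AnalyticAt ℂ F 0) (h0 : F 0 = 0) (h1 : HasDerivAt F 1 0)
    (hne : ¬ ∀ᶠ u in 𝓝 (0 : ℂ), F u = u) :
    ∃ (N : ℕ) (a : ℂ) (k : ℂ → ℂ), 1 ≤ N ∧ a ≠ 0 ∧ NF F k N a := by
  have hG : AnalyticAt ℂ (fun u => F u - u) 0 := hF.sub analyticAt_id
  have hne' : ¬ ∀ᶠ u in 𝓝 (0 : ℂ), (fun u => F u - u) u = 0 := by
    intro h
    apply hne
    filter_upwards [h] with u hu
    exact sub_eq_zero.1 hu
  obtain ⟨n, g, hg, hg0, hgn⟩ := (hG.exists_eventuallyEq_pow_smul_nonzero_iff).2 hne'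
  have hn2 : 2 ≤ n := by
    by_contra hcon
    have hn : n = 0 ∨ n = 1 := by omega
    rcases hn with hn | hn
    · have h3 := hgn.self_of_nhds
      rw [hn, h0] at h3
      simp at h3
      exact hg0 h3.symm
    · have h3 : HasDerivAt (fun u => F u - u) (1 - 1) 0 := h1.sub (hasDerivAt_id 0)
      have h4 : HasDerivAt (fun u : ℂ => u * g u) (1 * g 0 + 0 * deriv g 0) 0 :=
        (hasDerivAt_id (0 : ℂ)).mul hg.differentiableAt.hasDerivAt
      have h5 : (fun u => F u - u) =ᶠ[𝓝 0] (fun u : ℂ => u * g u) := by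
        filter_upwards [hgn] with u hu
        rw [hu, hn]
        simp
      have h6 := (h4.congr_of_eventuallyEq h5).unique h3
      simp at h6
      exact hg0 h6
  obtain ⟨N, rfl⟩ : ∃ N, n = N + 1 := ⟨n - 1, by omega⟩
  refine ⟨N, g 0, g, by omega, hg0, hg, rfl, ?_⟩
  filter_upwards [hgn] with u hu
  have h3 : F u - u = u ^ (N + 1) * g u := by
    rw [hu]; simp
  linear_combination h3

theorem nf_est {F k : ℂ → ℂ} {N : ℕ} {a : ℂ} (h : NF F k N a) {δ : ℝ} (hδ : 0 < δ) :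
    ∀ᶠ u in 𝓝 (0 : ℂ), ‖F u - u - a * u ^ (N + 1)‖ ≤ δ * ‖u‖ ^ (N + 1) := by
  obtain ⟨hk, hk0, hF⟩ := h
  have hc : Tendsto k (𝓝 0) (𝓝 a) := by
    have := hk.continuousAt.tendsto
    rwa [hk0] at this
  have hc2 : ∀ᶠ u in 𝓝 (0 : ℂ), ‖k u - a‖ < δ := by
    have := (Metric.tendsto_nhds.1 hc) δ hδ
    filter_upwards [this] with u hu
    rwa [dist_eq_norm] at hu
  filter_upwards [hF, hc2] with u hu hu2
  have e : F u - u - a * u ^ (N + 1) = (k u - a) * u ^ (N + 1) := by rw [hu]; ring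
  rw [e, norm_mul, norm_pow]
  exact mul_le_mul_of_nonneg_right hu2.le (by positivity)

private theorem nf_tendsto {F k : ℂ → ℂ} {N : ℕ} {a : ℂ} (h : NF F k N a) :
    Tendsto F (𝓝 0) (𝓝 0) ∧ F 0 = 0 := by
  obtain ⟨hk, hk0, hF⟩ := h
  have hc : Tendsto (fun u : ℂ => u + u ^ (N + 1) * k u) (𝓝 0) (𝓝 0) := by
    have h1 : ContinuousAt (fun u : ℂ => u + u ^ (N + 1) * k u) 0 :=
      continuousAt_id.add ((continuousAt_id.pow (N + 1)).mul hk.continuousAt)
    have h2 := h1.tendsto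
    simpa using h2
  refine ⟨hc.congr' ?_, ?_⟩
  · filter_upwards [hF] with u hu
    exact hu.symm
  · have := hF.self_of_nhds
    simpa using this

theorem nf_comm {F k M : ℂ → ℂ} {N : ℕ} {a lam : ℂ} (hN : 1 ≤ N) (ha : a ≠ 0)
    (h : NF F k N a) (hM : AnalyticAt ℂ M 0) (hM0 : M 0 = 0) (hM1 : HasDerivAt M lam 0)
    (hlam0 : lam ≠ 0) (hlam : lam ≠ 1) (hcomm : ∀ᶠ u in 𝓝 (0 : ℂ), F (M u) = M (F u)) :
    2 ≤ N := by
  by_contra hcon
  have hN1 : N = 1 := by omega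
  subst hN1
  obtain ⟨hFt, hF0⟩ := nf_tendsto h
  obtain ⟨hk, hk0, hF⟩ := h
  have hMt : Tendsto M (𝓝 0) (𝓝 0) := by
    have := hM.continuousAt.tendsto
    rwa [hM0] at this
  have hkt : Tendsto k (𝓝 0) (𝓝 a) := by
    have := hk.continuousAt.tendsto
    rwa [hk0] at this
  -- first limit
  have hslope : Tendsto (fun u => M u / u) (𝓝[≠] (0 : ℂ)) (𝓝 lam) := by
    have h1 := hasDerivAt_iff_tendsto_slope.1 hM1
    refine h1.congr ?_
    intro u
    rw [slope_def_field, hM0, sub_zero, sub_zero]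
  have hkM : Tendsto (fun u => k (M u)) (𝓝[≠] (0 : ℂ)) (𝓝 a) :=
    (hkt.comp hMt).mono_left nhdsWithin_le_nhds
  have hT1 : Tendsto (fun u => (M u / u) ^ 2 * k (M u)) (𝓝[≠] (0 : ℂ)) (𝓝 (lam ^ 2 * a)) :=
    (hslope.pow 2).mul hkM
  -- second limit
  have hstrict : HasStrictDerivAt M lam 0 := by
    have h1 := hM.hasStrictDerivAt
    rwa [hM1.deriv] at h1
  have hpair : Tendsto (fun u : ℂ => (F u, u)) (𝓝 0) (𝓝 ((0 : ℂ), (0 : ℂ))) := by
    rw [nhds_prod_eq]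
    exact hFt.prodMk tendsto_id
  have ho : (fun u => M (F u) - M u - lam * (F u - u)) =o[𝓝 0] (fun u => F u - u) := by
    have h1 := hstrict.hasStrictFDerivAt.isLittleO.comp_tendsto hpair
    refine h1.congr_left ?_
    intro u
    simp only [Function.comp_apply, ContinuousLinearMap.toSpanSingleton_apply, smul_eq_mul]
    ring
  have hO : (fun u => F u - u) =O[𝓝 0] (fun u : ℂ => u ^ 2) := by
    have h1 : (fun u : ℂ => u ^ 2 * k u) =O[𝓝 0] (fun u : ℂ => u ^ 2 * 1) :=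
      (Asymptotics.isBigO_refl _ _).mul (hkt.isBigO_one ℂ)
    refine (h1.congr' ?_ ?_)
    · filter_upwards [hF] with u hu
      rw [hu]; ring
    · filter_upwards with u
      ring
  have ho2 : (fun u => M (F u) - M u - lam * (F u - u)) =o[𝓝 0] (fun u : ℂ => u ^ 2) :=
    ho.trans_isBigO hO
  have ho3 : Tendsto (fun u => (M (F u) - M u - lam * (F u - u)) / u ^ 2) (𝓝[≠] (0 : ℂ)) (𝓝 0) :=
    (ho2.tendsto_div_nhds_zero).mono_left nhdsWithin_le_nhds
  have hT2 : Tendsto (fun u => (M (F u) - M u - lam * (F u - u)) / u ^ 2 + lam * k u)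
      (𝓝[≠] (0 : ℂ)) (𝓝 (0 + lam * a)) :=
    ho3.add ((hkt.mono_left nhdsWithin_le_nhds).const_mul lam)
  have heq : (fun u => (M u / u) ^ 2 * k (M u)) =ᶠ[𝓝[≠] (0 : ℂ)]
      (fun u => (M (F u) - M u - lam * (F u - u)) / u ^ 2 + lam * k u) := by
    have h1 : ∀ᶠ u in 𝓝 (0 : ℂ), F (M u) = M u + M u ^ (1 + 1) * k (M u) := hMt.eventually hF
    have h2 : ∀ᶠ u in 𝓝[≠] (0 : ℂ), u ≠ 0 := eventually_mem_nhdsWithin
    filter_upwards [nhdsWithin_le_nhds h1, nhdsWithin_le_nhds hF, nhdsWithin_le_nhds hcomm, h2]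
      with u hu1 hu2 hu3 hu4
    have e1 : M (F u) = M u + M u ^ (1 + 1) * k (M u) := by rw [← hu3, hu1]
    rw [e1]
    have e2 : F u - u = u ^ (1 + 1) * k u := by
      have : F u = u + u ^ (1 + 1) * k u := hu2
      linear_combination this
    rw [e2]
    field_simp
    ring
  have hlim := tendsto_nhds_unique (hT1.congr' heq) hT2
  have h3 : lam * a * (lam - 1) = 0 := by linear_combination hlim
  have h4 : lam * a ≠ 0 := mul_ne_zero hlam0 ha
  have h5 : lam - 1 = 0 := (mul_eq_zero.1 h3).resolve_left h4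
  exact hlam (sub_eq_zero.1 h5)

theorem nf_second {F k : ℂ → ℂ} {N : ℕ} {a : ℂ} (hN : 2 ≤ N) (h : NF F k N a) :
    HasDerivAt (deriv F) 0 0 := by
  obtain ⟨hk, hk0, hF⟩ := h
  have hF' : F =ᶠ[𝓝 0] (fun u : ℂ => u + u ^ (N + 1) * k u) := hF
  have h1 : deriv F =ᶠ[𝓝 0] deriv (fun u : ℂ => u + u ^ (N + 1) * k u) := hF'.deriv
  have h2 : deriv (fun u : ℂ => u + u ^ (N + 1) * k u) =ᶠ[𝓝 0]
      (fun u : ℂ => 1 + u ^ N * (((N : ℂ) + 1) * k u + u * deriv k u)) := by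
    filter_upwards [hk.eventually_analyticAt] with u hu
    have h3 : HasDerivAt (fun u : ℂ => u ^ (N + 1)) (((N + 1 : ℕ) : ℂ) * u ^ N) u := by
      have := hasDerivAt_pow (N + 1) u
      simpa using this
    have h4 : HasDerivAt (fun u : ℂ => u + u ^ (N + 1) * k u)
        (1 + ((((N + 1 : ℕ) : ℂ) * u ^ N) * k u + u ^ (N + 1) * deriv k u)) u :=
      (hasDerivAt_id u).add (h3.mul hu.differentiableAt.hasDerivAt)
    rw [h4.deriv]
    push_cast
    ring
  have h5 : HasDerivAt (fun u : ℂ => 1 + u ^ N * (((N : ℂ) + 1) * k u + u * deriv k u)) 0 0 := by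
    have hd : HasDerivAt (fun u : ℂ => u ^ N) 0 0 := by
      have h6 := hasDerivAt_pow N (0 : ℂ)
      have h7 : (N : ℂ) * (0 : ℂ) ^ (N - 1) = 0 := by
        rw [zero_pow (by omega), mul_zero]
      rwa [h7] at h6
    have hk' : DifferentiableAt ℂ (fun u : ℂ => ((N : ℂ) + 1) * k u + u * deriv k u) 0 :=
      (hk.differentiableAt.const_mul _).add (differentiableAt_id.mul hk.deriv.differentiableAt)
    have h8 := (hd.mul hk'.hasDerivAt).const_add 1
    have h9 : (0 : ℂ) * (((N : ℂ) + 1) * k 0 + 0 * deriv k 0) +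
        (0 : ℂ) ^ N * deriv (fun u : ℂ => ((N : ℂ) + 1) * k u + u * deriv k u) 0 = 0 := by
      rw [zero_pow (by omega)]; ring
    rw [h9] at h8
    exact h8
  exact h5.congr_of_eventuallyEq (h1.trans h2)

end Pool.Agent.H79.Par
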