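import Pool.Agent.H79.Par.It

set_option autoImplicit false

open Filter Topology Polynomial Metric Set

namespace Pool.Agent.H79.Par

open Pool.Agent.H44.Fatou Pool.Agent.H32.BT Pool.Agent.H79.Eul


/-
PROOF. Let λ = trD v0 n (x 0) ≠ 1 and H v z = z - (it v n z - z)/(λ - 1). Near (v0, x 0) it v n is differentiable in z
with derivative trD v n z, continuous at (v0, x 0) (orb_deriv, trD_cont), so the derivative of H v is
1 - (trD v n z - 1)/(λ - 1), which is small: there are r > 0 and a neighbourhood of v0 on which H v is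
1/2-Lipschitz on closedBall (x 0) r, and H v0 (x 0) = x 0, so ‖H v (x 0) - x 0‖ < r/2 for v near v0. So H v maps the
closed ball to itself and has a unique fixed point α v there (Banach; if v is not near v0 put α v = x 0),
which satisfies ‖α v - x 0‖ ≤ 2 ‖H v (x 0) - x 0‖ → 0: continuity of α at v0; H v z = z iff it v n z = z.
-/

theorem per_move {d : ℕ} {v0 : E d} {x : ℕ → ℂ} {n : ℕ} (ho : Orb v0 x n) (hx : x n = x 0)
    (hmul : trD v0 n (x 0) ≠ 1) :
    ∃ α : E d → ℂ, α v0 = x 0 ∧ ContinuousAt α v0 ∧ ∀ᶠ v in 𝓝 v0, it v n (α v) = α v := by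
  classical
  have hl : trD v0 n (x 0) - 1 ≠ 0 := sub_ne_zero.mpr hmul
  have hlp : 0 < ‖trD v0 n (x 0) - 1‖ := norm_pos_iff.mpr hl
  have hcD : ContinuousAt (fun y : E d × ℂ => trD y.1 n y.2) (v0, x 0) :=
    trD_cont v0 x n (fun j hj => (ho j hj).1) (fun j hj => (ho j hj).2) n le_rfl
  have hcI : ContinuousAt (fun y : E d × ℂ => it y.1 n y.2) (v0, x 0) := orb_cont ho le_rfl
  have hI0 : it v0 n (x 0) = x 0 := (orb_it ho n le_rfl).trans hx
  have hcI1 : ContinuousAt (fun v : E d => it v n (x 0)) v0 := tr_cmp1 hcI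
  have hcB : Tendsto (fun v : E d => 2 * ‖(it v n (x 0) - x 0) / (trD v0 n (x 0) - 1)‖)
      (𝓝 v0) (𝓝 0) := by
    have h1 : Tendsto (fun v : E d => 2 * ‖(it v n (x 0) - x 0) / (trD v0 n (x 0) - 1)‖)
        (𝓝 v0) (𝓝 (2 * ‖(it v0 n (x 0) - x 0) / (trD v0 n (x 0) - 1)‖)) :=
      (((hcI1.tendsto.sub tendsto_const_nhds).div_const _).norm).const_mul 2
    have h2 : 2 * ‖(it v0 n (x 0) - x 0) / (trD v0 n (x 0) - 1)‖ = 0 := by
      rw [hI0, sub_self, zero_div, norm_zero, mul_zero]
    rw [h2] at h1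
    exact h1
  have hnear : ∀ᶠ y : E d × ℂ in 𝓝 (v0, x 0),
      HasDerivAt (fun z => it y.1 n z) (trD y.1 n y.2) y.2 ∧
        ‖trD y.1 n y.2 - trD v0 n (x 0)‖ < ‖trD v0 n (x 0) - 1‖ / 2 := by
    refine (orb_deriv ho).and ?_
    have h1 := (Metric.tendsto_nhds.1 hcD.tendsto) (‖trD v0 n (x 0) - 1‖ / 2) (by positivity)
    filter_upwards [h1] with y hy
    rw [dist_eq_norm] at hy
    exact hy
  rw [nhds_prod_eq, Filter.eventually_prod_iff] at hnear
  obtain ⟨pa, hpa, pb, hpb, hab⟩ := hnear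
  obtain ⟨r, hr, hrb⟩ := Metric.nhds_basis_closedBall.eventually_iff.1 hpb
  set H : E d → ℂ → ℂ := fun v z => z - (it v n z - z) / (trD v0 n (x 0) - 1) with hH
  have hLip : ∀ v, pa v → ∀ z ∈ closedBall (x 0) r, ∀ w ∈ closedBall (x 0) r,
      ‖H v w - H v z‖ ≤ (1 / 2) * ‖w - z‖ := by
    intro v hv z hz w hw
    refine Convex.norm_image_sub_le_of_norm_hasDerivWithin_le (𝕜 := ℂ)
      (f' := fun z => 1 - (trD v n z - 1) / (trD v0 n (x 0) - 1)) ?_ ?_
      (convex_closedBall (x 0) r) hz hw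
    · intro y hy
      have h1 := (hab hv (hrb hy)).1
      exact ((hasDerivAt_id y).sub ((h1.sub (hasDerivAt_id y)).div_const _)).hasDerivWithinAt
    · intro y hy
      have h2 := (hab hv (hrb hy)).2
      have h3 : 1 - (trD v n y - 1) / (trD v0 n (x 0) - 1) =
          -((trD v n y - trD v0 n (x 0)) / (trD v0 n (x 0) - 1)) := by
        field_simp
        ring
      rw [h3, norm_neg, norm_div, div_le_iff₀ hlp]
      linarith
  have hex : ∀ v, pa v → 2 * ‖(it v n (x 0) - x 0) / (trD v0 n (x 0) - 1)‖ < r →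
      ∃ y : ℂ, it v n y = y ∧
        ‖y - x 0‖ ≤ 2 * ‖(it v n (x 0) - x 0) / (trD v0 n (x 0) - 1)‖ := by
    intro v hv hsm
    have hx0 : x 0 ∈ closedBall (x 0) r := mem_closedBall_self hr.le
    have hH0 : ‖H v (x 0) - x 0‖ = ‖(it v n (x 0) - x 0) / (trD v0 n (x 0) - 1)‖ := by
      simp only [hH]
      rw [sub_sub_cancel_left, norm_neg]
    have hmaps : MapsTo (H v) (closedBall (x 0) r) (closedBall (x 0) r) := by
      intro z hz
      have h1 := hLip v hv (x 0) hx0 z hz
      rw [mem_closedBall, dist_eq_norm] at hz ⊢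
      have h2 : ‖H v z - x 0‖ ≤ ‖H v z - H v (x 0)‖ + ‖H v (x 0) - x 0‖ := by
        have := norm_add_le (H v z - H v (x 0)) (H v (x 0) - x 0)
        rwa [sub_add_sub_cancel] at this
      rw [hH0] at h2
      linarith
    have hcw : ContractingWith (1 / 2 : NNReal) (hmaps.restrict (H v) _ _) := by
      refine ⟨?_, ?_⟩
      · rw [← NNReal.coe_lt_coe]
        push_cast
        norm_num
      · refine LipschitzWith.of_dist_le_mul ?_
        intro a b
        have h1 := hLip v hv b b.2 a a.2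
        rw [Subtype.dist_eq, Subtype.dist_eq, dist_eq_norm, dist_eq_norm]
        push_cast
        exact h1
    obtain ⟨y, hy, hfix, -⟩ := ContractingWith.exists_fixedPoint' (x := x 0)
      (isClosed_closedBall.isComplete) hmaps hcw hx0 (edist_ne_top _ _)
    have hfix' : H v y = y := hfix
    have h4 : (it v n y - y) / (trD v0 n (x 0) - 1) = 0 := by
      have : y - (it v n y - y) / (trD v0 n (x 0) - 1) = y := hfix'
      linear_combination -this
    refine ⟨y, ?_, ?_⟩
    · rcases div_eq_zero_iff.1 h4 with h5 | h5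
      · exact sub_eq_zero.1 h5
      · exact absurd h5 hl
    · have h1 := hLip v hv (x 0) hx0 y hy
      rw [hfix'] at h1
      have h2 : ‖y - x 0‖ ≤ ‖y - H v (x 0)‖ + ‖H v (x 0) - x 0‖ := by
        have := norm_add_le (y - H v (x 0)) (H v (x 0) - x 0)
        rwa [sub_add_sub_cancel] at this
      rw [hH0] at h2
      linarith
  set α : E d → ℂ := fun v =>
    if h : ∃ y : ℂ, it v n y = y ∧
        ‖y - x 0‖ ≤ 2 * ‖(it v n (x 0) - x 0) / (trD v0 n (x 0) - 1)‖
    then Classical.choose h else x 0 with hα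
  have hαb : ∀ v, ‖α v - x 0‖ ≤ 2 * ‖(it v n (x 0) - x 0) / (trD v0 n (x 0) - 1)‖ := by
    intro v
    simp only [hα]
    split_ifs with h
    · exact (Classical.choose_spec h).2
    · rw [sub_self, norm_zero]
      positivity
  have hα0 : α v0 = x 0 := by
    have h1 := hαb v0
    rw [hI0, sub_self, zero_div, norm_zero, mul_zero] at h1
    exact sub_eq_zero.1 (norm_le_zero_iff.1 h1)
  refine ⟨α, hα0, ?_, ?_⟩
  · rw [ContinuousAt, hα0, tendsto_iff_norm_sub_tendsto_zero]
    exact squeeze_zero (fun v => norm_nonneg _) hαb hcB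
  · filter_upwards [hpa, hcB.eventually (gt_mem_nhds hr)] with v hv hvr
    have h := hex v hv hvr
    simp only [hα]
    rw [dif_pos h]
    exact (Classical.choose_spec h).1

end Pool.Agent.H79.Par
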