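import Pool.Agent.H79.Par.FO
import Pool.Agent.H79.Par.PerMove

set_option autoImplicit false

open Filter Topology Polynomial Metric Set

namespace Pool.Agent.H79.Par

open Pool.Agent.H44.Fatou Pool.Agent.H32.BT Pool.Agent.H79.Eul


/-
PROOF. Let a τ = α (pv v0 τ) → x 0 (pv_lim), λ = trD v0 n (x 0). Eventually it (pv) n (a τ) = a τ, so
a τ - x 0 = (it (pv) n (a τ) - it v0 n (a τ)) + (it v0 n (a τ) - it v0 n (x 0)) with first term h (XX + o(1)) (fo
composed with τ ↦ (τ, a τ)) and second (λ + o(1)) (a τ - x 0) (HasDerivAt of it v0 n at x 0, orb_deriv; slope).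
Hence (a τ - x 0) (1 - λ - o(1)) = h (XX + o(1)); divide by h (1 - λ - o(1)), 1 - λ ≠ 0.
-/

theorem per_rate {d : ℕ} {v0 v : E d} {x : ℕ → ℂ} {n : ℕ} (ho : Orb v0 x n) (hx : x n = x 0)
    (hmul : trD v0 n (x 0) ≠ 1) {α : E d → ℂ} (hα0 : α v0 = x 0) (hαc : ContinuousAt α v0)
    (hα : ∀ᶠ w in 𝓝 v0, it w n (α w) = α w) :
    Tendsto (fun τ : E d × ℝ => (α (pv v0 τ) - x 0) / (τ.2 : ℂ)) (flt v)
      (𝓝 (XX v0 v n (x 0) / (1 - trD v0 n (x 0)))) := by
  have hd : HasDerivAt (fun z => it v0 n z) (trD v0 n (x 0)) (x 0) := (orb_deriv ho).self_of_nhds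
  have ha : Tendsto (fun τ : E d × ℝ => α (pv v0 τ)) (flt v) (𝓝 (x 0)) := by
    have h1 : Tendsto α (𝓝 v0) (𝓝 (x 0)) := by
      rw [← hα0]
      exact hαc
    exact h1.comp (pv_lim v0 v)
  have hy : Tendsto (fun τ : E d × ℝ => (τ, α (pv v0 τ))) (flt v) (flt v ×ˢ 𝓝 (x 0)) :=
    tendsto_id.prodMk ha
  have h1 := (fo (v := v) ho).comp hy
  rw [Function.comp_def] at h1
  have h2 : Tendsto (fun τ : E d × ℝ => dslope (fun z => it v0 n z) (x 0) (α (pv v0 τ))) (flt v)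
      (𝓝 (trD v0 n (x 0))) := by
    have hc : ContinuousAt (dslope (fun z => it v0 n z) (x 0)) (x 0) :=
      continuousAt_dslope_same.2 hd.differentiableAt
    have he : dslope (fun z => it v0 n z) (x 0) (x 0) = trD v0 n (x 0) := by
      rw [dslope_same, hd.deriv]
    have hc' : Tendsto (dslope (fun z => it v0 n z) (x 0)) (𝓝 (x 0)) (𝓝 (trD v0 n (x 0))) := by
      rw [← he]
      exact hc
    exact hc'.comp ha
  have h0 : 1 - trD v0 n (x 0) ≠ 0 := sub_ne_zero.2 (Ne.symm hmul)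
  have h3 : Tendsto (fun τ : E d × ℝ =>
      1 - dslope (fun z => it v0 n z) (x 0) (α (pv v0 τ))) (flt v)
      (𝓝 (1 - trD v0 n (x 0))) := tendsto_const_nhds.sub h2
  refine Tendsto.congr' ?_ (h1.div h3 h0)
  filter_upwards [h3.eventually_ne h0, flt_pos v, (pv_lim v0 v).eventually hα] with τ e1 e2 e3
  have e4 : (τ.2 : ℂ) ≠ 0 := by
    exact_mod_cast e2.ne'
  have e5 : it v0 n (α (pv v0 τ)) - x 0 =
      (α (pv v0 τ) - x 0) * dslope (fun z => it v0 n z) (x 0) (α (pv v0 τ)) := by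
    have := sub_smul_dslope (fun z => it v0 n z) (x 0) (α (pv v0 τ))
    rw [smul_eq_mul] at this
    rw [this, orb_it ho n le_rfl, hx]
  rw [Pi.div_apply, div_div, div_eq_div_iff (mul_ne_zero e4 e1) e4, e3]
  have e6 : α (pv v0 τ) - it v0 n (α (pv v0 τ)) =
      (α (pv v0 τ) - x 0) * (1 - dslope (fun z => it v0 n z) (x 0) (α (pv v0 τ))) := by
    have : it v0 n (α (pv v0 τ)) = x 0 +
      (α (pv v0 τ) - x 0) * dslope (fun z => it v0 n z) (x 0) (α (pv v0 τ)) := by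
      rw [← e5]; ring
    rw [this]; ring
  rw [e6]; ring

end Pool.Agent.H79.Par
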