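import Pool.Agent.H79.Par.PhBasic
import Pool.Agent.H79.Eul.NiceRot

set_option autoImplicit false

open Filter Topology Polynomial Metric Set

namespace Pool.Agent.H79.Par

open Pool.Agent.H44.Fatou Pool.Agent.H32.BT Pool.Agent.H79.Eul

private theorem vp_natDegree_gr {N κ : ℕ} (hκN : κ + 1 ≤ N) {a : ℂ} (β : ℂ) (ha : a ≠ 0) :
    (Vp N κ a β).natDegree = N + 1 := by
  unfold Vp
  have h1 : (C a * X ^ (N + 1) : Polynomial ℂ).natDegree = N + 1 := natDegree_C_mul_X_pow _ _ ha
  rw [natDegree_add_eq_left_of_natDegree_lt, h1]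
  rw [h1]
  exact lt_of_le_of_lt (natDegree_C_mul_X_pow_le _ _) (by omega)

theorem genV_rot {N κ : ℕ} (hκ : κ ≤ 1) (hκN : κ + 1 ≤ N) {a β : ℂ} (ha : a ≠ 0)
    (hβ : β ≠ 0) : ∃ bad : Set ℝ, bad.Countable ∧ ∀ φ : ℝ, φ ∉ bad →
      ∃ s0 c : ℂ, GenAt N κ a (Complex.exp (φ * Complex.I) * β) s0 c := by
  set V : Polynomial ℂ := Vp N κ a β with hV
  have hVdeg : V.natDegree = N + 1 := vp_natDegree_gr hκN β ha
  have hV0 : V ≠ 0 := by
    intro h
    rw [h, natDegree_zero] at hVdeg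
    omega
  have hsimple := vp_sq hκ hκN ha hβ
  rw [← hV] at hsimple
  have hsq : IsCoprime V (derivative V) := by
    rw [isCoprime_iff_aeval_ne_zero_of_isAlgClosed ℂ ℂ]
    intro z
    by_contra h
    push Not at h
    obtain ⟨h1, h2⟩ := h
    rw [coe_aeval_eq_eval] at h1 h2
    exact hsimple z h1 h2
  have hm0 : ((N + 1 - κ : ℕ) : ℝ) ≠ 0 := by
    have : 0 < N + 1 - κ := by omega
    positivity
  have hN0 : (N : ℝ) ≠ 0 := by
    have : 0 < N := by omega
    positivity
  set r : ℝ := (N : ℝ) / ((N + 1 - κ : ℕ) : ℝ) with hr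
  have hr0 : r ≠ 0 := div_ne_zero hN0 hm0
  let Bz : ℂ → Set ℝ := fun z =>
    (({ψ : ℝ | ¬ G1 (C (Complex.exp (ψ * Complex.I)) * Ph N κ a β z 1) (X ^ (N - 1))} ∪
      {ψ : ℝ | (Complex.exp (ψ * Complex.I) * ((derivative V).eval z / (1 : Polynomial ℂ).eval z)).re = 0}) ∪
      ({ψ : ℝ | ¬ NoConn (C (Complex.exp (ψ * Complex.I)) * Ph N κ a β z 1) (X ^ (N - 1)) 0 0} ∪
      {ψ : ℝ | ¬ NoConn (C (Complex.exp (ψ * Complex.I)) * Ph N κ a β z 1) (X ^ (N - 1)) (-(1 / z)) 0}))
  refine ⟨⋃ z ∈ (Z V : Set ℂ), (fun φ : ℝ => r * φ) ⁻¹' (Bz z), ?_, ?_⟩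
  · refine Set.Countable.biUnion (Finset.countable_toSet _) fun z hz => ?_
    refine Set.Countable.preimage_of_injOn ?_ ?_
    · refine ((g1_countable _ _).union (re_countable ?_)).union
        ((nc_countable _ _ _ _).union (nc_countable _ _ _ _))
      rw [eval_one, div_one]
      exact hsimple z ((mem_Z hV0).1 hz)
    · intro x _ y _ hxy
      exact mul_left_cancel₀ hr0 hxy
  · intro φ hφ
    set e : ℂ := Complex.exp ((φ / ((N + 1 - κ : ℕ) : ℝ) : ℝ) * Complex.I) with he
    have he0 : e ≠ 0 := Complex.exp_ne_zero _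
    have hem : e ^ (N + 1 - κ) = Complex.exp (φ * Complex.I) := by
      rw [he, ← Complex.exp_nat_mul]
      congr 1
      push_cast
      have : ((N + 1 - κ : ℕ) : ℂ) ≠ 0 := by exact_mod_cast hm0
      field_simp
    have heN : e ^ N = Complex.exp ((r * φ : ℝ) * Complex.I) := by
      rw [he, ← Complex.exp_nat_mul, hr]
      congr 1
      push_cast
      ring
    simp only [Set.mem_iUnion, Set.mem_preimage, Finset.mem_coe, not_exists] at hφ
    have hφ2 : ∀ z ∈ Z V, G1 (C (e ^ N) * Ph N κ a β z 1) (X ^ (N - 1)) ∧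
        (e ^ N * ((derivative V).eval z / (1 : Polynomial ℂ).eval z)).re ≠ 0 ∧
        NoConn (C (e ^ N) * Ph N κ a β z 1) (X ^ (N - 1)) 0 0 ∧
        NoConn (C (e ^ N) * Ph N κ a β z 1) (X ^ (N - 1)) (-(1 / z)) 0 := by
      intro z hz
      have h1 := hφ z hz
      simp only [Bz, Set.mem_union, Set.mem_ofPred_eq, not_or, not_not] at h1
      rw [heN]
      exact ⟨h1.1.1, h1.1.2, h1.2.1, h1.2.2⟩
    obtain ⟨z, hz, hpos⟩ := exists_source (P := V) (Q := 1) hsq isCoprime_one_right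
      (by rw [natDegree_one, hVdeg]; omega) (pow_ne_zero N he0) (fun z hz => (hφ2 z hz).2.1)
    obtain ⟨g1, -, g2, g3⟩ := hφ2 z hz
    have hVz : V.eval z = 0 := (mem_Z hV0).1 hz
    refine ⟨e * z, e, he0, ?_, ?_, ?_, ?_, ?_⟩
    · rw [hV, vp_eval] at hVz
      rw [vp_eval, ← hem]
      have h1 : e ^ (N + 1 - κ) * e ^ κ = e ^ (N + 1) := by
        rw [← pow_add]
        congr 1
        omega
      calc a * (e * z) ^ (N + 1) + e ^ (N + 1 - κ) * β * (e * z) ^ κ
          = e ^ (N + 1) * (a * z ^ (N + 1)) + (e ^ (N + 1 - κ) * e ^ κ) * (β * z ^ κ) := by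
            rw [mul_pow, mul_pow]; ring
        _ = e ^ (N + 1) * (a * z ^ (N + 1) + β * z ^ κ) := by rw [h1]; ring
        _ = 0 := by rw [hVz, mul_zero]
    · have h2 : (derivative (Vp N κ a (Complex.exp (φ * Complex.I) * β))).eval (e * z) =
          e ^ N * (derivative V).eval z := by
        rw [hV, vp_deriv_eval hκ, vp_deriv_eval hκ, ← hem, mul_pow]
        have h3 : (κ : ℂ) * (e ^ (N + 1 - κ) * β) = e ^ N * (κ * β) := by
          interval_cases κ
          · simp
          · have : N + 1 - 1 = N := by omega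
            rw [this]
            ring
        rw [h3]
        ring
      rw [h2]
      rw [eval_one, div_one] at hpos
      exact hpos
    · rw [← hem, ph_rot hκN a β z he0]
      exact g1
    · rw [← hem, ph_rot hκN a β z he0]
      exact g2
    · intro _
      rw [← hem, ph_rot hκN a β z he0]
      have h4 : -(e / (e * z)) = -(1 / z) := by
        by_cases hz0 : z = 0
        · rw [hz0, mul_zero, div_zero, div_zero]
        · field_simp
      rw [h4]
      exact g3

end Pool.Agent.H79.Par
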