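import Pool.Agent.H79.Par.XX
import Pool.Agent.H79.Eul.NullB

set_option autoImplicit false

open Filter Topology Polynomial Metric Set

namespace Pool.Agent.H79.Par

open Pool.Agent.H44.Fatou Pool.Agent.H32.BT Pool.Agent.H79.Eul


/-
PROOFS. ker_null: the kernel of L as a real subspace is a proper submodule: MeasureTheory.Measure.addHaar_submodule
(volume on E d is an additive Haar measure, volume_haar in H79/Eul/NullB.lean). null_lin: a linear bijection is a
homeomorphism of the finite dimensional space; preimage of a null set: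
Measure.addHaar_preimage_linearMap (determinant ≠ 0) .
-/

open MeasureTheory in
theorem ker_null {d : ℕ} (L : E d → ℂ) (hadd : ∀ v w, L (v + w) = L v + L w)
    (hsmul : ∀ (c : ℂ) (v : E d), L (c • v) = c * L v) (hne : ∃ v, L v ≠ 0) :
    volume {v : E d | L v = 0} = 0 := by
  haveI := volume_haar d
  let f : E d →ₗ[ℂ] ℂ :=
    { toFun := L
      map_add' := hadd
      map_smul' := fun c v => by rw [hsmul, RingHom.id_apply, smul_eq_mul] }
  let K : Submodule ℝ (E d) := LinearMap.ker (f.restrictScalars ℝ)
  have hK : K ≠ ⊤ := by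
    obtain ⟨v, hv⟩ := hne
    intro h
    have h1 : v ∈ K := by rw [h]; exact Submodule.mem_top
    exact hv h1
  have h2 := Measure.addHaar_submodule (volume : Measure (E d)) K hK
  have h3 : {v : E d | L v = 0} = (K : Set (E d)) := by
    ext v
    exact Iff.rfl
  rw [h3]
  exact h2

open MeasureTheory in
theorem null_lin {d : ℕ} (L : E d → E d) (hadd : ∀ v w, L (v + w) = L v + L w)
    (hsmul : ∀ (c : ℂ) (v : E d), L (c • v) = c • L v) (hinj : Function.Injective L)
    {S : Set (E d)} (hS : volume S = 0) : volume (L ⁻¹' S) = 0 := by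
  haveI := volume_haar d
  let g : E d →ₗ[ℂ] E d :=
    { toFun := L
      map_add' := hadd
      map_smul' := fun c v => by rw [hsmul, RingHom.id_apply] }
  let f : E d →ₗ[ℝ] E d := g.restrictScalars ℝ
  have hdet : LinearMap.det f ≠ 0 := by
    intro h
    have h1 := LinearMap.bot_lt_ker_of_det_eq_zero h
    have h2 : LinearMap.ker f = ⊥ := LinearMap.ker_eq_bot.2 hinj
    rw [h2] at h1
    exact lt_irrefl _ h1
  have h3 := Measure.addHaar_preimage_linearMap (volume : Measure (E d)) hdet S
  rw [hS, mul_zero] at h3
  exact h3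

end Pool.Agent.H79.Par
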