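import Pool.Agent.H79.Par.NormalForm

set_option autoImplicit false

open Filter Topology Polynomial Metric Set

namespace Pool.Agent.H79.Par

open Pool.Agent.H44.Fatou Pool.Agent.H32.BT Pool.Agent.H79.Eul


/-
PROOF. Put W u = -(1/(N a u^N)). For u ≠ 0 small F u = u (1 + u^N k u) ≠ 0 and
W (F u) - W u = W u ((1 + u^N k u)^(-N) - 1) = -(1/(N a u^N)) (1 - (1 + y)^N)/(1 + y)^N with y = u^N k u; the
polynomial identity (1+y)^N - 1 = N y + y^2 (...) gives W (F u) - W u = (k u/a + O(y))/(1+y)^N → 1 as u → 0, u ≠ 0.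
So along the sequence W (u (j+1)) - W (u j) → 1, hence its real part is ≥ 1/2 eventually and
Re W (u j) → ∞ (e.g. by comparison with a linear sequence, tendsto_atTop_mono).
-/

theorem basin_alg (N : ℕ) (a u kk : ℂ) (ha : a ≠ 0) (hN : 1 ≤ N) (hu : u ≠ 0)
    (hy : 1 + u ^ N * kk ≠ 0) :
    -(1 / (N * a * (u + u ^ (N + 1) * kk) ^ N)) - -(1 / (N * a * u ^ N)) =
      kk * (∑ i ∈ Finset.range N, (1 + u ^ N * kk) ^ i) / (N * a * (1 + u ^ N * kk) ^ N) := by
  have hN0 : (N : ℂ) ≠ 0 := by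
    exact_mod_cast (by omega : N ≠ 0)
  have h1 : u + u ^ (N + 1) * kk = u * (1 + u ^ N * kk) := by ring
  have h2 := mul_geom_sum (1 + u ^ N * kk) N
  rw [h1, mul_pow]
  set S := ∑ i ∈ Finset.range N, (1 + u ^ N * kk) ^ i with hS
  have h3 : (1 + u ^ N * kk) ^ N = 1 + u ^ N * kk * S := by
    have : (1 + u ^ N * kk - 1) * S = u ^ N * kk * S := by ring
    rw [this] at h2
    rw [h2]; ring
  have hz : (1 + u ^ N * kk) ^ N ≠ 0 := pow_ne_zero _ hy
  have hun : u ^ N ≠ 0 := pow_ne_zero _ hu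
  field_simp
  rw [h3]
  ring

theorem basin_step {F k : ℂ → ℂ} {N : ℕ} {a : ℂ} (hN : 1 ≤ N) (ha : a ≠ 0) (h : NF F k N a) :
    Tendsto (fun u : ℂ => -(1 / (N * a * F u ^ N)) - -(1 / (N * a * u ^ N))) (𝓝[≠] 0)
      (𝓝 1) := by
  obtain ⟨hk, hk0, hF⟩ := h
  have hkc : Tendsto k (𝓝 0) (𝓝 a) := by
    have := hk.continuousAt.tendsto
    rwa [hk0] at this
  have hy : Tendsto (fun u : ℂ => 1 + u ^ N * k u) (𝓝 0) (𝓝 1) := by
    have h1 : Tendsto (fun u : ℂ => u ^ N) (𝓝 0) (𝓝 (0 ^ N)) := (continuous_pow N).tendsto 0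
    have h2 := (h1.mul hkc).const_add 1
    rwa [zero_pow (by omega), zero_mul, add_zero] at h2
  have hN0 : (N : ℂ) ≠ 0 := by
    exact_mod_cast (by omega : N ≠ 0)
  have hlim : Tendsto (fun u : ℂ => k u * (∑ i ∈ Finset.range N, (1 + u ^ N * k u) ^ i) /
      (N * a * (1 + u ^ N * k u) ^ N)) (𝓝 0) (𝓝 1) := by
    have h1 : Tendsto (fun u : ℂ => ∑ i ∈ Finset.range N, (1 + u ^ N * k u) ^ i) (𝓝 0)
        (𝓝 (∑ i ∈ Finset.range N, (1 : ℂ) ^ i)) := tendsto_finsetSum _ fun i _ => hy.pow i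
    have h2 : Tendsto (fun u : ℂ => (N : ℂ) * a * (1 + u ^ N * k u) ^ N) (𝓝 0)
        (𝓝 (N * a * 1 ^ N)) := (hy.pow N).const_mul _
    have h3 := (hkc.mul h1).div h2 (by simp [hN0, ha])
    have h4 : a * (∑ i ∈ Finset.range N, (1 : ℂ) ^ i) / (N * a * 1 ^ N) = 1 := by
      simp only [one_pow, Finset.sum_const, Finset.card_range, nsmul_eq_mul, mul_one]
      field_simp
    rwa [h4] at h3
  refine (hlim.mono_left nhdsWithin_le_nhds).congr' ?_
  have hne : ∀ᶠ u in 𝓝 (0 : ℂ), 1 + u ^ N * k u ≠ 0 := hy.eventually_ne one_ne_zero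
  filter_upwards [nhdsWithin_le_nhds hF, nhdsWithin_le_nhds hne, self_mem_nhdsWithin] with u h1 h2 h3
  rw [h1]
  exact (basin_alg N a u (k u) ha hN h3 h2).symm

theorem basin_re {F k : ℂ → ℂ} {N : ℕ} {a : ℂ} (hN : 1 ≤ N) (ha : a ≠ 0) (h : NF F k N a)
    {u : ℕ → ℂ} (hu : ∀ᶠ j in atTop, u (j + 1) = F (u j)) (hlim : Tendsto u atTop (𝓝 0))
    (hne : ∀ j, u j ≠ 0) :
    Tendsto (fun j => (-(1 / (N * a * u j ^ N))).re) atTop atTop := by
  have hlim' : Tendsto u atTop (𝓝[≠] 0) :=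
    tendsto_nhdsWithin_iff.2 ⟨hlim, Eventually.of_forall hne⟩
  have h1 := (basin_step hN ha h).comp hlim'
  have h2 : Tendsto (fun j => ((fun u : ℂ => -(1 / (N * a * F u ^ N)) - -(1 / (N * a * u ^ N))) ∘ u) j
      |>.re) atTop (𝓝 (1 : ℂ).re) := (Complex.continuous_re.tendsto 1).comp h1
  have h3 : ∀ᶠ j in atTop, (1 : ℝ) / 2 <
      (((fun u : ℂ => -(1 / (N * a * F u ^ N)) - -(1 / (N * a * u ^ N))) ∘ u) j).re :=
    h2.eventually_const_lt (by norm_num)
  obtain ⟨J, hJ⟩ := eventually_atTop.1 (hu.and h3)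
  rw [← tendsto_add_atTop_iff_nat J]
  set r : ℕ → ℝ := fun j => (-(1 / (N * a * u j ^ N))).re with hr
  have hstep : ∀ j, J ≤ j → r j + 1 / 2 ≤ r (j + 1) := by
    intro j hj
    obtain ⟨e1, e2⟩ := hJ j hj
    simp only [Function.comp, Complex.sub_re, hr] at e2 ⊢
    rw [e1]
    linarith
  have hlow : ∀ m : ℕ, r J + m * (1 / 2) ≤ r (m + J) := by
    intro m
    induction m with
    | zero => simp
    | succ m ih =>
      have := hstep (m + J) (by omega)
      have e : m + 1 + J = m + J + 1 := by omega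
      rw [e]
      push_cast
      linarith
  refine tendsto_atTop_mono hlow ?_
  exact tendsto_atTop_add_const_left _ _ (tendsto_natCast_atTop_atTop.atTop_mul_const (by norm_num))

/-- a convergent orbit which does not land shows that `F` is not the identity -/
theorem not_id {F : ℂ → ℂ} {u : ℕ → ℂ} (hu : ∀ᶠ j in atTop, u (j + 1) = F (u j))
    (hlim : Tendsto u atTop (𝓝 0)) (hne : ∀ j, u j ≠ 0) : ¬ ∀ᶠ z in 𝓝 (0 : ℂ), F z = z := by
  intro hid
  obtain ⟨J, hJ⟩ := eventually_atTop.1 (hu.and (hlim.eventually hid))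
  have h1 : ∀ m : ℕ, u (J + m) = u J := by
    intro m
    induction m with
    | zero => rfl
    | succ m ih =>
      obtain ⟨e1, e2⟩ := hJ (J + m) (by omega)
      rw [← add_assoc, e1, e2, ih]
  have h2 : Tendsto u atTop (𝓝 (u J)) := by
    refine tendsto_const_nhds.congr' ?_
    filter_upwards [eventually_ge_atTop J] with j hj
    have := h1 (j - J)
    rw [← this]
    congr 1
    omega
  exact hne J (tendsto_nhds_unique h2 hlim)

end Pool.Agent.H79.Par
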