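import Pool.Agent.H79.Par.Defs
import Pool.Agent.H79.Eul.Lift
import Pool.Agent.H79.Eul.PartFrac

set_option autoImplicit false

open Filter Topology Polynomial Metric Set

namespace Pool.Agent.H79.Par

open Pool.Agent.H44.Fatou Pool.Agent.H32.BT Pool.Agent.H79.Eul


/-
PROOF. Suppose x u = b with u > 0 (u = 0 is excluded by x 0 ≠ b). For a ∈ Z P let
l a = ∫ v in 0..u, (deriv of x)/(x v - a) with derivative Xf P Q (x v) (x v ≠ a since P (x v) ≠ 0). The derivative of
v ↦ exp (- ∫_0^v ...) * (x v - a) is 0, so exp (l a) = (b - a)/(x 0 - a) (compare lift_exp in H79/Eul/Lift.lean or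
PoleConn.lean, which do the same). ∑ res a * l a = ∫ ∑ res a/(x v - a) * Xf (x v) dv = ∫ (Q/P)(x v) P conj Q dv
= ∫ |Q (x v)|^2 dv =: t, real and positive (part_frac in H79/Eul/PartFrac; the integrand is continuous and
positive by hreg; intervalIntegral.intervalIntegral_pos_of_pos_on). This contradicts NoConn.
-/

theorem not_hit {P Q : Polynomial ℂ} (hsq : IsCoprime P (derivative P))
    (hdeg : Q.natDegree < P.natDegree) {x : ℝ → ℂ} (hx : IsOrb P Q x)
    (hreg : ∀ u : ℝ, 0 ≤ u → Reg P Q (x u)) {b : ℂ} (hb : x 0 ≠ b) (hN : NoConn P Q (x 0) b) :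
    ∀ u : ℝ, 0 ≤ u → x u ≠ b := by
  intro u hu hxu
  have hP0 : P ≠ 0 := by
    rintro rfl
    rw [natDegree_zero] at hdeg
    omega
  have hu0 : 0 < u := by
    rcases hu.lt_or_eq with h | h
    · exact h
    · exact absurd (h ▸ hxu) hb
  have hxc : ContinuousOn x (Ici 0) := fun s hs => (hx s hs).continuousAt.continuousWithinAt
  have hQc : ContinuousOn (fun v : ℝ => Q.eval (x v)) (Ici 0) :=
    Q.continuous.comp_continuousOn hxc
  have hPc : ContinuousOn (fun v : ℝ => P.eval (x v)) (Ici 0) :=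
    P.continuous.comp_continuousOn hxc
  have hXc : ContinuousOn (fun v : ℝ => Xf P Q (x v)) (Ici 0) := by
    unfold Xf
    exact hPc.mul (Complex.continuous_conj.comp_continuousOn hQc)
  have hne : ∀ a ∈ Z P, ∀ s : ℝ, 0 ≤ s → x s ≠ a := by
    intro a ha s hs h
    apply (hreg s hs).1
    rw [h]
    exact (mem_Z hP0).1 ha
  have hx' : ∀ s : ℝ, 0 ≤ s → HasDerivAt x ((fun v : ℝ => Xf P Q (x v)) s) s := hx
  have hsub : uIcc 0 u ⊆ Ici (0 : ℝ) := by
    rw [uIcc_of_le hu]
    exact fun v hv => hv.1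
  have hint : ∀ a ∈ Z P, IntervalIntegrable (fun v : ℝ => Xf P Q (x v) / (x v - a))
      MeasureTheory.volume 0 u := by
    intro a ha
    exact ((lift_cont hx' hXc (hne a ha)).mono hsub).intervalIntegrable
  refine hN (fun a => ∫ v in (0 : ℝ)..u, Xf P Q (x v) / (x v - a)) ?_
    (∫ v in (0 : ℝ)..u, ‖Q.eval (x v)‖ ^ 2) ?_ ?_
  · intro a ha
    rw [lift_exp hx' hXc (hne a ha) hu, hxu]
  · have hc2 : ContinuousOn (fun v : ℝ => ‖Q.eval (x v)‖ ^ 2) (Ici 0) := hQc.norm.pow 2
    refine intervalIntegral.intervalIntegral_pos_of_pos_on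
      (hc2.mono hsub).intervalIntegrable (fun v hv => ?_) hu0
    have h1 := (hreg v hv.1.le).2
    have h2 : 0 < ‖Q.eval (x v)‖ := norm_pos_iff.2 h1
    positivity
  · have h1 : ∑ a ∈ Z P, res P Q a * ∫ v in (0 : ℝ)..u, Xf P Q (x v) / (x v - a) =
        ∫ v in (0 : ℝ)..u, ∑ a ∈ Z P, res P Q a * (Xf P Q (x v) / (x v - a)) := by
      rw [intervalIntegral.integral_finsetSum (fun a ha => (hint a ha).const_mul _)]
      refine Finset.sum_congr rfl fun a _ => ?_
      rw [intervalIntegral.integral_const_mul]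
    rw [h1]
    have h2 : ∫ v in (0 : ℝ)..u, ∑ a ∈ Z P, res P Q a * (Xf P Q (x v) / (x v - a)) =
        ∫ v in (0 : ℝ)..u, ((‖Q.eval (x v)‖ ^ 2 : ℝ) : ℂ) := by
      refine intervalIntegral.integral_congr fun v hv => ?_
      have hv0 : 0 ≤ v := hsub hv
      have hPv := (hreg v hv0).1
      have h3 := part_frac hsq hdeg hPv
      have h4 : ∑ a ∈ Z P, res P Q a * (Xf P Q (x v) / (x v - a)) =
          Xf P Q (x v) * ∑ a ∈ Z P, res P Q a / (x v - a) := by
        rw [Finset.mul_sum]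
        refine Finset.sum_congr rfl fun a _ => ?_
        ring
      show ∑ a ∈ Z P, res P Q a * (Xf P Q (x v) / (x v - a)) = ((‖Q.eval (x v)‖ ^ 2 : ℝ) : ℂ)
      rw [h4, ← h3]
      unfold Xf
      have h5 : P.eval (x v) * (starRingEnd ℂ) (Q.eval (x v)) * (Q.eval (x v) / P.eval (x v)) =
          Q.eval (x v) * (starRingEnd ℂ) (Q.eval (x v)) := by
        field_simp
      rw [h5, Complex.mul_conj, Complex.normSq_eq_norm_sq]
    rw [h2, intervalIntegral.integral_ofReal]

end Pool.Agent.H79.Par
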