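import Pool.Agent.H79.Par.GoodBack
import Pool.Agent.H79.Par.NotHit

set_option autoImplicit false

open Filter Topology Polynomial Metric Set

namespace Pool.Agent.H79.Par

open Pool.Agent.H44.Fatou Pool.Agent.H32.BT Pool.Agent.H79.Eul


/-
PROOF (short): flow_to_sink (H79/Eul/FlowSink.lean) gives an orbit x from x0 converging to a sink a; not_hit
shows that it avoids 0; hsink and fl_good_back as in H79/Eul/FlowGood.lean.
-/

theorem fl_flow_good {T : Type} {l : Filter T} {P Q : Polynomial ℂ} (s : Fl T l P Q)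
    (hsq : IsCoprime P (derivative P)) (hdeg : P.natDegree = Q.natDegree + 1)
    (hcop : IsCoprime P Q) (hrep : (P.leadingCoeff / Q.leadingCoeff).re < 0) (hG : G1 P Q)
    (hsink : ∀ a : ℂ, P.eval a = 0 → Q.eval a ≠ 0 →
      ((derivative P).eval a / Q.eval a).re < 0 → ∃ ρ : ℝ, 0 < ρ ∧ ∀ z ∈ ball a ρ, s.Good z)
    {x0 : ℂ} (h0 : Reg P Q x0) (hx0 : x0 ≠ 0)
    (hN : ∀ b : ℂ, Q.eval b = 0 → NoConn P Q x0 b) (hN0 : NoConn P Q x0 0) :
    s.Good x0 := by
  obtain ⟨x, hx0', hx, hreg, a, ha, hQa, hneg, hlim⟩ :=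
    flow_to_sink hsq hdeg hcop hrep hG h0 hN
  obtain ⟨ρ, hρ, hgood⟩ := hsink a ha hQa hneg
  obtain ⟨S, hS0, hS⟩ := ((eventually_ge_atTop (0 : ℝ)).and
    (hlim.eventually (ball_mem_nhds a hρ))).exists
  have hlt : Q.natDegree < P.natDegree := by omega
  have hne : ∀ u : ℝ, 0 ≤ u → x u ≠ 0 := by
    refine not_hit hsq hlt hx hreg ?_ ?_
    · rw [hx0']; exact hx0
    · rw [hx0']; exact hN0
  rw [← hx0']
  exact fl_good_back s hx hreg hne hS0 (hgood _ hS)

end Pool.Agent.H79.Par
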