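import Pool.Agent.H79.Par.Defs

set_option autoImplicit false

open Filter Topology Polynomial Metric Set

namespace Pool.Agent.H79.Par

open Pool.Agent.H44.Fatou Pool.Agent.H32.BT Pool.Agent.H79.Eul


/-
PROOFS. Write V = Vp N κ a β (degree N + 1 with leading coefficient a, as κ + 1 ≤ N) and
V1 = V.comp (C c * X + C s0), natDegree N + 1, leading coefficient a c^(N+1), V1.eval x = V.eval (c x + s0),
V1.coeff 0 = V1.eval 0 = V.eval s0 = 0, V1.coeff 1 = (derivative V1).eval 0 = c * (derivative V).eval s0.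
ph_eval: eval_reflect or Polynomial.eval₂_reflect_eq_zero style computation: for w ≠ 0,
(reflect (N+1) V1).eval w = w^(N+1) V1.eval w⁻¹ (see eval_reflect in H44/Fatou/Basic).
ph_zero: (reflect (N+1) V1).eval 0 = V1.coeff (N+1) (eval_reflect_zero) = a c^(N+1).
ph_deg: coefficient of X^(N+1) of the reflected polynomial is V1.coeff 0 = 0, the coefficient of X^N is
V1.coeff 1 = c V'(s0) ≠ 0; ph_lead: so the leading coefficient of Ph is - V'(s0).
ph_root: if Ph w = 0 then w ≠ 0 (ph_zero), V (s0 + c/w) = 0 by ph_eval, and differentiating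
Ph w = -(w^(N+1)/c) V (s0 + c/w) at such a w (V = 0 there): Ph'(w) = -(w^(N+1)/c) V'(s0+c/w) (-c/w^2)
= w^(N-1) V'(s0 + c/w), i.e. Ph'(w)/w^(N-1) = V'(s0 + c/w).
ph_sq: Ph and Ph' have no common zero, by ph_root and hsq (isCoprime_iff_aeval_ne_zero_of_isAlgClosed as
in NiceGen.lean in H79/Eul). ph_cop: the only zero of X^(N-1) is 0 and Ph 0 ≠ 0.
ph_rot: V_φ(e x) with e = exp (θ I): if e^(N+1-κ) u⁻¹ = 1, i.e. u = e^(N+1-κ), then
Vp N κ a (u β) evaluated at e x is e^(N+1) V x; so both sides agree for w ≠ 0 by ph_eval, hence as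
polynomials (Polynomial.funext off one point, or eq_of_infinite_eval_eq).
-/

private theorem vp_natDegree_le {N κ : ℕ} (hκN : κ + 1 ≤ N) (a β : ℂ) :
    (Vp N κ a β).natDegree ≤ N + 1 := by
  unfold Vp
  refine (natDegree_add_le _ _).trans (max_le (natDegree_C_mul_X_pow_le _ _) ?_)
  exact (natDegree_C_mul_X_pow_le _ _).trans (by omega)

private theorem vc_natDegree_le {N κ : ℕ} (hκN : κ + 1 ≤ N) (a β s0 c : ℂ) :
    ((Vp N κ a β).comp (C c * X + C s0)).natDegree ≤ N + 1 := by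
  refine natDegree_comp_le.trans ?_
  refine (Nat.mul_le_mul (vp_natDegree_le hκN a β) (natDegree_linear_le (a := c) (b := s0))).trans ?_
  omega

private theorem vc_eval (N κ : ℕ) (a β s0 c x : ℂ) :
    ((Vp N κ a β).comp (C c * X + C s0)).eval x = (Vp N κ a β).eval (c * x + s0) := by
  rw [eval_comp]
  simp

theorem vp_eval (N κ : ℕ) (a β z : ℂ) :
    (Vp N κ a β).eval z = a * z ^ (N + 1) + β * z ^ κ := by
  simp [Vp]

theorem vp_deriv_eval {N κ : ℕ} (hκ : κ ≤ 1) (a β z : ℂ) :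
    (derivative (Vp N κ a β)).eval z = (N + 1) * a * z ^ N + κ * β := by
  unfold Vp
  interval_cases κ
  · simp
    ring
  · simp
    ring

theorem ph_eval {N κ : ℕ} (hκN : κ + 1 ≤ N) (a β s0 : ℂ) {c w : ℂ} (hw : w ≠ 0) :
    (Ph N κ a β s0 c).eval w = -(w ^ (N + 1) / c) * (Vp N κ a β).eval (s0 + c / w) := by
  have h1 := eval_reflect (vc_natDegree_le hκN a β s0 c) (inv_ne_zero hw)
  rw [inv_inv, vc_eval] at h1
  have h2 : (Ph N κ a β s0 c).eval w
      = -c⁻¹ * (reflect (N + 1) ((Vp N κ a β).comp (C c * X + C s0))).eval w := by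
    unfold Ph
    rw [eval_mul, eval_C]
  have h3 : (reflect (N + 1) ((Vp N κ a β).comp (C c * X + C s0))).eval w
      = w ^ (N + 1) * (Vp N κ a β).eval (s0 + c / w) := by
    have h4 : c * w⁻¹ + s0 = s0 + c / w := by
      rw [div_eq_mul_inv]
      ring
    rw [h4] at h1
    rw [h1]
    have h5 : w⁻¹ ^ (N + 1) * w ^ (N + 1) = 1 := by
      rw [← mul_pow, inv_mul_cancel₀ hw, one_pow]
    calc _ = (reflect (N + 1) ((Vp N κ a β).comp (C c * X + C s0))).eval w
          * (w⁻¹ ^ (N + 1) * w ^ (N + 1)) := by rw [h5, mul_one]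
      _ = _ := by ring
  rw [h2, h3]
  ring

theorem ph_zero {N κ : ℕ} (hκN : κ + 1 ≤ N) (a β s0 : ℂ) {c : ℂ} (hc : c ≠ 0) :
    (Ph N κ a β s0 c).eval 0 = -(a * c ^ N) := by
  have h2 : (Ph N κ a β s0 c).eval 0
      = -c⁻¹ * (reflect (N + 1) ((Vp N κ a β).comp (C c * X + C s0))).eval 0 := by
    unfold Ph
    rw [eval_mul, eval_C]
  rw [h2, eval_reflect_zero]
  have hlin : (C c * X + C s0).natDegree = 1 := natDegree_linear hc
  have h3 : ((Vp N κ a β).comp (C c * X + C s0)).coeff (N + 1) = a * c ^ (N + 1) := by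
    unfold Vp
    rw [add_comp, mul_comp, mul_comp, C_comp, C_comp, pow_comp, pow_comp, X_comp, coeff_add,
      coeff_C_mul, coeff_C_mul]
    have h4 : ((C c * X + C s0) ^ (N + 1)).coeff (N + 1) = c ^ (N + 1) := by
      have h5 : ((C c * X + C s0) ^ (N + 1)).natDegree = N + 1 := by
        rw [natDegree_pow, hlin, mul_one]
      have h6 : ((C c * X + C s0) ^ (N + 1)).leadingCoeff = c ^ (N + 1) := by
        rw [leadingCoeff_pow, leadingCoeff_linear hc]
      rw [leadingCoeff, h5] at h6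
      exact h6
    have h7 : ((C c * X + C s0) ^ κ).coeff (N + 1) = 0 := by
      apply coeff_eq_zero_of_natDegree_lt
      rw [natDegree_pow, hlin, mul_one]
      omega
    rw [h4, h7, mul_zero, add_zero]
  rw [h3, pow_succ]
  field_simp

private theorem ph_coeff {N κ : ℕ} (a β s0 c : ℂ) (n : ℕ) :
    (Ph N κ a β s0 c).coeff n
      = -c⁻¹ * ((Vp N κ a β).comp (C c * X + C s0)).coeff (revAt (N + 1) n) := by
  unfold Ph
  rw [coeff_C_mul, coeff_reflect]

private theorem vc_coeff_zero {N κ : ℕ} (a β s0 c : ℂ) :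
    ((Vp N κ a β).comp (C c * X + C s0)).coeff 0 = (Vp N κ a β).eval s0 := by
  rw [coeff_zero_eq_eval_zero, vc_eval, mul_zero, zero_add]

private theorem vc_coeff_one {N κ : ℕ} (a β s0 c : ℂ) :
    ((Vp N κ a β).comp (C c * X + C s0)).coeff 1 = c * (derivative (Vp N κ a β)).eval s0 := by
  have h1 : (derivative ((Vp N κ a β).comp (C c * X + C s0))).coeff 0
      = ((Vp N κ a β).comp (C c * X + C s0)).coeff 1 := by
    rw [coeff_derivative]
    simp
  rw [← h1, coeff_zero_eq_eval_zero, derivative_comp, eval_mul, eval_comp]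
  simp

theorem ph_deg {N κ : ℕ} (hκN : κ + 1 ≤ N) {a β s0 c : ℂ} (hc : c ≠ 0)
    (h0 : (Vp N κ a β).eval s0 = 0) (h1 : (derivative (Vp N κ a β)).eval s0 ≠ 0) :
    (Ph N κ a β s0 c).natDegree = N ∧
      (Ph N κ a β s0 c).leadingCoeff = -(derivative (Vp N κ a β)).eval s0 := by
  have hN : (Ph N κ a β s0 c).coeff N = -(derivative (Vp N κ a β)).eval s0 := by
    rw [ph_coeff, revAt_le (by omega), Nat.add_sub_cancel_left, vc_coeff_one]
    field_simp
  have hdeg : (Ph N κ a β s0 c).natDegree = N := by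
    apply natDegree_eq_of_le_of_coeff_ne_zero
    · rw [natDegree_le_iff_coeff_eq_zero]
      intro n hn
      rw [ph_coeff]
      rcases Nat.lt_or_ge (N + 1) n with h | h
      · rw [revAt_eq_self_of_lt h, coeff_eq_zero_of_natDegree_lt
          (lt_of_le_of_lt (vc_natDegree_le hκN a β s0 c) h), mul_zero]
      · have h2 : n = N + 1 := by omega
        rw [h2, revAt_le le_rfl, Nat.sub_self, vc_coeff_zero, h0, mul_zero]
    · rw [hN]
      exact neg_ne_zero.mpr h1
  refine ⟨hdeg, ?_⟩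
  rw [leadingCoeff, hdeg, hN]

theorem ph_root {N κ : ℕ} (hκN : κ + 1 ≤ N) {a β s0 c w : ℂ} (ha : a ≠ 0) (hc : c ≠ 0)
    (hw : (Ph N κ a β s0 c).eval w = 0) : w ≠ 0 ∧ (Vp N κ a β).eval (s0 + c / w) = 0 ∧
      (derivative (Ph N κ a β s0 c)).eval w / w ^ (N - 1) =
        (derivative (Vp N κ a β)).eval (s0 + c / w) := by
  have hw0 : w ≠ 0 := by
    intro h
    rw [h, ph_zero hκN a β s0 hc] at hw
    exact neg_ne_zero.mpr (mul_ne_zero ha (pow_ne_zero _ hc)) hw
  have hV : (Vp N κ a β).eval (s0 + c / w) = 0 := by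
    rw [ph_eval hκN a β s0 hw0] at hw
    rcases mul_eq_zero.mp hw with h | h
    · exfalso
      exact neg_ne_zero.mpr (div_ne_zero (pow_ne_zero _ hw0) hc) h
    · exact h
  refine ⟨hw0, hV, ?_⟩
  have hd1 : HasDerivAt (fun x : ℂ => (Ph N κ a β s0 c).eval x)
      ((derivative (Ph N κ a β s0 c)).eval w) w := (Ph N κ a β s0 c).hasDerivAt w
  have hinv : HasDerivAt (fun x : ℂ => s0 + c / x) (-(c / w ^ 2)) w := by
    have h1 : HasDerivAt (fun x : ℂ => x⁻¹) (-(w ^ 2)⁻¹) w := hasDerivAt_inv hw0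
    have h2 := (h1.const_mul c).const_add s0
    have h3 : c * -(w ^ 2)⁻¹ = -(c / w ^ 2) := by
      rw [div_eq_mul_inv]
      ring
    rw [h3] at h2
    simpa [div_eq_mul_inv] using h2
  have hd2 : HasDerivAt ((fun y : ℂ => (Vp N κ a β).eval y) ∘ (fun x : ℂ => s0 + c / x))
      ((derivative (Vp N κ a β)).eval (s0 + c / w) * -(c / w ^ 2)) w :=
    HasDerivAt.comp w ((Vp N κ a β).hasDerivAt (s0 + c / w)) hinv
  have hd3 : HasDerivAt (fun x : ℂ => -(x ^ (N + 1) / c))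
      (-(((N + 1 : ℕ) : ℂ) * w ^ N / c)) w := by
    have h1 : HasDerivAt (fun x : ℂ => -(x ^ (N + 1) / c))
        (-(((N + 1 : ℕ) : ℂ) * w ^ (N + 1 - 1) / c)) w :=
      ((hasDerivAt_pow (N + 1) w).div_const c).neg
    rwa [Nat.add_sub_cancel] at h1
  have hd4 := hd3.mul hd2
  have heq : (fun x : ℂ => (Ph N κ a β s0 c).eval x) =ᶠ[𝓝 w]
      (fun x : ℂ => -(x ^ (N + 1) / c)) *
        ((fun y : ℂ => (Vp N κ a β).eval y) ∘ (fun x : ℂ => s0 + c / x)) := by
    filter_upwards [isOpen_ne.mem_nhds hw0] with x hx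
    exact ph_eval hκN a β s0 hx
  have hd5 := hd4.congr_of_eventuallyEq heq
  have h6 := hd1.unique hd5
  have h7 : ((fun y : ℂ => (Vp N κ a β).eval y) ∘ fun x : ℂ => s0 + c / x) w = 0 := hV
  rw [h7, mul_zero, zero_add] at h6
  rw [h6]
  obtain ⟨M, rfl⟩ : ∃ M, N = M + 1 := ⟨N - 1, by omega⟩
  rw [Nat.add_sub_cancel, pow_succ, pow_succ]
  field_simp

theorem ph_sq {N κ : ℕ} (hκN : κ + 1 ≤ N) {a β s0 c : ℂ} (ha : a ≠ 0) (hc : c ≠ 0)
    (hsq : ∀ z, (Vp N κ a β).eval z = 0 → (derivative (Vp N κ a β)).eval z ≠ 0) :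
    IsCoprime (Ph N κ a β s0 c) (derivative (Ph N κ a β s0 c)) := by
  rw [isCoprime_iff_aeval_ne_zero_of_isAlgClosed ℂ ℂ]
  intro w
  by_contra h
  push Not at h
  obtain ⟨h1, h2⟩ := h
  rw [coe_aeval_eq_eval] at h1 h2
  obtain ⟨hw0, hV, hd⟩ := ph_root hκN ha hc h1
  rw [h2, zero_div] at hd
  exact hsq _ hV hd.symm

theorem ph_cop {N κ : ℕ} (hκN : κ + 1 ≤ N) {a β s0 c : ℂ} (ha : a ≠ 0) (hc : c ≠ 0) :
    IsCoprime (Ph N κ a β s0 c) (X ^ (N - 1)) := by
  apply IsCoprime.pow_right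
  rw [isCoprime_iff_aeval_ne_zero_of_isAlgClosed ℂ ℂ]
  intro w
  by_contra h
  push Not at h
  obtain ⟨h1, h2⟩ := h
  rw [coe_aeval_eq_eval] at h1 h2
  rw [eval_X] at h2
  exact (ph_root hκN ha hc h1).1 h2

theorem ph_rot {N κ : ℕ} (hκN : κ + 1 ≤ N) (a β s0 : ℂ) {e : ℂ} (he : e ≠ 0) :
    Ph N κ a (e ^ (N + 1 - κ) * β) (e * s0) e = C (e ^ N) * Ph N κ a β s0 1 := by
  apply eq_of_infinite_eval_eq
  refine Set.Infinite.mono (s := {x : ℂ | x ≠ 0}) ?_ ?_
  · intro w hw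
    have hw0 : w ≠ 0 := hw
    show (Ph N κ a (e ^ (N + 1 - κ) * β) (e * s0) e).eval w = (C (e ^ N) * Ph N κ a β s0 1).eval w
    rw [eval_mul, eval_C, ph_eval hκN _ _ _ hw0, ph_eval hκN _ _ _ hw0, vp_eval, vp_eval]
    have h1 : e * s0 + e / w = e * (s0 + 1 / w) := by
      rw [mul_add, mul_one_div]
    rw [h1, mul_pow, mul_pow]
    have h2 : e ^ (N + 1 - κ) * e ^ κ = e ^ (N + 1) := by
      rw [← pow_add]
      congr 1
      omega
    have h3 : a * (e ^ (N + 1) * (s0 + 1 / w) ^ (N + 1))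
        + e ^ (N + 1 - κ) * β * (e ^ κ * (s0 + 1 / w) ^ κ)
        = e ^ (N + 1) * (a * (s0 + 1 / w) ^ (N + 1) + β * (s0 + 1 / w) ^ κ) := by
      calc _ = e ^ (N + 1) * (a * (s0 + 1 / w) ^ (N + 1))
            + (e ^ (N + 1 - κ) * e ^ κ) * (β * (s0 + 1 / w) ^ κ) := by ring
        _ = _ := by rw [h2]; ring
    rw [h3, pow_succ e N]
    field_simp
  · exact Set.infinite_of_finite_compl (by
      have : ({x : ℂ | x ≠ 0})ᶜ = {0} := by
        ext x
        simp
      rw [this]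
      exact Set.finite_singleton 0)

/-- the zeros of `V` are simple -/
theorem vp_sq {N κ : ℕ} (hκ : κ ≤ 1) (hκN : κ + 1 ≤ N) {a β : ℂ} (ha : a ≠ 0) (hβ : β ≠ 0) :
    ∀ z, (Vp N κ a β).eval z = 0 → (derivative (Vp N κ a β)).eval z ≠ 0 := by
  intro z hz
  rw [vp_eval] at hz
  rw [vp_deriv_eval hκ]
  intro hd
  have hNC : ((N : ℂ) + 1) ≠ 0 := by exact_mod_cast Nat.succ_ne_zero N
  have hN0 : (N : ℂ) ≠ 0 := by
    have : N ≠ 0 := by omega
    exact_mod_cast this
  interval_cases κ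
  · simp only [pow_zero, mul_one, Nat.cast_zero, zero_mul, add_zero] at hz hd
    have h1 : z ^ N = 0 := by
      rcases mul_eq_zero.mp hd with h | h
      · exact absurd h (mul_ne_zero hNC ha)
      · exact h
    rw [pow_succ, h1, zero_mul, mul_zero, zero_add] at hz
    exact hβ hz
  · simp only [pow_one, Nat.cast_one, one_mul] at hz hd
    by_cases hz0 : z = 0
    · rw [hz0, zero_pow (by omega), mul_zero, zero_add] at hd
      exact hβ hd
    · have h1 : a * z ^ N + β = 0 := by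
        have h2 : z * (a * z ^ N + β) = 0 := by
          rw [← hz, pow_succ]
          ring
        exact (mul_eq_zero.mp h2).resolve_left hz0
      have h3 : (N : ℂ) * (a * z ^ N) = 0 := by
        have h4 : ((N : ℂ) + 1) * a * z ^ N + β = N * (a * z ^ N) + (a * z ^ N + β) := by ring
        rw [h4, h1, add_zero] at hd
        exact hd
      have h5 : a * z ^ N = 0 := (mul_eq_zero.mp h3).resolve_left hN0
      rw [h5, zero_add] at h1
      exact hβ h1

end Pool.Agent.H79.Par
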