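import Pool.Agent.H79.Par.Resc
import Pool.Agent.H79.Par.PhBasic
import Pool.Agent.H79.Eul.Cpt

set_option autoImplicit false

open Filter Topology Polynomial Metric Set

namespace Pool.Agent.H79.Par

open Pool.Agent.H44.Fatou Pool.Agent.H32.BT Pool.Agent.H79.Eul


/-
PROOF of sink_trap. Let V = Vp N κ a β, λ = V'(b), Re λ = -4 σ < 0. Choose ρ0 with ‖V' - λ‖ ≤ σ on closedBall b (2 ρ0).
E τ z = (G τ z - z)/t - V z, t = ep^N, is holomorphic near closedBall b (2 ρ0) for τ far (resc_hol, ev_compact)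
and ‖E‖ ≤ η there, η as small as we want (resc_lim, unif_compact), so ‖E'‖ ≤ η/ρ0 ≤ σ on closedBall b ρ0
(Complex.norm_deriv_le_of_forall_mem_sphere_norm_le on spheres of radius ρ0) . So on closedBall b ρ0 the map G
is Lipschitz with constant ‖1 + t λ‖ + 2 σ t ≤ q = 1 - σ t (as in trap_sink, H79/Eul/Trap.lean), and
‖G b - b‖ = t ‖E b‖ ≤ t η, so G maps closedBall b ρ0 into the open ball if η < σ ρ0. Transport to u = ep z:
F maps closedBall (ep b) (ep ρ0) into the open ball, with the same Lipschitz constant, and this ball lies in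
ball 0 r for τ far: s.trap.
-/

theorem sink_trap {T : Type} {l : Filter T} {N κ : ℕ} {a β : ℂ} (hN : 1 ≤ N)
    (s : Germ T l N κ a β) {b : ℂ} (h0 : (Vp N κ a β).eval b = 0)
    (h1 : ((derivative (Vp N κ a β)).eval b).re < 0) :
    ∃ ρ : ℝ, 0 < ρ ∧ ∀ᶠ τ in l, ∀ z ∈ closedBall b ρ, s.att τ ((s.ep τ : ℂ) * z) := by
  set V : Polynomial ℂ := Vp N κ a β with hV
  set lam : ℂ := (derivative V).eval b with hlam
  obtain ⟨σ, hσ, hre⟩ : ∃ σ : ℝ, 0 < σ ∧ lam.re = -(4 * σ) :=
    ⟨-lam.re / 4, by linarith, by ring⟩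
  -- radius
  obtain ⟨r1, hr1, hVd⟩ : ∃ r1 : ℝ, 0 < r1 ∧ ∀ z ∈ ball b r1, ‖(derivative V).eval z - lam‖ < σ := by
    have hc : Tendsto (fun z : ℂ => ‖(derivative V).eval z - lam‖) (𝓝 b) (𝓝 0) := by
      have h2 := (((derivative V).continuous.tendsto b).sub_const lam).norm
      rw [← hlam, sub_self, norm_zero] at h2
      exact h2
    obtain ⟨r1, hr1, h⟩ := Metric.mem_nhds_iff.1 (hc.eventually (gt_mem_nhds hσ))
    exact ⟨r1, hr1, fun z hz => h hz⟩
  set ρ : ℝ := r1 / 4 with hρ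
  have hρ0 : 0 < ρ := by positivity
  have hK1 : closedBall b (2 * ρ) ⊆ ball b r1 := closedBall_subset_ball (by linarith)
  have hbig : closedBall b ρ ⊆ closedBall b (2 * ρ) := closedBall_subset_closedBall (by linarith)
  have eE := unif_compact (l := l) (isCompact_closedBall b (2 * ρ))
    (f := fun τ z => (s.G τ z - z) / ((s.ep τ ^ N : ℝ) : ℂ)) (F := fun z => V.eval z)
    (fun z _ => V.continuous.continuousAt) (fun z _ => resc_lim s z) (ε := σ * ρ) (by positivity)
  have eD := ev_compact (l := l) (isCompact_closedBall b (2 * ρ))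
    (p := fun τ z => DifferentiableAt ℂ (s.G τ) z) (fun z _ => resc_hol s z)
  have htl : Tendsto (fun τ => s.ep τ ^ N) l (𝓝 0) := by
    have h2 := s.ep_lim.pow N
    rwa [zero_pow (by omega)] at h2
  have e4 : ∀ᶠ τ in l, s.ep τ ^ N * ‖lam‖ ^ 2 < 2 * σ := by
    have := htl.mul_const (‖lam‖ ^ 2)
    rw [zero_mul] at this
    exact this.eventually (gt_mem_nhds (by positivity))
  have e5 : ∀ᶠ τ in l, s.ep τ ^ N * (3 * σ) < 1 := by
    have := htl.mul_const (3 * σ)
    rw [zero_mul] at this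
    exact this.eventually (gt_mem_nhds one_pos)
  obtain ⟨r, hr, htrap⟩ := s.trap
  have e6 : ∀ᶠ τ in l, s.ep τ * (‖b‖ + ρ) < r := by
    have := s.ep_lim.mul_const (‖b‖ + ρ)
    rw [zero_mul] at this
    exact this.eventually (gt_mem_nhds hr)
  refine ⟨ρ, hρ0, ?_⟩
  filter_upwards [eE, eD, e4, e5, e6, s.ep_pos, htrap] with τ hE hD h4 h5 h6 hep htr
  set t : ℝ := s.ep τ ^ N with ht
  have hpos : 0 < t := pow_pos hep N
  have htC : (t : ℂ) ≠ 0 := by exact_mod_cast hpos.ne'
  have hepC : (s.ep τ : ℂ) ≠ 0 := by exact_mod_cast hep.ne'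
  have hq0 : 0 ≤ 1 - σ * t := by nlinarith
  have hq1 : 1 - σ * t < 1 := by nlinarith
  -- the error term
  set E : ℂ → ℂ := fun z => (s.G τ z - z) / (t : ℂ) - V.eval z with hEdef
  have hGE : ∀ z, s.G τ z = z + (t : ℂ) * (V.eval z + E z) := by
    intro z
    rw [hEdef]
    simp only
    field_simp
    ring
  have hEb : ∀ z ∈ closedBall b (2 * ρ), ‖E z‖ < σ * ρ := fun z hz => hE z hz
  have hEd : ∀ z ∈ closedBall b (2 * ρ), DifferentiableAt ℂ E z := by
    intro z hz
    exact (((hD z hz).sub differentiableAt_id).div_const _).sub V.differentiable.differentiableAt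
  have hE' : ∀ z ∈ closedBall b ρ, ‖deriv E z‖ ≤ σ := by
    intro z hz
    have hsub : closedBall z ρ ⊆ closedBall b (2 * ρ) := by
      intro w hw
      rw [mem_closedBall] at hz hw ⊢
      calc dist w b ≤ dist w z + dist z b := dist_triangle _ _ _
        _ ≤ ρ + ρ := add_le_add hw hz
        _ = 2 * ρ := by ring
    have hdc : DiffContOnCl ℂ E (ball z ρ) := by
      apply DifferentiableOn.diffContOnCl
      rw [closure_ball z hρ0.ne']
      intro w hw
      exact (hEd w (hsub hw)).differentiableWithinAt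
    have h7 := Complex.norm_deriv_le_of_forall_mem_sphere_norm_le hρ0 hdc
      (fun w hw => (hEb w (hsub (sphere_subset_closedBall hw))).le)
    rwa [mul_div_cancel_right₀ _ hρ0.ne'] at h7
  -- Lipschitz
  have hnorm : ‖1 + (t : ℂ) * lam‖ ≤ 1 - 3 * σ * t := by
    have hnn : 0 ≤ 1 - 3 * σ * t := by nlinarith
    apply le_of_sq_le_sq _ hnn
    rw [Complex.sq_norm, Complex.normSq_apply]
    have hl : ‖lam‖ ^ 2 = lam.re * lam.re + lam.im * lam.im := by
      rw [Complex.sq_norm, Complex.normSq_apply]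
    have r1 : (1 + (t : ℂ) * lam).re = 1 + t * lam.re := by simp
    have r2 : (1 + (t : ℂ) * lam).im = t * lam.im := by simp
    rw [r1, r2]
    have h6 : t * (t * ‖lam‖ ^ 2) ≤ t * (2 * σ) :=
      mul_le_mul_of_nonneg_left h4.le hpos.le
    rw [hl] at h6
    rw [hre] at h6 ⊢
    nlinarith [mul_pos hσ hpos]
  have hlip : ∀ z ∈ closedBall b ρ, ∀ w ∈ closedBall b ρ,
      ‖s.G τ z - s.G τ w‖ ≤ (1 - σ * t) * ‖z - w‖ := by
    intro z hz w hw
    have hder : ∀ x ∈ closedBall b ρ, HasDerivWithinAt (s.G τ)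
        (1 + (t : ℂ) * ((derivative V).eval x + deriv E x)) (closedBall b ρ) x := by
      intro x hx
      have h8 : HasDerivAt (fun z => z + (t : ℂ) * (V.eval z + E z))
          (1 + (t : ℂ) * ((derivative V).eval x + deriv E x)) x :=
        (hasDerivAt_id x).add
          (((V.hasDerivAt x).add (hEd x (hbig hx)).hasDerivAt).const_mul (t : ℂ))
      have h9 : s.G τ = fun z => z + (t : ℂ) * (V.eval z + E z) := funext hGE
      rw [h9]
      exact h8.hasDerivWithinAt
    have hbd : ∀ x ∈ closedBall b ρ,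
        ‖1 + (t : ℂ) * ((derivative V).eval x + deriv E x)‖ ≤ 1 - σ * t := by
      intro x hx
      have h7 : 1 + (t : ℂ) * ((derivative V).eval x + deriv E x) =
          (1 + (t : ℂ) * lam) + (t : ℂ) * (((derivative V).eval x - lam) + deriv E x) := by ring
      rw [h7]
      refine (norm_add_le _ _).trans ?_
      rw [norm_mul, Complex.norm_real, Real.norm_eq_abs, abs_of_pos hpos]
      have h8 : ‖((derivative V).eval x - lam) + deriv E x‖ ≤ σ + σ :=
        (norm_add_le _ _).trans (add_le_add (hVd x (hK1 (hbig hx))).le (hE' x hx))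
      have h9 : t * ‖((derivative V).eval x - lam) + deriv E x‖ ≤ t * (σ + σ) :=
        mul_le_mul_of_nonneg_left h8 hpos.le
      linarith
    exact (convex_closedBall b ρ).norm_image_sub_le_of_norm_hasDerivWithin_le hder hbd hw hz
  have hmap : ∀ z ∈ closedBall b ρ, ‖s.G τ z - b‖ < ρ := by
    intro z hz
    have hb : b ∈ closedBall b ρ := mem_closedBall_self hρ0.le
    have h10 := hlip z hz b hb
    have h11 : ‖z - b‖ ≤ ρ := by rwa [← dist_eq_norm, ← mem_closedBall]
    have h12 : ‖s.G τ b - b‖ < t * (σ * ρ) := by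
      have h13 : s.G τ b - b = (t : ℂ) * E b := by
        rw [hGE b, h0]; ring
      rw [h13, norm_mul, Complex.norm_real, Real.norm_eq_abs, abs_of_pos hpos]
      exact mul_lt_mul_of_pos_left (hEb b (hbig hb)) hpos
    calc ‖s.G τ z - b‖ = ‖(s.G τ z - s.G τ b) + (s.G τ b - b)‖ := by congr 1; ring
      _ ≤ (1 - σ * t) * ρ + ‖s.G τ b - b‖ := by
          refine (norm_add_le _ _).trans (add_le_add (h10.trans ?_) le_rfl)
          exact mul_le_mul_of_nonneg_left h11 hq0
      _ < (1 - σ * t) * ρ + t * (σ * ρ) := by linarith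
      _ = ρ := by ring
  -- transport
  have hFG : ∀ z, s.F τ ((s.ep τ : ℂ) * z) = (s.ep τ : ℂ) * s.G τ z := by
    intro z
    unfold Germ.G
    field_simp
  have hmem : ∀ u ∈ closedBall ((s.ep τ : ℂ) * b) (s.ep τ * ρ),
      ∃ z ∈ closedBall b ρ, u = (s.ep τ : ℂ) * z := by
    intro u hu
    refine ⟨u / (s.ep τ : ℂ), ?_, by field_simp⟩
    rw [mem_closedBall, dist_eq_norm] at hu ⊢
    have h13 : u / (s.ep τ : ℂ) - b = (u - (s.ep τ : ℂ) * b) / (s.ep τ : ℂ) := by
      field_simp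
    rw [h13, norm_div, Complex.norm_real, Real.norm_eq_abs, abs_of_pos hep, div_le_iff₀ hep]
    linarith [mul_comm (s.ep τ) ρ]
  intro z hz
  refine htr ((s.ep τ : ℂ) * b) (s.ep τ * ρ) (1 - σ * t) (by positivity) hq0 hq1 ?_ ?_ ?_
    ((s.ep τ : ℂ) * z) ?_
  · intro u hu
    rw [mem_ball, dist_zero_right]
    rw [mem_closedBall, dist_eq_norm] at hu
    calc ‖u‖ = ‖(u - (s.ep τ : ℂ) * b) + (s.ep τ : ℂ) * b‖ := by congr 1; ring
      _ ≤ s.ep τ * ρ + s.ep τ * ‖b‖ := by
          refine (norm_add_le _ _).trans (add_le_add hu ?_)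
          rw [norm_mul, Complex.norm_real, Real.norm_eq_abs, abs_of_pos hep]
      _ = s.ep τ * (‖b‖ + ρ) := by ring
      _ < r := h6
  · intro u hu
    obtain ⟨w, hw, rfl⟩ := hmem u hu
    rw [hFG, mem_ball, dist_eq_norm, ← mul_sub, norm_mul, Complex.norm_real, Real.norm_eq_abs,
      abs_of_pos hep]
    exact mul_lt_mul_of_pos_left (hmap w hw) hep
  · intro u hu v hv
    obtain ⟨w, hw, rfl⟩ := hmem u hu
    obtain ⟨w', hw', rfl⟩ := hmem v hv
    rw [hFG, hFG, ← mul_sub, ← mul_sub, norm_mul, norm_mul, Complex.norm_real, Real.norm_eq_abs,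
      abs_of_pos hep]
    calc s.ep τ * ‖s.G τ w - s.G τ w'‖ ≤ s.ep τ * ((1 - σ * t) * ‖w - w'‖) :=
          mul_le_mul_of_nonneg_left (hlip w hw w' hw') hep.le
      _ = (1 - σ * t) * (s.ep τ * ‖w - w'‖) := by ring
  · rw [mem_closedBall, dist_eq_norm] at hz ⊢
    rw [← mul_sub, norm_mul, Complex.norm_real, Real.norm_eq_abs, abs_of_pos hep]
    exact mul_le_mul_of_nonneg_left hz hep.le

end Pool.Agent.H79.Par
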