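import Pool.Agent.H79.Par.Resc
import Pool.Agent.H79.Par.PhBasic
import Pool.Agent.H79.Par.SinkTrap

set_option autoImplicit false

open Filter Topology Polynomial Metric Set

namespace Pool.Agent.H79.Par

open Pool.Agent.H44.Fatou Pool.Agent.H32.BT Pool.Agent.H79.Eul


/-
PROOFS. exists_fl: h = ep^N, g = s.gw s0 c, att τ w = s.att τ (ep (s0 + c/w)). lim at w0 ≠ 0: with z = s0 + c/w → z0,
G z - z = t (V z0 + o(1)) (resc_lim composed with (τ,w) ↦ (τ, s0 + c/w)), G z - s0 → c/w0 ≠ 0, and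
gw - w = c/(G - s0) - c/(z - s0) = - c (G - z)/((G - s0)(z - s0)), so (gw - w)/t → - V(z0) w0^2/c
= Ph(w0)/w0^(N-1) by ph_eval. step: att τ (gw w) is s.att τ (ep (s0 + c/gw)) and s0 + c/(c/(G - s0)) = G (also if
G = s0, by c/0 = 0, given c ≠ 0), so this is resc_step. exists_fl also gives the identification of att.
fl_sinks: a zero b of Ph with Re (Ph'(b)/b^(N-1)) < 0 corresponds to z = s0 + c/b with V z = 0, Re V'(z) < 0
(ph_root); sink_trap, and w ↦ s0 + c/w is continuous at b ≠ 0.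
-/

theorem exists_fl {T : Type} {l : Filter T} {N κ : ℕ} {a β s0 c : ℂ} (hκN : κ + 1 ≤ N)
    (hc : c ≠ 0) (s : Germ T l N κ a β) :
    ∃ f : Fl T l (Ph N κ a β s0 c) (X ^ (N - 1)), (∀ τ, f.h τ = s.ep τ ^ N) ∧
      (∀ τ w, f.g τ w = s.gw s0 c τ w) ∧
      ∀ τ w, f.att τ w ↔ s.att τ ((s.ep τ : ℂ) * (s0 + c / w)) := by
  have hN : 1 ≤ N := by omega
  have hpull : ∀ w0 : ℂ, w0 ≠ 0 → Tendsto (fun y : T × ℂ => (y.1, s0 + c / y.2))
      (l ×ˢ 𝓝 w0) (l ×ˢ 𝓝 (s0 + c / w0)) := by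
    intro w0 hw0
    have h1 : Tendsto (fun w : ℂ => s0 + c / w) (𝓝 w0) (𝓝 (s0 + c / w0)) :=
      tendsto_const_nhds.add (tendsto_const_nhds.div tendsto_id hw0)
    exact tendsto_fst.prodMk (h1.comp tendsto_snd)
  have hG : ∀ τ w, s0 + c / s.gw s0 c τ w = s.G τ (s0 + c / w) := by
    intro τ w
    unfold Germ.gw
    rw [div_div_cancel₀ hc]
    ring
  refine ⟨{ h := fun τ => s.ep τ ^ N
            g := fun τ w => s.gw s0 c τ w
            att := fun τ w => s.att τ ((s.ep τ : ℂ) * (s0 + c / w))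
            h_pos := s.ep_pos.mono fun τ h => pow_pos h N
            h_lim := ?_
            lim := ?_
            step := ?_ }, fun _ => rfl, fun _ _ => rfl, fun _ _ => Iff.rfl⟩
  · have h := s.ep_lim.pow N
    rwa [zero_pow (by omega : N ≠ 0)] at h
  · intro w0 hw0 _
    have hL := (resc_lim s (s0 + c / w0)).comp (hpull w0 hw0)
    have hI := (resc_id hN s (s0 + c / w0)).comp (hpull w0 hw0)
    have hI2 : Tendsto (fun y : T × ℂ => s.G y.1 (s0 + c / y.2) - s0) (l ×ˢ 𝓝 w0)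
        (𝓝 (c / w0)) := by
      have := hI.sub_const s0
      simpa [Function.comp_def] using this
    have hne : c / w0 ≠ 0 := div_ne_zero hc hw0
    have hw : Tendsto (fun y : T × ℂ => y.2) (l ×ˢ 𝓝 w0) (𝓝 w0) := tendsto_snd
    have hM : Tendsto (fun y : T × ℂ =>
        -((s.G y.1 (s0 + c / y.2) - (s0 + c / y.2)) / ((s.ep y.1 ^ N : ℝ) : ℂ)) * y.2 /
          (s.G y.1 (s0 + c / y.2) - s0)) (l ×ˢ 𝓝 w0)
        (𝓝 (-((Vp N κ a β).eval (s0 + c / w0)) * w0 / (c / w0))) :=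
      ((hL.neg).mul hw).div hI2 hne
    have hval : (Ph N κ a β s0 c).eval w0 / (X ^ (N - 1) : Polynomial ℂ).eval w0 =
        -((Vp N κ a β).eval (s0 + c / w0)) * w0 / (c / w0) := by
      rw [ph_eval hκN a β s0 hw0, eval_pow, eval_X]
      have e1 : w0 ^ (N + 1) = w0 ^ (N - 1) * w0 ^ 2 := by
        rw [← pow_add]
        congr 1
        omega
      have e2 : w0 ^ (N - 1) ≠ 0 := pow_ne_zero _ hw0
      rw [e1]
      field_simp
    rw [hval]
    refine hM.congr' ?_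
    have ev1 : ∀ᶠ y : T × ℂ in l ×ˢ 𝓝 w0, s.G y.1 (s0 + c / y.2) - s0 ≠ 0 :=
      hI2.eventually_ne hne
    have ev2 : ∀ᶠ y : T × ℂ in l ×ˢ 𝓝 w0, y.2 ≠ 0 := hw.eventually_ne hw0
    filter_upwards [ev1, ev2] with y h1 h2
    have e3 : s.gw s0 c y.1 y.2 - y.2 =
        -(s.G y.1 (s0 + c / y.2) - (s0 + c / y.2)) * y.2 /
          (s.G y.1 (s0 + c / y.2) - s0) := by
      unfold Germ.gw
      rw [eq_div_iff h1, sub_mul, div_mul_cancel₀ _ h1]
      have : -(s.G y.1 (s0 + c / y.2) - (s0 + c / y.2)) * y.2 =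
          -(s.G y.1 (s0 + c / y.2) - s0) * y.2 + c / y.2 * y.2 := by ring
      rw [this, div_mul_cancel₀ _ h2]
      ring
    rw [e3]
    ring
  · intro w0 hw0 _
    have h := (hpull w0 hw0).eventually (resc_step s (s0 + c / w0))
    filter_upwards [h] with y hy hatt
    apply hy
    have := hG y.1 y.2
    rw [this] at hatt
    exact hatt

theorem fl_sinks {T : Type} {l : Filter T} {N κ : ℕ} {a β s0 c : ℂ} (hκN : κ + 1 ≤ N)
    (ha : a ≠ 0) (hc : c ≠ 0) (s : Germ T l N κ a β)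
    (f : Fl T l (Ph N κ a β s0 c) (X ^ (N - 1)))
    (hf : ∀ τ w, f.att τ w ↔ s.att τ ((s.ep τ : ℂ) * (s0 + c / w))) (b : ℂ)
    (h0 : (Ph N κ a β s0 c).eval b = 0)
    (hb : ((derivative (Ph N κ a β s0 c)).eval b / (X ^ (N - 1) : Polynomial ℂ).eval b).re < 0) :
    ∃ ρ : ℝ, 0 < ρ ∧ ∀ z ∈ ball b ρ, f.Good z := by
  obtain ⟨hb0, hV, hV'⟩ := ph_root hκN ha hc h0
  rw [eval_pow, eval_X, hV'] at hb
  obtain ⟨ρ0, hρ0, hev⟩ := sink_trap (by omega : 1 ≤ N) s hV hb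
  have hcont : Tendsto (fun w : ℂ => s0 + c / w) (𝓝 b) (𝓝 (s0 + c / b)) :=
    tendsto_const_nhds.add (tendsto_const_nhds.div tendsto_id hb0)
  have hmem : ∀ᶠ w in 𝓝 b, s0 + c / w ∈ ball (s0 + c / b) ρ0 :=
    hcont.eventually (ball_mem_nhds _ hρ0)
  obtain ⟨ρ, hρ, hball⟩ := Metric.eventually_nhds_iff_ball.1 hmem
  refine ⟨ρ, hρ, fun z hz => ?_⟩
  have h1 : ∀ᶠ w in 𝓝 z, w ∈ ball b ρ := isOpen_ball.mem_nhds hz
  have h2 := hev.prod_mk h1
  unfold Fl.Good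
  filter_upwards [h2] with y hy
  rw [hf]
  exact hy.1 _ (ball_subset_closedBall (hball _ hy.2))

end Pool.Agent.H79.Par
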