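import Pool.Agent.H79.Par.Defs
import Pool.Agent.H79.Eul.PhiLocal
import Pool.Agent.H79.Eul.PoleChart

set_option autoImplicit false

open Filter Topology Polynomial Metric Set

namespace Pool.Agent.H79.Par

open Pool.Agent.H44.Fatou Pool.Agent.H32.BT Pool.Agent.H79.Eul


/-
PROOF. pole_chart (H79/Eul/PoleChart.lean) with Q = X^(N-1), a = 0 gives ρ, Φ and the NoConn statement (natDegree
of X^(N-1) is N - 1 < N). k z = Φ z/z^N for z ≠ 0, k 0 = 1/(N P 0); continuity at 0 exactly as in exists_pole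
(H79/Eul/PhiLocal.lean): the derivative of Φ z - z^N/(N P 0) is z^(N-1) (1/P z - 1/P 0).
-/

theorem exists_poleN {P : Polynomial ℂ} {N : ℕ} (hN : 1 ≤ N) (hsq : IsCoprime P (derivative P))
    (hdeg : P.natDegree = N) (hP0 : P.eval 0 ≠ 0) :
    ∃ (ρ : ℝ) (Φ k : ℂ → ℂ), PoleN P N ρ Φ k ∧
      ∀ b : ℂ, NoConn P (X ^ (N - 1)) 0 b → ∀ z ∈ ball (0 : ℂ) ρ, ∀ t : ℝ, 0 < t → Φ z = t →
        NoConn P (X ^ (N - 1)) z b := by
  classical
  obtain ⟨j, rfl⟩ : ∃ j, N = j + 1 := ⟨N - 1, by omega⟩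
  simp only [Nat.add_sub_cancel]
  have hXdeg : (X ^ j : Polynomial ℂ).natDegree < P.natDegree := by
    rw [natDegree_X_pow, hdeg]
    exact Nat.lt_succ_self j
  obtain ⟨ρ, Φ, hρ, hΦ0, hΦ, hNC⟩ := pole_chart hsq hXdeg (pow_ne_zero j X_ne_zero) hP0
  have hj0 : ((j : ℂ) + 1) ≠ 0 := by exact_mod_cast Nat.succ_ne_zero j
  have hder : ∀ z ∈ ball (0 : ℂ) ρ, HasDerivAt Φ (z ^ j / P.eval z) z := by
    intro z hz
    have h := (hΦ z hz).2.2
    rwa [eval_pow, eval_X] at h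
  obtain ⟨k, hk⟩ : ∃ k : ℂ → ℂ, k = fun z => if z = 0 then 1 / ((j + 1) * P.eval 0)
    else Φ z / z ^ (j + 1) := ⟨_, rfl⟩
  have hk0 : k 0 = 1 / ((j + 1) * P.eval 0) := by rw [hk]; simp
  have hkz : ∀ z, z ≠ 0 → k z = Φ z / z ^ (j + 1) := by
    intro z hz
    rw [hk]
    simp [hz]
  refine ⟨ρ, Φ, k, ⟨by omega, hρ, fun z hz => (hΦ z hz).1, ?_, ?_, ?_, ?_⟩, hNC⟩
  · intro z hz
    rw [Nat.add_sub_cancel]
    exact hder z hz
  · intro z hz
    rcases eq_or_ne z 0 with rfl | hz0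
    · rw [hΦ0, zero_pow (Nat.succ_ne_zero j), zero_mul]
    · rw [hkz z hz0]
      field_simp
  · -- continuity
    rw [Metric.continuousAt_iff]
    intro ε hε
    have hr : ContinuousAt (fun w => 1 / P.eval w) 0 :=
      continuousAt_const.div (P.continuous.continuousAt) hP0
    obtain ⟨δ1, hδ1, hd1⟩ := Metric.continuousAt_iff.mp hr (ε / 2) (by linarith)
    refine ⟨min δ1 ρ, lt_min hδ1 hρ, ?_⟩
    intro z hz
    rcases eq_or_ne z 0 with rfl | hz0
    · simpa using hε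
    have hz1 : dist z 0 < δ1 := lt_of_lt_of_le hz (min_le_left _ _)
    have hz2 : dist z 0 < ρ := lt_of_lt_of_le hz (min_le_right _ _)
    obtain ⟨c, hc⟩ : ∃ c : ℂ, c = 1 / P.eval 0 := ⟨_, rfl⟩
    have hsub : ∀ w ∈ closedBall (0 : ℂ) (dist z 0), w ∈ ball (0 : ℂ) ρ ∧ dist w 0 < δ1 := by
      intro w hw
      rw [mem_closedBall] at hw
      exact ⟨mem_ball.mpr (hw.trans_lt hz2), hw.trans_lt hz1⟩
    have hD : ∀ w ∈ closedBall (0 : ℂ) (dist z 0), HasDerivWithinAt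
        (fun w => Φ w - c / (j + 1) * w ^ (j + 1))
        (w ^ j * (1 / P.eval w - c)) (closedBall (0 : ℂ) (dist z 0)) w := by
      intro w hw
      have h1 := hder w (hsub w hw).1
      have h2 : HasDerivAt (fun w : ℂ => c / (j + 1) * w ^ (j + 1))
          (c / (j + 1) * (((j + 1 : ℕ) : ℂ) * w ^ j)) w := by
        have := (hasDerivAt_pow (j + 1) w)
        rw [Nat.add_sub_cancel] at this
        exact this.const_mul (c / ((j : ℂ) + 1))
      have h3 := (h1.sub h2).hasDerivWithinAt (s := closedBall (0 : ℂ) (dist z 0))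
      refine h3.congr_deriv ?_
      push_cast
      field_simp
    have hb : ∀ w ∈ closedBall (0 : ℂ) (dist z 0),
        ‖w ^ j * (1 / P.eval w - c)‖ ≤ dist z 0 ^ j * (ε / 2) := by
      intro w hw
      have hw' : ‖w‖ ≤ dist z 0 := by
        have h := hw
        rw [mem_closedBall, dist_eq_norm, sub_zero] at h
        exact h
      have h4 := hd1 (hsub w hw).2
      rw [dist_eq_norm, ← hc] at h4
      rw [norm_mul, norm_pow]
      gcongr
    have hmv := Convex.norm_image_sub_le_of_norm_hasDerivWithin_le hD hb (convex_closedBall 0 _)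
      (mem_closedBall_self dist_nonneg) (mem_closedBall.mpr (le_refl (dist z 0)))
    simp only [hΦ0] at hmv
    rw [zero_pow (Nat.succ_ne_zero j), mul_zero, sub_zero, sub_zero, sub_zero] at hmv
    have hpos : 0 < ‖z‖ := norm_pos_iff.mpr hz0
    have h5 : k z - k 0 = (Φ z - c / (j + 1) * z ^ (j + 1)) / z ^ (j + 1) := by
      rw [hkz z hz0, hk0, hc]
      field_simp
    rw [dist_eq_norm, h5, norm_div, norm_pow, div_lt_iff₀ (by positivity)]
    rw [dist_eq_norm, sub_zero] at hmv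
    refine hmv.trans_lt ?_
    have h6 : ‖z‖ ^ j * (ε / 2) * ‖z‖ = (ε / 2) * ‖z‖ ^ (j + 1) := by ring
    rw [h6]
    have h7 : 0 < ‖z‖ ^ (j + 1) := by positivity
    nlinarith
  · rw [hk0]
    push_cast
    rfl

end Pool.Agent.H79.Par
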