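import Pool.Agent.H79.Par.MacroIter
import Pool.Agent.H79.Par.GermFl
import Pool.Agent.H79.Par.FlowGood
import Pool.Agent.H79.Par.PoleN

set_option autoImplicit false

open Filter Topology Polynomial Metric Set

namespace Pool.Agent.H79.Par

open Pool.Agent.H44.Fatou Pool.Agent.H32.BT Pool.Agent.H79.Eul

theorem good_level {T : Type} {l : Filter T} {N κ : ℕ} {a β s0 c : ℂ} (hκ : κ ≤ 1)
    (hκN : κ + 1 ≤ N) (ha : a ≠ 0) (hβ : β ≠ 0) (s : Germ T l N κ a β)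
    (hgen : GenAt N κ a β s0 c) (f : Fl T l (Ph N κ a β s0 c) (X ^ (N - 1)))
    (hf : ∀ τ w, f.att τ w ↔ s.att τ ((s.ep τ : ℂ) * (s0 + c / w)))
    {x0 : ℂ} (hx0 : x0 ≠ 0) (hP : (Ph N κ a β s0 c).eval x0 ≠ 0)
    (hNC : NoConn (Ph N κ a β s0 c) (X ^ (N - 1)) x0 0) : f.Good x0 := by
  obtain ⟨hc, hV0, hV1, hG1, -, -⟩ := hgen
  have hV1' : (derivative (Vp N κ a β)).eval s0 ≠ 0 := by
    intro h
    rw [h, Complex.zero_re] at hV1
    exact lt_irrefl _ hV1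
  obtain ⟨hd, hlc⟩ := ph_deg hκN hc hV0 hV1'
  refine fl_flow_good f (ph_sq hκN ha hc (vp_sq hκ hκN ha hβ)) ?_ (ph_cop hκN ha hc) ?_ hG1
    (fun b hb0 _ hb => fl_sinks hκN ha hc s f hf b hb0 hb) ⟨hP, ?_⟩ hx0 ?_ hNC
  · rw [hd, natDegree_X_pow]
    omega
  · rw [hlc, (monic_X_pow (N - 1)).leadingCoeff, div_one, Complex.neg_re]
    linarith
  · rw [eval_pow, eval_X]
    exact pow_ne_zero _ hx0
  · intro b hb
    rw [eval_pow, eval_X] at hb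
    have hb0 : b = 0 := by
      by_contra h
      exact pow_ne_zero _ h hb
    rw [hb0]
    exact hNC

theorem germ_good {T : Type} {l : Filter T} {N κ : ℕ} {a β : ℂ} (hκ : κ ≤ 1)
    (hκN : κ + 1 ≤ N) (ha : a ≠ 0) (hβ : β ≠ 0) (s : Germ T l N κ a β)
    (hgen : ∃ s0 c : ℂ, GenAt N κ a β s0 c) :
    ∃ R0 : ℝ, ∀ u0 : ℂ, u0 ≠ 0 → R0 ≤ (-(1 / (N * a * u0 ^ N))).re →
      ∀ᶠ y : T × ℂ in l ×ˢ 𝓝 u0, s.att y.1 y.2 := by
  obtain ⟨s0, c, hg⟩ := hgen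
  have hg' := hg
  obtain ⟨hc, hV0, hV1, hG1, hNC0, -⟩ := hg'
  have hV1' : (derivative (Vp N κ a β)).eval s0 ≠ 0 := by
    intro h
    rw [h, Complex.zero_re] at hV1
    exact lt_irrefl _ hV1
  obtain ⟨hd, hlc⟩ := ph_deg hκN hc hV0 hV1'
  have hPz := ph_zero (β := β) (s0 := s0) hκN a hc
  have hPne : (Ph N κ a β s0 c).eval 0 ≠ 0 := by
    rw [hPz]
    exact neg_ne_zero.2 (mul_ne_zero ha (pow_ne_zero _ hc))
  obtain ⟨f, -, -, hf⟩ := exists_fl hκN hc s (s0 := s0)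
  obtain ⟨ρ, Φ, k, hp, hNC⟩ := exists_poleN (by omega) (ph_sq hκN ha hc (vp_sq hκ hκN ha hβ)) hd hPne
  have hN0 : (N : ℂ) ≠ 0 := by
    have : N ≠ 0 := by omega
    exact_mod_cast this
  have hG : ∀ z ∈ ball (0 : ℂ) ρ, ∀ t : ℝ, 0 < t → Φ z = t → f.Good z := by
    intro z hz t ht hΦ
    refine good_level hκ hκN ha hβ s hg f hf ?_ (hp.hP z hz) (hNC 0 hNC0 z hz t ht hΦ)
    intro hz0
    have h1 := hp.hk z hz
    rw [hΦ, hz0, zero_pow (by omega), zero_mul] at h1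
    have : t = 0 := by exact_mod_cast h1
    linarith
  obtain ⟨ρ2, N0, hρ2, hit⟩ := gm_iter hκN ha hc s f hf hp hG
  refine ⟨N0 + 1, ?_⟩
  intro u0 hu0 hre
  set W : ℂ := -(1 / (N * a * u0 ^ N)) with hW
  -- limits
  have hep : Tendsto (fun y : T × ℂ => (s.ep y.1 : ℂ)) (l ×ˢ 𝓝 u0) (𝓝 0) := by
    have h1 : Tendsto (fun τ => (s.ep τ : ℂ)) l (𝓝 ((0 : ℝ) : ℂ)) :=
      (Complex.continuous_ofReal.tendsto _).comp s.ep_lim
    rw [Complex.ofReal_zero] at h1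
    exact h1.comp tendsto_fst
  have hu : Tendsto (fun y : T × ℂ => y.2) (l ×ˢ 𝓝 u0) (𝓝 u0) := tendsto_snd
  have hden : Tendsto (fun y : T × ℂ => y.2 - (s.ep y.1 : ℂ) * s0) (l ×ˢ 𝓝 u0) (𝓝 u0) := by
    have h1 := hu.sub (hep.mul_const s0)
    rwa [zero_mul, sub_zero] at h1
  have hq : Tendsto (fun y : T × ℂ => c / (y.2 - (s.ep y.1 : ℂ) * s0)) (l ×ˢ 𝓝 u0)
      (𝓝 (c / u0)) := tendsto_const_nhds.div hden hu0
  have hw : Tendsto (fun y : T × ℂ => (s.ep y.1 : ℂ) * (c / (y.2 - (s.ep y.1 : ℂ) * s0)))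
      (l ×ˢ 𝓝 u0) (𝓝 0) := by
    have h1 := hep.mul hq
    rwa [zero_mul] at h1
  have hk : Tendsto (fun y : T × ℂ => k ((s.ep y.1 : ℂ) * (c / (y.2 - (s.ep y.1 : ℂ) * s0))))
      (l ×ˢ 𝓝 u0) (𝓝 (k 0)) := hp.kcont.tendsto.comp hw
  have hprod := (hq.pow N).mul hk
  have hlim : (c / u0) ^ N * k 0 = W := by
    rw [hp.k0, hPz, hW, div_pow]
    have := pow_ne_zero N hc
    have := pow_ne_zero N hu0
    field_simp
  rw [hlim] at hprod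
  have hevp : ∀ᶠ y : T × ℂ in l ×ˢ 𝓝 u0, 0 < s.ep y.1 := tendsto_fst.eventually s.ep_pos
  have hball : ∀ᶠ y : T × ℂ in l ×ˢ 𝓝 u0,
      (s.ep y.1 : ℂ) * (c / (y.2 - (s.ep y.1 : ℂ) * s0)) ∈ ball (0 : ℂ) (min ρ ρ2) :=
    hw.eventually (ball_mem_nhds 0 (lt_min hp.hρ hρ2))
  have hden0 : ∀ᶠ y : T × ℂ in l ×ˢ 𝓝 u0, y.2 - (s.ep y.1 : ℂ) * s0 ≠ 0 :=
    hden.eventually_ne hu0
  have hnear := hprod.eventually (ball_mem_nhds W one_pos)
  have hit' : ∀ᶠ y : T × ℂ in l ×ˢ 𝓝 u0, ∀ w ∈ ball (0 : ℂ) ρ2,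
      N0 * s.ep y.1 ^ N ≤ (Φ w).re → ‖Φ w‖ ≤ (‖W‖ + 1) * s.ep y.1 ^ N →
        s.att y.1 ((s.ep y.1 : ℂ) * (s0 + c / w)) := tendsto_fst.eventually (hit (‖W‖ + 1))
  filter_upwards [hevp, hball, hden0, hnear, hit'] with y h1 h2 h3 h4 h5
  set w : ℂ := (s.ep y.1 : ℂ) * (c / (y.2 - (s.ep y.1 : ℂ) * s0)) with hwdef
  have hepc : (s.ep y.1 : ℂ) ≠ 0 := by exact_mod_cast h1.ne'
  have hw2 : w ∈ ball (0 : ℂ) ρ2 := ball_subset_ball (min_le_right _ _) h2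
  have hw1 : w ∈ ball (0 : ℂ) ρ := ball_subset_ball (min_le_left _ _) h2
  have hepN : 0 < s.ep y.1 ^ N := pow_pos h1 N
  have hΦw : Φ w = ((s.ep y.1 ^ N : ℝ) : ℂ) *
      ((c / (y.2 - (s.ep y.1 : ℂ) * s0)) ^ N * k w) := by
    rw [hp.hk w hw1]
    push_cast
    rw [← mul_assoc, ← mul_pow]
  set D : ℂ := (c / (y.2 - (s.ep y.1 : ℂ) * s0)) ^ N * k w with hD
  have hDW : ‖D - W‖ < 1 := by
    have := h4
    rw [dist_eq_norm] at this
    exact this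
  have hDre : N0 ≤ D.re := by
    have h6 : |(D - W).re| ≤ ‖D - W‖ := Complex.abs_re_le_norm _
    have h7 := (abs_lt.1 (lt_of_le_of_lt h6 hDW)).1
    rw [Complex.sub_re] at h7
    linarith
  have hDn : ‖D‖ ≤ ‖W‖ + 1 := by
    have h6 : ‖D‖ ≤ ‖W‖ + ‖D - W‖ := by
      have := norm_add_le W (D - W)
      rwa [add_sub_cancel] at this
    linarith
  have h8 := h5 w hw2 (by
    rw [hΦw, Complex.re_ofReal_mul, mul_comm]
    exact mul_le_mul_of_nonneg_left hDre hepN.le) (by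
    rw [hΦw, norm_mul, Complex.norm_real, Real.norm_of_nonneg hepN.le, mul_comm]
    exact mul_le_mul_of_nonneg_right hDn hepN.le)
  have h9 : (s.ep y.1 : ℂ) * (s0 + c / w) = y.2 := by
    rw [hwdef]
    field_simp
    ring
  rwa [h9] at h8

theorem germ_land {T : Type} {l : Filter T} {N : ℕ} {a β : ℂ}
    (hκN : 1 ≤ N) (ha : a ≠ 0) (hβ : β ≠ 0) (s : Germ T l N 0 a β)
    (hgen : ∃ s0 c : ℂ, GenAt N 0 a β s0 c) (M : ℝ) :
    ∀ᶠ τ in l, ∀ u : ℂ, ‖u‖ ≤ M * s.h τ → s.att τ u := by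
  obtain ⟨s0, c, hg⟩ := hgen
  have hg' := hg
  obtain ⟨hc, hV0, hV1, hG1, -, hNC⟩ := hg'
  have hκN' : 0 + 1 ≤ N := by omega
  obtain ⟨f, -, -, hf⟩ := exists_fl hκN' hc s (s0 := s0)
  have hs0 : s0 ≠ 0 := by
    intro h
    rw [h, vp_eval, zero_pow (by omega), mul_zero, zero_add, pow_zero, mul_one] at hV0
    exact hβ hV0
  have hx0 : -(c / s0) ≠ 0 := neg_ne_zero.2 (div_ne_zero hc hs0)
  have hgood : f.Good (-(c / s0)) := by
    refine good_level (by omega) hκN' ha hβ s hg f hf hx0 ?_ (hNC rfl)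
    rw [ph_eval hκN' a β s0 hx0]
    have h1 : s0 + c / (-(c / s0)) = 0 := by
      field_simp
      ring
    rw [h1, vp_eval, zero_pow (by omega), mul_zero, zero_add, pow_zero, mul_one]
    exact mul_ne_zero (neg_ne_zero.2 (div_ne_zero (pow_ne_zero _ hx0) hc)) hβ
  unfold Fl.Good at hgood
  rw [eventually_prod_iff] at hgood
  obtain ⟨pa, hpa, pb, hpb, hab⟩ := hgood
  -- w as a function of s = u / ep
  have hcont : Tendsto (fun z : ℂ => c / (z - s0)) (𝓝 0) (𝓝 (-(c / s0))) := by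
    have h1 : Tendsto (fun z : ℂ => z - s0) (𝓝 0) (𝓝 (0 - s0)) :=
      (tendsto_id).sub tendsto_const_nhds
    have h2 := (tendsto_const_nhds (x := c)).div h1 (by rw [zero_sub]; exact neg_ne_zero.2 hs0)
    have h3 : c / (0 - s0) = -(c / s0) := by rw [zero_sub, div_neg]
    rwa [h3] at h2
  have hne : ∀ᶠ z : ℂ in 𝓝 0, z - s0 ≠ 0 := by
    have h1 : Tendsto (fun z : ℂ => z - s0) (𝓝 0) (𝓝 (0 - s0)) :=
      (tendsto_id).sub tendsto_const_nhds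
    exact h1.eventually_ne (by rw [zero_sub]; exact neg_ne_zero.2 hs0)
  obtain ⟨r, hr, hball⟩ := Metric.eventually_nhds_iff_ball.1 ((hcont.eventually hpb).and hne)
  have hMep : Tendsto (fun τ => M * s.ep τ ^ N) l (𝓝 0) := by
    have h1 := (s.ep_lim.pow N).const_mul M
    rwa [zero_pow (by omega), mul_zero] at h1
  filter_upwards [hpa, s.ep_pos, s.h_ep, hMep.eventually (gt_mem_nhds hr)] with τ h1 h2 h3 h4
  intro u hu
  rw [pow_zero, mul_one] at h3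
  have hepc : (s.ep τ : ℂ) ≠ 0 := by exact_mod_cast h2.ne'
  have h5 : ‖u / (s.ep τ : ℂ)‖ < r := by
    rw [norm_div, Complex.norm_real, Real.norm_of_nonneg h2.le, div_lt_iff₀ h2]
    calc ‖u‖ ≤ M * s.h τ := hu
      _ = (M * s.ep τ ^ N) * s.ep τ := by rw [h3, pow_succ]; ring
      _ < r * s.ep τ := mul_lt_mul_of_pos_right h4 h2
  obtain ⟨h6, h7⟩ := hball (u / (s.ep τ : ℂ)) (by rw [mem_ball, dist_zero_right]; exact h5)
  have h8 := hab h1 h6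
  have h8' := (hf τ (c / (u / (s.ep τ : ℂ) - s0))).1 h8
  have h9 : (s.ep τ : ℂ) * (s0 + c / (c / (u / (s.ep τ : ℂ) - s0))) = u := by
    rw [div_div_cancel₀ hc, add_sub_cancel, mul_div_cancel₀ _ hepc]
  rwa [h9] at h8'

end Pool.Agent.H79.Par
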