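import Pool.Agent.H79.Par.GermZero
import Pool.Agent.H79.Par.GermOne
import Pool.Agent.H79.Par.BasinRe
import Pool.Agent.H79.Par.GermGood

set_option autoImplicit false

open Filter Topology Polynomial Metric Set

namespace Pool.Agent.H79.Par

open Pool.Agent.H44.Fatou Pool.Agent.H32.BT Pool.Agent.H79.Eul


/-
PROOFS. y 0, y 1, ... is the (finite) orbit of the point y 0, with y (n k) → x 0, y (n k) ≠ x 0. u j = y (n j) - x 0
satisfies u (j+1) = it v0 n (x 0 + u j) - x 0 (orb_it for the shifted orbit), so basin_re gives Re W (u j) → ∞. germ_good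
(with the germ from germ_zero resp. germ_one, generic condition hgen) gives R0; choose j with Re W (u j) ≥ R0: all
points near (flt v, u j) satisfy att, i.e. Att (Rf (pv)) (x 0 + u) resp. (α τ + u); as α τ → x 0 the points z near
y (n j) are of this form (u = z - x 0 resp. z - α τ). Pull back by it (pv) (n j): (τ, z) ↦ it (pv v0 τ) (n j) z tends to
y (n j) as (τ, z) → (flt v, y 0) (orb_cont, pv_lim2), and att_iter with rat_it (orb_near): Att (Rf (pv)) z.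
-/

/-- the orbit in the finite chart, shifted -/
theorem para_shift {d : ℕ} {v0 : E d} {y : ℕ → ℂ} (hy : ∀ j, Orb v0 y j) (j n : ℕ) :
    it v0 n (y j) = y (j + n) := by
  have h1 : Orb v0 (fun i => y (j + i)) n := by
    intro i hi
    exact hy (j + i + 1) (j + i) (by omega)
  have h2 := orb_it h1 n le_rfl
  simpa using h2

/-- attraction near a later point of an orbit gives attraction near the first point -/
theorem para_pull {d : ℕ} {v0 v : E d} {y : ℕ → ℂ}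
    (hcop : ∀ᶠ w in 𝓝 v0, IsCoprime (pol w.1) (pol w.2)) (hy : ∀ j, Orb v0 y j) (m : ℕ)
    (h : ∀ᶠ w : (E d × ℝ) × ℂ in flt v ×ˢ 𝓝 (y m), Att (Rf (pv v0 w.1)) (w.2 : OnePoint ℂ)) :
    ∀ᶠ w : (E d × ℝ) × ℂ in flt v ×ˢ 𝓝 (y 0), Att (Rf (pv v0 w.1)) (w.2 : OnePoint ℂ) := by
  have h1 : Tendsto (fun w : (E d × ℝ) × ℂ => it (pv v0 w.1) m w.2) (flt v ×ˢ 𝓝 (y 0))
      (𝓝 (y m)) := by
    have h2 := (orb_cont (hy m) (le_refl m)).tendsto
    simp only at h2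
    rw [orb_it (hy m) m le_rfl] at h2
    exact h2.comp (pv_lim2 v0 v (y 0))
  have h3 : Tendsto (fun w : (E d × ℝ) × ℂ => (w.1, it (pv v0 w.1) m w.2)) (flt v ×ˢ 𝓝 (y 0))
      (flt v ×ˢ 𝓝 (y m)) := tendsto_fst.prodMk h1
  have h4 : ∀ᶠ w : (E d × ℝ) × ℂ in flt v ×ˢ 𝓝 (y 0),
      IsCoprime (pol (pv v0 w.1).1) (pol (pv v0 w.1).2) :=
    tendsto_fst.eventually ((pv_lim v0 v).eventually hcop)
  have h5 := (pv_lim2 v0 v (y 0)).eventually (orb_near (hy m))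
  filter_upwards [h3.eventually h, h4, h5] with w h6 h7 h8
  rw [← rat_it h8] at h6
  exact (att_iter (rat_continuous h7) _ m).1 h6

theorem para_zero {d : ℕ} {v0 v : E d} {x y : ℕ → ℂ} {n : ℕ} (hn : 0 < n)
    (hcop : ∀ᶠ w in 𝓝 v0, IsCoprime (pol w.1) (pol w.2)) (ho : Orb v0 x n) (hx : x n = x 0)
    {N : ℕ} {a : ℂ} {k : ℂ → ℂ} (hN : 1 ≤ N) (ha : a ≠ 0)
    (hnf : NF (fun u => it v0 n (x 0 + u) - x 0) k N a)
    (hβ : XX v0 v n (x 0) ≠ 0) (hgen : ∃ s0 c : ℂ, GenAt N 0 a (XX v0 v n (x 0)) s0 c)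
    (hy : ∀ j, Orb v0 y j) (hlim : Tendsto (fun j => y (n * j)) atTop (𝓝 (x 0)))
    (hne : ∀ j, y (n * j) ≠ x 0) :
    ∀ᶠ w : (E d × ℝ) × ℂ in flt v ×ˢ 𝓝 (y 0), Att (Rf (pv v0 w.1)) (w.2 : OnePoint ℂ) := by
  set u : ℕ → ℂ := fun j => y (n * j) - x 0 with hu
  have hstep : ∀ᶠ j in atTop, u (j + 1) = (fun w => it v0 n (x 0 + w) - x 0) (u j) := by
    refine Eventually.of_forall fun j => ?_
    simp only [hu]
    rw [add_sub_cancel, para_shift hy (n * j) n, Nat.mul_succ]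
  have hlim0 : Tendsto u atTop (𝓝 0) := by
    have h1 := hlim.sub_const (x 0)
    rwa [sub_self] at h1
  have hne0 : ∀ j, u j ≠ 0 := fun j => sub_ne_zero.2 (hne j)
  have hre := basin_re hN ha hnf hstep hlim0 hne0
  obtain ⟨s, -, hatt⟩ := germ_zero (v := v) hn hcop ho hx hN hnf
  obtain ⟨R0, hR⟩ := germ_good (by omega) (by omega) ha hβ s hgen
  obtain ⟨j, hj⟩ := (hre.eventually (eventually_ge_atTop R0)).exists
  have h1 := hR (u j) (hne0 j) hj
  refine para_pull hcop hy (n * j) ?_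
  have h2 : Tendsto (fun w : (E d × ℝ) × ℂ => (w.1, w.2 - x 0)) (flt v ×ˢ 𝓝 (y (n * j)))
      (flt v ×ˢ 𝓝 (u j)) := by
    refine tendsto_fst.prodMk ?_
    have h3 : Tendsto (fun w : (E d × ℝ) × ℂ => w.2) (flt v ×ˢ 𝓝 (y (n * j)))
      (𝓝 (y (n * j))) := tendsto_snd
    exact h3.sub_const (x 0)
  filter_upwards [h2.eventually h1] with w hw
  rw [hatt] at hw
  simpa using hw

theorem para_one {d : ℕ} {v0 v : E d} {x y : ℕ → ℂ} {p m : ℕ} (hp : 0 < p) (hm : 0 < m)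
    (hcop : ∀ᶠ w in 𝓝 v0, IsCoprime (pol w.1) (pol w.2)) (ho : Orb v0 x (p * m))
    (hx : x p = x 0) (hxx : x (p * m) = x 0) (hmul : trD v0 p (x 0) ≠ 1)
    {N : ℕ} {a : ℂ} {k : ℂ → ℂ} (hN : 2 ≤ N) (ha : a ≠ 0)
    (hnf : NF (fun u => it v0 (p * m) (x 0 + u) - x 0) k N a)
    (hβ : deriv (XX v0 v (p * m)) (x 0) ≠ 0)
    (hgen : ∃ s0 c : ℂ, GenAt N 1 a (deriv (XX v0 v (p * m)) (x 0)) s0 c)
    (hy : ∀ j, Orb v0 y j) (hlim : Tendsto (fun j => y (p * m * j)) atTop (𝓝 (x 0)))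
    (hne : ∀ j, y (p * m * j) ≠ x 0) :
    ∀ᶠ w : (E d × ℝ) × ℂ in flt v ×ˢ 𝓝 (y 0), Att (Rf (pv v0 w.1)) (w.2 : OnePoint ℂ) := by
  set n : ℕ := p * m with hn
  have hn0 : 0 < n := Nat.mul_pos hp hm
  set u : ℕ → ℂ := fun j => y (n * j) - x 0 with hu
  have hstep : ∀ᶠ j in atTop, u (j + 1) = (fun w => it v0 n (x 0 + w) - x 0) (u j) := by
    refine Eventually.of_forall fun j => ?_
    simp only [hu]
    rw [add_sub_cancel, para_shift hy (n * j) n, Nat.mul_succ]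
  have hlim0 : Tendsto u atTop (𝓝 0) := by
    have h1 := hlim.sub_const (x 0)
    rwa [sub_self] at h1
  have hne0 : ∀ j, u j ≠ 0 := fun j => sub_ne_zero.2 (hne j)
  have hre := basin_re (by omega) ha hnf hstep hlim0 hne0
  obtain ⟨α, s, hα, -, hatt⟩ := germ_one (v := v) hp hm hcop ho hx hxx hmul hN hnf
  obtain ⟨R0, hR⟩ := germ_good le_rfl (by omega) ha hβ s hgen
  obtain ⟨j, hj⟩ := (hre.eventually (eventually_ge_atTop R0)).exists
  have h1 := hR (u j) (hne0 j) hj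
  refine para_pull hcop hy (n * j) ?_
  have h2 : Tendsto (fun w : (E d × ℝ) × ℂ => (w.1, w.2 - α w.1)) (flt v ×ˢ 𝓝 (y (n * j)))
      (flt v ×ˢ 𝓝 (u j)) := by
    refine tendsto_fst.prodMk ?_
    have h3 : Tendsto (fun w : (E d × ℝ) × ℂ => w.2) (flt v ×ˢ 𝓝 (y (n * j)))
      (𝓝 (y (n * j))) := tendsto_snd
    exact h3.sub (hα.comp tendsto_fst)
  filter_upwards [h2.eventually h1] with w hw
  rw [hatt] at hw
  simpa using hw

end Pool.Agent.H79.Par
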