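import Pool.Agent.H79.Par.It
import Pool.Agent.H61.TT.Main0
import Pool.Agent.H61.TT.Main1

/-!
Transversality (Part B, helper61), restated.
-/

set_option autoImplicit false

open Filter Topology Polynomial Metric Set

namespace Pool.Agent.H79.Par

open Pool.Agent.H44.Fatou Pool.Agent.H32.BT Pool.Agent.H79.Eul

theorem tt0 {d : ℕ} {v0 : E d} (hd : 2 ≤ d) (hcop : IsCoprime (pol v0.1) (pol v0.2))
    (hdeg : max (pol v0.1).natDegree (pol v0.2).natDegree = d) (x : ℕ → ℂ) {n : ℕ}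
    (hn : 0 < n) (hx : x n = x 0) (ho : Orb v0 x n)
    (hinj : ∀ i < n, ∀ j < n, x i = x j → i = j) (hmul : trD v0 n (x 0) = 1) :
    ∃ v : E d, XX v0 v n (x 0) ≠ 0 :=
  Pool.Agent.H61.TT.tt0 hd hcop hdeg x hn hx ho (fun i j hi hj => hinj i hi j hj) hmul

theorem tt1 {d : ℕ} {v0 : E d} (hd : 2 ≤ d) (hcop : IsCoprime (pol v0.1) (pol v0.2))
    (hdeg : max (pol v0.1).natDegree (pol v0.2).natDegree = d) (x : ℕ → ℂ) {n : ℕ}
    (hn : 0 < n) (hx : x n = x 0) (ho : Orb v0 x n) (hmul : trD v0 n (x 0) = 1)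
    (h2 : HasDerivAt (trD v0 n) 0 (x 0)) :
    ∃ v : E d, deriv (XX v0 v n) (x 0) ≠ 0 :=
  Pool.Agent.H61.TT.tt1 hd hcop hdeg x hn hx ho hmul h2

end Pool.Agent.H79.Par
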