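import Pool.Agent.H79.Par.PerDec
import Pool.Agent.H79.Par.KerNull
import Pool.Agent.H79.Par.ParaGood
import Pool.Agent.H79.Par.GenRot
import Pool.Agent.H79.Par.CopNear
import Pool.Agent.H79.Par.Trans
import Pool.Agent.H79.Par.XXLin
import Pool.Agent.H79.Par.GDefs

set_option autoImplicit false

open Filter Topology Polynomial Metric Set

namespace Pool.Agent.H79.Par

open Pool.Agent.H44.Fatou Pool.Agent.H32.BT Pool.Agent.H79.Eul


/-- in the direction `v` all points attracted (without landing) by the parabolic cycle of `x 0` are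
attracted by sinks of the nearby maps -/
def CycGood {d : ℕ} (v0 : E d) (x : ℕ → ℂ) (n : ℕ) (v : E d) : Prop :=
  ∀ y : ℕ → ℂ, (∀ j, Orb v0 y j) → Tendsto (fun j => y (n * j)) atTop (𝓝 (x 0)) →
    (∀ j, y (n * j) ≠ x 0) → ∀ᶠ w : (E d × ℝ) × ℂ in flt v ×ˢ 𝓝 (y 0),
      Att (Rf (pv v0 w.1)) (w.2 : OnePoint ℂ)

/-
PROOFS. flt_scale: for t > 0 the map (v', h) ↦ (t⁻¹ • v', t * h) tends to flt (t⁻¹ • v) along flt v, and
pv v0 (t⁻¹ • v', t * h) = pv v0 (v', h). line_null: {v | (exp (-φ I) * L v).im = 0} is the kernel of a nonzero real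
linear functional (L v ≠ 0 for some v; multiply v by a complex number to make it nonzero), null by
Measure.addHaar_submodule.
cyc_null: as dir_par (H79/Par/DirPar.lean, same data p, m, N, a, k and the linear functional
L v = XX v0 v n (x 0) or deriv (XX v0 v n) (x 0), not identically 0 by tt0 or tt1). genV_rot with β = 1 gives a
countable set bad such that GenAt N κ a (exp (φ I) * 1) for φ ∉ bad. For v with L v = t exp (φ I), t > 0, φ ∉ bad:
L (t⁻¹ • v) = exp (φ I), so para_zero (or para_one) applies in the direction t⁻¹ • v, and flt_scale. Hence the bad set is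
contained in {L v = 0} ∪ ⋃ φ ∈ bad, {v | (exp (-φ I) * L v).im = 0}: null by ker_null, line_null,
measure_biUnion_null_iff (countable).
-/

theorem flt_scale {d : ℕ} {v0 v : E d} {t : ℝ} (ht : 0 < t) {z : ℂ}
    (h : ∀ᶠ w : (E d × ℝ) × ℂ in flt (t⁻¹ • v) ×ˢ 𝓝 z, Att (Rf (pv v0 w.1)) (w.2 : OnePoint ℂ)) :
    ∀ᶠ w : (E d × ℝ) × ℂ in flt v ×ˢ 𝓝 z, Att (Rf (pv v0 w.1)) (w.2 : OnePoint ℂ) := by
  have h1 : Tendsto (fun w : E d × ℝ => (t⁻¹ • w.1, t * w.2)) (flt v) (flt (t⁻¹ • v)) := by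
    refine Tendsto.prodMk ?_ ?_
    · have h2 : Tendsto (fun w : E d × ℝ => w.1) (flt v) (𝓝 v) := tendsto_fst
      exact h2.const_smul t⁻¹
    · have h2 : Tendsto (fun w : E d × ℝ => w.2) (flt v) (𝓝[>] (0 : ℝ)) := tendsto_snd
      have h3 : Tendsto (fun s : ℝ => t * s) (𝓝[>] (0 : ℝ)) (𝓝[>] (0 : ℝ)) := by
        refine tendsto_nhdsWithin_iff.2 ⟨?_, ?_⟩
        · have h4 : Tendsto (fun s : ℝ => t * s) (𝓝 (0 : ℝ)) (𝓝 (t * 0)) :=
            (continuous_const.mul continuous_id).tendsto 0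
          rw [mul_zero] at h4
          exact h4.mono_left nhdsWithin_le_nhds
        · filter_upwards [self_mem_nhdsWithin] with s hs
          exact mul_pos ht hs
      exact h3.comp h2
  have h2 : Tendsto (fun w : (E d × ℝ) × ℂ => ((t⁻¹ • w.1.1, t * w.1.2), w.2)) (flt v ×ˢ 𝓝 z)
      (flt (t⁻¹ • v) ×ˢ 𝓝 z) :=
    (h1.comp tendsto_fst).prodMk tendsto_snd
  filter_upwards [h2.eventually h] with w hw
  have h3 : pv v0 (t⁻¹ • w.1.1, t * w.1.2) = pv v0 w.1 := by
    unfold pv
    rw [smul_smul]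
    congr 2
    field_simp
  rw [h3] at hw
  exact hw

open MeasureTheory in
theorem line_null {d : ℕ} (L : E d → ℂ) (hadd : ∀ v w, L (v + w) = L v + L w)
    (hsmul : ∀ (c : ℂ) (v : E d), L (c • v) = c * L v) (hne : ∃ v, L v ≠ 0) (φ : ℝ) :
    volume {v : E d | (Complex.exp (-(φ * Complex.I)) * L v).im = 0} = 0 := by
  have := volume_haar d
  let f : E d →ₗ[ℝ] ℝ :=
    { toFun := fun v => (Complex.exp (-(φ * Complex.I)) * L v).im
      map_add' := fun v w => by
        show (Complex.exp (-(φ * Complex.I)) * L (v + w)).im = _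
        rw [hadd, mul_add, Complex.add_im]
      map_smul' := fun c v => by
        show (Complex.exp (-(φ * Complex.I)) * L (c • v)).im = c * _
        have h1 : c • v = (c : ℂ) • v := (Complex.coe_smul c v).symm
        rw [h1, hsmul, mul_left_comm, Complex.im_ofReal_mul] }
  let K : Submodule ℝ (E d) := LinearMap.ker f
  have hK : K ≠ ⊤ := by
    obtain ⟨v, hv⟩ := hne
    intro h
    have h1 : (Complex.exp (φ * Complex.I) * Complex.I * (L v)⁻¹) • v ∈ K := by
      rw [h]; exact Submodule.mem_top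
    have h2 : (Complex.exp (-(φ * Complex.I)) *
      L ((Complex.exp (φ * Complex.I) * Complex.I * (L v)⁻¹) • v)).im = 0 := h1
    have h3 : Complex.exp (-(φ * Complex.I)) *
        (Complex.exp (φ * Complex.I) * Complex.I * (L v)⁻¹ * L v) = Complex.I := by
      rw [Complex.exp_neg]
      have h4 := Complex.exp_ne_zero (φ * Complex.I)
      field_simp
    rw [hsmul, h3, Complex.I_im] at h2
    exact one_ne_zero h2
  have h2 := Measure.addHaar_submodule (volume : Measure (E d)) K hK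
  have h3 : {v : E d | (Complex.exp (-(φ * Complex.I)) * L v).im = 0} = (K : Set (E d)) := by
    ext v
    exact Iff.rfl
  rw [h3]
  exact h2

open MeasureTheory in
private theorem cyc_cover {d : ℕ} {v0 : E d} {x : ℕ → ℂ} {n : ℕ} (L : E d → ℂ)
    (hadd : ∀ v w, L (v + w) = L v + L w) (hsmul : ∀ (c : ℂ) (v : E d), L (c • v) = c * L v)
    (hne : ∃ v, L v ≠ 0) {bad : Set ℝ} (hbad : bad.Countable)
    (h : ∀ φ : ℝ, φ ∉ bad → ∀ v : E d, L v = Complex.exp (φ * Complex.I) → CycGood v0 x n v) :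
    volume {v : E d | ¬ CycGood v0 x n v} = 0 := by
  have hsub : {v : E d | ¬ CycGood v0 x n v} ⊆ {v : E d | L v = 0} ∪
      ⋃ φ ∈ bad, {v : E d | (Complex.exp (-(φ * Complex.I)) * L v).im = 0} := by
    intro v hv
    by_cases h0 : L v = 0
    · exact Or.inl h0
    · right
      have ht : 0 < ‖L v‖ := norm_pos_iff.2 h0
      have hpol : L v = (‖L v‖ : ℂ) * Complex.exp (Complex.arg (L v) * Complex.I) :=
        (Complex.norm_mul_exp_arg_mul_I (L v)).symm
      by_cases hb : Complex.arg (L v) ∈ bad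
      · refine mem_iUnion₂.2 ⟨_, hb, ?_⟩
        show (Complex.exp (-((Complex.arg (L v) : ℝ) * Complex.I)) * L v).im = 0
        have h1 : Complex.exp (-((Complex.arg (L v) : ℝ) * Complex.I)) * L v = (‖L v‖ : ℂ) := by
          rw [Complex.exp_neg]
          have h2 := Complex.exp_ne_zero ((Complex.arg (L v) : ℝ) * Complex.I)
          rw [inv_mul_eq_iff_eq_mul₀ h2, mul_comm]
          exact hpol
        rw [h1, Complex.ofReal_im]
      · exfalso
        apply hv
        have h1 : L ((‖L v‖)⁻¹ • v) = Complex.exp ((Complex.arg (L v) : ℝ) * Complex.I) := by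
          have h2 : (‖L v‖)⁻¹ • v = (((‖L v‖)⁻¹ : ℝ) : ℂ) • v := (Complex.coe_smul _ v).symm
          have h3 : (‖L v‖ : ℂ) ≠ 0 := by exact_mod_cast ht.ne'
          rw [h2, hsmul, Complex.ofReal_inv, inv_mul_eq_iff_eq_mul₀ h3]
          exact hpol
        have h4 := h _ hb _ h1
        intro y hy hlim hney
        exact flt_scale ht (h4 y hy hlim hney)
  refine measure_mono_null hsub (measure_union_null (ker_null L hadd hsmul hne) ?_)
  rw [measure_biUnion_null_iff hbad]
  intro φ _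
  exact line_null L hadd hsmul hne φ

open MeasureTheory in
theorem cyc_null {d : ℕ} (hd : 2 ≤ d) {v0 : E d} (hcop : IsCoprime (pol v0.1) (pol v0.2))
    (hdeg : max (pol v0.1).natDegree (pol v0.2).natDegree = d) {x y : ℕ → ℂ} {n : ℕ}
    (hn : 0 < n) (ho : Orb v0 x n) (hx : x n = x 0) (hmul : trD v0 n (x 0) = 1)
    (hy : ∀ j, Orb v0 y j) (hlim : Tendsto (fun j => y (n * j)) atTop (𝓝 (x 0)))
    (hne : ∀ j, y (n * j) ≠ x 0) : volume {v : E d | ¬ CycGood v0 x n v} = 0 := by
  obtain ⟨p, m, hp, hm, hnpm, hxp, hinj⟩ := per_dec hn ho hx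
  subst hnpm
  have hop : Orb v0 x p := fun j hj => ho j (lt_of_lt_of_le hj (Nat.le_mul_of_pos_right p hm))
  have hLm : trD v0 p (x 0) ^ m = 1 := by
    rw [← trD_mul hop hxp]
    exact hmul
  have hcopn : ∀ᶠ w in 𝓝 v0, IsCoprime (pol w.1) (pol w.2) :=
    (cop_near hcop hdeg (by omega)).mono (fun _ h => h.1)
  have hF0 : (fun u => it v0 (p * m) (x 0 + u) - x 0) 0 = 0 := by
    show it v0 (p * m) (x 0 + 0) - x 0 = 0
    rw [add_zero, orb_it ho _ le_rfl, hx, sub_self]
  have hF1 : HasDerivAt (fun u => it v0 (p * m) (x 0 + u) - x 0) 1 0 := by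
    have h1 := g_der ho (x 0)
    rwa [hmul] at h1
  have hlim0 : Tendsto (fun j => y (p * m * j) - x 0) atTop (𝓝 0) := by
    have h1 := hlim.sub_const (x 0)
    rwa [sub_self] at h1
  have hnid : ¬ ∀ᶠ u in 𝓝 (0 : ℂ), (fun u => it v0 (p * m) (x 0 + u) - x 0) u = u := by
    refine not_id (u := fun j => y (p * m * j) - x 0) ?_ hlim0 (fun j => sub_ne_zero.2 (hne j))
    refine Eventually.of_forall fun j => ?_
    show y (p * m * (j + 1)) - x 0 = it v0 (p * m) (x 0 + (y (p * m * j) - x 0)) - x 0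
    rw [add_sub_cancel, para_shift hy (p * m * j) (p * m), Nat.mul_succ]
  obtain ⟨N, a, k, hN, ha, hnf⟩ := normal_form (g_an ho (x 0)) hF0 hF1 hnid
  by_cases hL : trD v0 p (x 0) = 1
  · obtain ⟨v1, hv1⟩ := tt0 hd hcop hdeg x hp hxp hop hinj hL
    have hm0 : (m : ℂ) ≠ 0 := by exact_mod_cast hm.ne'
    obtain ⟨bad, hbad, hgen⟩ := genV_rot (N := N) (κ := 0) (by omega) (by omega) ha
      (one_ne_zero : (1 : ℂ) ≠ 0)
    refine cyc_cover (fun v => XX v0 v (p * m) (x 0)) (fun v w => XX_add v0 v w (p * m) (x 0))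
      (fun c v => XX_smul v0 v c (p * m) (x 0)) ⟨v1, ?_⟩ hbad ?_
    · show XX v0 v1 (p * m) (x 0) ≠ 0
      rw [XX_mul hop hxp hL]
      exact mul_ne_zero hm0 hv1
    · intro φ hφ v hv z hz hzlim hzne
      have hv' : XX v0 v (p * m) (x 0) = Complex.exp (φ * Complex.I) := hv
      have hβ' : XX v0 v (p * m) (x 0) ≠ 0 := by
        rw [hv']
        exact Complex.exp_ne_zero _
      have hgen' : ∃ s0 c : ℂ, GenAt N 0 a (XX v0 v (p * m) (x 0)) s0 c := by
        rw [hv']
        have h1 := hgen φ hφ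
        rwa [mul_one] at h1
      exact para_zero hn hcopn ho hx hN ha hnf hβ' hgen' hz hzlim hzne
  · have hL0 : trD v0 p (x 0) ≠ 0 := by
      intro h0
      rw [h0, zero_pow hm.ne'] at hLm
      exact zero_ne_one hLm
    have hM0 : (fun u => it v0 p (x 0 + u) - x 0) 0 = 0 := by
      show it v0 p (x 0 + 0) - x 0 = 0
      rw [add_zero, orb_it hop _ le_rfl, hxp, sub_self]
    have hN2 : 2 ≤ N := by
      refine nf_comm hN ha hnf (g_an hop (x 0)) hM0 (g_der hop (x 0)) hL0 hL ?_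
      refine Eventually.of_forall fun u => ?_
      show it v0 (p * m) (x 0 + (it v0 p (x 0 + u) - x 0)) - x 0 =
        it v0 p (x 0 + (it v0 (p * m) (x 0 + u) - x 0)) - x 0
      rw [add_sub_cancel, add_sub_cancel, ← it_add, ← it_add, add_comm (p * m) p]
    obtain ⟨v1, hv1⟩ := tt1 hd hcop hdeg x hn hx ho hmul (trD_second ho hN2 hnf)
    obtain ⟨bad, hbad, hgen⟩ := genV_rot (N := N) (κ := 1) (by omega) (by omega) ha
      (one_ne_zero : (1 : ℂ) ≠ 0)
    refine cyc_cover (fun v => deriv (XX v0 v (p * m)) (x 0)) (fun v w => deriv_XX_add ho v w)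
      (fun c v => deriv_XX_smul v c) ⟨v1, hv1⟩ hbad ?_
    intro φ hφ v hv z hz hzlim hzne
    have hv' : deriv (XX v0 v (p * m)) (x 0) = Complex.exp (φ * Complex.I) := hv
    have hβ' : deriv (XX v0 v (p * m)) (x 0) ≠ 0 := by
      rw [hv']
      exact Complex.exp_ne_zero _
    have hgen' : ∃ s0 c : ℂ, GenAt N 1 a (deriv (XX v0 v (p * m)) (x 0)) s0 c := by
      rw [hv']
      have h1 := hgen φ hφ
      rwa [mul_one] at h1
    exact para_one hp hm hcopn ho hxp hx hL hN2 ha hnf hβ' hgen' hz hzlim hzne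

end Pool.Agent.H79.Par
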