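import Pool.Agent.H79.Par.It
import Pool.Agent.H79.Par.NormalForm

set_option autoImplicit false

open Filter Topology Polynomial Metric Set

namespace Pool.Agent.H79.Par

open Pool.Agent.H44.Fatou Pool.Agent.H32.BT Pool.Agent.H79.Eul


/-
PROOFS. g_an: it v0 n is differentiable near x 0 (orb_deriv at v0), so analytic at x 0
(Complex.analyticAt_iff_eventually_differentiableAt), composed with translations. it_trap: f = Rf v on the sphere,
n-th iterate = it v n on a neighbourhood (rat_it), sink_of_contr (H32/BT/TrapSink) at the centre c: for all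
v near v0 and all closed balls closedBall c ρ ⊆ ball (x 0) r. it_step: Att (Rf v) (it v n z) → Att (Rf v) z by att_iter
(H32/BT/Top; continuity of Rf v: rat_continuous, coprime near v0) and rat_it.
-/

theorem g_an {d : ℕ} {v0 : E d} {x : ℕ → ℂ} {n : ℕ} (ho : Orb v0 x n) (c : ℂ) :
    AnalyticAt ℂ (fun u => it v0 n (x 0 + u) - c) 0 := by
  have h1 : ∀ᶠ z in 𝓝 (x 0), HasDerivAt (fun w => it v0 n w) (trD v0 n z) z := by
    have hc : Continuous (fun z : ℂ => (v0, z)) := by fun_prop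
    exact (hc.tendsto (x 0)).eventually (orb_deriv ho)
  have h2 : AnalyticAt ℂ (fun w => it v0 n w) (x 0) := by
    rw [Complex.analyticAt_iff_eventually_differentiableAt]
    exact h1.mono (fun z hz => hz.differentiableAt)
  have h3 : AnalyticAt ℂ (fun u : ℂ => x 0 + u) 0 := by fun_prop
  have h4 : AnalyticAt ℂ (fun w => it v0 n w) ((fun u : ℂ => x 0 + u) 0) := by
    simpa using h2
  exact (h4.comp h3).sub analyticAt_const

theorem g_der {d : ℕ} {v0 : E d} {x : ℕ → ℂ} {n : ℕ} (ho : Orb v0 x n) (c : ℂ) :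
    HasDerivAt (fun u => it v0 n (x 0 + u) - c) (trD v0 n (x 0)) 0 := by
  have h1 : HasDerivAt (fun z => it v0 n z) (trD v0 n (x 0)) (x 0) :=
    (orb_deriv ho).self_of_nhds
  have h2 : HasDerivAt (fun z => it v0 n z) (trD v0 n (x 0)) (x 0 + 0) := by
    rw [add_zero]; exact h1
  exact (h2.comp_const_add (x 0) 0).sub_const c

theorem it_trap {d : ℕ} {v0 : E d} {x : ℕ → ℂ} {n : ℕ} (hn : 0 < n) (ho : Orb v0 x n) :
    ∃ r : ℝ, 0 < r ∧ ∀ᶠ v in 𝓝 v0, ∀ (c : ℂ) (ρ q : ℝ), 0 < ρ → 0 ≤ q → q < 1 →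
      closedBall c ρ ⊆ ball (x 0) r → (∀ z ∈ closedBall c ρ, it v n z ∈ ball c ρ) →
      (∀ z ∈ closedBall c ρ, ∀ w ∈ closedBall c ρ, ‖it v n z - it v n w‖ ≤ q * ‖z - w‖) →
      ∀ z ∈ closedBall c ρ, Att (Rf v) (z : OnePoint ℂ) := by
  have h := orb_near ho
  rw [nhds_prod_eq, Filter.eventually_prod_iff] at h
  obtain ⟨pa, hpa, pb, hpb, hab⟩ := h
  obtain ⟨r, hr, hrb⟩ := Metric.eventually_nhds_iff_ball.mp hpb
  refine ⟨r, hr, ?_⟩
  filter_upwards [hpa] with v hv c ρ q hρ hq0 hq hsub hmaps hlip z hz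
  obtain ⟨z0, _, hs, hw⟩ := sink_of_contr (f := Rf v) (F := it v n) (a := c) (r := ρ) (q := q)
    hn hρ hq0 hq (fun w hw => rat_it (hab hv (hrb w (hsub hw)))) hmaps hlip
  exact ⟨z0, n, hs, (hw z hz).1⟩

theorem it_step {d : ℕ} {v0 : E d} {x : ℕ → ℂ} {n : ℕ}
    (hcop : ∀ᶠ v in 𝓝 v0, IsCoprime (pol v.1) (pol v.2)) (ho : Orb v0 x n) :
    ∀ᶠ y : E d × ℂ in 𝓝 (v0, x 0),
      Att (Rf y.1) ((it y.1 n y.2 : ℂ) : OnePoint ℂ) → Att (Rf y.1) (y.2 : OnePoint ℂ) := by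
  have h1 : ∀ᶠ y : E d × ℂ in 𝓝 (v0, x 0), IsCoprime (pol y.1.1) (pol y.1.2) :=
    (continuous_fst.tendsto (v0, x 0)).eventually hcop
  filter_upwards [h1, orb_near ho] with y hy hy2 hA
  rw [← rat_it hy2] at hA
  exact (att_iter (rat_continuous hy) _ n).mp hA

end Pool.Agent.H79.Par
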