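import Pool.Agent.H79.Par.FO
import Pool.Agent.H79.Par.Transl

set_option autoImplicit false

open Filter Topology Polynomial Metric Set

namespace Pool.Agent.H79.Par

open Pool.Agent.H44.Fatou Pool.Agent.H32.BT Pool.Agent.H79.Eul


/-
PROOF. F τ u = it (pv v0 τ) n (x 0 + u) - x 0, h τ = τ.2, ep τ = τ.2 ^ (1/(N+1)) (Real.rpow): ep^(N+1) = h for h > 0
(Real.rpow_natCast, rpow_mul), ep → 0. ph: F τ u - u - (a u^(N+1) + h β) = [F0 u - u - a u^(N+1)]
+ h [(it (pv) n (x 0 + u) - it v0 n (x 0 + u))/h - β], F0 u = it v0 n (x 0 + u) - x 0: nf_est and fo (composed with the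
translation u ↦ x 0 + u; β = XX v0 v n (x 0)). κ = 0: z^0 = 1. hol: orb_deriv and pv_lim2. step: it_step.
trap: it_trap translated by x 0 (closedBall (x 0 + c) ρ).
-/

theorem gz_lim {d : ℕ} (v0 v : E d) (z : ℂ) :
    Tendsto (fun y : (E d × ℝ) × ℂ => (y.1, z + y.2)) (flt v ×ˢ 𝓝 (0 : ℂ)) (flt v ×ˢ 𝓝 z) := by
  have h1 : Tendsto (fun y : (E d × ℝ) × ℂ => y.1) (flt v ×ˢ 𝓝 (0 : ℂ)) (flt v) := tendsto_fst
  have h2 : Tendsto (fun y : (E d × ℝ) × ℂ => z + y.2) (flt v ×ˢ 𝓝 (0 : ℂ)) (𝓝 z) := by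
    have h3 : Tendsto (fun y : (E d × ℝ) × ℂ => y.2) (flt v ×ˢ 𝓝 (0 : ℂ)) (𝓝 0) := tendsto_snd
    have h4 := h3.const_add z
    simpa using h4
  exact h1.prodMk h2

theorem gz_lim2 {d : ℕ} (v0 v : E d) (z : ℂ) :
    Tendsto (fun y : (E d × ℝ) × ℂ => (pv v0 y.1, z + y.2)) (flt v ×ˢ 𝓝 (0 : ℂ)) (𝓝 (v0, z)) :=
  (pv_lim2 v0 v z).comp (gz_lim v0 v z)

theorem gz_ep_lim {d : ℕ} (v : E d) {N : ℕ} (hN : 1 ≤ N) :
    Tendsto (fun τ : E d × ℝ => τ.2 ^ (((N + 1 : ℕ) : ℝ)⁻¹)) (flt v) (𝓝 0) := by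
  have hp : (0 : ℝ) < ((N + 1 : ℕ) : ℝ)⁻¹ := by positivity
  have h1 : ContinuousAt (fun t : ℝ => t ^ (((N + 1 : ℕ) : ℝ)⁻¹)) 0 :=
    Real.continuousAt_rpow_const _ _ (Or.inr hp.le)
  have h2 : Tendsto (fun t : ℝ => t ^ (((N + 1 : ℕ) : ℝ)⁻¹)) (𝓝 0) (𝓝 0) := by
    have h3 := h1.tendsto
    rwa [Real.zero_rpow hp.ne'] at h3
  exact h2.comp (flt_lim v)

theorem germ_zero {d : ℕ} {v0 v : E d} {x : ℕ → ℂ} {n : ℕ} (hn : 0 < n)
    (hcop : ∀ᶠ w in 𝓝 v0, IsCoprime (pol w.1) (pol w.2)) (ho : Orb v0 x n) (hx : x n = x 0)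
    {N : ℕ} {a : ℂ} {k : ℂ → ℂ} (hN : 1 ≤ N)
    (hnf : NF (fun u => it v0 n (x 0 + u) - x 0) k N a) :
    ∃ s : Germ (E d × ℝ) (flt v) N 0 a (XX v0 v n (x 0)), (∀ τ, s.h τ = τ.2) ∧
      ∀ τ u, s.att τ u ↔ Att (Rf (pv v0 τ)) ((x 0 + u : ℂ) : OnePoint ℂ) := by
  have hph : ∀ δ : ℝ, 0 < δ → ∀ᶠ y : (E d × ℝ) × ℂ in flt v ×ˢ 𝓝 0,
      ‖(it (pv v0 y.1) n (x 0 + y.2) - x 0) - y.2 -
        (a * y.2 ^ (N + 1) + (y.1.2 : ℂ) * XX v0 v n (x 0) * y.2 ^ 0)‖ ≤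
      δ * (‖y.2‖ ^ (N + 1) + y.1.2 * ‖y.2‖ ^ 0) := by
    intro δ hδ
    have h1 : ∀ᶠ y : (E d × ℝ) × ℂ in flt v ×ˢ 𝓝 0,
        ‖(it v0 n (x 0 + y.2) - x 0) - y.2 - a * y.2 ^ (N + 1)‖ ≤ δ * ‖y.2‖ ^ (N + 1) :=
      (tendsto_snd (f := flt v) (g := 𝓝 (0 : ℂ))).eventually (nf_est hnf hδ)
    have h2 : ∀ᶠ y : (E d × ℝ) × ℂ in flt v ×ˢ 𝓝 0,
        ‖(it (pv v0 y.1) n (x 0 + y.2) - it v0 n (x 0 + y.2)) / (y.1.2 : ℂ) -
          XX v0 v n (x 0)‖ < δ := by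
      have h3 := (fo (v := v) ho).comp (gz_lim v0 v (x 0))
      rw [Metric.tendsto_nhds] at h3
      have h4 := h3 δ hδ
      simpa [Function.comp_def, dist_eq_norm] using h4
    have h3 : ∀ᶠ y : (E d × ℝ) × ℂ in flt v ×ˢ 𝓝 0, 0 < y.1.2 :=
      (tendsto_fst (f := flt v) (g := 𝓝 (0 : ℂ))).eventually (flt_pos v)
    filter_upwards [h1, h2, h3] with y hy1 hy2 hy3
    have hne : (y.1.2 : ℂ) ≠ 0 := by exact_mod_cast hy3.ne'
    have e1 : (it (pv v0 y.1) n (x 0 + y.2) - x 0) - y.2 -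
        (a * y.2 ^ (N + 1) + (y.1.2 : ℂ) * XX v0 v n (x 0) * y.2 ^ 0) =
        ((it v0 n (x 0 + y.2) - x 0) - y.2 - a * y.2 ^ (N + 1)) +
        (y.1.2 : ℂ) * ((it (pv v0 y.1) n (x 0 + y.2) - it v0 n (x 0 + y.2)) / (y.1.2 : ℂ) -
          XX v0 v n (x 0)) := by
      field_simp
      ring
    rw [e1]
    refine (norm_add_le _ _).trans ?_
    rw [norm_mul, Complex.norm_real, Real.norm_eq_abs, abs_of_pos hy3, pow_zero, mul_one, mul_add]
    refine add_le_add hy1 ?_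
    rw [mul_comm δ]
    exact mul_le_mul_of_nonneg_left hy2.le hy3.le
  obtain ⟨r, hr, htr⟩ := it_trap hn ho
  refine ⟨{
    h := fun τ => τ.2
    ep := fun τ => τ.2 ^ (((N + 1 : ℕ) : ℝ)⁻¹)
    F := fun τ u => it (pv v0 τ) n (x 0 + u) - x 0
    att := fun τ u => Att (Rf (pv v0 τ)) ((x 0 + u : ℂ) : OnePoint ℂ)
    ep_pos := ?_
    ep_lim := gz_ep_lim v hN
    h_ep := ?_
    ph := hph
    hol := ?_
    step := ?_
    trap := ?_ }, fun τ => rfl, fun τ u => Iff.rfl⟩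
  · filter_upwards [flt_pos v] with τ hτ
    exact Real.rpow_pos_of_pos hτ _
  · filter_upwards [flt_pos v] with τ hτ
    rw [pow_zero, mul_one]
    exact (Real.rpow_inv_natCast_pow hτ.le (Nat.succ_ne_zero N)).symm
  · have h1 := (gz_lim2 v0 v (x 0)).eventually (orb_deriv ho)
    filter_upwards [h1] with y hy
    have h2 : HasDerivAt (fun u : ℂ => x 0 + u) 1 y.2 := by
      simpa using (hasDerivAt_id y.2).const_add (x 0)
    have h3 := (hy.comp y.2 h2).sub_const (x 0)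
    exact h3.differentiableAt
  · have h1 := (gz_lim2 v0 v (x 0)).eventually (it_step hcop ho)
    filter_upwards [h1] with y hy h
    apply hy
    have e : x 0 + (it (pv v0 y.1) n (x 0 + y.2) - x 0) = it (pv v0 y.1) n (x 0 + y.2) := by ring
    rw [e] at h
    exact h
  · refine ⟨r, hr, ?_⟩
    filter_upwards [(pv_lim v0 v).eventually htr] with τ hτ c ρ q hρ hq hq1 hsub hmap hcon
    have key := hτ (x 0 + c) ρ q hρ hq hq1 ?_ ?_ ?_
    · intro z hz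
      apply key
      rw [mem_closedBall, dist_eq_norm] at hz ⊢
      have e : x 0 + z - (x 0 + c) = z - c := by ring
      rwa [e]
    · intro z hz
      rw [mem_closedBall, dist_eq_norm] at hz
      have h1 : z - x 0 ∈ closedBall c ρ := by
        rw [mem_closedBall, dist_eq_norm]
        have e : z - x 0 - c = z - (x 0 + c) := by ring
        rwa [e]
      have h2 := hsub h1
      rw [mem_ball, dist_eq_norm] at h2 ⊢
      simpa using h2
    · intro z hz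
      rw [mem_closedBall, dist_eq_norm] at hz
      have h1 : z - x 0 ∈ closedBall c ρ := by
        rw [mem_closedBall, dist_eq_norm]
        have e : z - x 0 - c = z - (x 0 + c) := by ring
        rwa [e]
      have h2 := hmap _ h1
      rw [mem_ball, dist_eq_norm] at h2 ⊢
      have e1 : x 0 + (z - x 0) = z := by ring
      rw [e1] at h2
      have e : it (pv v0 τ) n z - (x 0 + c) = it (pv v0 τ) n z - x 0 - c := by ring
      rwa [e]
    · intro z hz w hw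
      rw [mem_closedBall, dist_eq_norm] at hz hw
      have h1 : z - x 0 ∈ closedBall c ρ := by
        rw [mem_closedBall, dist_eq_norm]
        have e : z - x 0 - c = z - (x 0 + c) := by ring
        rwa [e]
      have h2 : w - x 0 ∈ closedBall c ρ := by
        rw [mem_closedBall, dist_eq_norm]
        have e : w - x 0 - c = w - (x 0 + c) := by ring
        rwa [e]
      have h3 := hcon _ h1 _ h2
      have e1 : x 0 + (z - x 0) = z := by ring
      have e2 : x 0 + (w - x 0) = w := by ring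
      rw [e1, e2] at h3
      have e3 : it (pv v0 τ) n z - x 0 - (it (pv v0 τ) n w - x 0) =
        it (pv v0 τ) n z - it (pv v0 τ) n w := by ring
      have e4 : z - x 0 - (w - x 0) = z - w := by ring
      rwa [e3, e4] at h3

end Pool.Agent.H79.Par
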