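import Pool.Agent.H79.Par.PerDec
import Pool.Agent.H79.Par.KerNull
import Pool.Agent.H79.Par.ParaGood
import Pool.Agent.H79.Par.GenRot
import Pool.Agent.H79.Par.CopNear
import Pool.Agent.H79.Par.Trans

set_option autoImplicit false

open Filter Topology Polynomial Metric Set

namespace Pool.Agent.H79.Par

open Pool.Agent.H44.Fatou Pool.Agent.H32.BT Pool.Agent.H79.Eul


/-
PROOF of dir_par. p, m from per_dec, n = p m, L = trD v0 p (x 0), L^m = 1 (trD_mul). F u = it v0 n (x 0 + u) - x 0 is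
analytic at 0, F 0 = 0, derivative 1 (g_an, g_der, orb_it). F is not the identity near 0: not_id with
u j = y (n j) - x 0 (u (j+1) = F (u j): it_add, orb_it for y; hne, hlim). normal_form: N, a, k.
Case L = 1: β v = XX v0 v n (x 0) = m * XX v0 v p (x 0) (XX_mul), nonzero for some v by tt0 (at p). It is linear
(XX_add, XX_smul), so N0 = {v | β v = 0} is null (ker_null). For v ∉ N0: genV_rot with κ = 0, β v gives bad;
for φ ∉ bad apply para_zero in the direction exp(φ I) • v, XX_smul. cop_near (first part).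
Case L ≠ 1: 2 ≤ N by nf_comm with M u = it v0 p (x 0 + u) - x 0 (analytic: g_an for p; derivative L ≠ 0 as L^m = 1;
commutation: it_add both ways, it v0 p (x 0) = x 0). trD_second gives HasDerivAt (trD v0 n) 0 (x 0), tt1 gives v with
deriv (XX v0 v n) (x 0) ≠ 0; linear by deriv_XX_add, deriv_XX_smul; genV_rot with κ = 1, para_one.
The orbit of length p: Orb v0 x p from ho (p ≤ n).
-/

open MeasureTheory in
theorem dir_par {d : ℕ} (hd : 2 ≤ d) {v0 : E d} (hcop : IsCoprime (pol v0.1) (pol v0.2))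
    (hdeg : max (pol v0.1).natDegree (pol v0.2).natDegree = d) {x y : ℕ → ℂ} {n : ℕ}
    (hn : 0 < n) (ho : Orb v0 x n) (hx : x n = x 0) (hmul : trD v0 n (x 0) = 1)
    (hy : ∀ j, Orb v0 y j) (hlim : Tendsto (fun j => y (n * j)) atTop (𝓝 (x 0)))
    (hne : ∀ j, y (n * j) ≠ x 0) : DirGood v0 (y 0) := by
  obtain ⟨p, m, hp, hm, hnpm, hxp, hinj⟩ := per_dec hn ho hx
  subst hnpm
  have hop : Orb v0 x p := fun j hj => ho j (lt_of_lt_of_le hj (Nat.le_mul_of_pos_right p hm))
  have hLm : trD v0 p (x 0) ^ m = 1 := by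
    rw [← trD_mul hop hxp]
    exact hmul
  have hcopn : ∀ᶠ w in 𝓝 v0, IsCoprime (pol w.1) (pol w.2) :=
    (cop_near hcop hdeg (by omega)).mono (fun _ h => h.1)
  have hF0 : (fun u => it v0 (p * m) (x 0 + u) - x 0) 0 = 0 := by
    show it v0 (p * m) (x 0 + 0) - x 0 = 0
    rw [add_zero, orb_it ho _ le_rfl, hx, sub_self]
  have hF1 : HasDerivAt (fun u => it v0 (p * m) (x 0 + u) - x 0) 1 0 := by
    have h1 := g_der ho (x 0)
    rwa [hmul] at h1
  have hlim0 : Tendsto (fun j => y (p * m * j) - x 0) atTop (𝓝 0) := by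
    have h1 := hlim.sub_const (x 0)
    rwa [sub_self] at h1
  have hnid : ¬ ∀ᶠ u in 𝓝 (0 : ℂ), (fun u => it v0 (p * m) (x 0 + u) - x 0) u = u := by
    refine not_id (u := fun j => y (p * m * j) - x 0) ?_ hlim0 (fun j => sub_ne_zero.2 (hne j))
    refine Eventually.of_forall fun j => ?_
    show y (p * m * (j + 1)) - x 0 = it v0 (p * m) (x 0 + (y (p * m * j) - x 0)) - x 0
    rw [add_sub_cancel, para_shift hy (p * m * j) (p * m), Nat.mul_succ]
  obtain ⟨N, a, k, hN, ha, hnf⟩ := normal_form (g_an ho (x 0)) hF0 hF1 hnid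
  by_cases hL : trD v0 p (x 0) = 1
  · obtain ⟨v1, hv1⟩ := tt0 hd hcop hdeg x hp hxp hop hinj hL
    have hm0 : (m : ℂ) ≠ 0 := by exact_mod_cast hm.ne'
    refine ⟨{v : E d | XX v0 v (p * m) (x 0) = 0},
      ker_null (fun v => XX v0 v (p * m) (x 0)) (fun v w => XX_add v0 v w (p * m) (x 0))
        (fun c v => XX_smul v0 v c (p * m) (x 0)) ⟨v1, ?_⟩, fun v hv => ?_⟩
    · show XX v0 v1 (p * m) (x 0) ≠ 0
      rw [XX_mul hop hxp hL]
      exact mul_ne_zero hm0 hv1
    · have hβ : XX v0 v (p * m) (x 0) ≠ 0 := hv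
      obtain ⟨bad, hbad, hgen⟩ := genV_rot (N := N) (κ := 0) (by omega) (by omega) ha hβ
      refine ⟨bad, hbad, fun φ hφ => ?_⟩
      have hβ' : XX v0 (Complex.exp (φ * Complex.I) • v) (p * m) (x 0) ≠ 0 := by
        rw [XX_smul]
        exact mul_ne_zero (Complex.exp_ne_zero _) hβ
      have hgen' : ∃ s0 c : ℂ, GenAt N 0 a
          (XX v0 (Complex.exp (φ * Complex.I) • v) (p * m) (x 0)) s0 c := by
        rw [XX_smul]
        exact hgen φ hφ
      exact para_zero hn hcopn ho hx hN ha hnf hβ' hgen' hy hlim hne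
  · have hL0 : trD v0 p (x 0) ≠ 0 := by
      intro h0
      rw [h0, zero_pow hm.ne'] at hLm
      exact zero_ne_one hLm
    have hM0 : (fun u => it v0 p (x 0 + u) - x 0) 0 = 0 := by
      show it v0 p (x 0 + 0) - x 0 = 0
      rw [add_zero, orb_it hop _ le_rfl, hxp, sub_self]
    have hN2 : 2 ≤ N := by
      refine nf_comm hN ha hnf (g_an hop (x 0)) hM0 (g_der hop (x 0)) hL0 hL ?_
      refine Eventually.of_forall fun u => ?_
      show it v0 (p * m) (x 0 + (it v0 p (x 0 + u) - x 0)) - x 0 =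
        it v0 p (x 0 + (it v0 (p * m) (x 0 + u) - x 0)) - x 0
      rw [add_sub_cancel, add_sub_cancel, ← it_add, ← it_add, add_comm (p * m) p]
    obtain ⟨v1, hv1⟩ := tt1 hd hcop hdeg x hn hx ho hmul (trD_second ho hN2 hnf)
    refine ⟨{v : E d | deriv (XX v0 v (p * m)) (x 0) = 0},
      ker_null (fun v => deriv (XX v0 v (p * m)) (x 0)) (fun v w => deriv_XX_add ho v w)
        (fun c v => deriv_XX_smul v c) ⟨v1, hv1⟩, fun v hv => ?_⟩
    have hβ : deriv (XX v0 v (p * m)) (x 0) ≠ 0 := hv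
    obtain ⟨bad, hbad, hgen⟩ := genV_rot (N := N) (κ := 1) (by omega) (by omega) ha hβ
    refine ⟨bad, hbad, fun φ hφ => ?_⟩
    have hβ' : deriv (XX v0 (Complex.exp (φ * Complex.I) • v) (p * m)) (x 0) ≠ 0 := by
      rw [deriv_XX_smul]
      exact mul_ne_zero (Complex.exp_ne_zero _) hβ
    have hgen' : ∃ s0 c : ℂ, GenAt N 1 a
        (deriv (XX v0 (Complex.exp (φ * Complex.I) • v) (p * m)) (x 0)) s0 c := by
      rw [deriv_XX_smul]
      exact hgen φ hφ
    exact para_one hp hm hcopn ho hxp hx hL hN2 ha hnf hβ' hgen' hy hlim hne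

end Pool.Agent.H79.Par
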