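import Pool.Agent.H79.Par.It

set_option autoImplicit false

open Filter Topology Polynomial Metric Set

namespace Pool.Agent.H79.Par

open Pool.Agent.H44.Fatou Pool.Agent.H32.BT Pool.Agent.H79.Eul


/-
PROOF by induction on n. n = 0: the quotient is 0. Step: put w1 = it (pv v0 τ) n z, w2 = it v0 n z, both tend to
x n. it_(n+1) = A_τ w1 with A_τ w = ev (pv).1 w/ev (pv).2 w, and it v0 (n+1) z = A_0 w2.
(A_τ w1 - A_0 w2)/h = (A_τ w1 - A_0 w1)/h + (A_0 w1 - A_0 w2)/h. By pv_ev1, pv_ev2 the first summand is exactly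
(ev v.1 w1 * ev v0.2 w1 - ev v0.1 w1 * ev v.2 w1)/(ev (pv).2 w1 * ev v0.2 w1) (with v = τ.1) → xi v0 v (x n)
(ev1_cont, ev2_cont). The second: A_0 is strictly differentiable at x n with derivative
wv v0/ev v0.2^2 (tr_hasDerivAt_ev; hasStrictDerivAt_of_hasDerivAt_of_continuousAt), so it is
(derivative + o(1)) (w1 - w2)/h → wv.. * XX v0 v n (x 0). it v0 n (x 0) = x n by orb_it.
-/

private theorem limAux {Y V : Type*} [TopologicalSpace V] {l : Filter Y} {A : V × ℂ → ℂ}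
    {f : Y → V} {g : Y → ℂ} {v : V} {z : ℂ} (hA : Tendsto A (𝓝 (v, z)) (𝓝 (A (v, z))))
    (h : Tendsto (fun y => (f y, g y)) l (𝓝 (v, z))) :
    Tendsto (fun y => A (f y, g y)) l (𝓝 (A (v, z))) := hA.comp h

theorem fo {d : ℕ} {v0 v : E d} {x : ℕ → ℂ} {n : ℕ} (ho : Orb v0 x n) :
    Tendsto (fun y : (E d × ℝ) × ℂ => (it (pv v0 y.1) n y.2 - it v0 n y.2) / (y.1.2 : ℂ))
      (flt v ×ˢ 𝓝 (x 0)) (𝓝 (XX v0 v n (x 0))) := by
  induction n with
  | zero =>
    have h1 : (fun y : (E d × ℝ) × ℂ => (it (pv v0 y.1) 0 y.2 - it v0 0 y.2) / (y.1.2 : ℂ)) =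
        fun _ => 0 := by
      funext y
      show (y.2 - y.2) / (y.1.2 : ℂ) = 0
      rw [sub_self, zero_div]
    rw [h1]
    exact tendsto_const_nhds
  | succ n ih =>
    have ho' : Orb v0 x n := fun j hj => ho j (by omega)
    have hden : ev v0.2 (x n) ≠ 0 := (ho n (by omega)).1
    have hit : it v0 n (x 0) = x n := orb_it ho' n le_rfl
    have ih' := ih ho'
    -- limits of the points
    have hpv : Tendsto (fun y : (E d × ℝ) × ℂ => pv v0 y.1) (flt v ×ˢ 𝓝 (x 0)) (𝓝 v0) :=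
      (pv_lim v0 v).comp tendsto_fst
    have hdir : Tendsto (fun y : (E d × ℝ) × ℂ => y.1.1) (flt v ×ˢ 𝓝 (x 0)) (𝓝 v) := by
      have h1 : Tendsto (fun τ : E d × ℝ => τ.1) (flt v) (𝓝 v) := tendsto_fst
      exact h1.comp tendsto_fst
    have hw1 : Tendsto (fun y : (E d × ℝ) × ℂ => it (pv v0 y.1) n y.2)
        (flt v ×ˢ 𝓝 (x 0)) (𝓝 (x n)) := by
      have h1 := (orb_cont ho' (le_refl n)).tendsto.comp (pv_lim2 v0 v (x 0))
      simp only [hit] at h1
      exact h1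
    have hw2 : Tendsto (fun y : (E d × ℝ) × ℂ => it v0 n y.2)
        (flt v ×ˢ 𝓝 (x 0)) (𝓝 (x n)) := by
      have h0 : Tendsto (fun y : (E d × ℝ) × ℂ => (v0, y.2)) (flt v ×ˢ 𝓝 (x 0))
          (𝓝 (v0, x 0)) := by
        rw [nhds_prod_eq]
        exact tendsto_const_nhds.prodMk tendsto_snd
      have h1 := (orb_cont ho' (le_refl n)).tendsto.comp h0
      simp only [hit] at h1
      exact h1
    have hpos : ∀ᶠ y : (E d × ℝ) × ℂ in flt v ×ˢ 𝓝 (x 0), (y.1.2 : ℂ) ≠ 0 := by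
      filter_upwards [(flt_pos v).prod_inl (𝓝 (x 0))] with y hy
      exact Complex.ofReal_ne_zero.2 hy.ne'
    -- first summand
    have hA : Tendsto (fun y : (E d × ℝ) × ℂ => ev y.1.1.1 (it (pv v0 y.1) n y.2))
        (flt v ×ˢ 𝓝 (x 0)) (𝓝 (ev v.1 (x n))) :=
      limAux (ev1_cont.tendsto (v, x n)) (hdir.prodMk_nhds hw1)
    have hB : Tendsto (fun y : (E d × ℝ) × ℂ => ev y.1.1.2 (it (pv v0 y.1) n y.2))
        (flt v ×ˢ 𝓝 (x 0)) (𝓝 (ev v.2 (x n))) :=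
      limAux (ev2_cont.tendsto (v, x n)) (hdir.prodMk_nhds hw1)
    have ha0 : Tendsto (fun y : (E d × ℝ) × ℂ => ev v0.1 (it (pv v0 y.1) n y.2))
        (flt v ×ˢ 𝓝 (x 0)) (𝓝 (ev v0.1 (x n))) :=
      limAux (ev1_cont.tendsto (v0, x n)) ((tendsto_const_nhds (x := v0)).prodMk_nhds hw1)
    have hb0 : Tendsto (fun y : (E d × ℝ) × ℂ => ev v0.2 (it (pv v0 y.1) n y.2))
        (flt v ×ˢ 𝓝 (x 0)) (𝓝 (ev v0.2 (x n))) :=
      limAux (ev2_cont.tendsto (v0, x n)) ((tendsto_const_nhds (x := v0)).prodMk_nhds hw1)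
    have hbt : Tendsto (fun y : (E d × ℝ) × ℂ => ev (pv v0 y.1).2 (it (pv v0 y.1) n y.2))
        (flt v ×ˢ 𝓝 (x 0)) (𝓝 (ev v0.2 (x n))) :=
      limAux (ev2_cont.tendsto (v0, x n)) (hpv.prodMk_nhds hw1)
    have h1 : Tendsto (fun y : (E d × ℝ) × ℂ =>
        (ev y.1.1.1 (it (pv v0 y.1) n y.2) * ev v0.2 (it (pv v0 y.1) n y.2) -
          ev v0.1 (it (pv v0 y.1) n y.2) * ev y.1.1.2 (it (pv v0 y.1) n y.2)) /
        (ev (pv v0 y.1).2 (it (pv v0 y.1) n y.2) * ev v0.2 (it (pv v0 y.1) n y.2)))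
        (flt v ×ˢ 𝓝 (x 0)) (𝓝 (xi v0 v (x n))) := by
      unfold xi
      rw [pow_two]
      exact ((hA.mul hb0).sub (ha0.mul hB)).div (hbt.mul hb0) (mul_ne_zero hden hden)
    -- second summand
    have hstrict : HasStrictDerivAt (fun z => ev v0.1 z / ev v0.2 z)
        (wv v0 (x n) / ev v0.2 (x n) ^ 2) (x n) := by
      have hc2 : Continuous (fun z : ℂ => ev v0.2 z) :=
        ev2_cont.comp (continuous_const.prodMk continuous_id)
      refine hasStrictDerivAt_of_hasDerivAt_of_continuousAt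
        (f' := fun z => wv v0 z / ev v0.2 z ^ 2) ?_ ?_
      · filter_upwards [hc2.continuousAt.eventually_ne hden] with z hz
        exact tr_hasDerivAt_ev v0 z hz
      · have hc1 : Continuous (fun z : ℂ => wv v0 z) := by
          unfold wv dev ev
          fun_prop
        exact hc1.continuousAt.div (hc2.pow 2).continuousAt (pow_ne_zero 2 hden)
    have ho1 : (fun q : ℂ × ℂ => ev v0.1 q.1 / ev v0.2 q.1 - ev v0.1 q.2 / ev v0.2 q.2 -
        wv v0 (x n) / ev v0.2 (x n) ^ 2 * (q.1 - q.2)) =o[𝓝 (x n, x n)]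
        fun q : ℂ × ℂ => q.1 - q.2 := by
      refine hstrict.hasStrictFDerivAt.isLittleO.congr_left fun q => ?_
      simp only [ContinuousLinearMap.toSpanSingleton_apply, smul_eq_mul]
      ring
    have ho2 := ho1.comp_tendsto (hw1.prodMk_nhds hw2)
    have hbig : (fun y : (E d × ℝ) × ℂ =>
        (it (pv v0 y.1) n y.2 - it v0 n y.2) * ((y.1.2 : ℂ))⁻¹) =O[flt v ×ˢ 𝓝 (x 0)]
        (fun _ => (1 : ℝ)) := by
      have h3 : Tendsto (fun y : (E d × ℝ) × ℂ =>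
          (it (pv v0 y.1) n y.2 - it v0 n y.2) * ((y.1.2 : ℂ))⁻¹) (flt v ×ˢ 𝓝 (x 0))
          (𝓝 (XX v0 v n (x 0))) := by
        simpa only [div_eq_mul_inv] using ih'
      exact h3.isBigO_one ℝ
    have h4 := (ho2.mul_isBigO (Asymptotics.isBigO_refl
      (fun y : (E d × ℝ) × ℂ => ((y.1.2 : ℂ))⁻¹) (flt v ×ˢ 𝓝 (x 0)))).trans_isBigO hbig
    have h5 := (Asymptotics.isLittleO_one_iff ℝ).1 h4
    have h6 := h5.add (ih'.const_mul (wv v0 (x n) / ev v0.2 (x n) ^ 2))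
    have h7 := h1.add h6
    rw [zero_add] at h7
    have h8 : XX v0 v (n + 1) (x 0) =
        xi v0 v (x n) + wv v0 (x n) / ev v0.2 (x n) ^ 2 * XX v0 v n (x 0) := by
      show xi v0 v (it v0 n (x 0)) + wv v0 (it v0 n (x 0)) / ev v0.2 (it v0 n (x 0)) ^ 2 *
        XX v0 v n (x 0) = _
      rw [hit]
    rw [h8]
    refine h7.congr' ?_
    filter_upwards [hpos, hb0.eventually_ne hden, hbt.eventually_ne hden] with y hh hb hbt'
    show _ = (ev (pv v0 y.1).1 (it (pv v0 y.1) n y.2) / ev (pv v0 y.1).2 (it (pv v0 y.1) n y.2) -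
      ev v0.1 (it v0 n y.2) / ev v0.2 (it v0 n y.2)) / (y.1.2 : ℂ)
    have e1 := pv_ev1 v0 y.1 (it (pv v0 y.1) n y.2)
    have e2 := pv_ev2 v0 y.1 (it (pv v0 y.1) n y.2)
    simp only [Function.comp_apply]
    generalize it (pv v0 y.1) n y.2 = w1 at *
    generalize it v0 n y.2 = w2 at *
    generalize ev (pv v0 y.1).1 w1 = a at *
    generalize hb' : ev (pv v0 y.1).2 w1 = b at *
    generalize ev v0.1 w1 = a1 at *
    generalize ev v0.2 w1 = b1 at *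
    generalize ev v0.1 w2 / ev v0.2 w2 = q at *
    subst e1
    have e3 : (ev y.1.1.1 w1 * b1 - a1 * ev y.1.1.2 w1) / (b * b1) =
        ((a1 + (y.1.2 : ℂ) * ev y.1.1.1 w1) / b - a1 / b1) / (y.1.2 : ℂ) := by
      rw [eq_div_iff hh, div_sub_div _ _ hbt' hb, div_mul_eq_mul_div]
      congr 1
      rw [e2]
      ring
    rw [e3]
    generalize (wv v0 (x n) / ev v0.2 (x n) ^ 2) = D
    ring

end Pool.Agent.H79.Par
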