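import Pool.Agent.H79.Par.CycNull
import Pool.Agent.H79.Par.PerFin
import Pool.Agent.H79.Par.AttGood

set_option autoImplicit false

open Filter Topology Polynomial Metric Set

namespace Pool.Agent.H79.Par

open Pool.Agent.H44.Fatou Pool.Agent.H32.BT Pool.Agent.H79.Eul


/-
PROOF of rob_null. Let S be the countable set of pairs (z', n), z' : ℂ, 0 < n, (Rf v0)^[n] z' = z' (per_all_countable;
countable preimage under the coercion) such that Ty2 (Rf v0) z z' n holds for some z : ℂ with both orbits finite. For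
every such pair choose z; x j = it v0 j z', y j = it v0 j z; fix_trD, orb_all and cyc_null give a null set N(z', n);
N = ⋃ is null. For v ∉ N RobDir v0 v holds: a point z of type 1 by att_good and pv_lim2 (as dir_att in
H79/Par/DirAll.lean), a point of type 2 by CycGood v0 (it v0 · z') n v applied to y j = it v0 j z.
nonrep: a point of Basin exists (the complement is null, volume univ ≠ 0); if its type is 1: sink_mult_fin
(H79/Par/SinkMult.lean, with cf_pol, wv_cf: the product is trD), if 2: fix_trD, norm of 1.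
basin_ae: outside the countable set of points whose orbit hits infinity (pre_countable); z' is finite and has finite
iterates since infinity is not periodic (Chart0) and z' is periodic.
-/

open MeasureTheory in
theorem rob_null {d : ℕ} (hd : 2 ≤ d) {v0 : E d} (hcop : IsCoprime (pol v0.1) (pol v0.2))
    (hdeg : max (pol v0.1).natDegree (pol v0.2).natDegree = d) :
    volume {v : E d | ¬ RobDir v0 v} = 0 := by
  classical
  set T : Set (ℂ × ℕ) := {t | 0 < t.2 ∧ (Rf v0)^[t.2] (t.1 : OnePoint ℂ) = (t.1 : OnePoint ℂ) ∧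
    ∃ z : ℂ, Ty2 (Rf v0) (z : OnePoint ℂ) (t.1 : OnePoint ℂ) t.2 ∧
      (∀ j, (Rf v0)^[j] (z : OnePoint ℂ) ≠ OnePoint.infty) ∧
      ∀ j, (Rf v0)^[j] (t.1 : OnePoint ℂ) ≠ OnePoint.infty} with hT
  have hTc : T.Countable := by
    have h1 : {z : ℂ | ∃ n : ℕ, 0 < n ∧ (Rf v0)^[n] (z : OnePoint ℂ) = (z : OnePoint ℂ)}.Countable :=
      (per_all_countable hcop (by rw [hdeg]; exact hd)).preimage_of_injOn
        (f := ((↑) : ℂ → OnePoint ℂ)) (OnePoint.coe_injective.injOn)
    refine (h1.prod (Set.countable_univ (α := ℕ))).mono ?_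
    rintro ⟨z', n⟩ ⟨hn, hfix, -⟩
    exact ⟨⟨n, hn, hfix⟩, Set.mem_univ _⟩
  have hsub : {v : E d | ¬ RobDir v0 v} ⊆
      ⋃ t ∈ T, {v : E d | ¬ CycGood v0 (fun j => it v0 j t.1) t.2 v} := by
    intro v hv
    by_contra hnot
    apply hv
    have hall : ∀ t ∈ T, CycGood v0 (fun j => it v0 j t.1) t.2 v := by
      intro t ht
      by_contra hc
      exact hnot (Set.mem_biUnion ht hc)
    rintro z ⟨z', n, hty, hz, hz'⟩
    obtain ⟨hxo, hxe⟩ := orb_all hz'
    obtain ⟨hyo, hye⟩ := orb_all hz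
    rcases hty with h | h
    · have h1 := att_good hd hcop hdeg h.1 hz' (y := fun j => it v0 j z) hyo h.2
      exact (pv_lim2 v0 v z).eventually h1
    · obtain ⟨hn, hfix, hlim, hne⟩ := id h
      obtain ⟨hx, -⟩ := fix_trD (x := fun j => it v0 j z') (hxo n) (a := 1) hfix
      have hfix' : (Rf v0)^[n] (z' : OnePoint ℂ) = (z' : OnePoint ℂ) := by
        rw [hxe n]
        exact congrArg _ hx
      have hg := hall (z', n) ⟨hn, hfix', z, h, hz, hz'⟩
      refine hg (fun j => it v0 j z) hyo ?_ ?_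
      · show Tendsto (fun j => it v0 (n * j) z) atTop (𝓝 z')
        rw [OnePoint.isOpenEmbedding_coe.tendsto_nhds_iff]
        refine hlim.congr fun k => ?_
        exact hye (n * k)
      · intro j hj
        apply hne j
        rw [hye (n * j)]
        exact congrArg _ hj
  refine measure_mono_null hsub ((measure_biUnion_null_iff hTc).mpr ?_)
  rintro ⟨z', n⟩ ⟨hn, -, z, ⟨-, hfix, hlim, hne⟩, hz, hz'⟩
  obtain ⟨hxo, hxe⟩ := orb_all hz'
  obtain ⟨hyo, hye⟩ := orb_all hz
  obtain ⟨hx, hmul⟩ := fix_trD (x := fun j => it v0 j z') (hxo n) (a := 1) hfix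
  refine cyc_null hd hcop hdeg (x := fun j => it v0 j z') (y := fun j => it v0 j z) hn (hxo n) hx
    hmul hyo ?_ ?_
  · show Tendsto (fun j => it v0 (n * j) z) atTop (𝓝 z')
    rw [OnePoint.isOpenEmbedding_coe.tendsto_nhds_iff]
    refine hlim.congr fun k => ?_
    exact hye (n * k)
  · intro j hj
    apply hne j
    rw [hye (n * j)]
    exact congrArg _ hj

open MeasureTheory in
theorem nonrep_of_basin {d : ℕ} (hd : 2 ≤ d) {v0 : E d}
    (hcop : IsCoprime (pol v0.1) (pol v0.2))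
    (hdeg : max (pol v0.1).natDegree (pol v0.2).natDegree = d)
    (h : volume {z : ℂ | ¬ Basin v0 z} = 0) : NonRep v0 := by
  classical
  have hex : ∃ z : ℂ, Basin v0 z := by
    by_contra hno
    push Not at hno
    have h1 : {z : ℂ | ¬ Basin v0 z} = Set.univ := by
      ext z
      simp [hno z]
    rw [h1] at h
    exact (isOpen_univ.measure_pos volume ⟨(0 : ℂ), Set.mem_univ _⟩).ne' h
  obtain ⟨z, z', n, hty, hz, hz'⟩ := hex
  rcases hty with h1 | ⟨hn, hfix, -, -⟩
  · obtain ⟨x, hx0, -, hQ, hstep, hxn, hmul⟩ :=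
      sink_mult_fin hcop (by rw [hdeg]; exact hd) h1.1 hz'
    have hv0 : v0 = ((cf d (pol v0.1), cf d (pol v0.2)) : E d) := by
      rw [cf_pol, cf_pol]
    have hwv : ∀ u : ℂ, wv v0 u = (Wr (pol v0.1) (pol v0.2)).eval u := by
      intro u
      rw [← wv_cf (pol_deg v0.1) (pol_deg v0.2), ← hv0]
    have ho : Orb v0 x n := by
      intro j _
      rw [← pol_eval, ← pol_eval]
      exact ⟨hQ j, hstep j⟩
    refine ⟨x, n, h1.1.1, ho, hxn, ?_⟩
    have h2 : trD v0 n (x 0) = ∏ j ∈ Finset.range n, (Wr (pol v0.1) (pol v0.2)).eval (x j) /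
        ((pol v0.2).eval (x j)) ^ 2 := by
      unfold trD
      refine Finset.prod_congr rfl fun j hj => ?_
      rw [orb_it ho j (Finset.mem_range.mp hj).le, hwv, pol_eval]
    rw [h2]
    exact hmul.le
  · obtain ⟨hxo, -⟩ := orb_all hz'
    obtain ⟨hx, hmul⟩ := fix_trD (x := fun j => it v0 j z') (hxo n) (a := 1) hfix
    refine ⟨fun j => it v0 j z', n, hn, hxo n, hx, ?_⟩
    rw [hmul, norm_one]

open MeasureTheory in
theorem basin_ae {d : ℕ} (hd : 2 ≤ d) {v0 : E d} (h0 : Chart0 v0)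
    (h : volume {z : ℂ | ¬ ∃ (z' : OnePoint ℂ) (n : ℕ), Ty12 (Rf v0) (z : OnePoint ℂ) z' n} = 0) :
    volume {z : ℂ | ¬ Basin v0 z} = 0 := by
  classical
  have hc : (((↑) : ℂ → OnePoint ℂ) ⁻¹' {x : OnePoint ℂ | ∃ j : ℕ, (Rf v0)^[j] x = OnePoint.infty}).Countable :=
    (pre_countable h0.1 (by rw [h0.2.1]; omega) OnePoint.infty).preimage_of_injOn
      (OnePoint.coe_injective.injOn)
  refine measure_mono_null (t := {z : ℂ | ¬ ∃ (z' : OnePoint ℂ) (n : ℕ),
    Ty12 (Rf v0) (z : OnePoint ℂ) z' n} ∪ ((↑) : ℂ → OnePoint ℂ) ⁻¹'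
      {x : OnePoint ℂ | ∃ j : ℕ, (Rf v0)^[j] x = OnePoint.infty}) ?_
      (measure_union_null h (hc.measure_zero _))
  intro z hz
  by_contra hnot
  rw [Set.mem_union, not_or] at hnot
  obtain ⟨h1, h2⟩ := hnot
  apply hz
  have h1' : ∃ (z' : OnePoint ℂ) (n : ℕ), Ty12 (Rf v0) (z : OnePoint ℂ) z' n := by
    by_contra h
    exact h1 h
  obtain ⟨z', n, hty⟩ := h1'
  have hfin : ∀ j, (Rf v0)^[j] (z : OnePoint ℂ) ≠ OnePoint.infty := fun j hj => h2 ⟨j, hj⟩
  have hper : 0 < n ∧ (Rf v0)^[n] z' = z' := by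
    rcases hty with h3 | ⟨hn, hfix, -⟩
    · exact ⟨h3.1.1, h3.1.2.1⟩
    · refine ⟨hn, ?_⟩
      rcases hfix with ⟨w, G, hw, hGw, -, hev⟩ | ⟨G, hinf, hG0, -, hev⟩
      · have h4 := hev.self_of_nhds
        rw [hw, h4, hGw]
      · have h4 := hev.self_of_nhds
        rw [hG0] at h4
        have h5 : inv1 0 = OnePoint.infty := if_pos rfl
        rw [h5] at h4
        rw [hinf, h4]
  have hfin' : ∀ j, (Rf v0)^[j] z' ≠ OnePoint.infty := by
    intro j hj
    apply h0.2.2.1 n hper.1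
    rw [← hj, ← Function.iterate_add_apply, Nat.add_comm, Function.iterate_add_apply, hper.2]
  induction z' using OnePoint.rec with
  | infty => exact absurd rfl (hfin' 0)
  | coe z' => exact ⟨z', n, hty, hfin, hfin'⟩

end Pool.Agent.H79.Par
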