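import Pool.Agent.H79.Par.TanConj
import Pool.Agent.H79.Eul.Transport
import Pool.Agent.H32.BT.Crit

set_option autoImplicit false

open Filter Topology Polynomial Metric Set

namespace Pool.Agent.H79.Par

open Pool.Agent.H44.Fatou Pool.Agent.H32.BT Pool.Agent.H79.Eul


/-
PROOF. f = Rf v0 = rat (pol v0.1) (pol v0.2). The critical points form a finite set (crit_finite). For every
critical point c choose zc, nc by h. S = S0 ∪ {critical points} ∪ {f^[j] c} ∪ {f^[j] zc} is countable.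
exists_generic_s (H32/RB/Chart.lean) gives s ∉ S. chart_at gives φ; with A = pol v0.1, B = pol v0.2, e = d the pair
(cj1 s d A B, cj2 s d A B) = (pol (Lin s v0).1, pol (Lin s v0).2) (Lin, pol_cf; degree bounds mob_deg1, mob_deg2,
natDegree_reflect_le' as in H79/Eul/Transport.lean), so Rf (Lin s v0) (φ x) = φ (Rf v0 x). φ x = ∞ iff x = s.
¬ IsCrit ∞: isCrit_conj (H32/BT/Top.lean), s is not critical. A critical point (c : ℂ) of Rf (Lin s v0) is φ c' with c'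
critical; φ zc' is finite as zc' ≠ s; iterates: iter_conj. Type: the hypothesis hT, transported.
-/

theorem good_chart {d : ℕ} (hd : 2 ≤ d) {v0 : E d} (hcop : IsCoprime (pol v0.1) (pol v0.2))
    (hdeg : max (pol v0.1).natDegree (pol v0.2).natDegree = d)
    {Ty : (OnePoint ℂ → OnePoint ℂ) → OnePoint ℂ → OnePoint ℂ → ℕ → Prop}
    (hT : ∀ (s : ℂ) (φ : OnePoint ℂ ≃ₜ OnePoint ℂ), φ s = OnePoint.infty →
      (∀ z : ℂ, z ≠ s → φ (z : OnePoint ℂ) = (((z - s)⁻¹ : ℂ) : OnePoint ℂ)) →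
      φ OnePoint.infty = ((0 : ℂ) : OnePoint ℂ) →
      ∀ f g : OnePoint ℂ → OnePoint ℂ, (∀ x, g (φ x) = φ (f x)) →
        ∀ (c z : OnePoint ℂ) (n : ℕ), z ≠ s → Ty f c z n → Ty g (φ c) (φ z) n)
    (h : ∀ c, IsCrit (Rf v0) c → ∃ z n, Ty (Rf v0) c z n)
    {S0 : Set (OnePoint ℂ)} (hS0 : S0.Countable) :
    ∃ (s : ℂ) (φ : OnePoint ℂ ≃ₜ OnePoint ℂ), (s : OnePoint ℂ) ∉ S0 ∧
      φ s = OnePoint.infty ∧
      (∀ z : ℂ, z ≠ s → φ (z : OnePoint ℂ) = (((z - s)⁻¹ : ℂ) : OnePoint ℂ)) ∧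
      φ OnePoint.infty = ((0 : ℂ) : OnePoint ℂ) ∧
      (∀ x, Rf (Lin s v0) (φ x) = φ (Rf v0 x)) ∧
      IsCoprime (pol (Lin s v0).1) (pol (Lin s v0).2) ∧
      max (pol (Lin s v0).1).natDegree (pol (Lin s v0).2).natDegree = d ∧
      ¬ IsCrit (Rf (Lin s v0)) OnePoint.infty ∧
      ∀ c : ℂ, IsCrit (Rf (Lin s v0)) (c : OnePoint ℂ) →
        ∃ (z : ℂ) (n : ℕ), Ty (Rf (Lin s v0)) (c : OnePoint ℂ) (z : OnePoint ℂ) n ∧
          (∀ j, (Rf (Lin s v0))^[j] (c : OnePoint ℂ) ≠ OnePoint.infty) ∧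
          ∀ j, (Rf (Lin s v0))^[j] (z : OnePoint ℂ) ≠ OnePoint.infty := by
  classical
  have hch : ∀ c : OnePoint ℂ, ∃ z : OnePoint ℂ, IsCrit (Rf v0) c → ∃ n, Ty (Rf v0) c z n := by
    intro c
    by_cases hc : IsCrit (Rf v0) c
    · obtain ⟨z, n, hz⟩ := h c hc
      exact ⟨z, fun _ => ⟨n, hz⟩⟩
    · exact ⟨c, fun hc' => absurd hc' hc⟩
  choose zz hzz using hch
  have hfin : {c | IsCrit (Rf v0) c}.Finite := crit_finite hcop (by rw [hdeg]; omega)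
  set S : Set (OnePoint ℂ) := (S0 ∪ {c | IsCrit (Rf v0) c}) ∪
    ((⋃ c ∈ {c | IsCrit (Rf v0) c}, Set.range (fun j : ℕ => (Rf v0)^[j] c)) ∪
      (⋃ c ∈ {c | IsCrit (Rf v0) c}, Set.range (fun j : ℕ => (Rf v0)^[j] (zz c)))) with hS
  have hScount : S.Countable := by
    refine (hS0.union hfin.countable).union (Set.Countable.union ?_ ?_)
    · exact hfin.countable.biUnion fun c _ => Set.countable_range _
    · exact hfin.countable.biUnion fun c _ => Set.countable_range _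
  obtain ⟨s, hsS, -⟩ := Pool.Agent.H32.RB.exists_generic_s hcop (by rw [hdeg]; exact hd) hScount
  obtain ⟨φ, hφs, hφ1, hφi, hcop1, hdeg1, hconj, -⟩ :=
    Pool.Agent.H32.RB.chart_at hcop hdeg (by omega) s
  have hd1 := Pool.Agent.H32.RB.natDegree_le_of_max hdeg1
  have e1 : pol (Lin s v0).1 = cj1 s d (pol v0.1) (pol v0.2) := pol_cf hd1.1
  have e2 : pol (Lin s v0).2 = cj2 s d (pol v0.1) (pol v0.2) := pol_cf hd1.2
  have hg : ∀ x, Rf (Lin s v0) (φ x) = φ (Rf v0 x) := by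
    intro x
    unfold Rf
    rw [e1, e2]
    exact hconj x
  have hs0 : (s : OnePoint ℂ) ∉ S0 := fun hh => hsS (Or.inl (Or.inl hh))
  have hs1 : ¬ IsCrit (Rf v0) (s : OnePoint ℂ) := fun hh => hsS (Or.inl (Or.inr hh))
  have hs2 : ∀ c, IsCrit (Rf v0) c → ∀ j, (Rf v0)^[j] c ≠ (s : OnePoint ℂ) := by
    intro c hc j hj
    apply hsS
    refine Or.inr (Or.inl ?_)
    rw [Set.mem_iUnion₂]
    exact ⟨c, hc, j, hj⟩
  have hs3 : ∀ c, IsCrit (Rf v0) c → ∀ j, (Rf v0)^[j] (zz c) ≠ (s : OnePoint ℂ) := by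
    intro c hc j hj
    apply hsS
    refine Or.inr (Or.inr ?_)
    rw [Set.mem_iUnion₂]
    exact ⟨c, hc, j, hj⟩
  have hne : ∀ x : OnePoint ℂ, x ≠ (s : OnePoint ℂ) → φ x ≠ OnePoint.infty := by
    intro x hx hh
    rw [← hφs] at hh
    exact hx (φ.injective hh)
  refine ⟨s, φ, hs0, hφs, hφ1, hφi, hg, ?_, ?_, ?_, ?_⟩
  · rw [e1, e2]
    exact hcop1
  · rw [e1, e2]
    exact hdeg1
  · rw [← hφs, isCrit_conj φ hg]
    exact hs1
  · intro c hc
    obtain ⟨c', hc'⟩ := φ.surjective (c : OnePoint ℂ)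
    have hcr : IsCrit (Rf v0) c' := by
      rw [← isCrit_conj φ hg, hc']
      exact hc
    obtain ⟨n, hn⟩ := hzz c' hcr
    have hz0 : zz c' ≠ (s : OnePoint ℂ) := hs3 c' hcr 0
    obtain ⟨w, hw⟩ := OnePoint.ne_infty_iff_exists.1 (hne _ hz0)
    refine ⟨w, n, ?_, ?_, ?_⟩
    · rw [hw, ← hc']
      exact hT s φ hφs hφ1 hφi (Rf v0) (Rf (Lin s v0)) hg c' (zz c') n hz0 hn
    · intro j
      rw [← hc', iter_conj φ hg]
      exact hne _ (hs2 c' hcr j)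
    · intro j
      rw [hw, iter_conj φ hg]
      exact hne _ (hs3 c' hcr j)

end Pool.Agent.H79.Par
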