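import Pool.Agent.H79.Par.Parts
import Pool.Agent.H79.Par.RobNull
import Pool.Agent.H79.Par.SubToC
import Pool.Agent.H79.Par.CFinal
import Pool.Agent.H79.Par.ChartVol
import Pool.Agent.H79.Par.GoodChart
import Pool.Agent.H79.Eul.Scaling

set_option autoImplicit false

open Filter Topology Polynomial Metric Set

namespace Pool.Agent.H79.Par

open Pool.Agent.H44.Fatou Pool.Agent.H32.BT Pool.Agent.H79.Eul

theorem exists_chart0 {d : ℕ} (hd : 2 ≤ d) {v0 : E d} (hcop : IsCoprime (pol v0.1) (pol v0.2))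
    (hdeg : max (pol v0.1).natDegree (pol v0.2).natDegree = d)
    (h : ∀ c, IsCrit (Rf v0) c → ∃ z n, TyA (Rf v0) c z n)
    (hex : ∃ c z n, IsCrit (Rf v0) c ∧ Ty12 (Rf v0) c z n) :
    ∃ s : ℂ, Chart0 (Lin s v0) ∧ ¬ IsCrit (Rf (Lin s v0)) OnePoint.infty ∧
      (∀ c, IsCrit (Rf (Lin s v0)) c → ∃ z n, TyA (Rf (Lin s v0)) c z n) ∧
      (∃ c z n, IsCrit (Rf (Lin s v0)) c ∧ Ty12 (Rf (Lin s v0)) c z n) ∧
      ∀ c : ℂ, IsCrit (Rf (Lin s v0)) (c : OnePoint ℂ) →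
        ∃ (z : ℂ) (n : ℕ), TyA (Rf (Lin s v0)) (c : OnePoint ℂ) (z : OnePoint ℂ) n ∧
          (∀ j, (Rf (Lin s v0))^[j] (c : OnePoint ℂ) ≠ OnePoint.infty) ∧
          ∀ j, (Rf (Lin s v0))^[j] (z : OnePoint ℂ) ≠ OnePoint.infty := by
  have hd2 : 2 ≤ max (pol v0.1).natDegree (pol v0.2).natDegree := by rw [hdeg]; exact hd
  obtain ⟨ce, ze, ne, hcrit, hty⟩ := hex
  obtain ⟨s, φ, hs0, hs, hφ, hi, hconj, h1, h2, h3, h4⟩ := good_chart hd hcop hdeg
    (Ty := TyA) (fun s φ hs hφ hi f g hfg c z n hz hT => tyA_conj hs hφ hi hfg hz hT)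
    h (S0 := {x : OnePoint ℂ | ∃ n : ℕ, 0 < n ∧ (Rf v0)^[n] x = x})
    (per_all_countable hcop hd2)
  have hinf : ∀ x, φ x = OnePoint.infty ↔ x = s := by
    intro x
    rw [← hs]
    exact φ.injective.eq_iff
  have hT : ∀ c, IsCrit (Rf (Lin s v0)) c → ∃ c', c = φ c' ∧ IsCrit (Rf v0) c' := by
    intro c hc
    obtain ⟨c', rfl⟩ := φ.surjective c
    exact ⟨c', rfl, (isCrit_conj φ hconj c').1 hc⟩
  refine ⟨s, ⟨h1, h2, ?_, ?_⟩, h3, ?_, ?_, h4⟩
  · intro n hn hcon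
    rw [← hs, iter_conj φ hconj] at hcon
    exact hs0 ⟨n, hn, φ.injective hcon⟩
  · intro c hc
    induction c using OnePoint.rec with
    | infty => exact absurd hc h3
    | coe c =>
      obtain ⟨z, n, -, hcf, -⟩ := h4 c hc
      exact hcf
  · intro c hc
    induction c using OnePoint.rec with
    | infty => exact absurd hc h3
    | coe c =>
      obtain ⟨z, n, hz, -, -⟩ := h4 c hc
      exact ⟨z, n, hz⟩
  · have hzs : ze ≠ s := by
      intro hcon
      apply hs0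
      rcases hty with ⟨⟨hn, hper, -⟩, -⟩ | ⟨hn, hfix, -⟩
      · exact ⟨ne, hn, by rw [← hcon]; exact hper⟩
      · refine ⟨ne, hn, ?_⟩
        rw [← hcon]
        rcases hfix with ⟨w, G, rfl, hG, -, hev⟩ | ⟨G, rfl, hG, -, hev⟩
        · have := hev.self_of_nhds
          rw [this, hG]
        · have := hev.self_of_nhds
          have h0 : inv1 0 = OnePoint.infty := if_pos rfl
          rw [hG, h0] at this
          exact this
    exact ⟨φ ce, φ ze, ne, (isCrit_conj φ hconj ce).2 hcrit,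
      ty12_conj hs hφ hi hconj hzs hty⟩

open MeasureTheory in
/-- geometrically finite maps: the proportion of non-hyperbolic maps tends to zero -/
theorem geo_dens {d : ℕ} (hd : 2 ≤ d) {v0 : E d} (hcop : IsCoprime (pol v0.1) (pol v0.2))
    (hdeg : max (pol v0.1).natDegree (pol v0.2).natDegree = d)
    (h : ∀ c, IsCrit (Rf v0) c → ∃ z n, TyA (Rf v0) c z n)
    (hex : ∃ c z n, IsCrit (Rf v0) c ∧ Ty12 (Rf v0) c z n) :
    Tendsto (fun r : ℝ => volume (ball (0 : E d) 1 ∩ {v | ¬ HypDeg (pv v0 (v, r))}))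
      (𝓝[>] 0) (𝓝 0) := by
  obtain ⟨s, h0, h1, h2, h3, h4⟩ := exists_chart0 hd hcop hdeg h hex
  have hW := basin_ae hd h0 (area0 hd h0 h2 h3)
  have hV := rob_null hd h0.1 h0.2.1
  have hnr := nonrep_of_basin hd h0.1 h0.2.1 hW
  refine chart_vol s (by omega) (c_final hd h0.1 h0.2.1 h1 fun c hc => ?_)
  have hw : wv (Lin s v0) c = 0 := by
    have h5 := crit_coe hc
    rw [← wv_cf (d := d) (pol_deg _) (pol_deg _), cf_pol, cf_pol] at h5
    exact h5
  obtain ⟨z, n, hT, hcf, hzf⟩ := h4 c hc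
  rcases hT with hT | hT | hT | hT
  · exact sub_c (sub_basin ⟨z, n, Or.inl hT, hcf, hzf⟩ hV)
  · exact sub_c (sub_basin ⟨z, n, Or.inr hT, hcf, hzf⟩ hV)
  · exact sub_c (rep_good hd h0 hw hT hW hV hnr)
  · exact land_good hd h0 hw hT

open MeasureTheory in
theorem prop_of_dens {d : ℕ} {v0 : E d}
    (h1 : Tendsto (fun r : ℝ => volume (ball (0 : E d) 1 ∩ {v | ¬ HypDeg (pv v0 (v, r))}))
      (𝓝[>] 0) (𝓝 0)) :
    Tendsto (fun r : ℝ => volume (ball v0 r ∩ {v | ¬ HypDeg v}) / volume (ball v0 r))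
      (𝓝[>] 0) (𝓝 0) := by
  have hb : volume (ball (0 : E d) 1) ≠ 0 := (measure_ball_pos _ _ one_pos).ne'
  have h2 := ENNReal.Tendsto.div_const h1 (b := volume (ball (0 : E d) 1)) (Or.inr hb)
  rw [ENNReal.zero_div] at h2
  refine h2.congr' ?_
  filter_upwards [self_mem_nhdsWithin] with r hr
  rw [scaling _ _ hr]
  rfl

end Pool.Agent.H79.Par
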