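import Pool.Agent.H80.AJ.Area0

set_option autoImplicit false

open Filter Topology Polynomial OnePoint Metric Set MeasureTheory

namespace Pool.Agent.H80.AJ

open Pool.Agent.H44.Fatou Pool.Agent.H32.BT Pool.Agent.H79.Par

/-- PART E, general form: some point (not necessarily critical) is of type 1 or 2. -/
theorem area1 {d : ℕ} (hd : 2 ≤ d) {v0 : Pool.Agent.H79.Eul.E d} (h0 : Chart0 v0)
    (hcrit : ∀ c, IsCrit (Rf v0) c → ∃ (z : OnePoint ℂ) (n : ℕ), TyA (Rf v0) c z n)
    (hex : ∃ (c z : OnePoint ℂ) (n : ℕ), Ty12 (Rf v0) c z n) :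
    volume {x : ℂ | ¬ ∃ (z : OnePoint ℂ) (n : ℕ), Ty12 (Rf v0) (x : OnePoint ℂ) z n} = 0 := by
  classical
  obtain ⟨h, hdeg, hper, -⟩ := h0
  set P := Pool.Agent.H79.Eul.pol v0.1 with hP
  set Q := Pool.Agent.H79.Eul.pol v0.2 with hQ
  have hRf : Rf v0 = rat P Q := rfl
  rw [hRf] at hper hcrit hex ⊢
  have hfc : Continuous (rat P Q) := rat_continuous h
  have hd2 : 2 ≤ max P.natDegree Q.natDegree := by rw [hdeg]; exact hd
  have hd1 : 1 ≤ max P.natDegree Q.natDegree := by omega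
  obtain ⟨c0, z0, n0, hT0⟩ := hex
  have hb : ∀ᶠ x in 𝓝 c0, CL (rat P Q) x z0 n0 := by
    rcases hT0 with hT0 | hT0
    · exact ty1_open hfc hT0
    · exact ty2_open h hd1 hT0
  have hex' : ∀ c : OnePoint ℂ, ∃ (z : OnePoint ℂ) (n : ℕ), (IsCrit (rat P Q) c ∨ c = c0) →
      TyA (rat P Q) c z n := by
    intro c
    by_cases hc : IsCrit (rat P Q) c
    · obtain ⟨z, n, hzn⟩ := hcrit c hc
      exact ⟨z, n, fun _ => hzn⟩
    · by_cases hc' : c = c0
      · refine ⟨z0, n0, fun _ => ?_⟩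
        rw [hc']
        rcases hT0 with hT0 | hT0
        · exact Or.inl hT0
        · exact Or.inr (Or.inl hT0)
      · exact ⟨c, 0, fun h0 => absurd h0 (not_or.2 ⟨hc, hc'⟩)⟩
  choose zc mc hzc using hex'
  have hC : (⋃ q : ℕ, (fun c => (rat P Q)^[q] (zc c)) ''
      {c | IsCrit (rat P Q) c ∨ c = c0}).Countable :=
    Set.countable_iUnion fun q =>
      (((crit_finite h hd1).union (Set.finite_singleton c0)).image _).countable
  have hconv := ae_conv h hd2 (fun c hc => by
    obtain ⟨i, hi⟩ := tyA_cl (hzc c (Or.inl hc))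
    exact ⟨_, _, hi⟩) hb
  have hmain : ∀ᵐ x : ℂ, ∃ (z : OnePoint ℂ) (n : ℕ), Ty12 (rat P Q) (x : OnePoint ℂ) z n := by
    filter_upwards [hconv, land_null h hd1 hC] with x hx hland
    obtain ⟨s, p, n, i, N, hs, hsp, hxp⟩ := hx
    have hsc : IsCrit (rat P Q) s ∨ s = c0 := hs
    obtain ⟨i', hi'⟩ := tyA_cl (hzc s hsc)
    have hp : p = (rat P Q)^[i'] (zc s) := cl_unique hsp hi'
    set z := zc s with hz
    set m := mc s with hm
    have hm0 : 0 < m := hi'.1
    have hzm : (rat P Q)^[m] z = z := by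
      rcases hzc s hsc with hT | hT | hT | hT
      · exact hT.1.2.1
      · exact fixMult_fix hT.2.1
      · obtain ⟨a, -, ha⟩ := hT.2.1
        exact fixMult_fix ha
      · exact fixMult_fix hT.2.1
    have hfin : ∀ i, (rat P Q)^[i] z ≠ ∞ := by
      intro i hi
      apply hper m hm0
      rw [← hi, ← Function.iterate_add_apply, Nat.add_comm, Function.iterate_add_apply, hzm]
    rw [hp, ← Function.iterate_add_apply] at hxp
    set q := i + i' with hq
    have hN : 0 < N := hxp.1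
    have hxM : CL (rat P Q) (x : OnePoint ℂ) ((rat P Q)^[q] z) (m * N) := by
      have h1 := cl_mul hxp hm0
      rwa [Nat.mul_comm] at h1
    have hnl : ∀ k : ℕ, (rat P Q)^[m * N * k] (x : OnePoint ℂ) ≠ (rat P Q)^[q] z := by
      intro k hk
      exact hland _ (Set.mem_iUnion.2 ⟨q, s, hsc, hk.symm⟩)
    have hfm : ∀ a : ℂ, FixMult (rat P Q)^[m] z a →
        FixMult (rat P Q)^[m * N] ((rat P Q)^[q] z) (a ^ N) := by
      intro a ha
      rw [Function.iterate_mul]
      exact fixMult_iter (fix_iter h hm0 hfin ha q) N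
    refine ⟨(rat P Q)^[q] z, m * N, ?_⟩
    rcases hzc s hsc with hT | hT | hT | hT
    · left
      exact ⟨isSink_mul (sink_iter hfc hT.1 q) hN, hxM.2.2⟩
    · right
      refine ⟨hxM.1, ?_, hxM.2.2, hnl⟩
      have h1 := hfm 1 hT.2.1
      rwa [one_pow] at h1
    · exfalso
      obtain ⟨a, ha1, ha⟩ := hT.2.1
      obtain ⟨k, hk⟩ := rep_land (F := (rat P Q)^[m * N])
        (x := (x : OnePoint ℂ)) (a := a ^ N) (by
          rw [norm_pow]
          exact one_lt_pow₀ ha1 hN.ne') (hfm a ha) (by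
          refine hxM.2.2.congr (fun k => ?_)
          rw [Function.iterate_mul])
      rw [← Function.iterate_mul] at hk
      exact hnl k hk
    · right
      refine ⟨hxM.1, ?_, hxM.2.2, hnl⟩
      have h1 := hfm 1 hT.2.1
      rwa [one_pow] at h1
  rwa [ae_iff] at hmain

end Pool.Agent.H80.AJ
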