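import Pool.Agent.H80.AJ.Petal
import Pool.Agent.H35.PL.LandGood
import Pool.Agent.H79.Par.GDefs
import Pool.Agent.H79.Par.Transl

set_option autoImplicit false

open Filter Topology Polynomial Metric Set

namespace Pool.Agent.H79.Par

open Pool.Agent.H44.Fatou Pool.Agent.H32.BT Pool.Agent.H79.Eul

/-- a direction in which `-(1 / (N a u^N))` is large and positive -/
theorem exists_dir {N : ℕ} {a : ℂ} (hN : 1 ≤ N) (ha : a ≠ 0) (R r : ℝ) (hr : 0 < r) :
    ∃ u : ℂ, u ≠ 0 ∧ ‖u‖ < r ∧ R ≤ (-(1 / (N * a * u ^ N))).re := by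
  obtain ⟨ζ, hζ⟩ := IsAlgClosed.exists_pow_nat_eq (-(1 / a) : ℂ) (by omega : 0 < N)
  have hζ0 : ζ ≠ 0 := by
    rintro rfl
    rw [zero_pow (by omega)] at hζ
    have : (1 / a : ℂ) ≠ 0 := one_div_ne_zero ha
    exact this (neg_eq_zero.1 hζ.symm)
  have hζn : 0 < ‖ζ‖ := norm_pos_iff.2 hζ0
  have hN0 : (0 : ℝ) < N := by exact_mod_cast (by omega : 0 < N)
  set t : ℝ := min (min (1 / 2) (r / (2 * ‖ζ‖))) (1 / (N * (|R| + 1))) with ht
  have hR : 0 < |R| + 1 := by positivity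
  have ht0 : 0 < t := by
    rw [ht]
    exact lt_min (lt_min (by norm_num) (by positivity)) (by positivity)
  have ht1 : t ≤ 1 / 2 := (min_le_left _ _).trans (min_le_left _ _)
  have ht2 : t ≤ r / (2 * ‖ζ‖) := (min_le_left _ _).trans (min_le_right _ _)
  have ht3 : t ≤ 1 / (N * (|R| + 1)) := min_le_right _ _
  refine ⟨t * ζ, mul_ne_zero (by exact_mod_cast ht0.ne') hζ0, ?_, ?_⟩
  · rw [norm_mul, Complex.norm_real, Real.norm_eq_abs, abs_of_pos ht0]
    calc t * ‖ζ‖ ≤ r / (2 * ‖ζ‖) * ‖ζ‖ := by gcongr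
      _ = r / 2 := by field_simp
      _ < r := by linarith
  · have h1 : -(1 / ((N : ℂ) * a * (t * ζ) ^ N)) = ((1 / (N * t ^ N) : ℝ) : ℂ) := by
      rw [mul_pow, hζ]
      have hN' : (N : ℂ) ≠ 0 := by exact_mod_cast hN0.ne'
      have ht' : (t : ℂ) ≠ 0 := by exact_mod_cast ht0.ne'
      push_cast
      field_simp
    rw [h1, Complex.ofReal_re]
    have h2 : t ^ N ≤ t := by
      calc t ^ N ≤ t ^ 1 := pow_le_pow_of_le_one ht0.le (by linarith) hN
        _ = t := pow_one t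
    have h3 : N * t ^ N ≤ 1 / (|R| + 1) := by
      calc N * t ^ N ≤ N * t := by gcongr
        _ ≤ N * (1 / (N * (|R| + 1))) := by gcongr
        _ = 1 / (|R| + 1) := by field_simp
    have h4 : 0 < N * t ^ N := by positivity
    calc R ≤ |R| + 1 := by linarith [le_abs_self R]
      _ = 1 / (1 / (|R| + 1)) := by field_simp
      _ ≤ 1 / (N * t ^ N) := one_div_le_one_div_of_le h4 h3

/-- every parabolic periodic point attracts a point which does not land on it -/
theorem petal_exists {d : ℕ} (hd : 2 ≤ d) {v0 : E d} (hcop : IsCoprime (pol v0.1) (pol v0.2))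
    (hdeg : max (pol v0.1).natDegree (pol v0.2).natDegree = d) {x : ℕ → ℂ} {n : ℕ} (hn : 0 < n)
    (ho : Orb v0 x n) (hx : x n = x 0)
    (hM : FixMult (Rf v0)^[n] (x 0 : OnePoint ℂ) 1) (hmul : trD v0 n (x 0) = 1) :
    ∃ c : ℂ, Ty2 (Rf v0) (c : OnePoint ℂ) (x 0 : OnePoint ℂ) n := by
  set F : ℂ → ℂ := fun u => it v0 n (x 0 + u) - x 0 with hF
  have hit0 : it v0 n (x 0) = x 0 := by rw [orb_it ho n le_rfl, hx]
  have h0 : F 0 = 0 := by
    rw [hF]
    simp [hit0]
  have hFan : AnalyticAt ℂ F 0 := g_an ho (x 0)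
  have hFd : HasDerivAt F 1 0 := by
    have := g_der ho (x 0)
    rwa [hmul] at this
  have hnid : ¬ ∀ᶠ u in 𝓝 (0 : ℂ), F u = u := Pool.Agent.H35.PL.it_not_id hd hcop hdeg hn ho
  obtain ⟨N, a, k, hN, ha, hnf⟩ := normal_form hFan h0 hFd hnid
  -- the map near the fixed point
  have h1 : ∀ᶠ u : ℂ in 𝓝 0, (Rf v0)^[n] ((x 0 + u : ℂ) : OnePoint ℂ) =
      ((x 0 + F u : ℂ) : OnePoint ℂ) := by
    have h2 : Tendsto (fun u : ℂ => (v0, x 0 + u)) (𝓝 0) (𝓝 (v0, x 0)) := by
      have h3 : Continuous fun u : ℂ => (v0, x 0 + u) :=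
        continuous_const.prodMk (continuous_const.add continuous_id)
      have h4 := h3.tendsto 0
      rwa [add_zero] at h4
    filter_upwards [h2.eventually (orb_near ho)] with u hu
    rw [rat_it hu, hF]
    simp
  have h2 : ∀ᶠ u : ℂ in 𝓝 0, u ≠ 0 → F u ≠ 0 := by
    obtain ⟨hk, hk0, hFe⟩ := hnf
    have h3 : Tendsto (fun u : ℂ => u ^ N * k u) (𝓝 0) (𝓝 0) := by
      have h4 : ContinuousAt (fun u : ℂ => u ^ N * k u) 0 :=
        (continuousAt_id.pow N).mul hk.continuousAt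
      have h5 := h4.tendsto
      rwa [zero_pow (by omega), zero_mul] at h5
    have h4 : ∀ᶠ u : ℂ in 𝓝 0, ‖u ^ N * k u‖ < 1 := by
      have := h3.norm
      rw [norm_zero] at this
      exact this.eventually (gt_mem_nhds one_pos)
    filter_upwards [hFe, h4] with u h5 h6 h7 h8
    rw [h5] at h8
    have h9 : u * (1 + u ^ N * k u) = 0 := by
      rw [← h8]
      ring
    rcases mul_eq_zero.1 h9 with h10 | h10
    · exact h7 h10
    · have h11 : u ^ N * k u = -1 := by linear_combination h10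
      rw [h11, norm_neg, norm_one] at h6
      exact lt_irrefl _ h6
  obtain ⟨ε, hε, hball⟩ := Metric.eventually_nhds_iff_ball.1 (h1.and h2)
  obtain ⟨R1, hR1⟩ := Pool.Agent.H80.AJ.petal hN ha hnf hε
  obtain ⟨u, hu0, -, hRu⟩ := exists_dir hN ha R1 1 one_pos
  obtain ⟨hsm, hlim⟩ := hR1 u hu0 hRu
  have hmem : ∀ j, F^[j] u ∈ ball (0 : ℂ) ε := fun j => by
    rw [mem_ball_zero_iff]
    exact hsm j
  have hit : ∀ j, (Rf v0)^[n * j] ((x 0 + u : ℂ) : OnePoint ℂ) =
      ((x 0 + F^[j] u : ℂ) : OnePoint ℂ) := by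
    intro j
    induction j with
    | zero => rfl
    | succ j ih =>
      rw [Nat.mul_succ, Nat.add_comm, Function.iterate_add_apply, ih, (hball _ (hmem j)).1,
        Function.iterate_succ_apply']
  have hne : ∀ j, F^[j] u ≠ 0 := by
    intro j
    induction j with
    | zero => exact hu0
    | succ j ih =>
      rw [Function.iterate_succ_apply']
      exact (hball _ (hmem j)).2 ih
  refine ⟨x 0 + u, hn, hM, ?_, ?_⟩
  · have h3 : Tendsto (fun j : ℕ => x 0 + F^[j] u) atTop (𝓝 (x 0)) := by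
      have := hlim.const_add (x 0)
      rwa [add_zero] at this
    have h4 := (OnePoint.continuous_coe.tendsto (x 0)).comp h3
    refine h4.congr (fun j => ?_)
    rw [hit j]
    rfl
  · intro j hj
    rw [hit j] at hj
    have h3 : x 0 + F^[j] u = x 0 := OnePoint.coe_injective hj
    exact hne j (by simpa using h3)

end Pool.Agent.H79.Par
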