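import Pool.Agent.H79.Par.GMain
import Pool.Agent.H79.Par.Area1
import Pool.Agent.H79.Par.PetalEx

set_option autoImplicit false

open Filter Topology Polynomial Metric Set

namespace Pool.Agent.H79.Par

open Pool.Agent.H44.Fatou Pool.Agent.H32.BT Pool.Agent.H79.Eul

/-- an attracting or parabolic cycle -/
def NRCycle (f : OnePoint ℂ → OnePoint ℂ) (z : OnePoint ℂ) (n : ℕ) : Prop :=
  0 < n ∧ (IsSink f z n ∨ FixMult f^[n] z 1)

theorem NRCycle.fixed {f : OnePoint ℂ → OnePoint ℂ} {z : OnePoint ℂ} {n : ℕ}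
    (h : NRCycle f z n) : f^[n] z = z := by
  rcases h.2 with h1 | h1
  · exact h1.2.1
  · exact Pool.Agent.H80.AJ.fixMult_fix h1

theorem exists_chart1 {d : ℕ} (hd : 2 ≤ d) {v0 : E d} (hcop : IsCoprime (pol v0.1) (pol v0.2))
    (hdeg : max (pol v0.1).natDegree (pol v0.2).natDegree = d)
    (h : ∀ c, IsCrit (Rf v0) c → ∃ z n, TyA (Rf v0) c z n)
    (hex : ∃ z n, NRCycle (Rf v0) z n) :
    ∃ s : ℂ, Chart0 (Lin s v0) ∧ ¬ IsCrit (Rf (Lin s v0)) OnePoint.infty ∧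
      (∀ c, IsCrit (Rf (Lin s v0)) c → ∃ z n, TyA (Rf (Lin s v0)) c z n) ∧
      (∃ z n, NRCycle (Rf (Lin s v0)) z n) ∧
      ∀ c : ℂ, IsCrit (Rf (Lin s v0)) (c : OnePoint ℂ) →
        ∃ (z : ℂ) (n : ℕ), TyA (Rf (Lin s v0)) (c : OnePoint ℂ) (z : OnePoint ℂ) n ∧
          (∀ j, (Rf (Lin s v0))^[j] (c : OnePoint ℂ) ≠ OnePoint.infty) ∧
          ∀ j, (Rf (Lin s v0))^[j] (z : OnePoint ℂ) ≠ OnePoint.infty := by
  have hd2 : 2 ≤ max (pol v0.1).natDegree (pol v0.2).natDegree := by rw [hdeg]; exact hd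
  obtain ⟨ze, ne, hcyc⟩ := hex
  obtain ⟨s, φ, hs0, hs, hφ, hi, hconj, h1, h2, h3, h4⟩ := good_chart hd hcop hdeg
    (Ty := TyA) (fun s φ hs hφ hi f g hfg c z n hz hT => tyA_conj hs hφ hi hfg hz hT)
    h (S0 := {x : OnePoint ℂ | ∃ n : ℕ, 0 < n ∧ (Rf v0)^[n] x = x})
    (per_all_countable hcop hd2)
  refine ⟨s, ⟨h1, h2, ?_, ?_⟩, h3, ?_, ?_, h4⟩
  · intro n hn hcon
    rw [← hs, iter_conj φ hconj] at hcon
    exact hs0 ⟨n, hn, φ.injective hcon⟩
  · intro c hc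
    induction c using OnePoint.rec with
    | infty => exact absurd hc h3
    | coe c =>
      obtain ⟨z, n, -, hcf, -⟩ := h4 c hc
      exact hcf
  · intro c hc
    induction c using OnePoint.rec with
    | infty => exact absurd hc h3
    | coe c =>
      obtain ⟨z, n, hz, -, -⟩ := h4 c hc
      exact ⟨z, n, hz⟩
  · have hzs : ze ≠ s := by
      intro hcon
      apply hs0
      exact ⟨ne, hcyc.1, by rw [← hcon]; exact hcyc.fixed⟩
    refine ⟨φ ze, ne, hcyc.1, ?_⟩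
    rcases hcyc.2 with h5 | h5
    · exact Or.inl ((isSink_conj φ hconj ze ne).2 h5)
    · exact Or.inr (fixMult_conj hs hφ hi (fun x => iter_conj φ hconj ne x) hzs h5)

theorem cycle_point {d : ℕ} (hd : 2 ≤ d) {v0 : E d} (h0 : Chart0 v0)
    (hex : ∃ z n, NRCycle (Rf v0) z n) :
    ∃ (c z : OnePoint ℂ) (n : ℕ), Ty12 (Rf v0) c z n := by
  obtain ⟨hcop, hdeg, hper, -⟩ := h0
  obtain ⟨z, n, hcyc⟩ := hex
  have hfix := hcyc.fixed
  obtain ⟨hn, h5 | h5⟩ := hcyc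
  · refine ⟨z, z, n, Or.inl ⟨h5, ?_⟩⟩
    obtain ⟨-, -, U, hU, hUt⟩ := h5
    exact hUt z (mem_of_mem_nhds hU)
  · have hfin : ∀ j, (Rf v0)^[j] z ≠ OnePoint.infty := by
      intro j hj
      apply hper n hn
      rw [← hj, ← Function.iterate_add_apply, Nat.add_comm, Function.iterate_add_apply, hfix]
    induction z using OnePoint.rec with
    | infty => exact absurd rfl (hfin 0)
    | coe w =>
      obtain ⟨ho, -⟩ := orb_all hfin
      obtain ⟨hx, hmul⟩ := fix_trD (x := fun j => it v0 j w) (ho n) h5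
      obtain ⟨c, hc⟩ := petal_exists hd hcop hdeg hn (ho n) hx h5 hmul
      exact ⟨c, w, n, Or.inr hc⟩

open MeasureTheory in
/-- geometrically finite maps: the proportion of non-hyperbolic maps tends to zero -/
theorem geo_dens2 {d : ℕ} (hd : 2 ≤ d) {v0 : E d} (hcop : IsCoprime (pol v0.1) (pol v0.2))
    (hdeg : max (pol v0.1).natDegree (pol v0.2).natDegree = d)
    (h : ∀ c, IsCrit (Rf v0) c → ∃ z n, TyA (Rf v0) c z n)
    (hex : ∃ z n, NRCycle (Rf v0) z n) :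
    Tendsto (fun r : ℝ => volume (ball (0 : E d) 1 ∩ {v | ¬ HypDeg (pv v0 (v, r))}))
      (𝓝[>] 0) (𝓝 0) := by
  obtain ⟨s, h0, h1, h2, h3, h4⟩ := exists_chart1 hd hcop hdeg h hex
  have hW := basin_ae hd h0 (Pool.Agent.H80.AJ.area1 hd h0 h2 (cycle_point hd h0 h3))
  have hV := rob_null hd h0.1 h0.2.1
  have hnr := nonrep_of_basin hd h0.1 h0.2.1 hW
  refine chart_vol s (by omega) (c_final hd h0.1 h0.2.1 h1 fun c hc => ?_)
  have hw : wv (Lin s v0) c = 0 := by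
    have h5 := crit_coe hc
    rw [← wv_cf (d := d) (pol_deg _) (pol_deg _), cf_pol, cf_pol] at h5
    exact h5
  obtain ⟨z, n, hT, hcf, hzf⟩ := h4 c hc
  rcases hT with hT | hT | hT | hT
  · exact sub_c (sub_basin ⟨z, n, Or.inl hT, hcf, hzf⟩ hV)
  · exact sub_c (sub_basin ⟨z, n, Or.inr hT, hcf, hzf⟩ hV)
  · exact sub_c (rep_good hd h0 hw hT hW hV hnr)
  · exact land_good hd h0 hw hT

end Pool.Agent.H79.Par
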