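import Pool.Agent.H79.Par.CopNear
import Pool.Agent.H79.Par.TanDef
import Pool.Agent.H79.Par.It
import Pool.Agent.H32.BT.Crit

set_option autoImplicit false

open Filter Topology Polynomial Metric Set

namespace Pool.Agent.H79.Par

open Pool.Agent.H44.Fatou Pool.Agent.H32.BT Pool.Agent.H79.Eul


/-
PROOF of par_core. The set K of critical points c : ℂ of Rf v0 is finite (crit_finite, H32/BT/Crit.lean, preimage
under the injective coercion). For c ∈ K choose N_c from DirGood; N0 = ⋃ c ∈ K, N_c is null (measure_biUnion_null_iff,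
finite). For v ∉ N0 choose bad_c, bad = ⋃ countable. Let φ ∉ bad, w = exp(φ I) • v.
(1) Infinity: wv (rv v0) 0 ≠ 0: otherwise crit_infty_of_wr (H32/BT/Crit.lean) makes infinity critical (rv_cf or
rv v0 = (cf d (reflect d (pol v0.1)), ...) as used in H79/Eul/WrInf.lean, dg = d, wv_cf, cf_pol). no_crit_infty
(H44/Fatou/Mob2) gives R; transfer along pv v0 → v0 (pv_lim).
(2) on closedBall 0 R: ev_compact (H79/Eul/Cpt) with p τ z := wv (pv v0 τ) z = 0 → Att (Rf (pv v0 τ)) z. At z0 with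
wv v0 z0 ≠ 0 this persists (wv_cont, pv_lim2); at z0 with wv v0 z0 = 0: crit_of_wr gives IsCrit (Rf v0) z0
((Wr P Q).eval = wv: wv_cf with cf_pol), so z0 ∈ K and DirGood applies.
(3) conclusion as in core (H79/Eul/Core.lean): cop_near along pv_lim; a critical point of Rf (pv v0 τ) is not ∞
(crit_infty, (1)) and a finite one has wv = 0 (crit_coe), norm ≤ R, so Att by (2).
PROOF of par_null: null_of_lines (H79/Eul/NullB.lean) with e = 0, F the complement (closed by isOpen_flt,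
H79/Eul/Main.lean), Fc = ∅: v + c • 0 = v.
-/

open MeasureTheory in
theorem par_core {d : ℕ} (hd : 2 ≤ d) {v0 : E d} (hcop : IsCoprime (pol v0.1) (pol v0.2))
    (hdeg : max (pol v0.1).natDegree (pol v0.2).natDegree = d)
    (hinf : ¬ IsCrit (Rf v0) OnePoint.infty)
    (hc : ∀ c : ℂ, IsCrit (Rf v0) (c : OnePoint ℂ) → DirGood v0 c) :
    ∃ N0 : Set (E d), volume N0 = 0 ∧ ∀ v : E d, v ∉ N0 →
      ∃ bad : Set ℝ, bad.Countable ∧ ∀ φ : ℝ, φ ∉ bad →
        ∀ᶠ τ in flt (Complex.exp (φ * Complex.I) • v), HypDeg (pv v0 τ) := by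
  have hd1 : 1 ≤ max (pol v0.1).natDegree (pol v0.2).natDegree := by rw [hdeg]; omega
  set K : Set ℂ := {c : ℂ | IsCrit (Rf v0) (c : OnePoint ℂ)} with hK
  have hKf : K.Finite := by
    have h1 := crit_finite hcop hd1
    exact h1.preimage (OnePoint.coe_injective.injOn)
  have hc' : ∀ c : K, ∃ N0 : Set (E d), volume N0 = 0 ∧ ∀ v : E d, v ∉ N0 →
      ∃ bad : Set ℝ, bad.Countable ∧ ∀ φ : ℝ, φ ∉ bad →
      ∀ᶠ w : (E d × ℝ) × ℂ in flt (Complex.exp (φ * Complex.I) • v) ×ˢ 𝓝 (c : ℂ),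
        Att (Rf (pv v0 w.1)) (w.2 : OnePoint ℂ) := fun c => hc c.1 c.2
  choose N hN0 hN using hc'
  have hfin : Finite K := hKf.to_subtype
  refine ⟨⋃ c : K, N c, ?_, ?_⟩
  · rw [measure_iUnion_null_iff]
    exact hN0
  · intro v hv
    have hv' : ∀ c : K, v ∉ N c := fun c hc => hv (mem_iUnion.mpr ⟨c, hc⟩)
    choose bad hbad1 hbad2 using fun c => hN c v (hv' c)
    refine ⟨⋃ c : K, bad c, countable_iUnion hbad1, ?_⟩
    intro φ hφ
    have hφ' : ∀ c : K, φ ∉ bad c := fun c hc => hφ (mem_iUnion.mpr ⟨c, hc⟩)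
    set w := Complex.exp (φ * Complex.I) • v with hw
    have h0 : wv (rv v0) 0 ≠ 0 := by
      intro h
      apply hinf
      apply crit_infty_of_wr hcop hd1
      have hdg : dg (pol v0.1) (pol v0.2) = d := hdeg
      rw [hdg, ← wv_cf (natDegree_reflect_le' (pol_deg _)) (natDegree_reflect_le' (pol_deg _)),
        ← rv_cf, cf_pol, cf_pol]
      exact h
    obtain ⟨R, hR, hev⟩ := no_crit_infty v0 h0
    have hlim := pv_lim v0 w
    have hloc : ∀ z0 ∈ closedBall (0 : ℂ) R, ∀ᶠ y : (E d × ℝ) × ℂ in flt w ×ˢ 𝓝 z0,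
        wv (pv v0 y.1) y.2 = 0 → Att (Rf (pv v0 y.1)) (y.2 : OnePoint ℂ) := by
      intro z0 _
      by_cases hz : wv v0 z0 = 0
      · have hcr : IsCrit (Rf v0) (z0 : OnePoint ℂ) := by
          apply crit_of_wr hcop hd1
          rw [← wv_cf (pol_deg _) (pol_deg _), cf_pol, cf_pol]
          exact hz
        have h1 := hbad2 ⟨z0, hcr⟩ φ (hφ' ⟨z0, hcr⟩)
        filter_upwards [h1] with y hy _ using hy
      · have h1 := (wv_cont (d := d)).tendsto (v0, z0)
        have h2 := h1.comp (pv_lim2 v0 w z0)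
        filter_upwards [h2.eventually_ne hz] with y hy h
        exact absurd h hy
    have hall := ev_compact
      (p := fun τ z => wv (pv v0 τ) z = 0 → Att (Rf (pv v0 τ)) (z : OnePoint ℂ))
      (isCompact_closedBall (0 : ℂ) R) hloc
    filter_upwards [hall, hlim.eventually hev,
      hlim.eventually (cop_near hcop hdeg (by omega))] with τ h1 h2 h3
    refine ⟨h3.1, h3.2, fun c hc => ?_⟩
    induction c using OnePoint.rec with
    | infty =>
      exfalso
      have h4 := crit_infty hc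
      have h5 : dg (pol (pv v0 τ).1) (pol (pv v0 τ).2) = d := h3.2
      rw [h5, ← wv_cf (natDegree_reflect_le' (pol_deg _)) (natDegree_reflect_le' (pol_deg _)),
        ← rv_cf, cf_pol, cf_pol] at h4
      exact h2.2 h4
    | coe z =>
      have hW := crit_coe hc
      rw [← wv_cf (pol_deg _) (pol_deg _), cf_pol, cf_pol] at hW
      refine h1 z ?_ hW
      rw [mem_closedBall_zero_iff]
      by_contra hcon
      exact h2.1 z (not_le.1 hcon) hW

open MeasureTheory in
theorem par_null {d : ℕ} {v0 : E d}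
    (h : ∃ N0 : Set (E d), volume N0 = 0 ∧ ∀ v : E d, v ∉ N0 →
      ∃ bad : Set ℝ, bad.Countable ∧ ∀ φ : ℝ, φ ∉ bad →
        ∀ᶠ τ in flt (Complex.exp (φ * Complex.I) • v), HypDeg (pv v0 τ)) :
    volume {v : E d | ∀ᶠ τ in flt v, HypDeg (pv v0 τ)}ᶜ = 0 := by
  obtain ⟨N0, hN0, h⟩ := h
  refine null_of_lines ((isOpen_flt _).isClosed_compl) 0 hN0
    (fun v hv => ⟨∅, countable_empty, fun c _ => ?_⟩)
  obtain ⟨bad, hb1, hb2⟩ := h v hv
  refine ⟨bad, hb1, fun φ hφ => ?_⟩
  rw [smul_zero, add_zero]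
  intro hn
  exact hn (hb2 φ hφ)

end Pool.Agent.H79.Par
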