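import Pool.Agent.H79.Par.DirAll
import Pool.Agent.H79.Par.GoodChart
import Pool.Agent.H79.Par.Null2
import Pool.Agent.H79.Par.ChartNull
import Pool.Agent.H79.Eul.Density
import Pool.Agent.H79.Eul.Scaling

set_option autoImplicit false

open Filter Topology Polynomial Metric Set

namespace Pool.Agent.H79.Par

open Pool.Agent.H44.Fatou Pool.Agent.H32.BT Pool.Agent.H79.Eul

open MeasureTheory in
/-- maps all of whose critical points are attracted by attracting or parabolic cycles: almost every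
direction -/
theorem par_ae {d : ℕ} (hd : 2 ≤ d) {v0 : E d} (hcop : IsCoprime (pol v0.1) (pol v0.2))
    (hdeg : max (pol v0.1).natDegree (pol v0.2).natDegree = d)
    (h : ∀ c, IsCrit (Rf v0) c → ∃ z n, Ty12 (Rf v0) c z n) :
    volume {v : E d | ∀ᶠ τ in flt v, HypDeg (pv v0 τ)}ᶜ = 0 := by
  obtain ⟨s, φ, -, hs, hφ, hi, hconj, h1, h2, h3, h4⟩ := good_chart hd hcop hdeg
    (Ty := Ty12) (fun s φ hs hφ hi f g hfg c z n hz hT => ty12_conj hs hφ hi hfg hz hT) h
    (S0 := ∅) countable_empty
  refine chart_null s (by omega) (par_null (par_core hd h1 h2 h3 fun c hc => ?_))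
  obtain ⟨z, n, hT, hcf, hzf⟩ := h4 c hc
  exact dir_ty hd h1 h2 hT hcf hzf

open MeasureTheory in
/-- from almost every direction to the proportion of balls -/
theorem prop_of_ae {d : ℕ} {v0 : E d}
    (h : volume {v : E d | ∀ᶠ τ in flt v, HypDeg (pv v0 τ)}ᶜ = 0) :
    Tendsto (fun r : ℝ => volume (ball v0 r ∩ {v | ¬ HypDeg v}) / volume (ball v0 r))
      (𝓝[>] 0) (𝓝 0) := by
  have h1 := density (bad := fun r => {v : E d | ¬ HypDeg (v0 + r • v)}) h
    (fun v hv => by
      filter_upwards [show ∀ᶠ τ in flt v, HypDeg (pv v0 τ) from hv] with τ hτ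
      exact fun h => h hτ)
  have hb : volume (ball (0 : E d) 1) ≠ 0 := (measure_ball_pos _ _ one_pos).ne'
  have h2 := ENNReal.Tendsto.div_const h1 (b := volume (ball (0 : E d) 1)) (Or.inr hb)
  rw [ENNReal.zero_div] at h2
  refine h2.congr' ?_
  filter_upwards [self_mem_nhdsWithin] with r hr
  rw [scaling _ _ hr]
  rfl

end Pool.Agent.H79.Par
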