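import Pool.Agent.H79.Par.PoleN

set_option autoImplicit false

open Filter Topology Polynomial Metric Set

namespace Pool.Agent.H79.Par

open Pool.Agent.H44.Fatou Pool.Agent.H32.BT Pool.Agent.H79.Eul


/-
PROOF: copy macro_end in H79/Eul/MacroEnd.lean (a = 0).
-/

theorem gm_end {T : Type} {l : Filter T} {P Q : Polynomial ℂ} (s : Fl T l P Q)
    {N : ℕ} {ρ : ℝ} {Φ k : ℂ → ℂ} (hp : PoleN P N ρ Φ k)
    (hG : ∀ z ∈ ball (0 : ℂ) ρ, ∀ t : ℝ, 0 < t → Φ z = t → s.Good z) {r t0 : ℝ} (hr : r < ρ)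
    (ht0 : 0 < t0) : ∃ η : ℝ, 0 < η ∧ ∀ᶠ τ in l, ∀ z ∈ closedBall (0 : ℂ) r,
      ‖Φ z - t0‖ < η → s.att τ z := by
  have hK : IsCompact (closedBall (0 : ℂ) r) := isCompact_closedBall (0 : ℂ) r
  have hsub : closedBall (0 : ℂ) r ⊆ ball (0 : ℂ) ρ := closedBall_subset_ball hr
  refine hK.induction_on (p := fun S => ∃ η : ℝ, 0 < η ∧ ∀ᶠ τ in l, ∀ z ∈ S,
    ‖Φ z - t0‖ < η → s.att τ z) ?_ ?_ ?_ ?_
  · exact ⟨1, one_pos, Eventually.of_forall fun _ z hz => hz.elim⟩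
  · rintro S S' hS ⟨η, hη, h'⟩
    exact ⟨η, hη, h'.mono fun τ hτ z hz => hτ z (hS hz)⟩
  · rintro S S' ⟨η, hη, h1⟩ ⟨η', hη', h2⟩
    refine ⟨min η η', lt_min hη hη', ?_⟩
    filter_upwards [h1, h2] with τ h1 h2 z hz hzz
    rcases hz with hz | hz
    · exact h1 z hz (lt_of_lt_of_le hzz (min_le_left _ _))
    · exact h2 z hz (lt_of_lt_of_le hzz (min_le_right _ _))
  · intro z hz
    by_cases hzt : Φ z = t0
    · have hgood := hG z (hsub hz) t0 ht0 hzt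
      unfold Fl.Good at hgood
      rw [Filter.eventually_iff, mem_prod_iff] at hgood
      obtain ⟨A, hA, N, hN, hNA⟩ := hgood
      refine ⟨N, mem_nhdsWithin_of_mem_nhds hN, 1, one_pos, ?_⟩
      filter_upwards [hA] with τ hτ w hw _
      exact hNA (mk_mem_prod hτ hw)
    · have hc : ContinuousAt Φ z := (hp.deriv z (hsub hz)).continuousAt
      have hpos : 0 < ‖Φ z - t0‖ := norm_pos_iff.2 (sub_ne_zero.2 hzt)
      have hev : ∀ᶠ w in 𝓝 z, ‖Φ z - t0‖ / 2 < ‖Φ w - t0‖ := by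
        have h1 : Tendsto (fun w => ‖Φ w - t0‖) (𝓝 z) (𝓝 ‖Φ z - t0‖) :=
          (hc.sub continuousAt_const).norm
        exact h1.eventually (lt_mem_nhds (by linarith))
      refine ⟨{w | ‖Φ z - t0‖ / 2 < ‖Φ w - t0‖}, mem_nhdsWithin_of_mem_nhds hev,
        ‖Φ z - t0‖ / 2, by linarith, ?_⟩
      exact Eventually.of_forall fun τ w hw hw' => absurd hw' (not_lt.2 (le_of_lt hw))

end Pool.Agent.H79.Par
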