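import Pool.Agent.H79.Par.DirPar
import Pool.Agent.H79.Par.AttGood

set_option autoImplicit false

open Filter Topology Polynomial Metric Set

namespace Pool.Agent.H79.Par

open Pool.Agent.H44.Fatou Pool.Agent.H32.BT Pool.Agent.H79.Eul


/-
PROOFS. dir_att: N0 = ∅, bad = ∅; att_good gives the statement in 𝓝 (v0, c) with y j = it v0 j c (orb_all), and
w ↦ (pv v0 w.1, w.2) tends to 𝓝 (v0, c) (pv_lim2). dir_ty: case Ty1: dir_att; case Ty2: x j = it v0 j z,
y j = it v0 j c (orb_all); fix_trD gives x n = x 0 and trD v0 n (x 0) = 1; the limit in ℂ from the limit in the sphere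
(OnePoint.isOpenEmbedding_coe.tendsto_nhds_iff or similar); y (n j) ≠ x 0 by coe injectivity; dir_par.
-/

theorem dir_att {d : ℕ} (hd : 2 ≤ d) {v0 : E d} (hcop : IsCoprime (pol v0.1) (pol v0.2))
    (hdeg : max (pol v0.1).natDegree (pol v0.2).natDegree = d) {c z : ℂ} {n : ℕ}
    (h : Ty1 (Rf v0) (c : OnePoint ℂ) (z : OnePoint ℂ) n)
    (hc : ∀ j, (Rf v0)^[j] (c : OnePoint ℂ) ≠ OnePoint.infty)
    (hz : ∀ j, (Rf v0)^[j] (z : OnePoint ℂ) ≠ OnePoint.infty) : DirGood v0 c := by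
  obtain ⟨ho, he⟩ := orb_all hc
  have h1 := att_good hd hcop hdeg h.1 hz (y := fun j => it v0 j c) ho h.2
  refine ⟨∅, MeasureTheory.measure_empty, fun v _ => ⟨∅, Set.countable_empty, fun φ _ => ?_⟩⟩
  exact (pv_lim2 v0 (Complex.exp (φ * Complex.I) • v) c).eventually h1

theorem dir_ty {d : ℕ} (hd : 2 ≤ d) {v0 : E d} (hcop : IsCoprime (pol v0.1) (pol v0.2))
    (hdeg : max (pol v0.1).natDegree (pol v0.2).natDegree = d) {c z : ℂ} {n : ℕ}
    (h : Ty12 (Rf v0) (c : OnePoint ℂ) (z : OnePoint ℂ) n)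
    (hc : ∀ j, (Rf v0)^[j] (c : OnePoint ℂ) ≠ OnePoint.infty)
    (hz : ∀ j, (Rf v0)^[j] (z : OnePoint ℂ) ≠ OnePoint.infty) : DirGood v0 c := by
  rcases h with h | ⟨hn, hfix, hlim, hne⟩
  · exact dir_att hd hcop hdeg h hc hz
  · obtain ⟨hxo, hxe⟩ := orb_all hz
    obtain ⟨hyo, hye⟩ := orb_all hc
    obtain ⟨hx, hmul⟩ := fix_trD (x := fun j => it v0 j z) (hxo n) (a := 1) hfix
    have hlim' : Tendsto (fun j => it v0 (n * j) c) atTop (𝓝 z) := by
      rw [OnePoint.isOpenEmbedding_coe.tendsto_nhds_iff]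
      refine hlim.congr fun k => ?_
      exact hye (n * k)
    refine dir_par hd hcop hdeg (x := fun j => it v0 j z) (y := fun j => it v0 j c) hn (hxo n) hx
      hmul hyo hlim' ?_
    intro j hj
    apply hne j
    rw [hye (n * j)]
    exact congrArg _ hj

end Pool.Agent.H79.Par
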