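import Pool.Agent.H79.Par.Defs

set_option autoImplicit false

open Filter Topology Polynomial Metric Set

namespace Pool.Agent.H79.Par

open Pool.Agent.H44.Fatou Pool.Agent.H32.BT Pool.Agent.H79.Eul


/-
PROOF of fl_euler_step: exactly as euler_step in H79/Eul/EulerStep.lean, with s.lim instead of the limits of
p, b: apply ev_compact (H79/Eul/Cpt); near z0 ∈ K, z0 ≠ 0, P z0 ≠ 0, Q z0 ≠ 0 (c.reg): g y - y.2 = h * quotient,
quotient → P z0/Q z0; strict differentiability of c.e at z0; s.step z0 gives the last clause.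
-/

theorem fl_euler_step {T : Type} {l : Filter T} {P Q : Polynomial ℂ} (s : Fl T l P Q) {p : ℂ}
    (c : Chart P Q p) {K : Set ℂ} (hK : IsCompact K) (hKs : K ⊆ c.e.source) (hK0 : (0 : ℂ) ∉ K)
    {ε : ℝ} (hε : 0 < ε) :
    ∀ᶠ τ in l, ∀ z ∈ K, s.g τ z ∈ c.e.source ∧
      ‖c.e (s.g τ z) - c.e z - s.h τ‖ ≤ ε * s.h τ ∧ (s.att τ (s.g τ z) → s.att τ z) := by
  apply ev_compact hK
  intro z0 hz0
  have hz0s := hKs hz0
  have hz00 : z0 ≠ 0 := fun h => hK0 (h ▸ hz0)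
  obtain ⟨hP0, hQ0⟩ := c.reg z0 hz0s
  have h6 : ∀ᶠ y : T × ℂ in l ×ˢ 𝓝 z0, 0 < s.h y.1 :=
    (tendsto_fst (f := l) (g := 𝓝 z0)).eventually s.h_pos
  have hh : Tendsto (fun y : T × ℂ => ((s.h y.1 : ℝ) : ℂ)) (l ×ˢ 𝓝 z0) (𝓝 0) := by
    have h1 := (Complex.continuous_ofReal.tendsto 0).comp (s.h_lim.comp
      (tendsto_fst (f := l) (g := 𝓝 z0)))
    simpa [Function.comp_def] using h1
  have hquo := s.lim z0 hz00 hQ0
  have hg : ∀ᶠ y : T × ℂ in l ×ˢ 𝓝 z0,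
      y.2 + s.h y.1 * ((s.g y.1 y.2 - y.2) / (s.h y.1 : ℂ)) = s.g y.1 y.2 := by
    filter_upwards [h6] with y hy
    have h1 : (s.h y.1 : ℂ) ≠ 0 := by exact_mod_cast hy.ne'
    field_simp
    ring
  have hglim : Tendsto (fun y : T × ℂ => s.g y.1 y.2) (l ×ˢ 𝓝 z0) (𝓝 z0) := by
    have h1 := (tendsto_snd (f := l) (g := 𝓝 z0)).add (hh.mul hquo)
    rw [zero_mul, add_zero] at h1
    exact h1.congr' hg
  have hstrict : HasStrictDerivAt c.e (Q.eval z0 / P.eval z0) z0 := by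
    refine hasStrictDerivAt_of_hasDerivAt_of_continuousAt
      (f' := fun z => Q.eval z / P.eval z) ?_ ?_
    · filter_upwards [c.e.open_source.mem_nhds hz0s] with z hz
      exact c.deriv z hz
    · exact (Q.continuous.continuousAt).div (P.continuous.continuousAt) hP0
  obtain ⟨C, hC⟩ : ∃ C : ℝ, C = ‖P.eval z0 / Q.eval z0‖ + 1 := ⟨_, rfl⟩
  have hC0 : 0 < C := by
    rw [hC]
    positivity
  have hlo := hstrict.hasStrictFDerivAt.isLittleO
  have hlo' := hlo.def (c := ε / (2 * C)) (by positivity)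
  have hpair : Tendsto (fun y : T × ℂ => (s.g y.1 y.2, y.2)) (l ×ˢ 𝓝 z0) (𝓝 (z0, z0)) := by
    rw [nhds_prod_eq]
    exact hglim.prodMk tendsto_snd
  have h1 := hpair.eventually hlo'
  have h3 : ∀ᶠ y : T × ℂ in l ×ˢ 𝓝 z0, s.g y.1 y.2 ∈ c.e.source :=
    hglim.eventually (c.e.open_source.mem_nhds hz0s)
  have h4 : ∀ᶠ y : T × ℂ in l ×ˢ 𝓝 z0, ‖(s.g y.1 y.2 - y.2) / (s.h y.1 : ℂ)‖ < C := by
    apply hquo.norm.eventually_lt_const
    rw [hC]
    linarith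
  have h5 : ∀ᶠ y : T × ℂ in l ×ˢ 𝓝 z0,
      ‖Q.eval z0 / P.eval z0 * ((s.g y.1 y.2 - y.2) / (s.h y.1 : ℂ)) - 1‖ < ε / 2 := by
    have h6 := ((hquo.const_mul (Q.eval z0 / P.eval z0)).sub_const 1).norm
    have h7 : Q.eval z0 / P.eval z0 * (P.eval z0 / Q.eval z0) - 1 = 0 := by
      field_simp
      ring
    rw [h7, norm_zero] at h6
    exact h6.eventually_lt_const (by positivity)
  filter_upwards [h1, h3, h4, h5, h6, hg, s.step z0 hz00 hQ0] with y e1 e3 e4 e5 e6 eg est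
  refine ⟨e3, ?_, est⟩
  set k : ℂ := (s.g y.1 y.2 - y.2) / (s.h y.1 : ℂ) with hk
  have e7 : s.g y.1 y.2 - y.2 = s.h y.1 * k := by
    rw [← eg]
    ring
  simp only [ContinuousLinearMap.toSpanSingleton_apply, smul_eq_mul] at e1
  rw [e7] at e1
  have e8 : ‖(s.h y.1 : ℂ) * k‖ ≤ s.h y.1 * C := by
    rw [norm_mul, Complex.norm_real, Real.norm_eq_abs, abs_of_pos e6]
    exact mul_le_mul_of_nonneg_left e4.le e6.le
  have e9 : ‖(s.h y.1 : ℂ) * (Q.eval z0 / P.eval z0 * k - 1)‖ ≤ s.h y.1 * (ε / 2) := by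
    rw [norm_mul, Complex.norm_real, Real.norm_eq_abs, abs_of_pos e6]
    exact mul_le_mul_of_nonneg_left e5.le e6.le
  have e10 : c.e (s.g y.1 y.2) - c.e y.2 - s.h y.1 =
      (c.e (s.g y.1 y.2) - c.e y.2 - s.h y.1 * k * (Q.eval z0 / P.eval z0)) +
      (s.h y.1 : ℂ) * (Q.eval z0 / P.eval z0 * k - 1) := by ring
  rw [e10]
  refine (norm_add_le _ _).trans ?_
  have e11 : ε / (2 * C) * ‖(s.h y.1 : ℂ) * k‖ ≤
      ε / (2 * C) * (s.h y.1 * C) := mul_le_mul_of_nonneg_left e8 (by positivity)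
  have e12 : ε / (2 * C) * (s.h y.1 * C) = s.h y.1 * (ε / 2) := by
    field_simp
  linarith

end Pool.Agent.H79.Par
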