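import Pool.Agent.H79.Par.Defs
import Pool.Agent.H79.Eul.Cpt

set_option autoImplicit false

open Filter Topology Polynomial Metric Set

namespace Pool.Agent.H79.Par

open Pool.Agent.H44.Fatou Pool.Agent.H32.BT Pool.Agent.H79.Eul


/-
PROOF. Let δ > 0. F 0 = 0 (continuous convergence and h0, if l is not bot; if l = ⊥ everything is trivial since
⊥ ×ˢ _ = ⊥). By hF there is r1 ∈ (0, r) with ‖F u - b u‖ ≤ (δ/4) ‖u‖ for ‖u‖ ≤ r1. By unif_compact
(H79/Eul/Cpt) on the sphere (or closed ball) of radius r1: eventually ‖f τ u - F u‖ < (δ/4) r1 for ‖u‖ ≤ r1. So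
k = f τ - b · maps ball 0 r1 into ball 0 (δ r1) and k 0 = 0; Schwarz lemma
(Complex.dist_le_div_mul_dist_of_mapsTo_ball or Complex.norm_le_... in Mathlib.Analysis.Complex.Schwarz):
‖k u‖ ≤ (δ r1/r1) ‖u‖ = δ ‖u‖ for u ∈ ball 0 r1.
-/

theorem schwarz_lim {T : Type} {l : Filter T} {f : T → ℂ → ℂ} {F : ℂ → ℂ} {b : ℂ} {r : ℝ}
    (hr : 0 < r) (hol : ∀ᶠ τ in l, DifferentiableOn ℂ (f τ) (ball 0 r))
    (h0 : ∀ᶠ τ in l, f τ 0 = 0) (hFc : ContinuousOn F (ball 0 r))
    (hlim : ∀ u ∈ ball (0 : ℂ) r, Tendsto (fun y : T × ℂ => f y.1 y.2) (l ×ˢ 𝓝 u) (𝓝 (F u)))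
    (hF : HasDerivAt F b 0) {δ : ℝ} (hδ : 0 < δ) :
    ∀ᶠ y : T × ℂ in l ×ˢ 𝓝 0, ‖f y.1 y.2 - b * y.2‖ ≤ δ * ‖y.2‖ := by
  rcases l.eq_or_neBot with hl | hl
  · subst hl
    simp
  -- F 0 = 0
  have hF0 : F 0 = 0 := by
    have h1 : Tendsto (fun τ : T => (τ, (0 : ℂ))) l (l ×ˢ 𝓝 0) :=
      tendsto_id.prodMk tendsto_const_nhds
    have h2 := (hlim 0 (mem_ball_self hr)).comp h1
    have h3 : Tendsto (fun _ : T => (0 : ℂ)) l (𝓝 (F 0)) := by
      refine h2.congr' ?_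
      filter_upwards [h0] with τ hτ
      simpa using hτ
    exact tendsto_nhds_unique h3 tendsto_const_nhds
  -- the radius
  have hd := hF.isLittleO
  have h1 := hd.bound (show (0 : ℝ) < δ / 4 by positivity)
  obtain ⟨r2, hr2, hball⟩ := Metric.eventually_nhds_iff_ball.1 h1
  set r1 : ℝ := min r r2 / 2 with hr1
  have hr1pos : 0 < r1 := by
    have := lt_min hr hr2
    positivity
  have hr1r : r1 < r := by
    have h3 := min_le_left r r2
    have h4 := lt_min hr hr2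
    rw [hr1]; linarith
  have hr1r2 : r1 < r2 := by
    have h3 := min_le_right r r2
    have h4 := lt_min hr hr2
    rw [hr1]; linarith
  have hest : ∀ u ∈ closedBall (0 : ℂ) r1, ‖F u - b * u‖ ≤ δ / 4 * ‖u‖ := by
    intro u hu
    have hu' : u ∈ ball (0 : ℂ) r2 := closedBall_subset_ball hr1r2 hu
    have h3 := hball u hu'
    simpa [hF0, mul_comm] using h3
  have hsub : closedBall (0 : ℂ) r1 ⊆ ball 0 r := closedBall_subset_ball hr1r
  have hunif : ∀ᶠ τ in l, ∀ z ∈ closedBall (0 : ℂ) r1, ‖f τ z - F z‖ < δ / 4 * r1 := by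
    refine unif_compact (isCompact_closedBall _ _) ?_ ?_ (by positivity)
    · intro z hz
      exact hFc.continuousAt (isOpen_ball.mem_nhds (hsub hz))
    · intro z hz
      exact hlim z (hsub hz)
  have hnear : ∀ᶠ z : ℂ in 𝓝 0, z ∈ ball (0 : ℂ) r1 := ball_mem_nhds 0 hr1pos
  have hall : ∀ᶠ τ in l, DifferentiableOn ℂ (f τ) (ball 0 r) ∧ f τ 0 = 0 ∧
      ∀ z ∈ closedBall (0 : ℂ) r1, ‖f τ z - F z‖ < δ / 4 * r1 := by
    filter_upwards [hol, h0, hunif] with τ a1 a2 a3 using ⟨a1, a2, a3⟩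
  filter_upwards [hall.prod_mk hnear] with y hy
  obtain ⟨⟨hd1, hz0, hu1⟩, hy2⟩ := hy
  have hdk : DifferentiableOn ℂ (fun z => f y.1 z - b * z) (ball 0 r1) := by
    refine (hd1.mono (ball_subset_ball hr1r.le)).sub ?_
    exact (differentiable_id.const_mul b).differentiableOn
  have hmaps : MapsTo (fun z => f y.1 z - b * z) (ball 0 r1)
      (ball ((fun z => f y.1 z - b * z) 0) (δ * r1)) := by
    intro z hz
    have hz' : z ∈ closedBall (0 : ℂ) r1 := ball_subset_closedBall hz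
    have h5 := hu1 z hz'
    have h6 := hest z hz'
    have h7 : ‖z‖ < r1 := by simpa using hz
    simp only [hz0, mul_zero, sub_zero, mem_ball, dist_zero_right]
    have h8 : f y.1 z - b * z = (f y.1 z - F z) + (F z - b * z) := by ring
    rw [h8]
    refine lt_of_le_of_lt (norm_add_le _ _) ?_
    nlinarith [mul_pos hδ hr1pos]
  have h9 := Complex.dist_le_div_mul_dist_of_mapsTo_ball hdk (hmaps.mono_right ball_subset_closedBall) hy2
  simp only [hz0, mul_zero, sub_zero, dist_zero_right] at h9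
  rwa [mul_div_assoc, div_self hr1pos.ne', mul_one] at h9

end Pool.Agent.H79.Par
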