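import Pool.Agent.H79.Par.PerRate
import Pool.Agent.H79.Par.XXLin
import Pool.Agent.H79.Par.SchwarzLim
import Pool.Agent.H79.Par.Transl

set_option autoImplicit false

open Filter Topology Polynomial Metric Set

namespace Pool.Agent.H79.Par

open Pool.Agent.H44.Fatou Pool.Agent.H32.BT Pool.Agent.H79.Eul


/-
PROOF of germ_one_ph. n = p * m. a τ = α (pv v0 τ) → x 0, (a τ - x 0)/h → ζ (per_rate). Eventually it (pv) p (a τ) = a τ,
so it (pv) n (a τ) = a τ (it_add, induction on m). e τ u = ((it (pv) n (a τ + u) - a τ) - (it v0 n (x 0 + u) - x 0))/h: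
holomorphic on a ball around 0 for τ far (orb_deriv and ev_ball in H79/Eul/Cpt), e τ 0 = 0. For u in a small ball r:
e τ u' → X_n (x 0 + u) + (trD v0 n (x 0 + u) - 1) ζ =: F u as (τ, u') → (l, u): write
e = (it (pv) n z - it v0 n z)/h + (it v0 n z - it v0 n (x 0 + u'))/h - (a τ - x 0)/h with z = a τ + u' (fo at the point
x 0 + u, whose orbit is finite: orb_shift; strict differentiability of it v0 n at x 0 + u with derivative
trD v0 n (x 0 + u)). F is continuous on the ball and F'(0) = deriv (XX v0 v n) (x 0), because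
u ↦ trD v0 n (x 0 + u) has derivative 0 at 0 by h2. schwarz_lim gives ‖e τ u - β u‖ ≤ δ ‖u‖ near, i.e. the claim.
-/

private theorem goa_iter {d : ℕ} (w : E d) (p m : ℕ) {z : ℂ} (h : it w p z = z) :
    it w (p * m) z = z := by
  induction m with
  | zero => rfl
  | succ m ih => rw [Nat.mul_succ, it_add, h, ih]

private theorem goa_hol {d : ℕ} {v0 : E d} {x : ℕ → ℂ} {n : ℕ} (ho : Orb v0 x n) :
    ∃ r : ℝ, 0 < r ∧ ∀ᶠ w in 𝓝 v0, ∀ z ∈ ball (x 0) r,
      HasDerivAt (fun z => it w n z) (trD w n z) z := by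
  have h := orb_deriv ho
  rw [nhds_prod_eq] at h
  exact ev_ball (p := fun w z => HasDerivAt (fun z => it w n z) (trD w n z) z) h

/-- the second term -/
private theorem goa_second {T : Type} {l : Filter T} {f : ℂ → ℂ} {D ζ c : ℂ}
    (hf : HasStrictDerivAt f D c) {z z' : T → ℂ} {h : T → ℂ} (hz : Tendsto z l (𝓝 c))
    (hz' : Tendsto z' l (𝓝 c)) (hh : ∀ᶠ y in l, h y ≠ 0)
    (hq : Tendsto (fun y => (z y - z' y) / h y) l (𝓝 ζ)) :
    Tendsto (fun y => (f (z y) - f (z' y)) / h y) l (𝓝 (D * ζ)) := by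
  have h1 := hf.isLittleO.comp_tendsto (hz.prodMk_nhds hz')
  have h2 : (fun y => z y - z' y) =O[l] h := by
    apply Asymptotics.isBigO_of_div_tendsto_nhds _ ζ hq
    filter_upwards [hh] with y hy h0
    exact absurd h0 hy
  have h3 : (fun y => f (z y) - f (z' y) - (z y - z' y) * D) =o[l] h := by
    refine Asymptotics.IsLittleO.trans_isBigO ?_ h2
    simpa [Function.comp_def] using h1
  have h4 := h3.tendsto_div_nhds_zero
  have h5 := h4.add (hq.const_mul D)
  rw [zero_add] at h5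
  refine h5.congr fun y => ?_
  ring

theorem germ_one_ph {d : ℕ} {v0 v : E d} {x : ℕ → ℂ} {p m : ℕ} (hm : 0 < m)
    (ho : Orb v0 x (p * m)) (hx : x p = x 0) (hmul : trD v0 p (x 0) ≠ 1)
    (h2 : HasDerivAt (trD v0 (p * m)) 0 (x 0))
    {α : E d → ℂ} (hα0 : α v0 = x 0) (hαc : ContinuousAt α v0)
    (hα : ∀ᶠ w in 𝓝 v0, it w p (α w) = α w) {δ : ℝ} (hδ : 0 < δ) :
    ∀ᶠ y : (E d × ℝ) × ℂ in flt v ×ˢ 𝓝 0,
      ‖(it (pv v0 y.1) (p * m) (α (pv v0 y.1) + y.2) - α (pv v0 y.1)) -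
        (it v0 (p * m) (x 0 + y.2) - x 0) -
          (y.1.2 : ℂ) * deriv (XX v0 v (p * m)) (x 0) * y.2‖ ≤ δ * (y.1.2 * ‖y.2‖) := by
  have hop : Orb v0 x p := fun j hj => ho j (lt_of_lt_of_le hj (Nat.le_mul_of_pos_right p hm))
  have hfix0 : it v0 p (x 0) = x 0 := by rw [orb_it hop p le_rfl, hx]
  have hfixn : it v0 (p * m) (x 0) = x 0 := goa_iter v0 p m hfix0
  have hpv := pv_lim v0 v
  have hα' : Tendsto (fun τ : E d × ℝ => α (pv v0 τ)) (flt v) (𝓝 (x 0)) := by
    have h := hαc.tendsto.comp hpv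
    rw [hα0] at h
    exact h
  have hζ := per_rate hop hx hmul hα0 hαc hα (v := v)
  have hαfix : ∀ᶠ τ in flt v, it (pv v0 τ) (p * m) (α (pv v0 τ)) = α (pv v0 τ) :=
    (hpv.eventually hα).mono fun τ h => goa_iter _ p m h
  obtain ⟨r, hr, hol⟩ := goa_hol ho
  have hol0 := hol.self_of_nhds
  obtain ⟨r', hr', hX⟩ := Metric.eventually_nhds_iff_ball.1 ((XX_diff ho v).and (orb_shift ho))
  generalize XX v0 v p (x 0) / (1 - trD v0 p (x 0)) = ζ at hζ
  generalize p * m = n at ho h2 hfixn hαfix hol hol0 hX ⊢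
  obtain ⟨ρ, hρ, hρr, hρr'⟩ : ∃ ρ : ℝ, 0 < ρ ∧ ρ + ρ ≤ r ∧ ρ ≤ r' := by
    refine ⟨min r r' / 2, by positivity, ?_, ?_⟩
    · rw [add_halves]
      exact min_le_left _ _
    · have h1 := min_le_right r r'
      linarith
  have hin : ∀ u ∈ ball (0 : ℂ) ρ, x 0 + u ∈ ball (x 0) r := by
    intro u hu
    rw [mem_ball_zero_iff] at hu
    rw [mem_ball_iff_norm, add_sub_cancel_left]
    linarith
  have hin' : ∀ u ∈ ball (0 : ℂ) ρ, x 0 + u ∈ ball (x 0) r' := by
    intro u hu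
    rw [mem_ball_zero_iff] at hu
    rw [mem_ball_iff_norm, add_sub_cancel_left]
    linarith
  have hdo : DifferentiableOn ℂ (fun z => it v0 n z) (ball (x 0) r) := fun z hz =>
    (hol0 z hz).differentiableAt.differentiableWithinAt
  have hstrict : ∀ z ∈ ball (x 0) r, HasStrictDerivAt (fun z => it v0 n z) (trD v0 n z) z := by
    intro z hz
    have h1 : AnalyticAt ℂ (fun z => it v0 n z) z := hdo.analyticAt (isOpen_ball.mem_nhds hz)
    have h3 := h1.hasStrictDerivAt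
    rwa [(hol0 z hz).deriv] at h3
  have htrc : ∀ z ∈ ball (x 0) r, ContinuousAt (trD v0 n) z := by
    intro z hz
    have h1 : ContinuousAt (deriv (fun z => it v0 n z)) z :=
      ((hdo.deriv isOpen_ball).continuousOn).continuousAt (isOpen_ball.mem_nhds hz)
    refine h1.congr ?_
    filter_upwards [isOpen_ball.mem_nhds hz] with w hw
    exact (hol0 w hw).deriv
  have hs := schwarz_lim (T := E d × ℝ) (l := flt v)
    (f := fun τ u => ((it (pv v0 τ) n (α (pv v0 τ) + u) - α (pv v0 τ)) -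
        (it v0 n (x 0 + u) - x 0)) / (τ.2 : ℂ))
    (F := fun u => XX v0 v n (x 0 + u) + (trD v0 n (x 0 + u) - 1) * ζ)
    (b := deriv (XX v0 v n) (x 0)) (r := ρ) hρ ?_ ?_ ?_ ?_ ?_ hδ
  · filter_upwards [hs, (flt_pos v).prod_inl (𝓝 (0 : ℂ))] with y hy hpos
    have hne : ((y.1.2 : ℝ) : ℂ) ≠ 0 := by exact_mod_cast hpos.ne'
    have h1 : (it (pv v0 y.1) n (α (pv v0 y.1) + y.2) - α (pv v0 y.1)) -
        (it v0 n (x 0 + y.2) - x 0) - (y.1.2 : ℂ) * deriv (XX v0 v n) (x 0) * y.2 =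
        (y.1.2 : ℂ) * (((it (pv v0 y.1) n (α (pv v0 y.1) + y.2) - α (pv v0 y.1)) -
        (it v0 n (x 0 + y.2) - x 0)) / (y.1.2 : ℂ) - deriv (XX v0 v n) (x 0) * y.2) := by
      field_simp
    rw [h1, norm_mul, Complex.norm_real, Real.norm_of_nonneg hpos.le]
    have h3 := mul_le_mul_of_nonneg_left hy hpos.le
    calc _ ≤ _ := h3
      _ = _ := by ring
  · -- holomorphic
    filter_upwards [hpv.eventually hol, hα'.eventually (Metric.ball_mem_nhds (x 0) hρ)]
      with τ h1 h3 u hu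
    have h4 : α (pv v0 τ) + u ∈ ball (x 0) r := by
      rw [mem_ball_iff_norm]
      rw [dist_eq_norm] at h3
      have h5 := mem_ball_zero_iff.1 hu
      have h6 : α (pv v0 τ) + u - x 0 = (α (pv v0 τ) - x 0) + u := by ring
      rw [h6]
      exact lt_of_lt_of_le (lt_of_le_of_lt (norm_add_le _ _) (add_lt_add h3 h5)) hρr
    have h7 : HasDerivAt (fun u => it (pv v0 τ) n (α (pv v0 τ) + u)) _ u :=
      (h1 _ h4).comp_const_add _ _
    have h8 : HasDerivAt (fun u => it v0 n (x 0 + u)) _ u :=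
      (hol0 _ (hin u hu)).comp_const_add _ _
    exact (((h7.sub_const _).sub (h8.sub_const _)).div_const _).differentiableAt.differentiableWithinAt
  · filter_upwards [hαfix] with τ hτ
    show ((it (pv v0 τ) n (α (pv v0 τ) + 0) - α (pv v0 τ)) -
        (it v0 n (x 0 + 0) - x 0)) / (τ.2 : ℂ) = 0
    rw [add_zero, add_zero, hτ, hfixn, sub_self, sub_self, sub_self, zero_div]
  · intro u hu
    have hadd : ContinuousAt (fun u : ℂ => x 0 + u) u := by fun_prop
    have h1 : ContinuousAt (fun u : ℂ => XX v0 v n (x 0 + u)) u :=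
      ContinuousAt.comp (f := fun u : ℂ => x 0 + u) (hX _ (hin' u hu)).1.continuousAt hadd
    have h3 : ContinuousAt (fun u : ℂ => trD v0 n (x 0 + u)) u :=
      ContinuousAt.comp (f := fun u : ℂ => x 0 + u) (htrc _ (hin u hu)) hadd
    exact (h1.add ((h3.sub continuousAt_const).mul continuousAt_const)).continuousWithinAt
  · intro u hu
    have t1 : Tendsto (fun y : (E d × ℝ) × ℂ => (y.1, α (pv v0 y.1) + y.2))
        (flt v ×ˢ 𝓝 u) (flt v ×ˢ 𝓝 (x 0 + u)) :=
      tendsto_fst.prodMk ((hα'.comp tendsto_fst).add tendsto_snd)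
    have hfo : Tendsto (fun y : (E d × ℝ) × ℂ => (it (pv v0 y.1) n y.2 - it v0 n y.2) /
        (y.1.2 : ℂ)) (flt v ×ˢ 𝓝 (x 0 + u)) (𝓝 (XX v0 v n (x 0 + u))) :=
      fo (x := fun j => it v0 j (x 0 + u)) (hX _ (hin' u hu)).2
    have T1 := hfo.comp t1
    have hζ' : Tendsto (fun y : (E d × ℝ) × ℂ => (α (pv v0 y.1) - x 0) / (y.1.2 : ℂ))
        (flt v ×ˢ 𝓝 u) (𝓝 ζ) := hζ.comp tendsto_fst
    have T2 := goa_second (l := flt v ×ˢ 𝓝 u) (z := fun y : (E d × ℝ) × ℂ => α (pv v0 y.1) + y.2)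
      (z' := fun y : (E d × ℝ) × ℂ => x 0 + y.2) (h := fun y => (y.1.2 : ℂ)) (ζ := ζ)
      (hstrict _ (hin u hu)) ((hα'.comp tendsto_fst).add tendsto_snd)
      (tendsto_const_nhds.add tendsto_snd) (by
        filter_upwards [(flt_pos v).prod_inl (𝓝 u)] with y hy
        exact_mod_cast hy.ne') (by
        refine hζ'.congr fun y => ?_
        congr 1
        ring)
    have T3 := (T1.add T2).sub hζ'
    have hval : XX v0 v n (x 0 + u) + trD v0 n (x 0 + u) * ζ - ζ =
        XX v0 v n (x 0 + u) + (trD v0 n (x 0 + u) - 1) * ζ := by ring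
    rw [hval] at T3
    refine T3.congr fun y => ?_
    show (it (pv v0 y.1) n (α (pv v0 y.1) + y.2) - it v0 n (α (pv v0 y.1) + y.2)) /
        (y.1.2 : ℂ) + (it v0 n (α (pv v0 y.1) + y.2) - it v0 n (x 0 + y.2)) / (y.1.2 : ℂ) -
        (α (pv v0 y.1) - x 0) / (y.1.2 : ℂ) = _
    ring
  · have h1 : HasDerivAt (fun u : ℂ => XX v0 v n (x 0 + u)) (deriv (XX v0 v n) (x 0)) 0 := by
      have h3 := (hX (x 0) (mem_ball_self hr')).1.hasDerivAt
      apply HasDerivAt.comp_const_add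
      rwa [add_zero]
    have h4 : HasDerivAt (fun u : ℂ => trD v0 n (x 0 + u)) 0 0 := by
      apply HasDerivAt.comp_const_add
      rwa [add_zero]
    have h5 := h1.add ((h4.sub_const 1).mul_const ζ)
    rw [zero_mul, add_zero] at h5
    exact h5

end Pool.Agent.H79.Par
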