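import Pool.Agent.H79.Par.EulerStep

set_option autoImplicit false

open Filter Topology Polynomial Metric Set

namespace Pool.Agent.H79.Par

open Pool.Agent.H44.Fatou Pool.Agent.H32.BT Pool.Agent.H79.Eul


/-
PROOF of fl_local_euler: copy local_euler in H79/Eul/LocalEuler.lean. The only changes: the set
O = {w ∈ c.e.target | c.e.symm w ≠ 0} is open (c.e.continuousOn_symm), contains the segment S, so ρ is chosen
with cthickening ρ S ⊆ O, and K = c.e.symm '' cthickening ρ S does not contain 0; the backward step is the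
third clause of fl_euler_step (no denominators).
-/

theorem fl_local_euler {T : Type} {l : Filter T} {P Q : Polynomial ℂ} (s : Fl T l P Q) {p : ℂ}
    (c : Chart P Q p) {w0 : ℂ} {t : ℝ} (ht : 0 < t)
    (hseg : ∀ θ ∈ Icc (0 : ℝ) t, w0 + θ ∈ c.e.target ∧ c.e.symm (w0 + θ) ≠ 0)
    (hg : s.Good (c.e.symm (w0 + t))) : s.Good (c.e.symm w0) := by
  have hw0 : w0 ∈ c.e.target := by
    have := (hseg 0 ⟨le_rfl, ht.le⟩).1
    simpa using this
  have hwt : w0 + t ∈ c.e.target := (hseg t ⟨ht.le, le_rfl⟩).1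
  set S : Set ℂ := (fun θ : ℝ => w0 + (θ : ℂ)) '' Icc (0 : ℝ) t with hS
  have hScomp : IsCompact S := by
    refine isCompact_Icc.image ?_
    fun_prop
  set O : Set ℂ := c.e.target ∩ c.e.symm ⁻¹' ({0}ᶜ : Set ℂ) with hO
  have hOo : IsOpen O :=
    c.e.continuousOn_symm.isOpen_inter_preimage c.e.open_target isOpen_compl_singleton
  have hSO : S ⊆ O := by
    rintro _ ⟨θ, hθ, rfl⟩
    exact ⟨(hseg θ hθ).1, (hseg θ hθ).2⟩
  obtain ⟨ρ, hρ, hNO⟩ := hScomp.exists_cthickening_subset_open hOo hSO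
  have hN : cthickening ρ S ⊆ c.e.target := fun w hw => (hNO hw).1
  have hNc : IsCompact (cthickening ρ S) := hScomp.cthickening
  set K : Set ℂ := c.e.symm '' (cthickening ρ S) with hK
  have hKc : IsCompact K := hNc.image_of_continuousOn (c.e.continuousOn_symm.mono hN)
  have hKs : K ⊆ c.e.source := by
    rintro _ ⟨w, hw, rfl⟩
    exact c.e.map_target (hN hw)
  have hK0 : (0 : ℂ) ∉ K := by
    rintro ⟨w, hw, hw0'⟩
    exact (hNO hw).2 hw0'
  -- the good neighbourhood of the end point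
  have hcont : ContinuousAt c.e.symm (w0 + t) := c.e.continuousAt_symm hwt
  have hg1 : ∀ᶠ y : T × ℂ in l ×ˢ 𝓝 (w0 + (t : ℂ)), s.att y.1 (c.e.symm y.2) := by
    have htend : Tendsto (fun y : T × ℂ => (y.1, c.e.symm y.2)) (l ×ˢ 𝓝 (w0 + (t : ℂ)))
        (l ×ˢ 𝓝 (c.e.symm (w0 + t))) :=
      tendsto_fst.prodMk (hcont.tendsto.comp tendsto_snd)
    exact htend.eventually hg
  rw [Filter.eventually_prod_iff] at hg1
  obtain ⟨pa, hpa, pb, hpb, hab⟩ := hg1
  obtain ⟨ρ', hρ', hball⟩ := Metric.eventually_nhds_iff_ball.1 hpb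
  set r : ℝ := min ρ ρ' with hr
  have hrpos : 0 < r := lt_min hρ hρ'
  have hrρ : r ≤ ρ := min_le_left _ _
  have hrρ' : r ≤ ρ' := min_le_right _ _
  set ε : ℝ := r / (8 * t) with hε
  have hεpos : 0 < ε := by positivity
  have hεt : ε * t = r / 8 := by
    rw [hε]; field_simp
  have hstep := fl_euler_step s c hKc hKs hK0 hεpos
  have hsmall : ∀ᶠ τ in l, s.h τ < r / 8 := s.h_lim.eventually (gt_mem_nhds (by positivity))
  have hcont0 : ContinuousAt c.e (c.e.symm w0) :=
    c.e.continuousAt (c.e.map_target hw0)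
  have hz1 : ∀ᶠ z in 𝓝 (c.e.symm w0), z ∈ c.e.source :=
    c.e.open_source.mem_nhds (c.e.map_target hw0)
  have hz2 : ∀ᶠ z in 𝓝 (c.e.symm w0), ‖c.e z - w0‖ < r / 8 := by
    have h1 : Tendsto c.e (𝓝 (c.e.symm w0)) (𝓝 w0) := by
      have := hcont0.tendsto
      rwa [c.e.right_inv hw0] at this
    have := h1.eventually (Metric.ball_mem_nhds w0 (by positivity : (0 : ℝ) < r / 8))
    filter_upwards [this] with z hz
    rwa [dist_eq_norm] at hz
  unfold Fl.Good
  rw [Filter.eventually_prod_iff]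
  refine ⟨_, ((hpa.and hstep).and (hsmall.and s.h_pos)), _, hz1.and hz2, ?_⟩
  rintro τ ⟨⟨h1, h2⟩, h3, h4⟩ z ⟨hzs, hzw⟩
  have key : ∀ n : ℕ, (n : ℝ) * s.h τ ≤ t → (s.g τ)^[n] z ∈ c.e.source ∧
      ‖c.e ((s.g τ)^[n] z) - c.e z - n * s.h τ‖ ≤ n * (ε * s.h τ) ∧
      (s.g τ)^[n] z ∈ K := by
    have aux : ∀ n : ℕ, (n : ℝ) * s.h τ ≤ t → (s.g τ)^[n] z ∈ c.e.source →
        ‖c.e ((s.g τ)^[n] z) - c.e z - n * s.h τ‖ ≤ n * (ε * s.h τ) → (s.g τ)^[n] z ∈ K := by
      intro n hn ha hb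
      refine ⟨c.e ((s.g τ)^[n] z), ?_, c.e.left_inv ha⟩
      refine mem_cthickening_of_dist_le _ (w0 + ((n * s.h τ : ℝ) : ℂ)) ρ S
        ⟨n * s.h τ, ⟨by positivity, hn⟩, rfl⟩ ?_
      rw [dist_eq_norm]
      have e1 : c.e ((s.g τ)^[n] z) - (w0 + ((n * s.h τ : ℝ) : ℂ)) =
          (c.e ((s.g τ)^[n] z) - c.e z - n * s.h τ) + (c.e z - w0) := by
        push_cast; ring
      rw [e1]
      have h6 := norm_add_le (c.e ((s.g τ)^[n] z) - c.e z - n * s.h τ) (c.e z - w0)
      have h7 : (n : ℝ) * (ε * s.h τ) ≤ r / 8 := by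
        rw [← hεt]
        have : (n : ℝ) * (ε * s.h τ) = ε * (n * s.h τ) := by ring
        rw [this]
        exact mul_le_mul_of_nonneg_left hn hεpos.le
      linarith
    intro n
    induction n with
    | zero =>
      intro hn
      have hb : ‖c.e ((s.g τ)^[0] z) - c.e z - ((0 : ℕ) : ℂ) * s.h τ‖ ≤
          ((0 : ℕ) : ℝ) * (ε * s.h τ) := by simp
      exact ⟨hzs, hb, aux 0 hn hzs hb⟩
    | succ n ih =>
      intro hn
      have hn' : (n : ℝ) * s.h τ ≤ t := by
        push_cast at hn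
        nlinarith
      obtain ⟨ha, hb, hc⟩ := ih hn'
      obtain ⟨h7, h8, -⟩ := h2 _ hc
      have ha' : (s.g τ)^[n + 1] z ∈ c.e.source := by
        rw [Function.iterate_succ_apply']; exact h7
      have hb' : ‖c.e ((s.g τ)^[n + 1] z) - c.e z - ((n + 1 : ℕ) : ℂ) * s.h τ‖ ≤
          ((n + 1 : ℕ) : ℝ) * (ε * s.h τ) := by
        rw [Function.iterate_succ_apply']
        have e2 : c.e (s.g τ ((s.g τ)^[n] z)) - c.e z - ((n + 1 : ℕ) : ℂ) * s.h τ =
            (c.e (s.g τ ((s.g τ)^[n] z)) - c.e ((s.g τ)^[n] z) - s.h τ) +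
              (c.e ((s.g τ)^[n] z) - c.e z - n * s.h τ) := by
          push_cast; ring
        rw [e2]
        refine (norm_add_le _ _).trans ?_
        push_cast
        linarith
      exact ⟨ha', hb', aux (n + 1) hn ha' hb'⟩
  -- the last index
  set N := ⌊t / s.h τ⌋₊ with hNdef
  have hN1 : (N : ℝ) * s.h τ ≤ t := by
    have := Nat.floor_le (div_nonneg ht.le h4.le)
    rwa [le_div_iff₀ h4] at this
  have hN2 : t < (N + 1) * s.h τ := by
    have := Nat.lt_floor_add_one (t / s.h τ)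
    rwa [div_lt_iff₀ h4] at this
  have hend : s.att τ ((s.g τ)^[N] z) := by
    obtain ⟨ha, hb, -⟩ := key N hN1
    have h6 : c.e ((s.g τ)^[N] z) ∈ ball (w0 + (t : ℂ)) ρ' := by
      rw [mem_ball, dist_eq_norm]
      have e1 : c.e ((s.g τ)^[N] z) - (w0 + (t : ℂ)) =
          (c.e ((s.g τ)^[N] z) - c.e z - N * s.h τ) + (c.e z - w0) +
            ((N * s.h τ - t : ℝ) : ℂ) := by
        push_cast; ring
      rw [e1]
      have h7 : (N : ℝ) * (ε * s.h τ) ≤ r / 8 := by
        rw [← hεt]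
        have : (N : ℝ) * (ε * s.h τ) = ε * (N * s.h τ) := by ring
        rw [this]
        exact mul_le_mul_of_nonneg_left hN1 hεpos.le
      have h8 : ‖((N * s.h τ - t : ℝ) : ℂ)‖ ≤ r / 8 := by
        rw [Complex.norm_real, Real.norm_eq_abs, abs_le]
        constructor <;> nlinarith
      have h9 := norm_add₃_le (a := c.e ((s.g τ)^[N] z) - c.e z - N * s.h τ)
        (b := c.e z - w0) (c := ((N * s.h τ - t : ℝ) : ℂ))
      linarith
    have h7 := hab h1 (hball _ h6)
    simp only at h7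
    rwa [c.e.left_inv ha] at h7
  have hback : ∀ n : ℕ, (n : ℝ) * s.h τ ≤ t → s.att τ ((s.g τ)^[n] z) → s.att τ z := by
    intro n
    induction n with
    | zero => intro _ h; exact h
    | succ n ih =>
      intro hn hatt
      have hn' : (n : ℝ) * s.h τ ≤ t := by
        push_cast at hn
        nlinarith
      obtain ⟨-, -, hc⟩ := key n hn'
      obtain ⟨-, -, h7⟩ := h2 _ hc
      refine ih hn' (h7 ?_)
      rw [Function.iterate_succ_apply'] at hatt
      exact hatt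
  exact hback N hN1 hend

end Pool.Agent.H79.Par
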