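import Pool.Agent.H79.Par.MacroStep
import Pool.Agent.H79.Par.MacroEnd

set_option autoImplicit false

open Filter Topology Polynomial Metric Set

namespace Pool.Agent.H79.Par

open Pool.Agent.H44.Fatou Pool.Agent.H32.BT Pool.Agent.H79.Eul


/-
PROOF of gm_iter: as macro_iter in H79/Eul/MacroIter.lean. Let ρ1, C0 be from gm_step. Choose t0 > 0 with
C0 * 4 t0 ≤ (ρ1/2)^N, so w ∈ ball 0 ρ1, ‖Φ w‖ ≤ 4 t0 imply ‖w‖ ≤ ρ1/2; η from gm_end (r = ρ1/2); δ with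
δ ≤ 1/4 and δ t0 < η/4; N1 from gm_step for this δ, N0 = 4 N1 + 4 say, ρ2 = ρ1/2. Let t = ep^N, t M < small.
For w ∈ ball 0 ρ2 with N0 t ≤ Re Φ w and ‖Φ w‖ ≤ M t put w_n = (gw)^[n] w. By induction for n t ≤ t0:
‖w_n‖ ≤ ρ1/2, ‖Φ w_n - Φ w - n t‖ ≤ n δ t, hence Re Φ w_n ≥ N0 t (so ‖Φ w_n‖ ≥ N1 t), ‖Φ w_n‖ ≤ M t + (5/4) t0 ≤ 4 t0;
and att at w_n implies att at w. For n = ⌊t0/t⌋: ‖Φ w_n - t0‖ ≤ M t + δ t0 + t < η, so gm_end applies.
Here att τ w means s.att τ (ep (s0 + c/w)) (hf).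
-/

theorem gm_iter {T : Type} {l : Filter T} {N κ : ℕ} {a β s0 c : ℂ} (hκN : κ + 1 ≤ N)
    (ha : a ≠ 0) (hc : c ≠ 0) (s : Germ T l N κ a β)
    (f : Fl T l (Ph N κ a β s0 c) (X ^ (N - 1)))
    (hf : ∀ τ w, f.att τ w ↔ s.att τ ((s.ep τ : ℂ) * (s0 + c / w)))
    {ρ : ℝ} {Φ k : ℂ → ℂ} (hp : PoleN (Ph N κ a β s0 c) N ρ Φ k)
    (hG : ∀ z ∈ ball (0 : ℂ) ρ, ∀ t : ℝ, 0 < t → Φ z = t → f.Good z) :
    ∃ ρ2 N0 : ℝ, 0 < ρ2 ∧ ∀ M : ℝ, ∀ᶠ τ in l, ∀ w ∈ ball (0 : ℂ) ρ2,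
      N0 * s.ep τ ^ N ≤ (Φ w).re → ‖Φ w‖ ≤ M * s.ep τ ^ N →
        s.att τ ((s.ep τ : ℂ) * (s0 + c / w)) := by
  obtain ⟨ρ1, C0, hρ1, hρ12, hC0, hΦ, hstep⟩ := gm_step hκN ha hc s hp
  have hN1 : N ≠ 0 := by omega
  have ht0' : ∃ t0 : ℝ, 0 < t0 ∧ C0 * (4 * t0) = (ρ1 / 2) ^ N := by
    refine ⟨(ρ1 / 2) ^ N / (4 * C0), by positivity, ?_⟩
    field_simp
  obtain ⟨t0, ht0, ht0e⟩ := ht0'
  obtain ⟨η, hη, hend⟩ := gm_end f hp hG (r := ρ1 / 2) (t0 := t0) (by linarith) ht0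
  have hδ' : ∃ δ : ℝ, 0 < δ ∧ δ ≤ 1 / 4 ∧ δ * t0 ≤ η / 4 := by
    refine ⟨min (1 / 4) (η / (4 * t0)), by positivity, min_le_left _ _, ?_⟩
    calc min (1 / 4) (η / (4 * t0)) * t0 ≤ (η / (4 * t0)) * t0 :=
          mul_le_mul_of_nonneg_right (min_le_right _ _) ht0.le
      _ = η / 4 := by field_simp
  obtain ⟨δ, hδ, hδ4, hδt⟩ := hδ'
  obtain ⟨N0, hN0, hst⟩ := hstep δ hδ
  refine ⟨ρ1 / 2, N0, by positivity, ?_⟩
  intro M
  have hsm : ∀ᶠ τ in l, s.ep τ ^ N * (|M| + 2) ≤ min t0 (η / 4) := by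
    have h1 : Tendsto (fun τ => s.ep τ ^ N * (|M| + 2)) l (𝓝 (0 ^ N * (|M| + 2))) :=
      (s.ep_lim.pow N).mul_const _
    rw [zero_pow hN1, zero_mul] at h1
    have h2 : (0 : ℝ) < min t0 (η / 4) := by positivity
    exact (h1.eventually_lt_const h2).mono fun τ h => h.le
  filter_upwards [hst, hend, s.ep_pos, hsm] with τ h1 h2 h4' h5
  intro z hz hzre hzM
  obtain ⟨t, ht⟩ : ∃ t : ℝ, t = s.ep τ ^ N := ⟨_, rfl⟩
  rw [← ht] at h1 h5 hzre hzM
  have h4 : 0 < t := by rw [ht]; positivity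
  obtain ⟨g, hg⟩ : ∃ g : ℂ → ℂ, g = s.gw s0 c τ := ⟨_, rfl⟩
  rw [← hg] at h1
  have h5a : t * (|M| + 2) ≤ t0 := h5.trans (min_le_left _ _)
  have h5b : t * (|M| + 2) ≤ η / 4 := h5.trans (min_le_right _ _)
  have hΦz : ‖Φ z‖ ≤ t * |M| := by
    refine hzM.trans ?_
    rw [mul_comm]
    exact mul_le_mul_of_nonneg_left (le_abs_self M) h4.le
  have key : ∀ n : ℕ, n * t ≤ t0 →
      ‖g^[n] z‖ ≤ ρ1 / 2 ∧ ‖Φ (g^[n] z) - Φ z - n * t‖ ≤ n * t * δ ∧
        (s.att τ ((s.ep τ : ℂ) * (s0 + c / g^[n] z)) →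
          s.att τ ((s.ep τ : ℂ) * (s0 + c / z))) := by
    intro n
    induction n with
    | zero =>
      intro _
      refine ⟨?_, ?_, ?_⟩
      · rw [Function.iterate_zero, id]
        have := mem_ball.mp hz
        rw [dist_eq_norm, sub_zero] at this
        exact this.le
      · simp
      · simp
    | succ n ih =>
      intro hn
      have hn1 : (n : ℝ) * t ≤ t0 := by
        push_cast at hn
        linarith
      obtain ⟨i1, i2, i3⟩ := ih hn1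
      obtain ⟨w, hw⟩ : ∃ w : ℂ, w = g^[n] z := ⟨_, rfl⟩
      rw [← hw] at i1 i2 i3
      have hnn : (0 : ℝ) ≤ n * t := by positivity
      have hwre : N0 * t ≤ (Φ w).re := by
        have h6 : |(Φ w - Φ z - n * t).re| ≤ ‖Φ w - Φ z - n * t‖ := Complex.abs_re_le_norm _
        have h7 : (Φ w - Φ z - n * t).re = (Φ w).re - (Φ z).re - n * t := by
          simp
        rw [h7] at h6
        have h8 := (abs_le.mp (h6.trans i2)).1
        have h9 : n * t * δ ≤ n * t * 1 := mul_le_mul_of_nonneg_left (by linarith) hnn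
        linarith
      have hwK : N0 * t ≤ ‖Φ w‖ := hwre.trans (Complex.re_le_norm _)
      have hwball : w ∈ ball (0 : ℂ) ρ1 := by
        rw [mem_ball, dist_eq_norm, sub_zero]
        linarith
      obtain ⟨j2, j3, j1⟩ := h1 w hwball hwK
      have hit : g^[n + 1] z = g w := by
        rw [Function.iterate_succ_apply', hw]
      rw [hit]
      have k2 : ‖Φ (g w) - Φ z - ((n + 1 : ℕ) : ℂ) * t‖ ≤ ((n + 1 : ℕ) : ℝ) * t * δ := by
        have e : Φ (g w) - Φ z - ((n + 1 : ℕ) : ℂ) * t =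
            (Φ (g w) - Φ w - t) + (Φ w - Φ z - n * t) := by
          push_cast
          ring
        rw [e]
        refine (norm_add_le _ _).trans ?_
        push_cast
        linarith
      have hwball' : ‖g w‖ < ρ1 := by
        have e : g w = (g w - w) + w := by ring
        rw [e]
        refine lt_of_le_of_lt (norm_add_le _ _) ?_
        linarith
      have hnΦ : ‖Φ (g w)‖ ≤ 4 * t0 := by
        have e : Φ (g w) = (Φ (g w) - Φ z - ((n + 1 : ℕ) : ℂ) * t) + Φ z +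
            ((n + 1 : ℕ) : ℂ) * t := by ring
        have e2 : ‖((n + 1 : ℕ) : ℂ) * (t : ℂ)‖ = ((n + 1 : ℕ) : ℝ) * t := by
          rw [norm_mul, Complex.norm_natCast, Complex.norm_real, Real.norm_of_nonneg h4.le]
        have hnn' : (0 : ℝ) ≤ ((n + 1 : ℕ) : ℝ) * t := by positivity
        have e3 : ((n + 1 : ℕ) : ℝ) * t * δ ≤ ((n + 1 : ℕ) : ℝ) * t * (1 / 4) :=
          mul_le_mul_of_nonneg_left hδ4 hnn'
        rw [e]
        refine (norm_add₃_le).trans ?_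
        rw [e2]
        have e4 : t * |M| ≤ t0 := by
          refine le_trans ?_ h5a
          exact mul_le_mul_of_nonneg_left (by linarith) h4.le
        linarith
      have hball2 : ‖g w‖ ≤ ρ1 / 2 := by
        have k3 := (hΦ (g w) (by rw [mem_ball, dist_eq_norm, sub_zero]; exact hwball')).1
        have k4 : ‖g w‖ ^ N ≤ (ρ1 / 2) ^ N := by
          refine k3.trans ?_
          rw [← ht0e]
          exact mul_le_mul_of_nonneg_left hnΦ hC0.le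
        exact (pow_le_pow_iff_left₀ (norm_nonneg _) (by positivity) hN1).mp k4
      exact ⟨hball2, k2, fun hatt => i3 (j1 hatt)⟩
  obtain ⟨n, hn⟩ : ∃ n : ℕ, n = ⌊t0 / t⌋₊ := ⟨_, rfl⟩
  have hn1 : (n : ℝ) * t ≤ t0 := by
    have := Nat.floor_le (show 0 ≤ t0 / t by positivity)
    rw [← hn] at this
    rwa [le_div_iff₀ h4] at this
  have hn2 : t0 < ((n : ℝ) + 1) * t := by
    have := Nat.lt_floor_add_one (t0 / t)
    rw [← hn] at this
    rwa [div_lt_iff₀ h4] at this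
  obtain ⟨k1, k2, k3⟩ := key n hn1
  apply k3
  rw [← hf]
  apply h2
  · rw [mem_closedBall, dist_eq_norm, sub_zero]
    exact k1
  · have e : Φ (g^[n] z) - t0 = (Φ (g^[n] z) - Φ z - n * t) + Φ z +
        (((n * t - t0 : ℝ)) : ℂ) := by
      push_cast
      ring
    rw [e]
    refine lt_of_le_of_lt (norm_add₃_le) ?_
    have e2 : ‖(((n * t - t0 : ℝ)) : ℂ)‖ ≤ t := by
      rw [Complex.norm_real, Real.norm_eq_abs, abs_le]
      constructor <;> linarith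
    have e3 : n * t * δ ≤ η / 4 := by
      calc n * t * δ ≤ t0 * δ := mul_le_mul_of_nonneg_right hn1 hδ.le
        _ = δ * t0 := by ring
        _ ≤ η / 4 := hδt
    linarith

end Pool.Agent.H79.Par
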