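import Pool.Agent.H79.Par.Defs

set_option autoImplicit false

open Filter Topology Polynomial Metric Set

namespace Pool.Agent.H79.Par

open Pool.Agent.H44.Fatou Pool.Agent.H32.BT Pool.Agent.H79.Eul


/-
PROOFS. Let t = ep^N. For bounded z and ep small, u = ep z → 0, so s.ph applies at (τ, u):
‖F u - u - (a u^(N+1) + h β u^κ)‖ ≤ δ (‖u‖^(N+1) + h ‖u‖^κ). Dividing by ep^(N+1) and using h ep^κ = ep^(N+1) (s.h_ep)
one gets ‖(G z - z)/ep^N - V z‖ ≤ δ (‖z‖^(N+1) + ‖z‖^κ). (Formally: Filter.Tendsto of (τ, z) ↦ (τ, ep τ z) from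
l ×ˢ 𝓝 z0 to l ×ˢ 𝓝 0, then eventually; V is continuous.) resc_hol, resc_step: the same pull back.
-/

theorem resc_pull {T : Type} {l : Filter T} {N κ : ℕ} {a β : ℂ} (s : Germ T l N κ a β) (z0 : ℂ) :
    Tendsto (fun y : T × ℂ => (y.1, (s.ep y.1 : ℂ) * y.2)) (l ×ˢ 𝓝 z0) (l ×ˢ 𝓝 0) := by
  refine Tendsto.prodMk tendsto_fst ?_
  have h1 : Tendsto (fun y : T × ℂ => (s.ep y.1 : ℂ)) (l ×ˢ 𝓝 z0) (𝓝 ((0 : ℝ) : ℂ)) :=
    (Complex.continuous_ofReal.tendsto 0).comp (s.ep_lim.comp tendsto_fst)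
  have h2 : Tendsto (fun y : T × ℂ => y.2) (l ×ˢ 𝓝 z0) (𝓝 z0) := tendsto_snd
  have h3 := h1.mul h2
  rwa [Complex.ofReal_zero, zero_mul] at h3

theorem resc_ev {T : Type} {l : Filter T} (z0 : ℂ)
    {p : T → Prop} (h : ∀ᶠ τ in l, p τ) : ∀ᶠ y : T × ℂ in l ×ˢ 𝓝 z0, p y.1 :=
  tendsto_fst.eventually h

theorem resc_lim {T : Type} {l : Filter T} {N κ : ℕ} {a β : ℂ} (s : Germ T l N κ a β) (z0 : ℂ) :
    Tendsto (fun y : T × ℂ => (s.G y.1 y.2 - y.2) / ((s.ep y.1 ^ N : ℝ) : ℂ)) (l ×ˢ 𝓝 z0)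
      (𝓝 ((Vp N κ a β).eval z0)) := by
  have hV : Tendsto (fun y : T × ℂ => (Vp N κ a β).eval y.2) (l ×ˢ 𝓝 z0)
      (𝓝 ((Vp N κ a β).eval z0)) :=
    ((Vp N κ a β).continuous.tendsto z0).comp tendsto_snd
  have key : Tendsto (fun y : T × ℂ => (s.G y.1 y.2 - y.2) / ((s.ep y.1 ^ N : ℝ) : ℂ) -
      (Vp N κ a β).eval y.2) (l ×ˢ 𝓝 z0) (𝓝 0) := by
    rw [Metric.tendsto_nhds]
    intro ε hε
    set M : ℝ := (‖z0‖ + 1) ^ (N + 1) + (‖z0‖ + 1) ^ κ with hM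
    have hM0 : 0 < M := by positivity
    have e1 := (resc_pull s z0).eventually (s.ph (ε / (2 * M)) (by positivity))
    have e2 : ∀ᶠ y : T × ℂ in l ×ˢ 𝓝 z0, ‖y.2‖ < ‖z0‖ + 1 := by
      have h1 : Tendsto (fun y : T × ℂ => ‖y.2‖) (l ×ˢ 𝓝 z0) (𝓝 ‖z0‖) :=
        (continuous_norm.tendsto z0).comp tendsto_snd
      exact h1.eventually (gt_mem_nhds (by linarith))
    have e3 := resc_ev z0 s.ep_pos
    have e4 := resc_ev z0 s.h_ep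
    filter_upwards [e1, e2, e3, e4] with y h1 h2 h3 h4
    have hep : (s.ep y.1 : ℂ) ≠ 0 := by
      exact_mod_cast h3.ne'
    have h4' : (s.h y.1 : ℂ) * (s.ep y.1 : ℂ) ^ κ = (s.ep y.1 : ℂ) ^ (N + 1) := by
      exact_mod_cast h4
    rw [dist_zero_right]
    have h5 : (s.G y.1 y.2 - y.2) / ((s.ep y.1 ^ N : ℝ) : ℂ) - (Vp N κ a β).eval y.2 =
        (s.F y.1 ((s.ep y.1 : ℂ) * y.2) - (s.ep y.1 : ℂ) * y.2 -
          (a * ((s.ep y.1 : ℂ) * y.2) ^ (N + 1) +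
            (s.h y.1 : ℂ) * β * ((s.ep y.1 : ℂ) * y.2) ^ κ)) / (s.ep y.1 : ℂ) ^ (N + 1) := by
      have h6 : (a * ((s.ep y.1 : ℂ) * y.2) ^ (N + 1) +
            (s.h y.1 : ℂ) * β * ((s.ep y.1 : ℂ) * y.2) ^ κ) =
            (s.ep y.1 : ℂ) ^ (N + 1) * (Vp N κ a β).eval y.2 := by
        have h7 : (Vp N κ a β).eval y.2 = a * y.2 ^ (N + 1) + β * y.2 ^ κ := by
          simp [Vp]
        rw [h7, mul_pow, mul_pow]
        calc a * ((s.ep y.1 : ℂ) ^ (N + 1) * y.2 ^ (N + 1)) +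
              (s.h y.1 : ℂ) * β * ((s.ep y.1 : ℂ) ^ κ * y.2 ^ κ)
            = a * ((s.ep y.1 : ℂ) ^ (N + 1) * y.2 ^ (N + 1)) +
              ((s.h y.1 : ℂ) * (s.ep y.1 : ℂ) ^ κ) * (β * y.2 ^ κ) := by ring
          _ = _ := by rw [h4']; ring
      rw [h6]
      unfold Germ.G
      push_cast
      rw [pow_succ (s.ep y.1 : ℂ) N]
      field_simp
    rw [h5, norm_div, norm_pow, Complex.norm_real, Real.norm_eq_abs, abs_of_pos h3,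
      div_lt_iff₀ (by positivity)]
    refine lt_of_le_of_lt h1 ?_
    have h8 : ‖((s.ep y.1 : ℂ) * y.2)‖ ^ (N + 1) + s.h y.1 * ‖((s.ep y.1 : ℂ) * y.2)‖ ^ κ =
        s.ep y.1 ^ (N + 1) * (‖y.2‖ ^ (N + 1) + ‖y.2‖ ^ κ) := by
      rw [norm_mul, Complex.norm_real, Real.norm_eq_abs, abs_of_pos h3, mul_pow, mul_pow]
      calc s.ep y.1 ^ (N + 1) * ‖y.2‖ ^ (N + 1) + s.h y.1 * (s.ep y.1 ^ κ * ‖y.2‖ ^ κ)
          = s.ep y.1 ^ (N + 1) * ‖y.2‖ ^ (N + 1) + (s.h y.1 * s.ep y.1 ^ κ) * ‖y.2‖ ^ κ := by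
            ring
        _ = _ := by rw [h4]; ring
    rw [h8]
    have h9 : ‖y.2‖ ^ (N + 1) + ‖y.2‖ ^ κ ≤ M :=
      add_le_add (pow_le_pow_left₀ (norm_nonneg _) h2.le _)
        (pow_le_pow_left₀ (norm_nonneg _) h2.le _)
    have h10 : 0 < s.ep y.1 ^ (N + 1) := by positivity
    calc ε / (2 * M) * (s.ep y.1 ^ (N + 1) * (‖y.2‖ ^ (N + 1) + ‖y.2‖ ^ κ))
        ≤ ε / (2 * M) * (s.ep y.1 ^ (N + 1) * M) := by
          refine mul_le_mul_of_nonneg_left ?_ (by positivity)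
          exact mul_le_mul_of_nonneg_left h9 h10.le
      _ = ε / 2 * s.ep y.1 ^ (N + 1) := by field_simp
      _ < ε * s.ep y.1 ^ (N + 1) := by
          apply mul_lt_mul_of_pos_right _ h10
          linarith
  have := key.add hV
  simpa using this

theorem resc_hol {T : Type} {l : Filter T} {N κ : ℕ} {a β : ℂ} (s : Germ T l N κ a β) (z0 : ℂ) :
    ∀ᶠ y : T × ℂ in l ×ˢ 𝓝 z0, DifferentiableAt ℂ (s.G y.1) y.2 := by
  filter_upwards [(resc_pull s z0).eventually s.hol] with y hy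
  have h1 : DifferentiableAt ℂ (fun z : ℂ => (s.ep y.1 : ℂ) * z) y.2 :=
    (differentiableAt_id).const_mul _
  have h2 : DifferentiableAt ℂ (fun z : ℂ => s.F y.1 ((s.ep y.1 : ℂ) * z)) y.2 :=
    DifferentiableAt.comp y.2 (g := s.F y.1) (f := fun z : ℂ => (s.ep y.1 : ℂ) * z) hy h1
  exact h2.div_const _

theorem resc_step {T : Type} {l : Filter T} {N κ : ℕ} {a β : ℂ} (s : Germ T l N κ a β)
    (z0 : ℂ) : ∀ᶠ y : T × ℂ in l ×ˢ 𝓝 z0,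
      s.att y.1 ((s.ep y.1 : ℂ) * s.G y.1 y.2) → s.att y.1 ((s.ep y.1 : ℂ) * y.2) := by
  filter_upwards [(resc_pull s z0).eventually s.step, resc_ev z0 s.ep_pos] with y h1 h2 h3
  apply h1
  have hep : (s.ep y.1 : ℂ) ≠ 0 := by
    exact_mod_cast h2.ne'
  have h4 : (s.ep y.1 : ℂ) * s.G y.1 y.2 = s.F y.1 ((s.ep y.1 : ℂ) * y.2) := by
    unfold Germ.G
    field_simp
  rw [h4] at h3
  exact h3

/-- `G → z` -/
theorem resc_id {T : Type} {l : Filter T} {N κ : ℕ} {a β : ℂ} (hN : 1 ≤ N)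
    (s : Germ T l N κ a β) (z0 : ℂ) :
    Tendsto (fun y : T × ℂ => s.G y.1 y.2) (l ×ˢ 𝓝 z0) (𝓝 z0) := by
  have h1 : Tendsto (fun y : T × ℂ => ((s.ep y.1 ^ N : ℝ) : ℂ)) (l ×ˢ 𝓝 z0)
      (𝓝 (((0 : ℝ) ^ N : ℝ) : ℂ)) :=
    (Complex.continuous_ofReal.tendsto _).comp ((s.ep_lim.comp tendsto_fst).pow N)
  have h2 : Tendsto (fun y : T × ℂ => y.2) (l ×ˢ 𝓝 z0) (𝓝 z0) := tendsto_snd
  have h3 := h2.add (h1.mul (resc_lim s z0))
  rw [zero_pow (by omega), Complex.ofReal_zero, zero_mul, add_zero] at h3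
  refine h3.congr' ?_
  filter_upwards [resc_ev z0 s.ep_pos] with y hy
  have hep : ((s.ep y.1 ^ N : ℝ) : ℂ) ≠ 0 := by
    exact_mod_cast (pow_pos hy N).ne'
  rw [mul_div_cancel₀ _ hep]
  ring

end Pool.Agent.H79.Par
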