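import Pool.Agent.H79.Par.PhBasic
import Pool.Agent.H79.Par.Resc
import Pool.Agent.H79.Par.PoleN

set_option autoImplicit false

open Filter Topology Polynomial Metric Set

namespace Pool.Agent.H79.Par

open Pool.Agent.H44.Fatou Pool.Agent.H32.BT Pool.Agent.H79.Eul


/-
PROOF of gm_step. Notation t = ep^N, z = s0 + c/w, u = ep z. For ‖w‖ small: ‖k w‖ between ‖k 0‖/2 and 2‖k 0‖, so
‖Φ w‖ ~ ‖w‖^N; ‖z‖ between ‖c‖/(2‖w‖) and 2‖c‖/‖w‖, ‖z‖ ≥ 1. If N0 t ≤ ‖Φ w‖ then N0 ep^N ≤ 2 ‖k 0‖ ‖w‖^N, so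
‖u‖ ≤ 2 ‖c‖ ep/‖w‖ ≤ 2 ‖c‖ (2 ‖k 0‖/N0)^(1/N) is as small as we want for N0 large: s.ph, s.step apply at (τ, u)
with any prescribed δ' (radius r(δ') of the neighbourhood). (ALG) Dividing by ep^(N+1):
G z - z = t (V z + E), ‖E‖ ≤ δ' (‖z‖^(N+1) + ‖z‖^κ) ≤ 2 δ' ‖z‖^(N+1), V z = a z^(N+1) + β z^κ with
‖V z‖ ≥ (‖a‖/2) ‖z‖^(N+1) for ‖w‖ small. Hence ‖G z - z‖ ≤ C t ‖z‖^(N+1) and
‖G z - z‖/‖z - s0‖ ≤ C' t/‖w‖^N ≤ C''/N0. gw w - w = - (w^2/c) (G z - z) (z - s0)/(G z - s0), so with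
ph_eval: gw w - w = t (Ph w/w^(N-1)) (1 + η), ‖η‖ ≤ C (δ' + 1/N0), and ‖gw w - w‖ ≤ C t/‖w‖^(N-1)
≤ ‖w‖ C/N0 ≤ ‖w‖/2. Φ(gw) - Φ(w) - (w^(N-1)/Ph w)(gw - w): second order Taylor estimate (ms_taylor in
H79/Eul/MacroStep.lean) with the derivative of w^(N-1)/Ph w bounded by C ‖w‖^(N-2) (N ≥ 2) or C (N = 1), so
≤ C ‖w‖^(N-2) (t/‖w‖^(N-1))^2 = C t (t/‖w‖^N) ≤ C' t/N0 (for N = 1: C t^2 ≤ C t ‖w‖/N0). Altogether
‖Φ(gw) - Φ(w) - t‖ ≤ δ t if δ' and 1/N0 are small. The choice of ρ1 does not depend on δ.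
-/

/-- the derivative of `w^(N-1) / P w` -/
theorem gms_deriv {P : Polynomial ℂ} (N : ℕ) {r : ℝ} (hr : r ≤ 2)
    (hP : ∀ z ∈ closedBall (0 : ℂ) r, P.eval z ≠ 0) :
    ∃ D : ℝ, 0 < D ∧ ∀ z ∈ closedBall (0 : ℂ) r, ∃ f' : ℂ,
      HasDerivAt (fun w => w ^ (N - 1) / P.eval w) f' z ∧
      ‖f'‖ * ‖z‖ ≤ D * ‖z‖ ^ (N - 1) := by
  obtain ⟨c, hc0, hc⟩ := ms_lower P 0 hP
  obtain ⟨M2, hM20, hM2⟩ := ms_upper P 0 r
  obtain ⟨M3, hM30, hM3⟩ := ms_upper (derivative P) 0 r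
  refine ⟨N * M2 / c ^ 2 + 2 * M3 / c ^ 2 + 1, by positivity, fun z hz => ?_⟩
  have hPz := hP z hz
  have hcz := hc z hz
  have hPn : 0 < ‖P.eval z‖ := norm_pos_iff.2 hPz
  have d1 : HasDerivAt (fun w : ℂ => w ^ (N - 1)) (((N - 1 : ℕ) : ℂ) * z ^ (N - 1 - 1)) z :=
    hasDerivAt_pow (N - 1) z
  have d3 : HasDerivAt (fun w => P.eval w) ((derivative P).eval z) z := P.hasDerivAt z
  refine ⟨_, d1.div d3 hPz, ?_⟩
  have hz0 : 0 ≤ ‖z‖ := norm_nonneg _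
  have hz2 : ‖z‖ ≤ 2 := by
    rw [mem_closedBall, dist_zero_right] at hz; linarith
  have hpw : 0 ≤ ‖z‖ ^ (N - 1) := by positivity
  rw [← norm_mul]
  have e0 : (((N - 1 : ℕ) : ℂ) * z ^ (N - 1 - 1) * P.eval z -
      z ^ (N - 1) * (derivative P).eval z) / P.eval z ^ 2 * z =
      ((((N - 1 : ℕ) : ℂ) * (z ^ (N - 1 - 1) * z)) * P.eval z -
        z ^ (N - 1) * z * (derivative P).eval z) / P.eval z ^ 2 := by
    ring
  have e1 : ((N - 1 : ℕ) : ℂ) * (z ^ (N - 1 - 1) * z) = ((N - 1 : ℕ) : ℂ) * z ^ (N - 1) := by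
    rcases Nat.eq_zero_or_pos (N - 1) with h0 | h0
    · rw [h0]; simp
    · congr 1
      rw [← pow_succ]
      congr 1
      omega
  rw [e0, e1, norm_div, norm_pow]
  have hN1 : (((N - 1 : ℕ) : ℝ)) ≤ N := by exact_mod_cast Nat.sub_le _ _
  have e2 : ‖((N - 1 : ℕ) : ℂ) * z ^ (N - 1) * P.eval z -
      z ^ (N - 1) * z * (derivative P).eval z‖ ≤ (N * M2 + 2 * M3) * ‖z‖ ^ (N - 1) := by
    refine (norm_sub_le _ _).trans ?_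
    rw [norm_mul, norm_mul, norm_mul, norm_mul, norm_pow, Complex.norm_natCast]
    calc ((N - 1 : ℕ) : ℝ) * ‖z‖ ^ (N - 1) * ‖P.eval z‖ +
          ‖z‖ ^ (N - 1) * ‖z‖ * ‖(derivative P).eval z‖
        ≤ N * ‖z‖ ^ (N - 1) * M2 + ‖z‖ ^ (N - 1) * 2 * M3 := by
          gcongr
          · exact hM2 z hz
          · exact hM3 z hz
      _ = _ := by ring
  have e3 : c ^ 2 ≤ ‖P.eval z‖ ^ 2 := by gcongr
  calc _ ≤ (N * M2 + 2 * M3) * ‖z‖ ^ (N - 1) / c ^ 2 :=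
        div_le_div₀ (by positivity) e2 (by positivity) e3
    _ = (N * M2 / c ^ 2 + 2 * M3 / c ^ 2) * ‖z‖ ^ (N - 1) := by ring
    _ ≤ _ := by nlinarith

theorem gms_vp (N κ : ℕ) (a β z : ℂ) :
    (Vp N κ a β).eval z = a * z ^ (N + 1) + β * z ^ κ := by
  simp [Vp]

/-- the map in the variable `z` -/
theorem gms_G {T : Type} {l : Filter T} {N κ : ℕ} {a β : ℂ} (hκN : κ + 1 ≤ N)
    (s : Germ T l N κ a β) {δ : ℝ} (hδ : 0 < δ) :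
    ∃ r : ℝ, 0 < r ∧ ∀ᶠ τ in l, 0 < s.ep τ ∧ ∀ z : ℂ, 1 ≤ ‖z‖ → s.ep τ * ‖z‖ < r →
      ‖s.G τ z - z - ((s.ep τ ^ N : ℝ) : ℂ) * (Vp N κ a β).eval z‖ ≤
        2 * δ * s.ep τ ^ N * ‖z‖ ^ (N + 1) ∧
      (s.att τ ((s.ep τ : ℂ) * s.G τ z) → s.att τ ((s.ep τ : ℂ) * z)) := by
  obtain ⟨pa, hpa, pb, hpb, hab⟩ := Filter.eventually_prod_iff.1 ((s.ph δ hδ).and s.step)
  obtain ⟨r, hr, hrb⟩ := Metric.eventually_nhds_iff.1 hpb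
  refine ⟨r, hr, ?_⟩
  filter_upwards [hpa, s.ep_pos, s.h_ep] with τ h1 h2 h3
  refine ⟨h2, fun z hz1 hzr => ?_⟩
  have hu : dist ((s.ep τ : ℂ) * z) 0 < r := by
    rw [dist_zero_right, norm_mul, Complex.norm_real, Real.norm_of_nonneg h2.le]
    exact hzr
  obtain ⟨h4, h5⟩ := hab h1 (hrb hu)
  have hec : (s.ep τ : ℂ) ≠ 0 := by exact_mod_cast h2.ne'
  have hGF : (s.ep τ : ℂ) * s.G τ z = s.F τ ((s.ep τ : ℂ) * z) := by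
    rw [Germ.G]
    field_simp
  refine ⟨?_, fun h => ?_⟩
  · have h3c : (s.h τ : ℂ) * (s.ep τ : ℂ) ^ κ = (s.ep τ : ℂ) ^ (N + 1) := by
      exact_mod_cast h3
    have e1 : s.F τ ((s.ep τ : ℂ) * z) - (s.ep τ : ℂ) * z -
        (a * ((s.ep τ : ℂ) * z) ^ (N + 1) + (s.h τ : ℂ) * β * ((s.ep τ : ℂ) * z) ^ κ) =
        (s.ep τ : ℂ) * (s.G τ z - z - ((s.ep τ ^ N : ℝ) : ℂ) * (Vp N κ a β).eval z) := by
      rw [← hGF, gms_vp, mul_pow, mul_pow]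
      have : (s.h τ : ℂ) * β * ((s.ep τ : ℂ) ^ κ * z ^ κ) =
          ((s.h τ : ℂ) * (s.ep τ : ℂ) ^ κ) * β * z ^ κ := by ring
      rw [this, h3c]
      push_cast
      ring
    have e2 : ‖(s.ep τ : ℂ) * z‖ = s.ep τ * ‖z‖ := by
      rw [norm_mul, Complex.norm_real, Real.norm_of_nonneg h2.le]
    rw [e1, norm_mul, e2, Complex.norm_real, Real.norm_of_nonneg h2.le, mul_pow, mul_pow] at h4
    have e3 : s.h τ * (s.ep τ ^ κ * ‖z‖ ^ κ) = s.ep τ ^ (N + 1) * ‖z‖ ^ κ := by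
      rw [← mul_assoc, h3]
    rw [e3] at h4
    have e4 : ‖z‖ ^ κ ≤ ‖z‖ ^ (N + 1) := pow_le_pow_right₀ hz1 (by omega)
    have e5 : s.ep τ * ‖s.G τ z - z - ((s.ep τ ^ N : ℝ) : ℂ) * (Vp N κ a β).eval z‖ ≤
        s.ep τ * (2 * δ * s.ep τ ^ N * ‖z‖ ^ (N + 1)) := by
      refine h4.trans ?_
      calc δ * (s.ep τ ^ (N + 1) * ‖z‖ ^ (N + 1) + s.ep τ ^ (N + 1) * ‖z‖ ^ κ)
          ≤ δ * (s.ep τ ^ (N + 1) * ‖z‖ ^ (N + 1) + s.ep τ ^ (N + 1) * ‖z‖ ^ (N + 1)) := by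
            gcongr
        _ = _ := by ring
    exact le_of_mul_le_mul_left e5 h2
  · rw [hGF] at h
    exact h5 h

theorem gms_alg {c w d : ℂ} (hc : c ≠ 0) (hw : w ≠ 0) (hd : 1 + w * d / c ≠ 0) :
    c / (c / w + d) - w = -(w ^ 2 / c) * (d / (1 + w * d / c)) := by
  have h1 : c + w * d ≠ 0 := by
    intro h
    apply hd
    have h0 : 1 + w * d / c = (c + w * d) / c := by field_simp
    rw [h0, h, zero_div]
  have h2 : c / w + d = (c + w * d) / w := by field_simp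
  have h3 : 1 + w * d / c = (c + w * d) / c := by field_simp
  rw [h2, h3]
  field_simp
  ring

theorem gms_norm (f w c A B : ℂ) :
    ‖f * (-(w ^ 2 / c)) * (A / B)‖ = ‖f‖ * (‖w‖ ^ 2 / ‖c‖) * (‖A‖ / ‖B‖) := by
  rw [norm_mul, norm_mul, norm_neg, norm_div, norm_pow, norm_div]

theorem gm_step {T : Type} {l : Filter T} {N κ : ℕ} {a β s0 c : ℂ} (hκN : κ + 1 ≤ N)
    (ha : a ≠ 0) (hc : c ≠ 0) (s : Germ T l N κ a β)
    {ρ : ℝ} {Φ k : ℂ → ℂ} (hp : PoleN (Ph N κ a β s0 c) N ρ Φ k) :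
    ∃ ρ1 C0 : ℝ, 0 < ρ1 ∧ 2 * ρ1 ≤ ρ ∧ 0 < C0 ∧
      (∀ w ∈ ball (0 : ℂ) ρ1, ‖w‖ ^ N ≤ C0 * ‖Φ w‖ ∧ ‖Φ w‖ ≤ C0 * ‖w‖ ^ N) ∧
      ∀ δ : ℝ, 0 < δ → ∃ N0 : ℝ, 0 < N0 ∧ ∀ᶠ τ in l, ∀ w ∈ ball (0 : ℂ) ρ1,
        N0 * s.ep τ ^ N ≤ ‖Φ w‖ →
        ‖s.gw s0 c τ w - w‖ ≤ ‖w‖ / 2 ∧
        ‖Φ (s.gw s0 c τ w) - Φ w - (s.ep τ ^ N : ℝ)‖ ≤ δ * s.ep τ ^ N ∧
        (s.att τ ((s.ep τ : ℂ) * (s0 + c / s.gw s0 c τ w)) →
          s.att τ ((s.ep τ : ℂ) * (s0 + c / w))) := by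
  have hN : 1 ≤ N := hp.hN
  have hρ := hp.hρ
  have hP0 : (Ph N κ a β s0 c).eval 0 ≠ 0 := hp.hP 0 (mem_ball_self hρ)
  have hk0 : k 0 ≠ 0 := by
    rw [hp.k0]
    refine div_ne_zero one_ne_zero (mul_ne_zero ?_ hP0)
    exact_mod_cast (by omega : N ≠ 0)
  have hK : 0 < ‖k 0‖ := norm_pos_iff.2 hk0
  have hcn : 0 < ‖c‖ := norm_pos_iff.2 hc
  obtain ⟨r1, hr1, hk1⟩ := Metric.continuousAt_iff.1 hp.kcont (‖k 0‖ / 2) (by positivity)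
  -- the radius
  obtain ⟨ρ1, hρ1, hρ1a, hρ1b, hρ1c, hρ1d⟩ : ∃ ρ1 : ℝ, 0 < ρ1 ∧ ρ1 ≤ ρ / 4 ∧ ρ1 ≤ 1 ∧
      ρ1 ≤ r1 ∧ ρ1 * (2 * (‖s0‖ + 1)) ≤ ‖c‖ := by
    refine ⟨min (min (ρ / 4) 1) (min r1 (‖c‖ / (2 * (‖s0‖ + 1)))), ?_, ?_, ?_, ?_, ?_⟩
    · refine lt_min (lt_min (by linarith) one_pos) (lt_min hr1 (by positivity))
    · exact (min_le_left _ _).trans (min_le_left _ _)
    · exact (min_le_left _ _).trans (min_le_right _ _)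
    · exact (min_le_right _ _).trans (min_le_left _ _)
    · have h1 : min (min (ρ / 4) 1) (min r1 (‖c‖ / (2 * (‖s0‖ + 1)))) ≤
          ‖c‖ / (2 * (‖s0‖ + 1)) := (min_le_right _ _).trans (min_le_right _ _)
      calc _ ≤ ‖c‖ / (2 * (‖s0‖ + 1)) * (2 * (‖s0‖ + 1)) := by gcongr
        _ = ‖c‖ := by field_simp
  have hsub : closedBall (0 : ℂ) (2 * ρ1) ⊆ ball 0 ρ := by
    intro z hz
    rw [mem_closedBall] at hz
    rw [mem_ball]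
    linarith
  have hkb : ∀ z ∈ ball (0 : ℂ) ρ1, ‖k 0‖ / 2 ≤ ‖k z‖ ∧ ‖k z‖ ≤ 2 * ‖k 0‖ := by
    intro z hz
    rw [mem_ball] at hz
    have h1 := hk1 (lt_of_lt_of_le hz hρ1c)
    rw [dist_eq_norm] at h1
    have h2 := norm_sub_norm_le (k z) (k 0)
    have h3 := norm_sub_norm_le (k 0) (k z)
    rw [norm_sub_rev] at h3
    constructor <;> linarith
  have hPne : ∀ z ∈ closedBall (0 : ℂ) (2 * ρ1), (Ph N κ a β s0 c).eval z ≠ 0 :=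
    fun z hz => hp.hP z (hsub hz)
  obtain ⟨cP, hcP0, hcP⟩ := ms_lower (Ph N κ a β s0 c) 0 hPne
  obtain ⟨D, hD0, hD⟩ := gms_deriv (P := Ph N κ a β s0 c) N (by linarith : 2 * ρ1 ≤ 2) hPne
  have hΦ : ∀ w ∈ ball (0 : ℂ) ρ1, ‖w‖ ^ N ≤ 2 / ‖k 0‖ * ‖Φ w‖ ∧
      ‖Φ w‖ ≤ 2 * ‖k 0‖ * ‖w‖ ^ N := by
    intro z hz
    have hzρ : z ∈ ball (0 : ℂ) ρ := ball_subset_ball (by linarith) hz
    rw [hp.hk z hzρ, norm_mul, norm_pow]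
    obtain ⟨h1, h2⟩ := hkb z hz
    have h3 : 0 ≤ ‖z‖ ^ N := by positivity
    constructor
    · calc ‖z‖ ^ N = 2 / ‖k 0‖ * (‖z‖ ^ N * (‖k 0‖ / 2)) := by field_simp
        _ ≤ _ := by gcongr
    · calc ‖z‖ ^ N * ‖k z‖ ≤ ‖z‖ ^ N * (2 * ‖k 0‖) := by gcongr
        _ = _ := by ring
  refine ⟨ρ1, 2 * ‖k 0‖ + 2 / ‖k 0‖, hρ1, by linarith, by positivity, ?_, ?_⟩
  · intro z hz
    obtain ⟨h1, h2⟩ := hΦ z hz
    have g1 : 0 < 2 * ‖k 0‖ := by positivity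
    have g2 : 0 < 2 / ‖k 0‖ := by positivity
    constructor
    · refine h1.trans (mul_le_mul_of_nonneg_right ?_ (norm_nonneg _))
      linarith
    · refine h2.trans (mul_le_mul_of_nonneg_right ?_ (by positivity))
      linarith
  intro δ hδ
  -- constants
  set C1 : ℝ := ‖a‖ + ‖β‖ + 2 with hC1
  have hC10 : 0 < C1 := by positivity
  set CB : ℝ := (2 * ‖c‖) ^ (N + 1) with hCB
  have hCB0 : 0 < CB := by positivity
  set C2 : ℝ := C1 * CB / ‖c‖ with hC2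
  have hC20 : 0 < C2 := by positivity
  set C3 : ℝ := 2 * CB / (cP * ‖c‖) with hC3
  have hC30 : 0 < C3 := by positivity
  set C4 : ℝ := 2 * C2 with hC4
  have hC40 : 0 < C4 := by positivity
  set C5 : ℝ := 2 * D * (3 / 2) ^ (N - 1) * C4 ^ 2 with hC5
  have hC50 : 0 < C5 := by positivity
  obtain ⟨δ', hδ'0, hδ'1, hδ'2⟩ : ∃ δ' : ℝ, 0 < δ' ∧ δ' ≤ 1 ∧ 2 * C3 * δ' ≤ δ / 2 := by
    refine ⟨min 1 (δ / (4 * C3)), lt_min one_pos (by positivity), min_le_left _ _, ?_⟩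
    calc 2 * C3 * min 1 (δ / (4 * C3)) ≤ 2 * C3 * (δ / (4 * C3)) := by
          gcongr
          exact min_le_right _ _
      _ = δ / 2 := by field_simp; ring
  obtain ⟨r, hr, hev⟩ := gms_G hκN s hδ'0
  -- the size M of t / ‖w‖^N
  obtain ⟨M, hM0, hM1, hM2, hM3⟩ : ∃ M : ℝ, 0 < M ∧ C4 * M ≤ 1 / 2 ∧
      (C5 + C3 * C1 * C2) * M ≤ δ / 2 ∧ M < (r / (2 * ‖c‖)) ^ N := by
    have hr2 : 0 < (r / (2 * ‖c‖)) ^ N := by positivity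
    refine ⟨min (min (1 / (2 * C4)) (δ / (2 * (C5 + C3 * C1 * C2))))
      ((r / (2 * ‖c‖)) ^ N / 2), ?_, ?_, ?_, ?_⟩
    · exact lt_min (lt_min (by positivity) (by positivity)) (by positivity)
    · calc _ ≤ C4 * (1 / (2 * C4)) := by
            gcongr
            exact (min_le_left _ _).trans (min_le_left _ _)
        _ = 1 / 2 := by field_simp
    · calc _ ≤ (C5 + C3 * C1 * C2) * (δ / (2 * (C5 + C3 * C1 * C2))) := by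
            gcongr
            exact (min_le_left _ _).trans (min_le_right _ _)
        _ = δ / 2 := by field_simp
    · refine (min_le_right _ _).trans_lt ?_
      linarith
  refine ⟨2 * ‖k 0‖ / M, by positivity, ?_⟩
  filter_upwards [hev] with τ hτ w hw hle
  obtain ⟨hep, hG⟩ := hτ
  obtain ⟨hΦ1, hΦ2⟩ := hΦ w hw
  have ht0 : 0 < s.ep τ ^ N := by positivity
  have hΦpos : 0 < ‖Φ w‖ := lt_of_lt_of_le (by positivity) hle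
  have hwρ : w ∈ ball (0 : ℂ) ρ := ball_subset_ball (by linarith) hw
  have hw0 : w ≠ 0 := by
    rintro rfl
    rw [hp.hk 0 hwρ, zero_pow (by omega), zero_mul, norm_zero] at hΦpos
    exact lt_irrefl _ hΦpos
  have hwn : 0 < ‖w‖ := norm_pos_iff.2 hw0
  have hwρ1 : ‖w‖ < ρ1 := by rw [mem_ball, dist_zero_right] at hw; exact hw
  have hwN : 0 < ‖w‖ ^ N := by positivity
  -- t ≤ M ‖w‖^N
  have htM : s.ep τ ^ N ≤ M * ‖w‖ ^ N := by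
    have h1 : 2 * ‖k 0‖ / M * s.ep τ ^ N ≤ 2 * ‖k 0‖ * ‖w‖ ^ N := hle.trans hΦ2
    have h2 : 2 * ‖k 0‖ / M * s.ep τ ^ N = (2 * ‖k 0‖ / M) * s.ep τ ^ N := rfl
    have h3 : 2 * ‖k 0‖ * ‖w‖ ^ N = (2 * ‖k 0‖ / M) * (M * ‖w‖ ^ N) := by
      field_simp
    rw [h3] at h1
    exact le_of_mul_le_mul_left h1 (by positivity)
  -- the point z
  set z : ℂ := s0 + c / w with hz
  have hxn : ‖c / w‖ = ‖c‖ / ‖w‖ := norm_div _ _
  have hx1 : 2 * (‖s0‖ + 1) ≤ ‖c‖ / ‖w‖ := by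
    rw [le_div_iff₀ hwn]
    calc 2 * (‖s0‖ + 1) * ‖w‖ ≤ 2 * (‖s0‖ + 1) * ρ1 := by gcongr
      _ ≤ ‖c‖ := by linarith
  have hs0n : 0 ≤ ‖s0‖ := norm_nonneg _
  have hz1 : 1 ≤ ‖z‖ := by
    have h1 : ‖c / w‖ ≤ ‖z‖ + ‖s0‖ := by
      have : c / w = z - s0 := by rw [hz]; ring
      rw [this]
      exact norm_sub_le _ _
    rw [hxn] at h1
    linarith
  have hz2 : ‖z‖ ≤ 2 * ‖c‖ / ‖w‖ := by
    have h1 : ‖z‖ ≤ ‖s0‖ + ‖c / w‖ := norm_add_le _ _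
    rw [hxn] at h1
    have : 2 * ‖c‖ / ‖w‖ = 2 * (‖c‖ / ‖w‖) := by ring
    rw [this]
    linarith
  have hzr : s.ep τ * ‖z‖ < r := by
    have h1 : (s.ep τ / ‖w‖) ^ N < (r / (2 * ‖c‖)) ^ N := by
      rw [div_pow]
      refine lt_of_le_of_lt ?_ hM3
      rw [div_le_iff₀ hwN]
      exact htM
    have h2 : s.ep τ / ‖w‖ < r / (2 * ‖c‖) :=
      lt_of_pow_lt_pow_left₀ N (by positivity) h1
    rw [lt_div_iff₀ (by positivity)] at h2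
    calc s.ep τ * ‖z‖ ≤ s.ep τ * (2 * ‖c‖ / ‖w‖) := by gcongr
      _ = s.ep τ / ‖w‖ * (2 * ‖c‖) := by ring
      _ < r := h2
  obtain ⟨hE, hatt⟩ := hG z hz1 hzr
  set t : ℝ := s.ep τ ^ N with ht
  set d : ℂ := s.G τ z - z with hd
  have hzN : ‖z‖ ^ (N + 1) ≤ CB / ‖w‖ ^ (N + 1) := by
    rw [hCB, ← div_pow]
    exact pow_le_pow_left₀ (norm_nonneg _) hz2 _
  have hV : ‖(Vp N κ a β).eval z‖ ≤ (‖a‖ + ‖β‖) * ‖z‖ ^ (N + 1) := by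
    rw [gms_vp]
    refine (norm_add_le _ _).trans ?_
    rw [norm_mul, norm_mul, norm_pow, norm_pow]
    have e4 : ‖z‖ ^ κ ≤ ‖z‖ ^ (N + 1) := pow_le_pow_right₀ hz1 (by omega)
    calc ‖a‖ * ‖z‖ ^ (N + 1) + ‖β‖ * ‖z‖ ^ κ ≤
          ‖a‖ * ‖z‖ ^ (N + 1) + ‖β‖ * ‖z‖ ^ (N + 1) := by gcongr
      _ = _ := by ring
  have hV' : ‖(Vp N κ a β).eval z‖ ≤ C1 * (CB / ‖w‖ ^ (N + 1)) := by
    refine hV.trans ?_
    apply mul_le_mul _ hzN (by positivity) hC10.le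
    rw [hC1]; linarith
  have hE' : ‖d - (t : ℂ) * (Vp N κ a β).eval z‖ ≤ 2 * δ' * t * (CB / ‖w‖ ^ (N + 1)) :=
    hE.trans (by gcongr)
  have hdn : ‖d‖ ≤ t * (C1 * (CB / ‖w‖ ^ (N + 1))) := by
    have h1 : d = (d - (t : ℂ) * (Vp N κ a β).eval z) + (t : ℂ) * (Vp N κ a β).eval z := by
      ring
    have h2 : ‖(t : ℂ) * (Vp N κ a β).eval z‖ ≤ t * ((‖a‖ + ‖β‖) * (CB / ‖w‖ ^ (N + 1))) := by
      rw [norm_mul, Complex.norm_real, Real.norm_of_nonneg ht0.le]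
      gcongr
      exact hV.trans (by gcongr)
    rw [h1]
    refine (norm_add_le _ _).trans ((add_le_add hE' h2).trans ?_)
    have h3 : 0 < t * (CB / ‖w‖ ^ (N + 1)) := by positivity
    rw [hC1]
    nlinarith
  -- the quotient q = t / ‖w‖^N
  have hq : t / ‖w‖ ^ N ≤ M := by
    rw [div_le_iff₀ hwN]
    exact htM
  have hq0 : 0 < t / ‖w‖ ^ N := by positivity
  have hν : ‖w * d / c‖ ≤ C2 * (t / ‖w‖ ^ N) := by
    rw [norm_div, norm_mul]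
    calc ‖w‖ * ‖d‖ / ‖c‖ ≤ ‖w‖ * (t * (C1 * (CB / ‖w‖ ^ (N + 1)))) / ‖c‖ := by gcongr
      _ = C2 * (t / ‖w‖ ^ N) := by
          rw [hC2, pow_succ]
          field_simp
  have hν2 : ‖w * d / c‖ ≤ 1 / 2 := by
    refine hν.trans ?_
    calc C2 * (t / ‖w‖ ^ N) ≤ C2 * M := by gcongr
      _ ≤ C4 * M := by
          gcongr
          rw [hC4]; linarith
      _ ≤ 1 / 2 := hM1
  have h1ν : 1 / 2 ≤ ‖1 + w * d / c‖ := by
    have h1 : ‖(1 : ℂ)‖ ≤ ‖1 + w * d / c‖ + ‖w * d / c‖ := by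
      have h2 : (1 : ℂ) = (1 + w * d / c) - w * d / c := by ring
      calc ‖(1 : ℂ)‖ = ‖(1 + w * d / c) - w * d / c‖ := by rw [← h2]
        _ ≤ _ := norm_sub_le _ _
    rw [norm_one] at h1
    linarith
  have h1ν0 : 1 + w * d / c ≠ 0 := by
    intro h0
    rw [h0, norm_zero] at h1ν
    linarith
  have hgw : s.gw s0 c τ w = c / (c / w + d) := by
    rw [Germ.gw, hd, hz]
    congr 1
    ring
  have hgw2 : s.gw s0 c τ w - w = -(w ^ 2 / c) * (d / (1 + w * d / c)) := by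
    rw [hgw]
    exact gms_alg hc hw0 h1ν0
  have hgn : ‖s.gw s0 c τ w - w‖ ≤ C4 * (t / ‖w‖ ^ N) * ‖w‖ := by
    rw [hgw2, norm_mul, norm_neg, norm_div, norm_pow, norm_div]
    calc ‖w‖ ^ 2 / ‖c‖ * (‖d‖ / ‖1 + w * d / c‖) ≤
          ‖w‖ ^ 2 / ‖c‖ * (t * (C1 * (CB / ‖w‖ ^ (N + 1))) / (1 / 2)) := by
          gcongr
      _ = C4 * (t / ‖w‖ ^ N) * ‖w‖ := by
          rw [hC4, hC2, pow_succ ‖w‖ N]
          field_simp
  have hgn2 : ‖s.gw s0 c τ w - w‖ ≤ ‖w‖ / 2 := by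
    refine hgn.trans ?_
    calc C4 * (t / ‖w‖ ^ N) * ‖w‖ ≤ C4 * M * ‖w‖ := by gcongr
      _ ≤ 1 / 2 * ‖w‖ := by gcongr
      _ = ‖w‖ / 2 := by ring
  refine ⟨hgn2, ?_, ?_⟩
  swap
  · intro hat
    apply hatt
    have h1 : s0 + c / s.gw s0 c τ w = s.G τ z := by
      rw [Germ.gw, div_div_eq_mul_div, mul_div_cancel_left₀ _ hc]
      rw [← hz]
      ring
    rw [h1] at hat
    exact hat
  -- Taylor
  set F : ℂ → ℂ := fun w => w ^ (N - 1) / (Ph N κ a β s0 c).eval w with hF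
  have hball : ∀ w' ∈ closedBall w ‖s.gw s0 c τ w - w‖, w' ∈ closedBall (0 : ℂ) (2 * ρ1) ∧
      ‖w‖ / 2 ≤ ‖w'‖ ∧ ‖w'‖ ≤ 3 / 2 * ‖w‖ := by
    intro w' hw'
    rw [mem_closedBall, dist_eq_norm] at hw'
    have h1 : ‖w'‖ ≤ ‖w' - w‖ + ‖w‖ := by
      have := norm_add_le (w' - w) w
      rwa [sub_add_cancel] at this
    have h2 : ‖w‖ ≤ ‖w' - w‖ + ‖w'‖ := by
      have := norm_sub_norm_le w w'
      rw [norm_sub_rev] at this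
      linarith
    refine ⟨?_, by linarith, by linarith⟩
    rw [mem_closedBall, dist_zero_right]
    linarith
  have hE1 : ‖Φ (s.gw s0 c τ w) - Φ w - F w * (s.gw s0 c τ w - w)‖ ≤
      (D * (3 / 2 * ‖w‖) ^ (N - 1) / (‖w‖ / 2)) * ‖s.gw s0 c τ w - w‖ ^ 2 := by
    apply ms_taylor (by positivity)
    · intro w' hw'
      exact hp.deriv w' (hsub (hball w' hw').1)
    · intro w' hw'
      obtain ⟨hb1, hb2, hb3⟩ := hball w' hw'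
      obtain ⟨f', hf, hb⟩ := hD w' hb1
      refine ⟨f', hf, ?_⟩
      rw [le_div_iff₀ (by positivity)]
      calc ‖f'‖ * (‖w‖ / 2) ≤ ‖f'‖ * ‖w'‖ := by gcongr
        _ ≤ D * ‖w'‖ ^ (N - 1) := hb
        _ ≤ _ := by gcongr
  have hE1' : ‖Φ (s.gw s0 c τ w) - Φ w - F w * (s.gw s0 c τ w - w)‖ ≤
      C5 * (t / ‖w‖ ^ N) * t := by
    refine hE1.trans ?_
    calc D * (3 / 2 * ‖w‖) ^ (N - 1) / (‖w‖ / 2) * ‖s.gw s0 c τ w - w‖ ^ 2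
        ≤ D * (3 / 2 * ‖w‖) ^ (N - 1) / (‖w‖ / 2) * (C4 * (t / ‖w‖ ^ N) * ‖w‖) ^ 2 := by
          gcongr
      _ = C5 * (t / ‖w‖ ^ N) * t := by
          obtain ⟨n, hn⟩ : ∃ n, N = n + 1 := ⟨N - 1, by omega⟩
          rw [hC5, hn, Nat.add_sub_cancel, mul_pow (3 / 2 : ℝ) ‖w‖ n]
          field_simp
          ring
  have hw2 : w ∈ closedBall (0 : ℂ) (2 * ρ1) := by
    rw [mem_closedBall, dist_zero_right]; linarith
  have hPw : (Ph N κ a β s0 c).eval w ≠ 0 := hPne w hw2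
  have hPn : cP ≤ ‖(Ph N κ a β s0 c).eval w‖ := hcP w hw2
  have hFV : F w * (-(w ^ 2 / c)) * (Vp N κ a β).eval z = 1 := by
    have h1 := ph_eval hκN a β s0 (c := c) hw0
    have h2 : F w * (-(w ^ 2 / c)) * (Vp N κ a β).eval z =
        (-(w ^ (N + 1) / c) * (Vp N κ a β).eval (s0 + c / w)) / (Ph N κ a β s0 c).eval w := by
      obtain ⟨n, hn⟩ : ∃ n, N = n + 1 := ⟨N - 1, by omega⟩
      rw [hF, hz]
      simp only
      rw [hn, Nat.add_sub_cancel]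
      ring
    rw [h2, ← h1, div_self hPw]
  have hE2eq : F w * (s.gw s0 c τ w - w) - (t : ℂ) =
      F w * (-(w ^ 2 / c)) * (((d - (t : ℂ) * (Vp N κ a β).eval z) -
        w * d / c * ((t : ℂ) * (Vp N κ a β).eval z)) / (1 + w * d / c)) := by
    have h1 : (t : ℂ) = F w * (-(w ^ 2 / c)) * ((t : ℂ) * (Vp N κ a β).eval z) := by
      calc (t : ℂ) = (t : ℂ) * 1 := by ring
        _ = (t : ℂ) * (F w * (-(w ^ 2 / c)) * (Vp N κ a β).eval z) := by rw [hFV]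
        _ = _ := by ring
    have h2 : F w * (s.gw s0 c τ w - w) - (t : ℂ) = F w * (-(w ^ 2 / c)) *
        (d / (1 + w * d / c) - (t : ℂ) * (Vp N κ a β).eval z) := by
      conv_lhs => rw [h1, hgw2]
      ring
    rw [h2]
    congr 1
    rw [div_sub' h1ν0]
    congr 1
    ring
  have hFn : ‖F w‖ ≤ ‖w‖ ^ (N - 1) / cP := by
    rw [hF]
    simp only
    rw [norm_div, norm_pow]
    gcongr
  have hE2 : ‖F w * (s.gw s0 c τ w - w) - (t : ℂ)‖ ≤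
      C3 * (2 * δ' + C1 * (C2 * (t / ‖w‖ ^ N))) * t := by
    rw [hE2eq, gms_norm]
    have h1 : ‖(d - (t : ℂ) * (Vp N κ a β).eval z) -
        w * d / c * ((t : ℂ) * (Vp N κ a β).eval z)‖ ≤
        (2 * δ' + C1 * (C2 * (t / ‖w‖ ^ N))) * t * (CB / ‖w‖ ^ (N + 1)) := by
      refine (norm_sub_le _ _).trans ?_
      have h2 : ‖w * d / c * ((t : ℂ) * (Vp N κ a β).eval z)‖ ≤
          C2 * (t / ‖w‖ ^ N) * (t * (C1 * (CB / ‖w‖ ^ (N + 1)))) := by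
        rw [norm_mul, norm_mul (t : ℂ), Complex.norm_real, Real.norm_of_nonneg ht0.le]
        gcongr
      refine (add_le_add hE' h2).trans (le_of_eq ?_)
      ring
    calc ‖F w‖ * (‖w‖ ^ 2 / ‖c‖) * (‖(d - (t : ℂ) * (Vp N κ a β).eval z) -
          w * d / c * ((t : ℂ) * (Vp N κ a β).eval z)‖ / ‖1 + w * d / c‖)
        ≤ ‖w‖ ^ (N - 1) / cP * (‖w‖ ^ 2 / ‖c‖) *
          ((2 * δ' + C1 * (C2 * (t / ‖w‖ ^ N))) * t * (CB / ‖w‖ ^ (N + 1)) / (1 / 2)) := by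
          gcongr
      _ = C3 * (2 * δ' + C1 * (C2 * (t / ‖w‖ ^ N))) * t := by
          have h5 : ‖w‖ ^ (N - 1) * ‖w‖ ^ 2 = ‖w‖ ^ (N + 1) := by
            rw [← pow_add]; congr 1; omega
          have h6 : ‖w‖ ^ (N - 1) / cP * (‖w‖ ^ 2 / ‖c‖) *
              ((2 * δ' + C1 * (C2 * (t / ‖w‖ ^ N))) * t * (CB / ‖w‖ ^ (N + 1)) / (1 / 2)) =
              (‖w‖ ^ (N - 1) * ‖w‖ ^ 2) / ‖w‖ ^ (N + 1) * (2 * CB / (cP * ‖c‖)) *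
              ((2 * δ' + C1 * (C2 * (t / ‖w‖ ^ N))) * t) := by
            field_simp
          rw [h6, h5, div_self (by positivity), hC3]
          ring
  have hfin : Φ (s.gw s0 c τ w) - Φ w - ((t : ℝ) : ℂ) =
      (Φ (s.gw s0 c τ w) - Φ w - F w * (s.gw s0 c τ w - w)) +
        (F w * (s.gw s0 c τ w - w) - (t : ℂ)) := by ring
  rw [hfin]
  refine (norm_add_le _ _).trans ((add_le_add hE1' hE2).trans ?_)
  have h7 : C5 * (t / ‖w‖ ^ N) * t + C3 * (2 * δ' + C1 * (C2 * (t / ‖w‖ ^ N))) * t =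
      ((C5 + C3 * C1 * C2) * (t / ‖w‖ ^ N) + 2 * C3 * δ') * t := by ring
  rw [h7]
  apply mul_le_mul_of_nonneg_right _ ht0.le
  have h8 : (C5 + C3 * C1 * C2) * (t / ‖w‖ ^ N) ≤ (C5 + C3 * C1 * C2) * M := by gcongr
  linarith

end Pool.Agent.H79.Par
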