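import Pool.Agent.H79.Par.GDefs
import Pool.Agent.H35.RL.RepGood
import Pool.Agent.H35.PL.LandGood
import Pool.Agent.H80.AJ.Area0

/-!
Parts D (helper35), E (helper80), F (helper35): interface.
-/

set_option autoImplicit false

open Filter Topology Polynomial Metric Set

namespace Pool.Agent.H79.Par

open Pool.Agent.H44.Fatou Pool.Agent.H32.BT Pool.Agent.H79.Eul

open MeasureTheory in
/-- Part E -/
theorem area0 {d : ℕ} (hd : 2 ≤ d) {v0 : E d} (h0 : Chart0 v0)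
    (h : ∀ c, IsCrit (Rf v0) c → ∃ z n, TyA (Rf v0) c z n)
    (hex : ∃ c z n, IsCrit (Rf v0) c ∧ Ty12 (Rf v0) c z n) :
    volume {z : ℂ | ¬ ∃ (z' : OnePoint ℂ) (n : ℕ), Ty12 (Rf v0) (z : OnePoint ℂ) z' n} = 0 :=
  Pool.Agent.H80.AJ.area0 hd h0 h hex

open MeasureTheory in
/-- Part D -/
theorem rep_good {d : ℕ} (hd : 2 ≤ d) {v0 : E d} (h0 : Chart0 v0) {c z : ℂ} {n : ℕ}
    (hc : wv v0 c = 0) (h : Ty3 (Rf v0) (c : OnePoint ℂ) (z : OnePoint ℂ) n)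
    (hW : volume {z : ℂ | ¬ Basin v0 z} = 0) (hV : volume {v : E d | ¬ RobDir v0 v} = 0)
    (hnr : NonRep v0) : SubGood v0 c :=
  Pool.Agent.H35.RL.rep_good hd h0 hc h hW hV hnr

/-- Part F -/
theorem land_good {d : ℕ} (hd : 2 ≤ d) {v0 : E d} (h0 : Chart0 v0) {c z : ℂ} {n : ℕ}
    (hc : wv v0 c = 0) (h : Ty4 (Rf v0) (c : OnePoint ℂ) (z : OnePoint ℂ) n) : CGood v0 c :=
  Pool.Agent.H35.PL.land_good hd h0 hc h

end Pool.Agent.H79.Par
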